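import Pool.Agent.Lib.MP_ed661f_ag.W.ProjCurve
import Pool.Agent.Lib.MP_ed661f_ag.S.Up.NefSq

/-!
Every irreducible surface in `ℙᴺ` is mapped birationally to a surface `F = 0` in `ℙ³`.
-/

set_option autoImplicit false
set_option synthInstance.maxHeartbeats 400000
set_option maxHeartbeats 4000000

open MvPolynomial Filter
open scoped ENNReal

namespace Pool.Agent.Lib.MP_ed661f_ag.W

open Pool.Agent.Lib.MP_ed661f_ag.H Pool.Agent.Lib.MP_ed661f_ag.T

variable {N : ℕ}

/-- derivatives of elements of the square of the ideal of a point -/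
theorem eval_pderiv_of_mem_sq {v : Fin (N + 1) → ℂ} {F : Poly N} (hF : F ∈ vecIdeal v ^ 2)
    (i : Fin (N + 1)) : eval v (pderiv i F) = 0 := by
  rw [pow_two] at hF
  induction hF using Submodule.mul_induction_on' with
  | mem_mul_mem a ha b hb =>
    rw [Derivation.leibniz, smul_eq_mul, smul_eq_mul, map_add, map_mul, map_mul,
      mem_vecIdeal.1 ha, mem_vecIdeal.1 hb, zero_mul, zero_mul, add_zero]
  | add x _ y _ hx hy => rw [map_add, map_add, hx, hy, add_zero]

namespace Proj4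

variable {I : Ideal (Poly N)} {d q : ℕ} {F : Poly 3} {L : Fin 4 → Poly N} {s : D3}

theorem not_dvd_pderiv (h : Proj4 I d q F L s) : ¬ F ∣ pderiv (Fin.last 3) F := by
  rintro ⟨Q, hQ⟩
  have h1 : Polynomial.derivative (eqv F) = eqv F * eqv Q := by
    rw [← eqv_pderiv, hQ, map_mul]
  have h2 : (eqv F).coeff d = 1 := by rw [coeff_eqv h.hF, h.hcoeff, C_1]
  have h4 : d ≤ (eqv F).natDegree := by
    apply Polynomial.le_natDegree_of_ne_zero
    rw [h2]
    exact one_ne_zero
  have h5 := h.hd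
  have h6 : Polynomial.derivative (eqv F) ≠ 0 := by
    intro h0
    have := Polynomial.derivative_eq_zero.1 h0
    omega
  rw [h1] at h6
  have h7 := Polynomial.natDegree_mul (left_ne_zero_of_mul h6) (right_ne_zero_of_mul h6)
  rw [← h1] at h7
  have h8 := Polynomial.natDegree_derivative_lt (p := eqv F) (by omega)
  omega

theorem smooth (h : Proj4 I d q F L s) {v' : Fin 4 → ℂ} (hv : eval v' F = 0)
    (h' : eval v' (pderiv (Fin.last 3) F) ≠ 0) (h0 : v' 0 = 1) :
    S.Up.HS (Ideal.span {F}) (X 0) v' 1 := by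
  refine S.Up.HS.of_hypersurface (isHomogeneous_X _ _) (by rw [eval_X, h0]) h.hF ?_ ?_
  · rw [pow_one, mem_vecIdeal]
    exact hv
  · intro h2
    exact h' (eval_pderiv_of_mem_sq h2 _)

theorem HS_of (h : Proj4 I d q F L s) {v : Fin (N + 1) → ℂ} (hIv : ∀ G ∈ I, eval v G = 0)
    (hv : eval (img L v) (inc s) ≠ 0) {l : Poly 3} {e : ℕ}
    (hS : S.Up.HS (Ideal.span {F}) l (img L v) e) : S.Up.HS I (sub4 L l) v e := by
  obtain ⟨h1, h2, h3⟩ := hS
  have h4 : ∀ w, lam I (sub4 L l) v w = lam (Ideal.span {F}) l (img L v) w := by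
    intro w
    rw [← h.lam_eq hIv hv le_rfl, h.comap_eq]
  refine ⟨by rw [eval_sub4]; exact h1, ?_, ?_⟩
  · obtain ⟨C, hC, h5⟩ := h2
    refine ⟨C, hC, fun w => ?_⟩
    rw [h4]
    exact h5 w
  · intro w
    obtain ⟨C, h5⟩ := h3 w
    refine ⟨C, fun s => ?_⟩
    rw [h4, h4]
    exact h5 s

/-- every point of the plane is the image of a point of the cone -/
theorem lift3 (h : Proj4 I d q F L s) (u : Fin 3 → ℂ) :
    ∃ v : Fin (N + 1) → ℂ, (∀ G ∈ I, eval v G = 0) ∧
      ∀ i : Fin 3, eval v (L i.castSucc) = u i := by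
  -- a root of the polynomial in the last variable
  set f : Polynomial ℂ := (eqv F).map (eval u) with hf
  have h1 : ∀ t : ℂ, f.eval t = eval (Fin.snoc u t : Fin 4 → ℂ) F := by
    intro t
    have key : ∀ G : Poly 3, ((eqv G).map (eval u)).eval t =
        eval (Fin.snoc u t : Fin 4 → ℂ) G := by
      intro G
      induction G using MvPolynomial.induction_on with
      | C a => rw [eqv_C]; simp
      | add p q hp hq => rw [map_add, Polynomial.map_add, Polynomial.eval_add, hp, hq, map_add]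
      | mul_X p i hp =>
        rw [map_mul, Polynomial.map_mul, Polynomial.eval_mul, hp, map_mul]
        congr 1
        refine Fin.lastCases ?_ (fun i => ?_) i
        · rw [eqv_X_last, Polynomial.map_X, Polynomial.eval_X, eval_X,
            Fin.snoc_last (α := fun _ => ℂ)]
        · rw [eqv_X_castSucc, Polynomial.map_C, Polynomial.eval_C, eval_X, eval_X,
            Fin.snoc_castSucc (α := fun _ => ℂ)]
    exact key F
  have h2 : f.coeff d = 1 := by
    rw [hf, Polynomial.coeff_map, coeff_eqv h.hF, h.hcoeff]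
    simp
  have h3 : f.degree ≠ 0 := by
    intro h0
    have h4 : d ≤ f.natDegree := by
      apply Polynomial.le_natDegree_of_ne_zero
      rw [h2]
      exact one_ne_zero
    have h5 : f.natDegree = 0 :=
      Polynomial.natDegree_eq_of_degree_eq_some (by rw [h0]; rfl)
    have := h.hd
    omega
  obtain ⟨t, ht⟩ := IsAlgClosed.exists_root f h3
  have h4 : eval (Fin.snoc u t : Fin 4 → ℂ) F = 0 := by
    rw [← h1]
    exact ht
  obtain ⟨v, hv, hv'⟩ := h.lift h4
  refine ⟨v, hv, fun i => ?_⟩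
  have h5 := congrFun hv' i.castSucc
  rw [Fin.snoc_castSucc (α := fun _ => ℂ)] at h5
  exact h5

end Proj4

/-- **every irreducible surface in `ℙᴺ` is birational to a surface in `ℙ³`**, by a projection which
does not change the degree -/
theorem exists_proj {I : Ideal (Poly N)} (hI : IsSurface I) :
    ∃ (d : ℕ) (F : Poly 3) (L : Fin 4 → Poly N) (Δ : Poly 3),
      1 ≤ d ∧ surfDeg I = d ∧ F.IsHomogeneous d ∧ Irreducible F ∧
      coeff (Finsupp.single 3 d) F = 1 ∧ (∀ i, (L i).IsHomogeneous 1) ∧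
      I.comap (aeval L : Poly 3 →ₐ[ℂ] Poly N) = Ideal.span {F} ∧ ¬ F ∣ Δ ∧
      (∀ u : Fin 3 → ℂ, ∃ v : Fin (N + 1) → ℂ, (∀ G ∈ I, eval v G = 0) ∧
        ∀ i : Fin 3, eval v (L i.castSucc) = u i) ∧
      (∀ v' : Fin 4 → ℂ, eval v' F = 0 → ∃ v : Fin (N + 1) → ℂ, (∀ G ∈ I, eval v G = 0) ∧
        ∀ i, eval v (L i) = v' i) ∧
      (∀ P, IsCurveOn I P →
        IsCurveOn (Ideal.span {F}) (P.comap (aeval L : Poly 3 →ₐ[ℂ] Poly N)) ∧
        deg (P.comap (aeval L : Poly 3 →ₐ[ℂ] Poly N)) ≤ deg P) ∧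
      ∀ v : Fin (N + 1) → ℂ, (∀ G ∈ I, eval v G = 0) → eval (fun i => eval v (L i)) Δ ≠ 0 →
        (∀ P, I ≤ P → mult (P.comap (aeval L : Poly 3 →ₐ[ℂ] Poly N)) (fun i => eval v (L i)) =
          mult P v) ∧
        eval (fun i => eval v (L i)) (pderiv 3 F) ≠ 0 ∧
        (eval v (L 0) = 1 → S.Up.HS I (L 0) v 1) := by
  obtain ⟨d, q, F, L, s, h⟩ := exists_proj4 hI
  have hirr := h.irreducible hI.prime
  have hl : (Fin.last 3 : Fin 4) = 3 := rfl
  refine ⟨d, F, L, inc s * pderiv (Fin.last 3) F, h.hd, h.surfDeg_eq hI, h.hF, hirr, h.hcoeff,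
    h.hL, h.comap_eq, ?_, h.lift3, ?_, fun P hP => ⟨h.isCurveOn hP, h.deg_comap_le P⟩, ?_⟩
  · intro hdvd
    rcases hirr.prime.dvd_or_dvd hdvd with h1 | h1
    · exact h.not_dvd_inc h.hs0 h1
    · exact h.not_dvd_pderiv h1
  · intro v' hv'
    obtain ⟨v, hv, hv2⟩ := h.lift hv'
    exact ⟨v, hv, fun i => congrFun hv2 i⟩
  · intro v hIv hΔ
    have h1 : eval (img L v) (inc s * pderiv (Fin.last 3) F) ≠ 0 := hΔ
    rw [map_mul] at h1
    have h2 := left_ne_zero_of_mul h1
    have h3 := right_ne_zero_of_mul h1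
    refine ⟨fun P hP => h.mult_eq hIv h2 hP, h3, fun h0 => ?_⟩
    have hF0 : eval (img L v) F = 0 := by
      rw [← eval_sub4]
      exact hIv _ ((h.hker F).2 dvd_rfl)
    have h4 := h.HS_of hIv h2 (h.smooth hF0 h3 h0)
    have h5 : sub4 L (X 0) = L 0 := by rw [sub4, aeval_X]
    rw [h5] at h4
    exact h4

end Pool.Agent.Lib.MP_ed661f_ag.W
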