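import Pool.Agent.Lib.MP_ed661f_ag.W.Defs
import Pool.Agent.Lib.MP_ed661f_ag.S.Indep

/-!
The affine coordinates of very general points are algebraically independent.
-/

set_option autoImplicit false

open MvPolynomial

namespace Pool.Agent.Lib.MP_ed661f_ag.W

open H

/-- homogenisation, separately in every pair of variables -/
noncomputable def hom {K : Type*} [Field K] {ι : Type} [Fintype ι] (R : MvPolynomial (ι × Fin 2) K) :
    MvPolynomial (ι × Fin 3) K :=
  ∑ e ∈ R.support, C (coeff e R) * ∏ i, (X (i, 0) ^ (R.totalDegree - (e (i, 0) + e (i, 1))) *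
    X (i, 1) ^ e (i, 0) * X (i, 2) ^ e (i, 1))

theorem aeval_hom {K : Type*} [Field K] {ι : Type} [Fintype ι] (R : MvPolynomial (ι × Fin 2) K)
    {E : Type*} [CommRing E] [Algebra K E] (u : ι × Fin 3 → E) (ρ : ι × Fin 2 → E)
    (h1 : ∀ i, u (i, 1) = u (i, 0) * ρ (i, 0)) (h2 : ∀ i, u (i, 2) = u (i, 0) * ρ (i, 1)) :
    aeval u (hom R) = (∏ i, u (i, 0) ^ R.totalDegree) * aeval ρ R := by
  classical
  rw [hom, map_sum, aeval_def ρ R, eval₂_eq', Finset.mul_sum]
  refine Finset.sum_congr rfl fun e he => ?_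
  rw [map_mul, algHom_C, map_prod]
  have h3 : ∏ q : ι × Fin 2, ρ q ^ e q = ∏ i, (ρ (i, 0) ^ e (i, 0) * ρ (i, 1) ^ e (i, 1)) := by
    rw [Fintype.prod_prod_type]
    exact Finset.prod_congr rfl fun i _ => Fin.prod_univ_two _
  rw [h3, mul_left_comm, ← Finset.prod_mul_distrib]
  congr 1
  refine Finset.prod_congr rfl fun i _ => ?_
  have h4 : e (i, 0) + e (i, 1) ≤ R.totalDegree := by
    have h5 := le_totalDegree he
    rw [Finsupp.sum_fintype _ _ (fun _ => rfl), Fintype.sum_prod_type] at h5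
    refine le_trans ?_ h5
    have h6 : e (i, 0) + e (i, 1) = ∑ j : Fin 2, e (i, j) :=
      (Fin.sum_univ_two (fun j => e (i, j))).symm
    rw [h6]
    exact Finset.single_le_sum (f := fun i => ∑ j : Fin 2, e (i, j)) (fun _ _ => Nat.zero_le _)
      (Finset.mem_univ i)
  obtain ⟨k, hk⟩ := Nat.exists_eq_add_of_le h4
  rw [hk, Nat.add_sub_cancel_left]
  simp only [map_mul, map_pow, aeval_X, h1, h2, mul_pow]
  ring

/-- the ratios of algebraically independent numbers -/
theorem indep_ratio {K : Subfield ℂ} {ι : Type} [Fintype ι] {x : ι × Fin 3 → ℂ}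
    (hx : AlgebraicIndependent K x) :
    AlgebraicIndependent K (fun q : ι × Fin 2 => x (q.1, q.2.succ) / x (q.1, 0)) := by
  rw [algebraicIndependent_iff]
  intro R hR
  have hx0 : ∀ i, x (i, 0) ≠ 0 := fun i => hx.ne_zero (i, 0)
  have h1 := aeval_hom R x (fun q : ι × Fin 2 => x (q.1, q.2.succ) / x (q.1, 0))
    (fun i => (mul_div_cancel₀ _ (hx0 i)).symm) (fun i => (mul_div_cancel₀ _ (hx0 i)).symm)
  rw [hR, mul_zero] at h1
  have h2 : hom R = 0 := (algebraicIndependent_iff.1 hx) _ h1
  have h3 := aeval_hom R (E := MvPolynomial (ι × Fin 2) K)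
    (fun q => if q.2 = 0 then 1 else if q.2 = 1 then X (q.1, 0) else X (q.1, 1)) X
    (fun i => by simp) (fun i => by simp)
  rw [h2, map_zero] at h3
  simpa using h3.symm

/-- the values of three linear forms at the vectors of a generic tuple are independent -/
theorem Gen.indep {N : ℕ} {I : Ideal (Poly N)} {K : Subfield ℂ} {ι : Type}
    {v : ι → Fin (N + 1) → ℂ} (hv : Gen K I v) {L : Fin 3 → Poly N}
    (hLK : ∀ i e, coeff e (L i) ∈ K) (lift : ∀ u : Fin 3 → ℂ, ∃ w : Fin (N + 1) → ℂ,
      (∀ G ∈ I, eval w G = 0) ∧ ∀ j, eval w (L j) = u j) :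
    AlgebraicIndependent K (fun q : ι × Fin 3 => eval (v q.1) (L q.2)) := by
  rw [algebraicIndependent_iff]
  intro R hR
  choose L' hL' using fun j => S.Hn.exists_over (hLK j)
  set Q : MvPolynomial (ι × Fin (N + 1)) K :=
    aeval (fun q : ι × Fin 3 => rename (fun k => (q.1, k)) (L' q.2)) R with hQ
  have hval : ∀ w : ι → Fin (N + 1) → ℂ, aeval (fun q : ι × Fin (N + 1) => w q.1 q.2) Q =
      aeval (fun q : ι × Fin 3 => eval (w q.1) (L q.2)) R := by
    intro w
    have h1 : (aeval (fun q : ι × Fin (N + 1) => w q.1 q.2) : MvPolynomial _ K →ₐ[K] ℂ).comp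
        (aeval (fun q : ι × Fin 3 => rename (fun k => (q.1, k)) (L' q.2))) =
        aeval (fun q : ι × Fin 3 => eval (w q.1) (L q.2)) := by
      apply MvPolynomial.algHom_ext
      intro q
      rw [AlgHom.comp_apply, aeval_X, aeval_X, aeval_rename, ← hL', eval_map]
      rfl
    exact congrArg (fun φ => φ R) h1
  have h0 := hv.2 Q (by rw [hval]; exact hR)
  have hall : ∀ u : ι × Fin 3 → ℂ, aeval u R = 0 := by
    intro u
    choose w hw1 hw2 using fun i => lift fun j => u (i, j)
    have h1 := h0 w hw1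
    rw [hval] at h1
    have h2 : (fun q : ι × Fin 3 => eval (w q.1) (L q.2)) = u := by
      funext q
      exact hw2 q.1 q.2
    rwa [h2] at h1
  have h3 : map (algebraMap K ℂ) R = 0 := by
    apply MvPolynomial.funext
    intro u
    rw [map_zero, eval_map]
    exact hall u
  exact (map_injective _ (algebraMap K ℂ).injective) (by rw [h3, map_zero])

end Pool.Agent.Lib.MP_ed661f_ag.W
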