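import Pool.Agent.Lib.MP_ed661f_ag.W.ProjMap
import Pool.Agent.Lib.MP_ed661f_ag.S.Up.Nef

/-!
Projection of a surface in `ℙᴺ` to a surface `F = 0` in `ℙ³`: curves and degrees.
-/

set_option autoImplicit false
set_option synthInstance.maxHeartbeats 400000
set_option maxHeartbeats 4000000

open MvPolynomial Filter
open scoped ENNReal

namespace Pool.Agent.Lib.MP_ed661f_ag.W

open Pool.Agent.Lib.MP_ed661f_ag.H Pool.Agent.Lib.MP_ed661f_ag.T

variable {N : ℕ}

namespace Proj4

variable {I : Ideal (Poly N)} {d q : ℕ} {F : Poly 3} {L : Fin 4 → Poly N} {s : D3}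

theorem span_le_comap (h : Proj4 I d q F L s) {P : Ideal (Poly N)} (hP : I ≤ P) :
    Ideal.span {F} ≤ P.comap (sub4 L) := by
  rw [← h.comap_eq]
  exact Ideal.comap_mono hP

theorem homog_comap (h : Proj4 I d q F L s) {P : Ideal (Poly N)}
    (hP : ∀ G ∈ P, ∀ k, homogeneousComponent k G ∈ P) :
    ∀ G ∈ P.comap (sub4 L), ∀ k, homogeneousComponent k G ∈ P.comap (sub4 L) := by
  intro G hG k
  rw [Ideal.mem_comap, ← hc_sub4 h.hL]
  exact hP _ hG k

theorem dim_comap (h : Proj4 I d q F L s) {P : Ideal (Poly N)} (hP : I ≤ P) :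
    ringKrullDim (Poly 3 ⧸ P.comap (sub4 L)) = ringKrullDim (Poly N ⧸ P) := by
  apply ringKrullDim_eq_of_finite (Ideal.quotientMap P (sub4 L).toRingHom le_rfl)
  · exact Ideal.quotientMap_injective
  · have h1 : (Ideal.quotientMap P (sub4 L).toRingHom le_rfl).comp
        (Ideal.Quotient.mk (P.comap (sub4 L).toRingHom)) =
        (Ideal.Quotient.factor hP).comp (phi I L).toRingHom := by
      ext x
      · rfl
      · rfl
    have h2 : ((Ideal.quotientMap P (sub4 L).toRingHom le_rfl).comp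
        (Ideal.Quotient.mk (P.comap (sub4 L).toRingHom))).Finite := by
      rw [h1]
      exact RingHom.Finite.comp (RingHom.Finite.of_surjective _ (Ideal.Quotient.factor_surjective hP))
        h.fin
    exact RingHom.Finite.of_comp_finite h2

/-- **the image of a curve on the surface** -/
theorem isCurveOn (h : Proj4 I d q F L s) {P : Ideal (Poly N)} (hP : IsCurveOn I P) :
    IsCurveOn (Ideal.span {F}) (P.comap (sub4 L)) where
  prime := hP.prime.comap _
  homogeneous := h.homog_comap hP.homogeneous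
  dim := by rw [h.dim_comap hP.le, hP.dim]
  le := h.span_le_comap hP.le

/-- the map of coordinate rings -/
noncomputable def qmap (L : Fin 4 → Poly N) (P : Ideal (Poly N)) :
    (Poly 3 ⧸ P.comap (sub4 L)) →ₐ[ℂ] Poly N ⧸ P :=
  Ideal.quotientMapₐ P (sub4 L) le_rfl

theorem qmap_injective (L : Fin 4 → Poly N) (P : Ideal (Poly N)) :
    Function.Injective (qmap L P) :=
  Ideal.quotientMap_injective (f := (sub4 L).toRingHom) (I := P)

theorem qmap_mk (L : Fin 4 → Poly N) (P : Ideal (Poly N)) (G : Poly 3) :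
    qmap L P (Ideal.Quotient.mk _ G) = Ideal.Quotient.mk P (sub4 L G) := rfl

theorem sub4_hom {L : Fin 4 → Poly N} (hL : ∀ i, (L i).IsHomogeneous 1) {G : Poly 3} {k : ℕ}
    (hG : G.IsHomogeneous k) : (sub4 L G).IsHomogeneous k := by
  have := hG.aeval (n := 1) L hL
  rwa [one_mul] at this

theorem hilb_comap_le (h : Proj4 I d q F L s) (P : Ideal (Poly N)) (k : ℕ) :
    hilb (P.comap (sub4 L)) k ≤ hilb P k := by
  have hfin := S.Up.finite_forms_map P k
  have hfin' := S.Up.finite_forms_map (P.comap (sub4 L)) k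
  unfold hilb
  rw [(Submodule.equivMapOfInjective (qmap L P).toLinearMap (qmap_injective L P)
    ((homogeneousSubmodule (Fin (3 + 1)) ℂ k).map
      (Ideal.Quotient.mkₐ ℂ (P.comap (sub4 L))).toLinearMap)).finrank_eq]
  apply Submodule.finrank_mono
  rintro _ ⟨_, ⟨G, hG, rfl⟩, rfl⟩
  exact ⟨sub4 L G, sub4_hom h.hL hG, rfl⟩

/-- **the degree of the image of a curve** -/
theorem deg_comap_le (h : Proj4 I d q F L s) (P : Ideal (Poly N)) :
    deg (P.comap (sub4 L)) ≤ deg P := by
  unfold deg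
  refine liminf_le_liminf (Eventually.of_forall fun k => ?_)
  exact ENNReal.div_le_div_right (by exact_mod_cast h.hilb_comap_le P k) _

theorem not_dvd_inc (h : Proj4 I d q F L s) {b : D3} (hb : b ≠ 0) : ¬ F ∣ inc b := by
  rintro ⟨Q, hQ⟩
  have h1 : Polynomial.C b = eqv F * eqv Q := by rw [← map_mul, ← hQ, eqv_inc]
  have h2 : (eqv F).coeff d = 1 := by rw [coeff_eqv h.hF, h.hcoeff, C_1]
  have hne : eqv F * eqv Q ≠ 0 := by
    rw [← h1]
    exact Polynomial.C_ne_zero.2 hb
  have h3 := Polynomial.natDegree_mul (left_ne_zero_of_mul hne) (right_ne_zero_of_mul hne)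
  rw [← h1, Polynomial.natDegree_C] at h3
  have h4 : d ≤ (eqv F).natDegree := by
    apply Polynomial.le_natDegree_of_ne_zero
    rw [h2]
    exact one_ne_zero
  have h5 := h.hd
  omega

theorem hilb_le (h : Proj4 I d q F L s) (hI : IsSurface I) (k : ℕ) :
    hilb I k ≤ hilb (Ideal.span {F}) (k + q) := by
  have hfin := S.Up.finite_forms_map I k
  have hfin' := S.Up.finite_forms_map (I.comap (sub4 L)) (k + q)
  have hprime := hI.prime
  have hdom : IsDomain (Poly N ⧸ I) := Ideal.Quotient.isDomain I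
  rw [← h.comap_eq]
  unfold hilb
  have hs0 : Ideal.Quotient.mk I (sub4 L (inc s)) ≠ 0 := by
    rw [Ne, Ideal.Quotient.eq_zero_iff_mem, h.hker]
    exact h.not_dvd_inc h.hs0
  have hinj : Function.Injective
      (LinearMap.mulLeft ℂ (Ideal.Quotient.mk I (sub4 L (inc s)))) := by
    intro x y hxy
    exact mul_left_cancel₀ hs0 hxy
  rw [(Submodule.equivMapOfInjective (qmap L I).toLinearMap (qmap_injective L I)
    ((homogeneousSubmodule (Fin (3 + 1)) ℂ (k + q)).map
      (Ideal.Quotient.mkₐ ℂ (I.comap (sub4 L))).toLinearMap)).finrank_eq,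
    (Submodule.equivMapOfInjective _ hinj ((homogeneousSubmodule (Fin (N + 1)) ℂ k).map
      (Ideal.Quotient.mkₐ ℂ I).toLinearMap)).finrank_eq]
  apply Submodule.finrank_mono
  rintro _ ⟨_, ⟨H, hH, rfl⟩, rfl⟩
  obtain ⟨G, hG⟩ := h.cond H
  have hHk : H.IsHomogeneous k := hH
  have h1 := hI.homogeneous _ hG (k + q)
  have h2 : (sub4 L (inc s) * H).IsHomogeneous (k + q) := by
    have := (sub4_hom h.hL (isHomogeneous_inc h.hs)).mul hHk
    rwa [add_comm q k] at this
  rw [map_sub, homogeneousComponent_eq_self h2, hc_sub4 h.hL] at h1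
  refine ⟨Ideal.Quotient.mk _ (homogeneousComponent (k + q) G),
    ⟨_, homogeneousComponent_isHomogeneous (k + q) G, rfl⟩, ?_⟩
  change Ideal.Quotient.mk I (sub4 L (homogeneousComponent (k + q) G)) =
    Ideal.Quotient.mk I (sub4 L (inc s)) * Ideal.Quotient.mk I H
  rw [← map_mul, eq_comm, ← sub_eq_zero, ← map_sub, Ideal.Quotient.eq_zero_iff_mem]
  exact h1

theorem growth_cmp {a b A B : ℕ} (h : ∀ k : ℕ, A ≤ k → (a : ℝ) * (k - A) ^ 2 ≤ b * (k + B) ^ 2) :
    a ≤ b := by
  by_contra hab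
  push Not at hab
  set M : ℕ := 2 * b * (A + B) + (A + B) + 1 with hM
  have h1 := h (A + M) (Nat.le_add_right _ _)
  have h2 : ((A + M : ℕ) : ℝ) - A = M := by push_cast; ring
  have h3 : ((A + M : ℕ) : ℝ) + B = M + (A + B) := by push_cast; ring
  rw [h2, h3] at h1
  have h4 : (b : ℝ) + 1 ≤ a := by exact_mod_cast hab
  have h5 : ((b : ℝ) + 1) * (M : ℝ) ^ 2 ≤ b * (M + (A + B)) ^ 2 :=
    (mul_le_mul_of_nonneg_right h4 (sq_nonneg _)).trans h1
  have h6 : (M : ℝ) = 2 * b * (A + B) + (A + B) + 1 := by rw [hM]; push_cast; ring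
  have hb : (0 : ℝ) ≤ b := Nat.cast_nonneg _
  have hc : (0 : ℝ) ≤ A + B := by positivity
  set c : ℝ := A + B with hc'
  rw [h6] at h5
  nlinarith [mul_nonneg hb hc, mul_nonneg (mul_nonneg hb hc) hc]

/-- **the degree of the surface** -/
theorem surfDeg_eq (h : Proj4 I d q F L s) (hI : IsSurface I) : surfDeg I = d := by
  obtain ⟨d', A, -, h1, h2, h3⟩ := S.Up.surf_growth hI
  obtain ⟨d'', B, -, h4, h5, h6⟩ := S.Up.surf_growth (h.isSurface hI.prime)
  have h7 := S.surfDeg_span h.hF h.ne_zero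
  rw [h4] at h7
  have h8 : d'' = d := by exact_mod_cast h7
  have h9 : d' ≤ d'' := by
    apply growth_cmp (A := A) (B := q + B)
    intro k hk
    have e1 := (h3 k).2 hk
    have e2 := h5 (k + q)
    have e3 : (hilb I k : ℝ) ≤ hilb (Ideal.span {F}) (k + q) := by exact_mod_cast h.hilb_le hI k
    have e4 : ((k + q : ℕ) : ℝ) + B = k + ((q + B : ℕ) : ℝ) := by push_cast; ring
    rw [e4] at e2
    linarith
  have h10 : d'' ≤ d' := by
    apply growth_cmp (A := B) (B := A)
    intro k hk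
    have e1 := (h6 k).2 hk
    have e2 := h2 k
    have e3 : (hilb (Ideal.span {F}) k : ℝ) ≤ hilb I k := by
      have := h.hilb_comap_le I k
      rw [h.comap_eq] at this
      exact_mod_cast this
    linarith
  rw [h1, le_antisymm h9 h10, h8]

end Proj4

end Pool.Agent.Lib.MP_ed661f_ag.W
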