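import Pool.Agent.Lib.MP_ed661f_ag.W.Ineq3
import Pool.Agent.Lib.MP_ed661f_ag.W.GenAff
import Pool.Agent.Lib.MP_ed661f_ag.W.ProjCurve

/-!
The inequality for the curves on a surface in a projective space at very general points.
-/

set_option autoImplicit false

open MvPolynomial
open scoped ENNReal

namespace Pool.Agent.Lib.MP_ed661f_ag.W

open H T

variable {N : ℕ}

/-- the coordinates of the image, normalised by `x_0 = 1` -/
noncomputable def aff (L : Fin 4 → Poly N) (v : Fin (N + 1) → ℂ) : Fin 4 → ℂ :=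
  img L ((eval v (L 0))⁻¹ • v)

/-- tuples of points of the surface with independent affine coordinates -/
structure Aff (K : Subfield ℂ) (I : Ideal (Poly N)) (L : Fin 4 → Poly N) {ι : Type}
    (v : ι → Fin (N + 1) → ℂ) : Prop where
  mem : ∀ i, ∀ G ∈ I, eval (v i) G = 0
  ne : ∀ i, eval (v i) (L 0) ≠ 0
  ind : AlgebraicIndependent K (st fun i => aff L (v i))

theorem Aff.comp {K : Subfield ℂ} {I : Ideal (Poly N)} {L : Fin 4 → Poly N} {ι κ : Type}
    {v : ι → Fin (N + 1) → ℂ} (h : Aff K I L v) {f : κ → ι} (hf : Function.Injective f) :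
    Aff K I L (v ∘ f) where
  mem i := h.mem (f i)
  ne i := h.ne (f i)
  ind := h.ind.comp (fun q : κ × Fin 2 => (f q.1, q.2)) (by
    rintro ⟨i, k⟩ ⟨j, l⟩ h
    simp only [Prod.mk.injEq] at h
    exact Prod.ext (hf h.1) h.2)

section

variable {I : Ideal (Poly N)} {d q : ℕ} {F : Poly 3} {L : Fin 4 → Poly N} {s : D3}

theorem aff_apply (hL : ∀ i, (L i).IsHomogeneous 1) (v : Fin (N + 1) → ℂ) (k : Fin 4) :
    aff L v k = eval v (L k) / eval v (L 0) := by
  rw [aff, img, eval_smul_linear (hL k), div_eq_inv_mul]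

theorem aff_zero (hL : ∀ i, (L i).IsHomogeneous 1) {v : Fin (N + 1) → ℂ}
    (hv : eval v (L 0) ≠ 0) : aff L v 0 = 1 := by
  rw [aff_apply hL, div_self hv]

theorem mem_smul (hI : ∀ F ∈ I, ∀ k, homogeneousComponent k F ∈ I) {v : Fin (N + 1) → ℂ}
    (hv : ∀ G ∈ I, eval v G = 0) (c : ℂ) : ∀ G ∈ I, eval (c • v) G = 0 := by
  intro G hG
  rw [← sum_homogeneousComponent G, map_sum]
  refine Finset.sum_eq_zero fun k _ => ?_
  rw [← eval_scaleHom, scaleHom_homogeneous c (homogeneousComponent_isHomogeneous k G), smul_eval,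
    hv _ (hI G hG k), mul_zero]

theorem aff_root (h : Proj4 I d q F L s) (hI : IsSurface I) {v : Fin (N + 1) → ℂ}
    (hv : ∀ G ∈ I, eval v G = 0) : eval (aff L v) F = 0 := by
  have h1 : sub4 L F ∈ I := (h.hker F).2 dvd_rfl
  rw [aff, ← eval_sub4]
  exact mem_smul hI.homogeneous hv _ _ h1

/-- a nonzero form with coefficients in `K` does not vanish at a point with independent
coordinates -/
theorem eval_aff_inc_ne {K : Subfield ℂ} (h : Proj4 I d q F L s) (hsK : ∀ e, coeff e s ∈ K)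
    {ι : Type} {v : ι → Fin (N + 1) → ℂ} (hv : Aff K I L v) (i : ι) :
    eval (aff L (v i)) (inc s) ≠ 0 := by
  intro h0
  obtain ⟨s', hs'⟩ := S.Hn.exists_over hsK
  have hind : AlgebraicIndependent K (![aff L (v i) 1, aff L (v i) 2] : Fin 2 → ℂ) := by
    have h1 := hv.ind.comp (fun k : Fin 2 => (i, k)) (fun k l hkl => (Prod.mk.inj hkl).2)
    convert h1 using 1
    funext k
    fin_cases k <;> rfl
  -- the dehomogenised polynomial
  set R : MvPolynomial (Fin 2) K := aeval (![1, X 0, X 1] : Fin 3 → MvPolynomial (Fin 2) K) s'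
    with hR
  have hval : ∀ t : Fin 2 → ℂ, aeval t R = eval ![1, t 0, t 1] s := by
    intro t
    have h1 : (aeval t : MvPolynomial (Fin 2) K →ₐ[K] ℂ).comp
        (aeval (![1, X 0, X 1] : Fin 3 → MvPolynomial (Fin 2) K)) =
        aeval (![1, t 0, t 1] : Fin 3 → ℂ) := by
      apply MvPolynomial.algHom_ext
      intro k
      fin_cases k <;> simp
    have h2 := congrArg (fun φ => φ s') h1
    refine h2.trans ?_
    rw [← hs', eval_map]
    rfl
  have h1 : aeval (![aff L (v i) 1, aff L (v i) 2] : Fin 2 → ℂ) R = 0 := by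
    rw [hval]
    have h2 : eval (aff L (v i)) (inc s) = eval ![1, aff L (v i) 1, aff L (v i) 2] s := by
      rw [inc, eval_rename]
      congr 2
      funext k
      fin_cases k
      · exact aff_zero h.hL (hv.ne i)
      · rfl
      · rfl
    exact h2.symm.trans h0
  have h2 : R = 0 := (algebraicIndependent_iff.1 hind) _ h1
  apply h.hs0
  have h3 : s * X 0 = 0 := by
    apply MvPolynomial.funext
    intro u
    rw [map_mul, eval_X, map_zero]
    by_cases hu : u 0 = 0
    · rw [hu, mul_zero]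
    · have h4 := hval ![u 1 / u 0, u 2 / u 0]
      rw [h2, map_zero] at h4
      have h5 : u = u 0 • (![1, u 1 / u 0, u 2 / u 0] : Fin 3 → ℂ) := by
        funext k
        fin_cases k
        · simp
        · simp [mul_div_cancel₀ _ hu]
        · simp [mul_div_cancel₀ _ hu]
      have h6 : eval (u 0 • (![1, u 1 / u 0, u 2 / u 0] : Fin 3 → ℂ)) s =
          u 0 ^ q * eval (![1, u 1 / u 0, u 2 / u 0] : Fin 3 → ℂ) s := by
        rw [← eval_scaleHom (N := 2), scaleHom_homogeneous (N := 2) _ h.hs, smul_eval]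
      rw [h5, h6]
      have h7 : eval (![1, u 1 / u 0, u 2 / u 0] : Fin 3 → ℂ) s = 0 := h4.symm
      rw [h7, mul_zero, zero_mul]
  exact (mul_eq_zero.1 h3).resolve_right (X_ne_zero 0)

/-- **the inequality for curves** at points with independent affine coordinates -/
theorem ineqN {a b : ℕ} {c : Fin 5 → ℕ} (hab : a + b = ∑ j, c j) {m r n : ℕ} {t : ℝ}
    (ht : 0 ≤ t) (hnt : n * t ^ 2 = 2 * ((a : ℝ) * b - ∑ j, (c j : ℝ) ^ 2)) (hm : a + b ≤ m)
    (hm0 : 1 ≤ m) (hr : r + 2 * (a * b) = m ^ 2 * d + 2 * ∑ j, c j ^ 2)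
    (h : Proj4 I d q F L s) (hI : IsSurface I) {K : Subfield ℂ} [Countable K]
    (hFK : ∀ e, coeff e F ∈ K) (hsK : ∀ e, coeff e s ∈ K) {x : Fin r → Fin (N + 1) → ℂ}
    {y : Fin n → Fin (N + 1) → ℂ} (hv : Aff K I L (Sum.elim x y)) {P : Ideal (Poly N)}
    (hP : IsCurveOn I P) :
    ∑ i, mult P (x i) + ENNReal.ofReal t * ∑ j, mult P (y j) ≤ m * deg P := by
  have hl : coeff (Finsupp.single 3 d) F ≠ 0 := by
    have h1 := h.hcoeff
    have h2 : (Fin.last 3 : Fin 4) = 3 := rfl
    rw [h2] at h1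
    rw [h1]
    exact one_ne_zero
  have h1 := ineq3 hab ht hnt hm hm0 h.hd hr h.hF (h.irreducible hI.prime) hl hFK
    (v := fun i => aff L ((Sum.elim x y : Fin r ⊕ Fin n → Fin (N + 1) → ℂ) i))
    (fun i => aff_zero h.hL (hv.ne i)) (fun i => aff_root h hI (hv.mem i)) hv.ind
    (h.isCurveOn hP)
  have h2 : ∀ i : Fin r ⊕ Fin n, mult (P.comap (sub4 L)) (aff L ((Sum.elim x y :
      Fin r ⊕ Fin n → Fin (N + 1) → ℂ) i)) = mult P ((Sum.elim x y :
      Fin r ⊕ Fin n → Fin (N + 1) → ℂ) i) := by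
    intro i
    rw [aff, h.mult_eq (mem_smul hI.homogeneous (hv.mem i) _) (eval_aff_inc_ne h hsK hv i) hP.le,
      mult_smul hP.homogeneous _ (inv_ne_zero (hv.ne i))]
  have h3 : ∀ i, mult (P.comap (sub4 L)) (aff L (x i)) = mult P (x i) := fun i => h2 (Sum.inl i)
  have h4 : ∀ i, mult (P.comap (sub4 L)) (aff L (y i)) = mult P (y i) := fun i => h2 (Sum.inr i)
  simp only [Sum.elim_inl, Sum.elim_inr, h3, h4] at h1
  exact h1.trans (mul_le_mul_right (h.deg_comap_le P) _)

end

end Pool.Agent.Lib.MP_ed661f_ag.W
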