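import Pool.Agent.Lib.MP_ed661f_ag.S.Indep

/-!
Isomorphisms between countable subfields of the complex numbers extend to automorphisms.
-/

set_option autoImplicit false

open MvPolynomial Cardinal

namespace Pool.Agent.Lib.MP_ed661f_ag.W

/-- an isomorphism between countable subfields of `ℂ` extends to an automorphism of `ℂ` -/
theorem extend_equiv {E E' : Type} [Field E] [Field E'] [Algebra E ℂ] [Algebra E' ℂ] [Countable E]
    [Countable E'] (e : E ≃+* E') :
    ∃ σ : ℂ ≃+* ℂ, ∀ x : E, σ (algebraMap E ℂ x) = algebraMap E' ℂ (e x) := by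
  obtain ⟨s, hs⟩ := exists_isTranscendenceBasis E ℂ
  obtain ⟨s', hs'⟩ := exists_isTranscendenceBasis E' ℂ
  have hc : #s = #ℂ := (IsAlgClosed.cardinal_eq_cardinal_transcendence_basis_of_aleph0_lt' _ hs
    (by rw [Cardinal.mk_le_aleph0_iff]; infer_instance)
    (by rw [Cardinal.mk_complex]; exact Cardinal.aleph0_lt_continuum)).symm
  have hc' : #s' = #ℂ := (IsAlgClosed.cardinal_eq_cardinal_transcendence_basis_of_aleph0_lt' _ hs'
    (by rw [Cardinal.mk_le_aleph0_iff]; infer_instance)
    (by rw [Cardinal.mk_complex]; exact Cardinal.aleph0_lt_continuum)).symm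
  obtain ⟨τ⟩ : Nonempty (s ≃ s') := Cardinal.eq.1 (hc.trans hc'.symm)
  set v : s → ℂ := fun x => (x : ℂ) with hv
  set v' : s' → ℂ := fun x => (x : ℂ) with hv'
  have hvb : IsTranscendenceBasis E v := hs
  have hvb' : IsTranscendenceBasis E' v' := hs'
  have := IsAlgClosed.isAlgClosure_of_transcendence_basis v hvb
  have := IsAlgClosed.isAlgClosure_of_transcendence_basis v' hvb'
  let i : Algebra.adjoin E (Set.range v) ≃+* Algebra.adjoin E' (Set.range v') :=
    hvb.1.aevalEquiv.symm.toRingEquiv.trans ((MvPolynomial.mapEquiv s e).trans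
      ((renameEquiv E' τ).toRingEquiv.trans hvb'.1.aevalEquiv.toRingEquiv))
  refine ⟨IsAlgClosure.equivOfEquiv ℂ ℂ i, fun x => ?_⟩
  rw [IsScalarTower.algebraMap_apply E (Algebra.adjoin E (Set.range v)) ℂ,
    IsAlgClosure.equivOfEquiv_algebraMap]
  have h1 : i (algebraMap E (Algebra.adjoin E (Set.range v)) x) =
      algebraMap E' (Algebra.adjoin E' (Set.range v')) (e x) := by
    change hvb'.1.aevalEquiv (renameEquiv E' τ (MvPolynomial.mapEquiv s e
      (hvb.1.aevalEquiv.symm (algebraMap E _ x)))) = _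
    rw [AlgEquiv.commutes, MvPolynomial.algebraMap_eq, MvPolynomial.mapEquiv_apply, map_C,
      ← MvPolynomial.algebraMap_eq, AlgEquiv.commutes, AlgEquiv.commutes]
    rfl
  rw [h1]
  rfl

/-- two algebraically independent finite families are conjugate -/
theorem exists_autK {K : Subfield ℂ} [Countable K] {ι : Type} [Finite ι] {t t' : ι → ℂ}
    (ht : AlgebraicIndependent K t) (ht' : AlgebraicIndependent K t') :
    ∃ σ : ℂ ≃+* ℂ, (∀ x ∈ K, σ x = x) ∧ ∀ i, σ (t i) = t' i := by
  have hcount : ∀ u : ι → ℂ, Countable (IntermediateField.adjoin K (Set.range u)) := by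
    intro u
    have h1 : ((Set.range (algebraMap K ℂ)) ∪ Set.range u).Countable :=
      (Set.countable_range _).union (Set.countable_range _)
    exact S.Hn.countable_closure _ h1
  have := hcount t
  have := hcount t'
  let e : IntermediateField.adjoin K (Set.range t) ≃ₐ[K] IntermediateField.adjoin K (Set.range t') :=
    ht.aevalEquivField.symm.trans ht'.aevalEquivField
  obtain ⟨σ, hσ⟩ := extend_equiv e.toRingEquiv
  refine ⟨σ, fun x hx => ?_, fun i => ?_⟩
  · have h1 := hσ (algebraMap K _ ⟨x, hx⟩)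
    change σ x = (e (algebraMap K _ ⟨x, hx⟩) : ℂ) at h1
    rw [h1, AlgEquiv.commutes]
    rfl
  · have h2 : (ht.aevalEquivField (algebraMap _ _ (X i : MvPolynomial ι K)) : ℂ) = t i := by
      rw [ht.aevalEquivField_algebraMap_apply_coe, aeval_X]
    have h3 : (ht'.aevalEquivField (algebraMap _ _ (X i : MvPolynomial ι K)) : ℂ) = t' i := by
      rw [ht'.aevalEquivField_algebraMap_apply_coe, aeval_X]
    have h4 := hσ (ht.aevalEquivField (algebraMap _ _ (X i : MvPolynomial ι K)))
    change σ (ht.aevalEquivField (algebraMap _ _ (X i : MvPolynomial ι K)) : ℂ) =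
      (ht'.aevalEquivField (ht.aevalEquivField.symm (ht.aevalEquivField
        (algebraMap _ _ (X i : MvPolynomial ι K)))) : ℂ) at h4
    rw [AlgEquiv.symm_apply_apply, h2, h3] at h4
    exact h4

/-- two roots of an irreducible polynomial are conjugate -/
theorem exists_aut_roots {E : Type} [Field E] [Algebra E ℂ] [Countable E] {f : Polynomial E}
    (hf : Irreducible f) {z z' : ℂ} (hz : Polynomial.aeval z f = 0)
    (hz' : Polynomial.aeval z' f = 0) :
    ∃ σ : ℂ ≃+* ℂ, (∀ x : E, σ (algebraMap E ℂ x) = algebraMap E ℂ x) ∧ σ z = z' := by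
  have h1 : minpoly E z = minpoly E z' := by
    rw [← minpoly.eq_of_irreducible hf hz, ← minpoly.eq_of_irreducible hf hz']
  have h2 : IsAlgebraic E z := ⟨f, hf.ne_zero, hz⟩
  have hcount : ∀ u : ℂ, Countable (IntermediateField.adjoin E {u}) := by
    intro u
    have h1 : ((Set.range (algebraMap E ℂ)) ∪ {u}).Countable :=
      (Set.countable_range _).union (Set.countable_singleton _)
    exact S.Hn.countable_closure _ h1
  have := hcount z
  have := hcount z'
  obtain ⟨σ, hσ⟩ := extend_equiv (minpoly.algEquiv h2 h1).toRingEquiv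
  refine ⟨σ, fun x => ?_, ?_⟩
  · have h3 := hσ (algebraMap E _ x)
    change σ (algebraMap E ℂ x) = ((minpoly.algEquiv h2 h1) (algebraMap E _ x) : ℂ) at h3
    rw [h3, AlgEquiv.commutes]
    rfl
  · have h3 := hσ (IntermediateField.AdjoinSimple.gen E z)
    change σ z = ((minpoly.algEquiv h2 h1) (IntermediateField.AdjoinSimple.gen E z) : ℂ) at h3
    rw [h3, minpoly.algEquiv_apply]
    rfl

end Pool.Agent.Lib.MP_ed661f_ag.W
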