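import Mathlib

/-!
A primitive element which is a combination, with complex coefficients, of given generators.
-/

set_option autoImplicit false
set_option synthInstance.maxHeartbeats 400000
set_option maxHeartbeats 4000000

open Polynomial

namespace Pool.Agent.Lib.MP_ed661f_ag.W

/-- finitely many proper subspaces do not cover a complex vector space -/
theorem exists_not_mem {V : Type*} [AddCommGroup V] [Module ℂ V] {ι : Type*} [Finite ι]
    (p : ι → Submodule ℂ V) (h : ∀ i, p i ≠ ⊤) : ∃ x : V, ∀ i, x ∉ p i := by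
  by_contra hc
  push Not at hc
  have hcov : ⋃ i, (p i : Set V) = Set.univ := by
    rw [Set.eq_univ_iff_forall]
    intro x
    obtain ⟨i, hi⟩ := hc x
    exact Set.mem_iUnion.2 ⟨i, hi⟩
  obtain ⟨i, hi⟩ := Subspace.exists_eq_top_of_iUnion_eq_univ hcov
  exact h i hi

theorem exists_primitive_comb_aux (A : Type) {B : Type} (K E : Type) [CommRing A] [IsDomain A]
    [CommRing B] [IsDomain B] [Field K] [Field E]
    [Algebra ℂ A] [Algebra ℂ B] [Algebra ℂ K] [Algebra ℂ E]
    [Algebra A B] [Algebra A K] [Algebra A E] [Algebra B E] [Algebra K E]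
    [IsScalarTower ℂ A B] [IsScalarTower ℂ A K] [IsScalarTower ℂ K E] [IsScalarTower ℂ B E]
    [IsScalarTower A K E] [IsScalarTower A B E] [IsFractionRing A K] [IsFractionRing B E]
    [FiniteDimensional K E] [CharZero K] {ι : Type} [Fintype ι] (x : ι → B)
    (hx : Algebra.adjoin ℂ (Set.range x) = ⊤) :
    ∃ c : ι → ℂ, ∀ b : B, ∃ s : A, s ≠ 0 ∧ ∃ p : A[X], aeval (∑ i, c i • x i) p = s • b := by
  classical
  let Ω := AlgebraicClosure K
  let φ : E →ₐ[K] Ω := IsAlgClosed.lift
  -- two homomorphisms which agree on the generators are equal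
  have hext : ∀ ψ : E →ₐ[K] Ω, (∀ i, φ (algebraMap B E (x i)) = ψ (algebraMap B E (x i))) →
      φ = ψ := by
    intro ψ hψ
    have h1 : ∀ b : B, φ (algebraMap B E b) = ψ (algebraMap B E b) := by
      intro b
      have hb : b ∈ Algebra.adjoin ℂ (Set.range x) := hx ▸ Algebra.mem_top
      induction hb using Algebra.adjoin_induction with
      | mem y hy => obtain ⟨i, rfl⟩ := hy; exact hψ i
      | algebraMap r =>
        rw [← IsScalarTower.algebraMap_apply ℂ B E, IsScalarTower.algebraMap_apply ℂ K E,
          AlgHom.commutes, AlgHom.commutes]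
      | add a b _ _ ha hb => rw [map_add, map_add, map_add, ha, hb]
      | mul a b _ _ ha hb => rw [map_mul, map_mul, map_mul, ha, hb]
    apply AlgHom.coe_ringHom_injective
    apply IsLocalization.ringHom_ext (nonZeroDivisors B)
    ext b
    exact h1 b
  let V : {ψ : E →ₐ[K] Ω // ψ ≠ φ} → Submodule ℂ (ι → ℂ) := fun ψ =>
    LinearMap.ker (∑ i, (LinearMap.proj i : (ι → ℂ) →ₗ[ℂ] ℂ).smulRight
      (φ (algebraMap B E (x i)) - ψ.1 (algebraMap B E (x i))))
  have hV : ∀ ψ c, c ∈ V ψ ↔ ∑ i, c i • (φ (algebraMap B E (x i)) -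
      ψ.1 (algebraMap B E (x i))) = 0 := by
    intro ψ c
    rw [LinearMap.mem_ker, LinearMap.sum_apply]
    rfl
  have hVtop : ∀ ψ, V ψ ≠ ⊤ := by
    intro ψ htop
    apply ψ.2
    symm
    apply hext
    intro i
    have h1 : (Pi.single i 1 : ι → ℂ) ∈ V ψ := htop ▸ Submodule.mem_top
    rw [hV, Finset.sum_eq_single i] at h1
    · rw [Pi.single_eq_same, one_smul, sub_eq_zero] at h1
      exact h1
    · intro j _ hj
      rw [Pi.single_eq_of_ne hj, zero_smul]
    · intro h; exact absurd (Finset.mem_univ i) h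
  obtain ⟨c, hc⟩ := exists_not_mem V hVtop
  refine ⟨c, ?_⟩
  set θ : B := ∑ i, c i • x i with hθ
  have hsmul : ∀ (ψ : E →ₐ[K] Ω) (r : ℂ) (e : E), ψ (r • e) = r • ψ e := by
    intro ψ r e
    rw [Algebra.smul_def, Algebra.smul_def, map_mul, IsScalarTower.algebraMap_apply ℂ K E,
      AlgHom.commutes, ← IsScalarTower.algebraMap_apply ℂ K Ω]
  have hmap : ∀ ψ : E →ₐ[K] Ω, ψ (algebraMap B E θ) = ∑ i, c i • ψ (algebraMap B E (x i)) := by
    intro ψ
    rw [hθ, map_sum, map_sum]
    refine Finset.sum_congr rfl fun i _ => ?_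
    rw [Algebra.smul_def, map_mul, ← IsScalarTower.algebraMap_apply ℂ B E, ← Algebra.smul_def,
      hsmul]
  have hprim : IntermediateField.adjoin K {algebraMap B E θ} = ⊤ := by
    rw [Field.primitive_element_iff_algHom_eq_of_eval K Ω (fun _ => IsAlgClosed.splits _) _ φ]
    intro ψ hψ
    by_contra hne
    apply hc ⟨ψ, fun h => hne h.symm⟩
    rw [hV]
    simp only [smul_sub]
    rw [Finset.sum_sub_distrib, ← hmap, ← hmap, hψ, sub_self]
  intro b
  have halg : IsAlgebraic K (algebraMap B E θ) := IsAlgebraic.of_finite K _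
  have hb : algebraMap B E b ∈ (IntermediateField.adjoin K {algebraMap B E θ}).toSubalgebra := by
    rw [hprim]; trivial
  rw [IntermediateField.adjoin_simple_toSubalgebra_of_isAlgebraic halg,
    Algebra.adjoin_singleton_eq_range_aeval] at hb
  obtain ⟨q, hq⟩ := hb
  have hq' : aeval (algebraMap B E θ) q = algebraMap B E b := hq
  obtain ⟨s, hs, hs'⟩ := IsLocalization.integerNormalization_spec (nonZeroDivisors A) q
  refine ⟨s, nonZeroDivisors.ne_zero hs, IsLocalization.integerNormalization (nonZeroDivisors A) q,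
    ?_⟩
  have hinj : Function.Injective (algebraMap B E) := IsFractionRing.injective B E
  apply hinj
  rw [← aeval_algebraMap_apply, Algebra.smul_def, map_mul,
    ← IsScalarTower.algebraMap_apply A B E, ← Algebra.smul_def, ← hq',
    ← aeval_map_algebraMap K, hs', ← algebraMap_smul K s q, map_smul, algebraMap_smul]

/-- **primitive element**: `B` finite over `A`, generated by the `x i` as a complex algebra -/
theorem exists_primitive_comb (A : Type) {B : Type} [CommRing A] [IsDomain A] [CommRing B]
    [IsDomain B] [Algebra ℂ A] [Algebra ℂ B] [Algebra A B] [IsScalarTower ℂ A B]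
    [Module.Finite A B] [FaithfulSMul A B] {ι : Type} [Fintype ι] (x : ι → B)
    (hx : Algebra.adjoin ℂ (Set.range x) = ⊤) :
    ∃ c : ι → ℂ, ∀ b : B, ∃ s : A, s ≠ 0 ∧ ∃ p : A[X], aeval (∑ i, c i • x i) p = s • b := by
  let _ : Algebra (FractionRing A) (FractionRing B) := FractionRing.liftAlgebra A (FractionRing B)
  have h1 : IsScalarTower A (FractionRing A) (FractionRing B) :=
    FractionRing.isScalarTower_liftAlgebra A _
  have h2 : FaithfulSMul ℂ A := by
    rw [faithfulSMul_iff_algebraMap_injective]
    exact (algebraMap ℂ A).injective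
  have h3 : CharZero (FractionRing A) := charZero_of_injective_algebraMap
    (R := ℂ) (algebraMap ℂ (FractionRing A)).injective
  have h4 : Algebra.IsIntegral A B := inferInstance
  have h5 : IsLocalization (Algebra.algebraMapSubmonoid B (nonZeroDivisors A)) (FractionRing B) := by
    have h5 : Algebra.IsAlgebraic A B := inferInstance
    infer_instance
  have h6 : FiniteDimensional (FractionRing A) (FractionRing B) :=
    .of_isLocalization A B (nonZeroDivisors A)
  have h7 : IsScalarTower ℂ (FractionRing A) (FractionRing B) := inferInstance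
  exact exists_primitive_comb_aux A (FractionRing A) (FractionRing B) x hx

end Pool.Agent.Lib.MP_ed661f_ag.W
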