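import Pool.Agent.Lib.MP_ed661f_ag.T.Proj
import Pool.Agent.Lib.MP_ed661f_ag.S.KernAlg
import Pool.Agent.Lib.MP_ed661f_ag.H.Krull
import Pool.Agent.Lib.MP_ed661f_ag.H.Basis
import Pool.Agent.Lib.MP_ed661f_ag.W.ProjPrim

/-!
Projection of a surface in `ℙᴺ` to a surface `F = 0` in `ℙ³`: the form `F` and the conductor.
-/

set_option autoImplicit false
set_option synthInstance.maxHeartbeats 400000
set_option maxHeartbeats 4000000

open MvPolynomial

namespace Pool.Agent.Lib.MP_ed661f_ag.W

open Pool.Agent.Lib.MP_ed661f_ag.H Pool.Agent.Lib.MP_ed661f_ag.T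

variable {N : ℕ}

/-- the substitution of four linear forms -/
noncomputable def sub4 (L : Fin 4 → Poly N) : Poly 3 →ₐ[ℂ] Poly N := aeval L

theorem eqv_symm_C (b : D3) : eqv.symm (Polynomial.C b) = inc b := by
  rw [AlgEquiv.symm_apply_eq, eqv_inc]

theorem eqv_symm_X : eqv.symm Polynomial.X = X (Fin.last 3) := by
  rw [AlgEquiv.symm_apply_eq, eqv_X_last]

/-- the coefficient of a power of the last variable -/
theorem coeff_single_eqv_symm (m : Polynomial D3) (d : ℕ) :
    coeff (Finsupp.single (Fin.last 3) d) (eqv.symm m) = constantCoeff (m.coeff d) := by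
  classical
  have h1 : ∀ (b : D3) (k : ℕ), coeff (Finsupp.single (Fin.last 3) d)
      (eqv.symm (Polynomial.monomial k b)) = if k = d then constantCoeff b else 0 := by
    intro b k
    rw [← Polynomial.C_mul_X_pow_eq_monomial, map_mul, map_pow, eqv_symm_C, eqv_symm_X]
    have h2 : inc b * X (Fin.last 3) ^ k = inc b * monomial (Finsupp.single (Fin.last 3) k) 1 := by
      rw [X_pow_eq_monomial]
    rw [h2, coeff_mul_monomial', mul_one]
    by_cases hk : k = d
    · subst hk
      rw [if_pos le_rfl, if_pos rfl, tsub_self, inc]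
      have h3 := coeff_rename_mapDomain (R := ℂ) (Fin.castSucc (n := 3))
        (Fin.castSucc_injective 3) b 0
      rw [Finsupp.mapDomain_zero] at h3
      rw [h3]
      rfl
    · rw [if_neg hk]
      split_ifs with hle
      · have hle' : k ≤ d := by
          have := hle (Fin.last 3)
          simpa using this
        rw [← Finsupp.single_tsub, inc]
        apply coeff_rename_eq_zero
        intro u hu
        exfalso
        have h4 := congrArg (fun f => f (Fin.last 3)) hu
        simp only [Finsupp.single_eq_same] at h4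
        rw [Finsupp.mapDomain_of_notMem_range] at h4
        · omega
        · rintro ⟨i, hi⟩
          exact Fin.castSucc_ne_last i hi
      · rfl
  conv_lhs => rw [m.as_sum_support]
  rw [map_sum, coeff_sum]
  simp only [h1]
  rw [Finset.sum_ite_eq']
  split_ifs with h
  · rfl
  · rw [Polynomial.mem_support_iff, not_not] at h
    rw [h, map_zero]

/-- `B` is generated by the classes of the variables -/
theorem adjoin_mk (I : Ideal (Poly N)) :
    Algebra.adjoin ℂ (Set.range fun i => Ideal.Quotient.mk I (X i : Poly N)) = ⊤ := by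
  have h1 : (Set.range fun i => Ideal.Quotient.mk I (X i : Poly N)) =
      (Ideal.Quotient.mkₐ ℂ I) '' Set.range (X : Fin (N + 1) → Poly N) := by
    rw [← Set.range_comp]
    rfl
  rw [h1, ← AlgHom.map_adjoin, adjoin_range_X, Algebra.map_top]
  exact (AlgHom.range_eq_top _).2 (Ideal.Quotient.mkₐ_surjective ℂ I)

/-- the class of a polynomial in four linear forms -/
noncomputable def phi (I : Ideal (Poly N)) (L : Fin 4 → Poly N) : Poly 3 →ₐ[ℂ] Poly N ⧸ I :=
  (Ideal.Quotient.mkₐ ℂ I).comp (sub4 L)

theorem phi_apply (I : Ideal (Poly N)) (L : Fin 4 → Poly N) (G : Poly 3) :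
    phi I L G = Ideal.Quotient.mk I (sub4 L G) := rfl

/-- the surface with ideal `I` is mapped birationally onto the surface `F = 0` in `ℙ³` by the four
linear forms `L`; the form `s` in the first three of them is a conductor -/
structure Proj4 (I : Ideal (Poly N)) (d q : ℕ) (F : Poly 3) (L : Fin 4 → Poly N) (s : D3) :
    Prop where
  hd : 1 ≤ d
  hF : F.IsHomogeneous d
  hcoeff : coeff (Finsupp.single (Fin.last 3) d) F = 1
  hL : ∀ i, (L i).IsHomogeneous 1
  hker : ∀ G, sub4 L G ∈ I ↔ F ∣ G
  hs : s.IsHomogeneous q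
  hs0 : s ≠ 0
  cond : ∀ H : Poly N, ∃ G : Poly 3, sub4 L (inc s) * H - sub4 L G ∈ I
  fin : (phi I L).toRingHom.Finite

theorem hc_sub4 {L : Fin 4 → Poly N} (hL : ∀ i, (L i).IsHomogeneous 1) (G : Poly 3) (k : ℕ) :
    homogeneousComponent k (sub4 L G) = sub4 L (homogeneousComponent k G) :=
  hc_aeval hL G k

theorem isHomogeneous_inc {s : D3} {q : ℕ} (hs : s.IsHomogeneous q) : (inc s).IsHomogeneous q :=
  hs.rename_isHomogeneous

theorem inc_injective : Function.Injective inc := rename_injective _ (Fin.castSucc_injective 3)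

theorem exists_hc_ne_zero {σ : Type*} {F : MvPolynomial σ ℂ} (hF : F ≠ 0) :
    ∃ k, homogeneousComponent k F ≠ 0 := by
  by_contra hcon
  push Not at hcon
  apply hF
  rw [← sum_homogeneousComponent F]
  exact Finset.sum_eq_zero fun i _ => hcon i

theorem sub4_snoc_inc (y : Fin 3 → Poly N) (l : Poly N) (b : D3) :
    sub4 (Fin.snoc y l) (inc b) = aeval y b := by
  rw [sub4, inc, aeval_rename]
  congr 1
  have : (Fin.snoc y l : Fin 4 → Poly N) ∘ Fin.castSucc = y := by
    funext i
    exact Fin.snoc_castSucc (α := fun _ => Poly N) l y i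
  rw [this]

theorem hc_inc (s : D3) (k : ℕ) : homogeneousComponent k (inc s) = inc (homogeneousComponent k s) := by
  have h := hc_aeval (N := 3) (r := 3) (y := fun i => X (Fin.castSucc i))
    (fun i => isHomogeneous_X _ _) s k
  have h2 : ∀ b : D3, (aeval (fun i => (X (Fin.castSucc i) : Poly 3)) b) = inc b := by
    intro b
    rw [inc, rename_eq_aeval]
    rfl
  rw [h2, h2] at h
  exact h

/-- the conductor can be taken homogeneous -/
theorem cond_hc {I : Ideal (Poly N)} (hh : ∀ F ∈ I, ∀ k, homogeneousComponent k F ∈ I)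
    {L : Fin 4 → Poly N} (hL : ∀ i, (L i).IsHomogeneous 1) {δ : Poly 3}
    (h : ∀ H : Poly N, ∃ G : Poly 3, sub4 L δ * H - sub4 L G ∈ I) (k : ℕ) (H : Poly N) :
    ∃ G : Poly 3, sub4 L (homogeneousComponent k δ) * H - sub4 L G ∈ I := by
  classical
  have h1 : ∀ j, ∃ G : Poly 3, sub4 L (homogeneousComponent k δ) * homogeneousComponent j H -
      sub4 L G ∈ I := by
    intro j
    obtain ⟨G, hG⟩ := h (homogeneousComponent j H)
    refine ⟨homogeneousComponent (k + j) G, ?_⟩
    have h2 := hh _ hG (k + j)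
    rw [map_sub, hc_mul _ _ (homogeneousComponent_isHomogeneous j H), if_pos (by omega),
      Nat.add_sub_cancel, hc_sub4 hL, hc_sub4 hL] at h2
    exact h2
  choose G hG using h1
  refine ⟨∑ j ∈ Finset.range (H.totalDegree + 1), G j, ?_⟩
  have h3 : sub4 L (homogeneousComponent k δ) * H -
      sub4 L (∑ j ∈ Finset.range (H.totalDegree + 1), G j) =
      ∑ j ∈ Finset.range (H.totalDegree + 1), (sub4 L (homogeneousComponent k δ) *
        homogeneousComponent j H - sub4 L (G j)) := by
    rw [Finset.sum_sub_distrib, ← Finset.mul_sum, sum_homogeneousComponent, map_sum]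
  rw [h3]
  exact I.sum_mem fun j _ => hG j

/-- a common denominator for all elements of a finite module -/
theorem exists_common_all {R M : Type*} [CommRing R] [IsDomain R] [AddCommGroup M] [Module R M]
    [Module.Finite R M] (W : Submodule R M) (h : ∀ x : M, ∃ a : R, a ≠ 0 ∧ a • x ∈ W) :
    ∃ q : R, q ≠ 0 ∧ ∀ x, q • x ∈ W := by
  obtain ⟨t, ht⟩ := (Module.Finite.fg_top : (⊤ : Submodule R M).FG)
  obtain ⟨s0, hs0, hs1⟩ := exists_common W (t : Set M) t.finite_toSet (fun x _ => h x)
  refine ⟨s0, hs0, ?_⟩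
  intro x
  have hx : x ∈ Submodule.span R (t : Set M) := ht ▸ Submodule.mem_top
  induction hx using Submodule.span_induction with
  | mem x hx => exact hs1 x hx
  | zero => simp
  | add x y _ _ hx hy =>
    rw [smul_add]
    exact W.add_mem hx hy
  | smul c x _ hx =>
    rw [smul_comm]
    exact W.smul_mem _ hx

theorem exists_proj4 {I : Ideal (Poly N)} (hI : IsSurface I) :
    ∃ (d q : ℕ) (F : Poly 3) (L : Fin 4 → Poly N) (s : D3), Proj4 I d q F L s := by
  classical
  have hprime := hI.prime
  have hne : I ≠ ⊤ := hprime.ne_top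
  have hdom : IsDomain (Poly N ⧸ I) := Ideal.Quotient.isDomain I
  obtain ⟨y, hy, hinj, hfin⟩ := exists_noether hne hI.homogeneous (r := 3) (by rw [hI.dim]; rfl)
  let _ : Algebra D3 (Poly N ⧸ I) := (proj I y).toRingHom.toAlgebra
  have hst : IsScalarTower ℂ D3 (Poly N ⧸ I) :=
    IsScalarTower.of_algebraMap_eq fun c => ((proj I y).commutes c).symm
  have hmf : Module.Finite D3 (Poly N ⧸ I) := hfin
  have hfs : FaithfulSMul D3 (Poly N ⧸ I) := (faithfulSMul_iff_algebraMap_injective _ _).2 hinj
  obtain ⟨c, hc⟩ := exists_primitive_comb D3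
    (fun i : Fin (N + 1) => Ideal.Quotient.mk I (X i : Poly N)) (adjoin_mk I)
  set l : Poly N := ∑ i, C (c i) * X i with hl
  set θ : Poly N ⧸ I := Ideal.Quotient.mk I l with hθ
  have hlh : l.IsHomogeneous 1 := by
    refine IsHomogeneous.sum _ _ _ fun i _ => ?_
    have := (isHomogeneous_C (Fin (N + 1)) (c i)).mul (isHomogeneous_X ℂ i)
    rwa [zero_add] at this
  have hcθ : ∑ i, c i • Ideal.Quotient.mk I (X i : Poly N) = θ := by
    rw [hθ, hl, map_sum]
    refine Finset.sum_congr rfl fun i _ => ?_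
    rw [C_mul']
    exact ((Ideal.Quotient.mkₐ ℂ I).toLinearMap.map_smul (c i) (X i)).symm
  rw [hcθ] at hc
  set L : Fin 4 → Poly N := Fin.snoc y l with hL
  have hLh : ∀ i, (L i).IsHomogeneous 1 := by
    intro i
    refine Fin.lastCases ?_ (fun i => ?_) i
    · rw [hL, Fin.snoc_last]; exact hlh
    · rw [hL, Fin.snoc_castSucc]; exact hy i
  have hint : IsIntegral D3 θ := Algebra.IsIntegral.isIntegral θ
  set m := minpoly D3 θ with hm
  have hmonic : m.Monic := minpoly.monic hint
  -- the substitution is the evaluation at `θ`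
  have hkey : ∀ G : Poly 3, Ideal.Quotient.mk I (sub4 L G) = Polynomial.aeval θ (eqv G) := by
    intro G
    induction G using MvPolynomial.induction_on with
    | C a =>
      rw [eqv_C, Polynomial.aeval_C]
      have h1 : sub4 L (C a) = algebraMap ℂ (Poly N) a := (sub4 L).commutes a
      rw [h1]
      exact ((proj I y).commutes a).symm
    | add p q hp hq => rw [map_add, map_add, map_add, map_add, hp, hq]
    | mul_X p i hp =>
      rw [map_mul, map_mul, map_mul, map_mul, hp]
      congr 1
      rw [sub4, aeval_X]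
      refine Fin.lastCases ?_ (fun i => ?_) i
      · rw [eqv_X_last, Polynomial.aeval_X, hL, Fin.snoc_last]
      · rw [eqv_X_castSucc, Polynomial.aeval_C, hL, Fin.snoc_castSucc]
        change _ = proj I y (X i)
        rw [← mk_aeval, aeval_X]
  set F : Poly 3 := eqv.symm m with hF
  have heF : eqv F = m := by rw [hF, AlgEquiv.apply_symm_apply]
  have hker : ∀ G, sub4 L G ∈ I ↔ F ∣ G := by
    intro G
    rw [← Ideal.Quotient.eq_zero_iff_mem, hkey, minpoly.isIntegrallyClosed_dvd_iff hint]
    constructor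
    · rintro ⟨Q, hQ⟩
      refine ⟨eqv.symm Q, ?_⟩
      rw [hF, ← map_mul, ← hm] at *
      rw [← hQ, AlgEquiv.symm_apply_apply]
    · rintro ⟨Q, hQ⟩
      refine ⟨eqv Q, ?_⟩
      rw [hQ, map_mul, heF]
  have hF0 : F ≠ 0 := by
    intro h
    apply hmonic.ne_zero
    rw [← heF, h, map_zero]
  have hcF : coeff (Finsupp.single (Fin.last 3) m.natDegree) F = 1 := by
    rw [hF, coeff_single_eqv_symm, Polynomial.Monic.coeff_natDegree hmonic, map_one]
  -- homogeneity
  have hFh : F.IsHomogeneous m.natDegree := by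
    obtain ⟨k, hk⟩ := exists_hc_ne_zero hF0
    have h1 : F ∣ homogeneousComponent k F := by
      rw [← hker, ← hc_sub4 hLh]
      exact hI.homogeneous _ ((hker F).2 dvd_rfl) k
    obtain ⟨Q, hQ⟩ := h1
    obtain ⟨a, b, ha, hb, hab⟩ := S.homogeneous_of_mul (hQ ▸ homogeneousComponent_isHomogeneous k F)
      (hQ ▸ hk)
    have h2 : coeff (Finsupp.single (Fin.last 3) m.natDegree) F ≠ 0 := by
      rw [hcF]; exact one_ne_zero
    have h3 := ha h2
    have h4 : m.natDegree = a := by
      rw [← h3]
      simp [Finsupp.weight_apply]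
    rw [h4]
    exact ha
  -- the conductor
  set W : Submodule D3 (Poly N ⧸ I) := LinearMap.range (Polynomial.aeval θ).toLinearMap with hW
  obtain ⟨s0, hs0, hs2⟩ := exists_common_all W (by
    intro x
    obtain ⟨a, ha, p, hp⟩ := hc x
    exact ⟨a, ha, p, hp⟩)
  obtain ⟨k, hk⟩ := exists_hc_ne_zero hs0
  have hcond : ∀ H : Poly N, ∃ G : Poly 3, sub4 L (inc s0) * H - sub4 L G ∈ I := by
    intro H
    obtain ⟨p, hp⟩ := hs2 (Ideal.Quotient.mk I H)
    refine ⟨eqv.symm p, ?_⟩
    rw [← Ideal.Quotient.eq_zero_iff_mem, map_sub, map_mul, hkey, hkey, eqv_inc,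
      AlgEquiv.apply_symm_apply, Polynomial.aeval_C, ← Algebra.smul_def, ← hp]
    exact sub_self _
  refine ⟨m.natDegree, k, F, L, homogeneousComponent k s0, ⟨?_, hFh, hcF, hLh, hker,
    homogeneousComponent_isHomogeneous k s0, hk, ?_, ?_⟩⟩
  · exact minpoly.natDegree_pos hint
  · rw [← hc_inc]
    exact cond_hc hI.homogeneous hLh hcond k
  · have h1 : ((phi I L).toRingHom.comp inc.toRingHom) = (proj I y).toRingHom := by
      ext b
      · change phi I L (inc (C b)) = proj I y (C b)
        rw [phi_apply, sub4_snoc_inc, mk_aeval]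
      · change phi I L (inc (X b)) = proj I y (X b)
        rw [phi_apply, sub4_snoc_inc, mk_aeval]
    apply RingHom.Finite.of_comp_finite (f := inc.toRingHom)
    rw [h1]
    exact hfin

end Pool.Agent.Lib.MP_ed661f_ag.W
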