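import Mathlib

/-!
Which self-intersection numbers `2 D` occur for a given `h`.
-/

set_option autoImplicit false

namespace Pool.Agent.Lib.MP_ed661f_ag.W

/-- there are non-negative integers `a, b, c_1, .., c_5` with `a + b = c_1 + .. + c_5 ≤ h` and
`a b - c_1² - .. - c_5² = D` -/
def Admissible (h D : ℕ) : Prop :=
  ∃ (a b : ℕ) (c : Fin 5 → ℕ), a + b = ∑ j, c j ∧ a + b ≤ h ∧ a * b = ∑ j, c j ^ 2 + D

private theorem two_sq {x y : ℤ} (h : Even (x + y)) : ∃ p q : ℤ, x ^ 2 + y ^ 2 = 2 * p ^ 2 + 2 * q ^ 2 := by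
  obtain ⟨s, hs⟩ := h
  refine ⟨s, x - s, ?_⟩
  have hy : y = 2 * s - x := by linarith
  rw [hy]
  ring

private theorem three_sq (x y z : ℤ) :
    ∃ v p q : ℤ, x ^ 2 + y ^ 2 + z ^ 2 = v ^ 2 + 2 * p ^ 2 + 2 * q ^ 2 := by
  have h : Even (x + y) ∨ Even (y + z) ∨ Even (x + z) := by
    rcases Int.even_or_odd x with hx | hx <;> rcases Int.even_or_odd y with hy | hy <;>
      rcases Int.even_or_odd z with hz | hz
    · exact Or.inl (hx.add hy)
    · exact Or.inl (hx.add hy)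
    · exact Or.inr (Or.inr (hx.add hz))
    · exact Or.inr (Or.inl (hy.add_odd hz))
    · exact Or.inr (Or.inl (hy.add hz))
    · exact Or.inr (Or.inr (hx.add_odd hz))
    · exact Or.inl (hx.add_odd hy)
    · exact Or.inl (hx.add_odd hy)
  rcases h with h | h | h
  · obtain ⟨p, q, e⟩ := two_sq h
    exact ⟨z, p, q, by linarith⟩
  · obtain ⟨p, q, e⟩ := two_sq h
    exact ⟨x, p, q, by linarith⟩
  · obtain ⟨p, q, e⟩ := two_sq h
    exact ⟨y, p, q, by linarith⟩

/-- the form `v² + 2p² + 2q² + 4t²` is universal -/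
private theorem universal (n : ℕ) :
    ∃ v p q t : ℤ, (n : ℤ) = v ^ 2 + 2 * p ^ 2 + 2 * q ^ 2 + 4 * t ^ 2 := by
  have main : ∀ m : ℕ, ∃ a b c d : ℤ, (m : ℤ) = a ^ 2 + b ^ 2 + c ^ 2 + d ^ 2 := by
    intro m
    obtain ⟨a, b, c, d, h⟩ := Nat.sum_four_squares m
    exact ⟨a, b, c, d, by exact_mod_cast h.symm⟩
  have key : ∀ a b c d : ℤ, Even a → (n : ℤ) = a ^ 2 + b ^ 2 + c ^ 2 + d ^ 2 →
      ∃ v p q t : ℤ, (n : ℤ) = v ^ 2 + 2 * p ^ 2 + 2 * q ^ 2 + 4 * t ^ 2 := by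
    rintro a b c d ⟨t, ht⟩ h
    obtain ⟨v, p, q, e⟩ := three_sq b c d
    refine ⟨v, p, q, t, ?_⟩
    rw [h, ht]
    linarith [sq_nonneg t, show (t + t) ^ 2 = 4 * t ^ 2 by ring]
  by_cases hn : n % 8 = 4
  · obtain ⟨m, hm⟩ : ∃ m, n = 4 * m := ⟨n / 4, by omega⟩
    obtain ⟨a, b, c, d, h⟩ := main m
    refine key (2 * a) (2 * b) (2 * c) (2 * d) (even_two_mul a) ?_
    rw [hm]
    push_cast
    rw [h]
    ring
  · obtain ⟨a, b, c, d, h⟩ := main n
    rcases Int.even_or_odd a with ha | ha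
    · exact key a b c d ha h
    rcases Int.even_or_odd b with hb | hb
    · exact key b a c d hb (by rw [h]; ring)
    rcases Int.even_or_odd c with hc | hc
    · exact key c a b d hc (by rw [h]; ring)
    rcases Int.even_or_odd d with hd | hd
    · exact key d a b c hd (by rw [h]; ring)
    exfalso
    have h1 := Int.sq_mod_four_eq_one_of_odd ha
    have k : ∀ x : ℤ, Odd x → x ^ 2 % 8 = 1 := by
      intro x hx
      obtain ⟨y, rfl⟩ := hx
      have h2 : (2 * y + 1) ^ 2 = 4 * (y * (y + 1)) + 1 := by ring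
      obtain ⟨z, hz⟩ := Int.even_mul_succ_self y
      rw [h2, hz]
      omega
    have ka := k a ha
    have kb := k b hb
    have kc := k c hc
    have kd := k d hd
    omega

private theorem even_three {x y z : ℤ} (h : Even (x ^ 2 + y ^ 2 + z ^ 2)) :
    ∃ p q t : ℤ, x ^ 2 + y ^ 2 + z ^ 2 = 2 * p ^ 2 + 2 * q ^ 2 + 4 * t ^ 2 := by
  have key : ∀ x y z : ℤ, Even z → Even (x + y) →
      ∃ p q t : ℤ, x ^ 2 + y ^ 2 + z ^ 2 = 2 * p ^ 2 + 2 * q ^ 2 + 4 * t ^ 2 := by
    rintro x y z ⟨t, ht⟩ h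
    obtain ⟨p, q, e⟩ := two_sq h
    refine ⟨p, q, t, ?_⟩
    rw [e, ht]
    ring
  rcases Int.even_or_odd x with hx | hx <;> rcases Int.even_or_odd y with hy | hy <;>
    rcases Int.even_or_odd z with hz | hz
  · exact key x y z hz (hx.add hy)
  · exfalso
    have h1 : Odd (x ^ 2 + y ^ 2 + z ^ 2) :=
      ((hx.pow_of_ne_zero two_ne_zero).add (hy.pow_of_ne_zero two_ne_zero)).add_odd hz.pow
    exact (Int.not_even_iff_odd.2 h1) h
  · exfalso
    have h1 : Odd (x ^ 2 + y ^ 2 + z ^ 2) :=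
      ((hx.pow_of_ne_zero two_ne_zero).add_odd hy.pow).add_even (hz.pow_of_ne_zero two_ne_zero)
    exact (Int.not_even_iff_odd.2 h1) h
  · obtain ⟨p, q, t, e⟩ := key y z x hx (hy.add_odd hz)
    exact ⟨p, q, t, by rw [← e]; ring⟩
  · exfalso
    have h1 : Odd (x ^ 2 + y ^ 2 + z ^ 2) :=
      (hx.pow.add_even (hy.pow_of_ne_zero two_ne_zero)).add_even (hz.pow_of_ne_zero two_ne_zero)
    exact (Int.not_even_iff_odd.2 h1) h
  · obtain ⟨p, q, t, e⟩ := key x z y hy (hx.add_odd hz)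
    exact ⟨p, q, t, by rw [← e]; ring⟩
  · exact key x y z hz (hx.add_odd hy)
  · exfalso
    have h1 : Odd (x ^ 2 + y ^ 2 + z ^ 2) := (hx.pow.add_odd hy.pow).add_odd hz.pow
    exact (Int.not_even_iff_odd.2 h1) h

private theorem sq_mod_eight {x : ℤ} (hx : Odd x) : x ^ 2 % 8 = 1 := by
  obtain ⟨y, rfl⟩ := hx
  have h2 : (2 * y + 1) ^ 2 = 4 * (y * (y + 1)) + 1 := by ring
  obtain ⟨z, hz⟩ := Int.even_mul_succ_self y
  rw [h2, hz]
  omega

private theorem claim {k D : ℕ} (hD : 4 * D ≤ 5 * k ^ 2) (hp : Even k ∨ Odd D) :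
    ∃ u p q t : ℤ, 5 * (k : ℤ) ^ 2 - 4 * D = u ^ 2 + 4 * (2 * p ^ 2 + 2 * q ^ 2 + 4 * t ^ 2) ∧
      Even (k + u) := by
  have hD' : 4 * (D : ℤ) ≤ 5 * (k : ℤ) ^ 2 := by exact_mod_cast hD
  rcases Nat.even_or_odd k with hk | hk
  · obtain ⟨κ, hκ⟩ := hk
    have h1 : (0 : ℤ) ≤ 5 * (κ : ℤ) ^ 2 - D := by
      rw [hκ] at hD'
      push_cast at hD'
      nlinarith
    obtain ⟨m, hm⟩ := Int.eq_ofNat_of_zero_le h1
    obtain ⟨v, p, q, t, e⟩ := universal m
    refine ⟨2 * v, p, q, t, ?_, ?_⟩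
    · rw [hκ]
      push_cast
      have : 5 * ((κ : ℤ) + κ) ^ 2 - 4 * D = 4 * (5 * (κ : ℤ) ^ 2 - D) := by ring
      rw [this, hm, e]
      ring
    · rw [hκ]
      push_cast
      exact ⟨κ + v, by ring⟩
  · have hDo : Odd D := by
      rcases hp with h | h
      · exact absurd h (Nat.not_even_iff_odd.2 hk)
      · exact h
    have hk' : Odd (k : ℤ) := by exact_mod_cast hk
    have hDo' : Odd (D : ℤ) := by exact_mod_cast hDo
    obtain ⟨δ, hδ⟩ := hDo'
    have k8 := sq_mod_eight hk'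
    have h1 : (0 : ℤ) ≤ 5 * (k : ℤ) ^ 2 - 4 * D := by linarith
    obtain ⟨m, hm⟩ := Int.eq_ofNat_of_zero_le h1
    have hm8 : (m : ℤ) % 8 = 1 := by omega
    obtain ⟨w, x, y, z, h⟩ := Nat.sum_four_squares m
    have h' : (m : ℤ) = (w : ℤ) ^ 2 + (x : ℤ) ^ 2 + (y : ℤ) ^ 2 + (z : ℤ) ^ 2 := by
      exact_mod_cast h.symm
    have fin : ∀ u x y z : ℤ, Odd u → Even x → Even y → Even z →
        (m : ℤ) = u ^ 2 + x ^ 2 + y ^ 2 + z ^ 2 →
        ∃ u p q t : ℤ, (m : ℤ) = u ^ 2 + 4 * (2 * p ^ 2 + 2 * q ^ 2 + 4 * t ^ 2) ∧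
          Even (k + u) := by
      rintro u x y z hu ⟨x', hx⟩ ⟨y', hy⟩ ⟨z', hz⟩ e
      have e1 : (m : ℤ) = u ^ 2 + 4 * (x' ^ 2 + y' ^ 2 + z' ^ 2) := by
        rw [e, hx, hy, hz]
        ring
      have u8 := sq_mod_eight hu
      have hev : Even (x' ^ 2 + y' ^ 2 + z' ^ 2) := by
        rw [Int.even_iff]
        omega
      obtain ⟨p, q, t, e2⟩ := even_three hev
      exact ⟨u, p, q, t, by rw [e1, e2], hk'.add_odd hu⟩
    have four : ∀ x : ℤ, Even x → x ^ 2 % 4 = 0 := by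
      rintro x ⟨y, rfl⟩
      have : (y + y) ^ 2 = 4 * y ^ 2 := by ring
      omega
    have hmain : ∃ u p q t : ℤ, (m : ℤ) = u ^ 2 + 4 * (2 * p ^ 2 + 2 * q ^ 2 + 4 * t ^ 2) ∧
          Even (k + u) := by
      rcases Int.even_or_odd (w : ℤ) with hw | hw <;> rcases Int.even_or_odd (x : ℤ) with hx | hx <;>
        rcases Int.even_or_odd (y : ℤ) with hy | hy <;> rcases Int.even_or_odd (z : ℤ) with hz | hz
      · exfalso
        have := four _ hw; have := four _ hx; have := four _ hy; have := four _ hz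
        omega
      · exact fin z w x y hz hw hx hy (by rw [h']; ring)
      · exact fin y w x z hy hw hx hz (by rw [h']; ring)
      · exfalso
        have := four _ hw; have := four _ hx; have := sq_mod_eight hy; have := sq_mod_eight hz
        omega
      · exact fin x w y z hx hw hy hz (by rw [h']; ring)
      · exfalso
        have := four _ hw; have := sq_mod_eight hx; have := four _ hy; have := sq_mod_eight hz
        omega
      · exfalso
        have := four _ hw; have := sq_mod_eight hx; have := sq_mod_eight hy; have := four _ hz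
        omega
      · exfalso
        have := four _ hw; have := sq_mod_eight hx; have := sq_mod_eight hy
        have := sq_mod_eight hz
        omega
      · exact fin w x y z hw hx hy hz h'
      · exfalso
        have := sq_mod_eight hw; have := four _ hx; have := four _ hy; have := sq_mod_eight hz
        omega
      · exfalso
        have := sq_mod_eight hw; have := four _ hx; have := sq_mod_eight hy; have := four _ hz
        omega
      · exfalso
        have := sq_mod_eight hw; have := four _ hx; have := sq_mod_eight hy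
        have := sq_mod_eight hz
        omega
      · exfalso
        have := sq_mod_eight hw; have := sq_mod_eight hx; have := four _ hy; have := four _ hz
        omega
      · exfalso
        have := sq_mod_eight hw; have := sq_mod_eight hx; have := four _ hy
        have := sq_mod_eight hz
        omega
      · exfalso
        have := sq_mod_eight hw; have := sq_mod_eight hx; have := sq_mod_eight hy
        have := four _ hz
        omega
      · exfalso
        have := sq_mod_eight hw; have := sq_mod_eight hx; have := sq_mod_eight hy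
        have := sq_mod_eight hz
        omega
    obtain ⟨u, p, q, t, e, he⟩ := hmain
    exact ⟨u, p, q, t, by rw [hm]; exact e, he⟩

/-- **many pairs are admissible**.

PROOF. Put `M = 5 k² - 4 D ≥ 0`. Claim: there are integers `u, p, q, t` with `u ≡ k (mod 2)` and
`M = u² + 4 (2p² + 2q² + 4t²)`.
(1) `k = 2κ` even: `M = 4 M'`, `M' = 5κ² - D`. By Lagrange (`Nat.sum_four_squares`) `M'` is a sum of
four squares, one of them even: if `M' ≢ 4 (mod 8)` then not all four are odd; if `M' ≡ 4 (mod 8)`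
apply Lagrange to `M'/4`. Call the even one `2t`; among the other three two have the same parity,
`x, y`, and `x² + y² = 2((x+y)/2)² + 2((x-y)/2)²`; call the last one `υ`. So
`M' = υ² + 2p² + 2q² + 4t²`, `u = 2υ`.
(2) `k` and `D` odd: `M ≡ 1 (mod 8)`, `M = w² + x² + y² + z²`, exactly one of them is odd (mod 4), say
`u`, the others are `2x', 2y', 2z'` with `x'² + y'² + z'² = (M - u²)/4` even, so the number of odd ones
is even: `z'` even, `x' ≡ y'`; as before.
Now let `e = (p + t, -p + t, q - t, -q - t, 0)`: `∑ e = 0`, `|e|² = 2p² + 2q² + 4t²`. Put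
`c_j = k + e_j` (`≥ 0` because `5 e_j² ≤ 4 |e|² = M - u² ≤ 5 k²`), `a = (5k + u)/2`,
`b = (5k - u)/2` (`≥ 0` as `u² ≤ 5k²`). Then `a + b = 5k = ∑ c_j` and
`ab - ∑ c_j² = (25k² - u²)/4 - 5k² - |e|² = (5k² - M)/4 = D`. -/
theorem admissible {h k D : ℕ} (hk : 5 * k ≤ h) (hD : 4 * D ≤ 5 * k ^ 2) (hp : Even k ∨ Odd D) :
    Admissible h D := by
  obtain ⟨u, p, q, t, e, he⟩ := claim hD hp
  have bound : ∀ x : ℤ, 5 * x ^ 2 ≤ 4 * (2 * p ^ 2 + 2 * q ^ 2 + 4 * t ^ 2) → 0 ≤ (k : ℤ) + x := by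
    intro x hx
    have h1 : x ^ 2 ≤ (k : ℤ) ^ 2 := by nlinarith [sq_nonneg u]
    have h2 := abs_le.1 (abs_le_of_sq_le_sq h1 (by positivity))
    linarith [h2.1]
  obtain ⟨c1, h1⟩ := Int.eq_ofNat_of_zero_le (bound (p + t) (by
    nlinarith [sq_nonneg (3 * p - 5 * t), sq_nonneg q, sq_nonneg t]))
  obtain ⟨c2, h2⟩ := Int.eq_ofNat_of_zero_le (bound (-p + t) (by
    nlinarith [sq_nonneg (3 * p + 5 * t), sq_nonneg q, sq_nonneg t]))
  obtain ⟨c3, h3⟩ := Int.eq_ofNat_of_zero_le (bound (q - t) (by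
    nlinarith [sq_nonneg (3 * q + 5 * t), sq_nonneg p, sq_nonneg t]))
  obtain ⟨c4, h4⟩ := Int.eq_ofNat_of_zero_le (bound (-q - t) (by
    nlinarith [sq_nonneg (3 * q - 5 * t), sq_nonneg p, sq_nonneg t]))
  obtain ⟨s, hs⟩ := he
  have hu2 : u ^ 2 ≤ (5 * (k : ℤ)) ^ 2 := by
    nlinarith [sq_nonneg p, sq_nonneg q, sq_nonneg t, sq_nonneg (k : ℤ)]
  have hu := abs_le.1 (abs_le_of_sq_le_sq hu2 (by positivity))
  have hu' : u = 2 * s - k := by linarith
  obtain ⟨a, ha⟩ := Int.eq_ofNat_of_zero_le (show (0 : ℤ) ≤ 2 * k + s by linarith [hu.1])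
  obtain ⟨b, hb⟩ := Int.eq_ofNat_of_zero_le (show (0 : ℤ) ≤ 3 * k - s by linarith [hu.2])
  have hab : a + b = 5 * k := by
    have : (a : ℤ) + b = 5 * k := by
      rw [← ha, ← hb]
      ring
    exact_mod_cast this
  refine ⟨a, b, ![c1, c2, c3, c4, k], ?_, by omega, ?_⟩
  · rw [hab]
    simp only [Fin.sum_univ_succ, Matrix.cons_val_zero, Matrix.cons_val_succ, Fin.sum_univ_zero]
    have : (c1 : ℤ) + (c2 + (c3 + (c4 + (k + 0)))) = 5 * k := by
      rw [← h1, ← h2, ← h3, ← h4]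
      ring
    have h5 : c1 + (c2 + (c3 + (c4 + (k + 0)))) = 5 * k := by exact_mod_cast this
    exact h5.symm
  · simp only [Fin.sum_univ_succ, Matrix.cons_val_zero, Matrix.cons_val_succ, Fin.sum_univ_zero]
    have : (a : ℤ) * b = (c1 : ℤ) ^ 2 + ((c2 : ℤ) ^ 2 + ((c3 : ℤ) ^ 2 + ((c4 : ℤ) ^ 2 +
        ((k : ℤ) ^ 2 + 0)))) + D := by
      rw [← h1, ← h2, ← h3, ← h4, ← ha, ← hb]
      rw [hu'] at e
      linarith [show (2 * (k : ℤ) + s) * (3 * k - s) = 6 * k ^ 2 + k * s - s ^ 2 by ring,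
        show (2 * s - (k : ℤ)) ^ 2 = 4 * s ^ 2 - 4 * (k * s) + k ^ 2 by ring,
        show ((k : ℤ) + (p + t)) ^ 2 + (((k : ℤ) + (-p + t)) ^ 2 + (((k : ℤ) + (q - t)) ^ 2 +
          (((k : ℤ) + (-q - t)) ^ 2 + ((k : ℤ) ^ 2 + 0)))) =
          5 * (k : ℤ) ^ 2 + (2 * p ^ 2 + 2 * q ^ 2 + 4 * t ^ 2) by ring]
    exact_mod_cast this

end Pool.Agent.Lib.MP_ed661f_ag.W
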