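import Pool.Agent.Lib.MP_ed661f_ag.W.Defs
import Pool.Agent.Lib.MP_ed661f_ag.S.Indep
import Pool.Agent.Lib.MP_ed661f_ag.S.VG

/-!
The dehomogenised form `F(1, s, t, Z)` is irreducible.
-/

set_option autoImplicit false

open MvPolynomial

namespace Pool.Agent.Lib.MP_ed661f_ag.W

open H

/-- the dehomogenised form `F(1, x_1, x_2, x_0)` in three variables; the variable `x_0` is `Z` -/
noncomputable def dh {R : Type*} [CommRing R] (F : MvPolynomial (Fin 4) R) :
    MvPolynomial (Fin 3) R :=
  aeval (R := R) ![1, X 1, X 2, X 0] F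

/-- homogenisation in degree `p` -/
noncomputable def hm (p : ℕ) (a : MvPolynomial (Fin 3) ℂ) : Poly 3 :=
  ∑ e ∈ a.support, C (coeff e a) * (X 0 ^ (p - e.degree) * (X 3 ^ e 0 * X 1 ^ e 1 * X 2 ^ e 2))

theorem eval_hm {p : ℕ} {a : MvPolynomial (Fin 3) ℂ} (hp : a.totalDegree ≤ p) {z : Fin 4 → ℂ}
    (hz : z 0 ≠ 0) : eval z (hm p a) = z 0 ^ p * eval ![z 3 / z 0, z 1 / z 0, z 2 / z 0] a := by
  rw [hm, map_sum, eval_eq', Finset.mul_sum]
  refine Finset.sum_congr rfl fun e he => ?_
  have h1 : e.degree ≤ p := (le_totalDegree he).trans hp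
  have h2 : e.degree = e 0 + e 1 + e 2 := by
    rw [Finsupp.degree_eq_sum, Fin.sum_univ_three]
  rw [Fin.prod_univ_three]
  simp only [map_mul, eval_C, map_pow, eval_X]
  change _ = z 0 ^ p * (coeff e a * ((z 3 / z 0) ^ e 0 * (z 1 / z 0) ^ e 1 * (z 2 / z 0) ^ e 2))
  have h3 : z 0 ^ p = z 0 ^ (p - e.degree) * (z 0 ^ e 0 * z 0 ^ e 1 * z 0 ^ e 2) := by
    rw [← pow_add, ← pow_add, ← pow_add, ← h2, Nat.sub_add_cancel h1]
  rw [h3, div_pow, div_pow, div_pow]
  field_simp

theorem eval_dh (F : Poly 3) (w : Fin 3 → ℂ) : eval w (dh F) = eval ![1, w 1, w 2, w 0] F := by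
  have h : (eval w).comp (aeval (R := ℂ) (![1, X 1, X 2, X 0] :
      Fin 4 → MvPolynomial (Fin 3) ℂ)).toRingHom = eval ![1, w 1, w 2, w 0] := by
    apply MvPolynomial.ringHom_ext
    · intro r
      simp
    · intro i
      fin_cases i <;> simp
  exact congrArg (fun φ => φ F) h

theorem eval_dh' {d : ℕ} {F : Poly 3} (hF : F.IsHomogeneous d) {z : Fin 4 → ℂ} (hz : z 0 ≠ 0) :
    eval z F = z 0 ^ d * eval ![z 3 / z 0, z 1 / z 0, z 2 / z 0] (dh F) := by
  rw [eval_dh]
  have h1 : z = z 0 • (![1, z 1 / z 0, z 2 / z 0, z 3 / z 0] : Fin 4 → ℂ) := by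
    funext i
    fin_cases i
    · change z 0 = z 0 * 1
      rw [mul_one]
    · change z 1 = z 0 * (z 1 / z 0)
      field_simp
    · change z 2 = z 0 * (z 2 / z 0)
      field_simp
    · change z 3 = z 0 * (z 3 / z 0)
      field_simp
  conv_lhs => rw [h1]
  rw [S.eval_smul_form hF]
  rfl

theorem dh_monomial {R : Type*} [CommRing R] (e : Fin 4 →₀ ℕ) (r : R) :
    dh (monomial e r) = C r * (X 1 ^ e 1 * X 2 ^ e 2 * X 0 ^ e 3) := by
  rw [dh, aeval_monomial, Finsupp.prod_fintype _ _ (fun i => pow_zero _), Fin.prod_univ_four]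
  change algebraMap R _ r * (1 ^ e 0 * X 1 ^ e 1 * X 2 ^ e 2 * X 0 ^ e 3) = _
  rw [one_pow, one_mul, algebraMap_eq]

theorem totalDegree_dh_le {d : ℕ} {F : Poly 3} (hF : F.IsHomogeneous d) :
    (dh F).totalDegree ≤ d := by
  conv_lhs => rw [F.as_sum]
  rw [dh, map_sum]
  refine (totalDegree_finsetSum_le fun e he => ?_)
  change (dh (monomial e (coeff e F))).totalDegree ≤ d
  rw [dh_monomial]
  have h1 : e.degree = d := by
    have := hF (mem_support_iff.1 he)
    rw [Finsupp.degree_eq_weight_one]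
    exact this
  have h2 : e.degree = e 0 + e 1 + e 2 + e 3 := by
    rw [Finsupp.degree_eq_sum, Fin.sum_univ_four]
  refine (totalDegree_mul _ _).trans ?_
  rw [totalDegree_C, zero_add]
  refine (totalDegree_mul _ _).trans ?_
  have h3 := totalDegree_mul (X 1 ^ e 1 : MvPolynomial (Fin 3) ℂ) (X 2 ^ e 2)
  have h4 := totalDegree_X_pow (R := ℂ) (1 : Fin 3) (e 1)
  have h5 := totalDegree_X_pow (R := ℂ) (2 : Fin 3) (e 2)
  have h6 := totalDegree_X_pow (R := ℂ) (0 : Fin 3) (e 3)
  omega

theorem dh_ne_zero {d : ℕ} {F : Poly 3} (hF : F.IsHomogeneous d) (h0 : F ≠ 0) : dh F ≠ 0 := by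
  intro h
  apply h0
  have h1 : X 0 * F = 0 := by
    apply MvPolynomial.funext
    intro z
    rw [map_mul, eval_X, map_zero]
    rcases eq_or_ne (z 0) 0 with h2 | h2
    · rw [h2, zero_mul]
    · rw [eval_dh' hF h2, h, map_zero, mul_zero, mul_zero]
  exact (mul_eq_zero.1 h1).resolve_left (X_ne_zero _)

/-- the polynomials `a` with `hm p a` constant are constant -/
theorem isUnit_of_hm {p : ℕ} {a : MvPolynomial (Fin 3) ℂ} (hp : a.totalDegree ≤ p)
    (h : IsUnit (hm p a)) : IsUnit a := by
  obtain ⟨c, hc, h1⟩ := isUnit_iff_eq_C_of_isReduced.1 h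
  rw [isUnit_iff_eq_C_of_isReduced]
  refine ⟨c, hc, ?_⟩
  apply MvPolynomial.funext
  intro w
  have h2 := eval_hm hp (z := ![1, w 1, w 2, w 0]) one_ne_zero
  rw [h1, eval_C] at h2
  rw [eval_C, h2]
  change _ = (1 : ℂ) ^ p * eval ![w 0 / 1, w 1 / 1, w 2 / 1] a
  rw [one_pow, one_mul, div_one, div_one, div_one]
  congr 1
  congr 1
  funext i
  fin_cases i <;> rfl

/-- **dehomogenisation of an irreducible form** -/
theorem irreducible_dh {d : ℕ} {F : Poly 3} (hF : F.IsHomogeneous d) (hirr : Irreducible F)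
    (hl : coeff (Finsupp.single 3 d) F ≠ 0) : Irreducible (dh F) := by
  have hdh0 := dh_ne_zero hF hirr.ne_zero
  refine ⟨?_, ?_⟩
  · -- not a unit
    intro hu
    obtain ⟨c, hc, h1⟩ := isUnit_iff_eq_C_of_isReduced.1 hu
    have hd : d ≠ 0 := by
      rintro rfl
      apply hirr.not_isUnit
      rw [isUnit_iff_eq_C_of_isReduced]
      refine ⟨coeff 0 F, ?_, ?_⟩
      · rw [isUnit_iff_ne_zero]
        rwa [Finsupp.single_zero] at hl
      · have := hF.totalDegree_le
        exact totalDegree_eq_zero_iff_eq_C.1 (by omega)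
    apply hl
    have h2 : X 0 * F = X 0 * (C c * X 0 ^ d) := by
      apply MvPolynomial.funext
      intro z
      rw [map_mul, map_mul, map_mul, map_pow, eval_X, eval_C]
      rcases eq_or_ne (z 0) 0 with h2 | h2
      · rw [h2, zero_mul, zero_mul]
      · rw [eval_dh' hF h2, h1, eval_C]
        ring
    have h3 := mul_left_cancel₀ (X_ne_zero _) h2
    rw [h3, coeff_C_mul, coeff_X_pow, if_neg, mul_zero]
    intro h4
    have h5 := DFunLike.congr_fun h4 3
    rw [Finsupp.single_eq_same, Finsupp.single_eq_of_ne (by decide)] at h5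
    exact hd h5.symm
  · intro a b hab
    have ha0 : a ≠ 0 := by
      rintro rfl
      rw [zero_mul] at hab
      exact hdh0 hab
    have hb0 : b ≠ 0 := by
      rintro rfl
      rw [mul_zero] at hab
      exact hdh0 hab
    have h1 : a.totalDegree + b.totalDegree ≤ d := by
      rw [← totalDegree_mul_of_isDomain ha0 hb0, ← hab]
      exact totalDegree_dh_le hF
    have h2 : b.totalDegree ≤ d - a.totalDegree := by omega
    have h3 : X 0 * F = X 0 * (hm a.totalDegree a * hm (d - a.totalDegree) b) := by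
      apply MvPolynomial.funext
      intro z
      rw [map_mul, map_mul, map_mul, eval_X]
      rcases eq_or_ne (z 0) 0 with h4 | h4
      · rw [h4, zero_mul, zero_mul]
      · rw [eval_dh' hF h4, eval_hm le_rfl h4, eval_hm h2 h4, hab, map_mul]
        have h5 : z 0 ^ d = z 0 ^ a.totalDegree * z 0 ^ (d - a.totalDegree) := by
          rw [← pow_add]
          congr 1
          omega
        rw [h5]
        ring
    have h4 := mul_left_cancel₀ (X_ne_zero _) h3
    rcases hirr.isUnit_or_isUnit h4 with h5 | h5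
    · exact Or.inl (isUnit_of_hm le_rfl h5)
    · exact Or.inr (isUnit_of_hm h2 h5)

/-- a polynomial over a subfield is irreducible if it is irreducible over the field -/
theorem irreducible_of_map {K E : Type*} [Field K] [Field E] (f : K →+* E) {σ : Type*}
    {P : MvPolynomial σ K} (h : Irreducible (map f P)) : Irreducible P := by
  classical
  have hloc : ∀ a : MvPolynomial σ K, IsUnit (map f a) → IsUnit a := by
    intro a ha
    obtain ⟨c, hc, h1⟩ := isUnit_iff_eq_C_of_isReduced.1 ha
    rw [isUnit_iff_eq_C_of_isReduced]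
    have h2 : a = C (coeff 0 a) := by
      ext e
      rw [coeff_C]
      split_ifs with h3
      · rw [← h3]
      · have h4 : f (coeff e a) = 0 := by
          rw [← coeff_map, h1, coeff_C, if_neg h3]
        exact (map_eq_zero f).1 h4
    refine ⟨coeff 0 a, ?_, h2⟩
    rw [isUnit_iff_ne_zero]
    intro h3
    rw [h3, C_0] at h2
    rw [h2, map_zero] at h1
    have h4 : c = 0 := by
      have := h1.symm
      rwa [C_eq_zero] at this
    exact hc.ne_zero h4
  refine ⟨fun hu => h.not_isUnit (hu.map _), fun a b hab => ?_⟩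
  have h1 : map f P = map f a * map f b := by rw [hab, map_mul]
  exact (h.isUnit_or_isUnit h1).imp (hloc a) (hloc b)

theorem map_dh {R R' : Type*} [CommRing R] [CommRing R'] (f : R →+* R') (F : MvPolynomial (Fin 4) R) :
    map f (dh F) = dh (map f F) := by
  induction F using MvPolynomial.induction_on with
  | C a => simp [dh]
  | add p q hp hq =>
    have h1 : dh (p + q) = dh p + dh q := map_add _ _ _
    have h2 : dh (map f p + map f q) = dh (map f p) + dh (map f q) := map_add _ _ _
    rw [h1, map_add, map_add, hp, hq, h2]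
  | mul_X p i hp =>
    have h1 : dh (p * X i) = dh p * dh (X i) := map_mul _ _ _
    have h2 : dh (map f p * X i) = dh (map f p) * dh (X i) := map_mul _ _ _
    rw [h1, map_mul, map_mul, hp, map_X, h2]
    congr 1
    fin_cases i <;> simp [dh]

/-- `F(1, s, t, Z)` as a polynomial in `Z` -/
noncomputable def pz {R : Type*} [CommRing R] (F : MvPolynomial (Fin 4) R) :
    Polynomial (MvPolynomial (Fin 2) R) :=
  finSuccEquiv R 2 (dh F)

theorem pz_monomial {R : Type*} [CommRing R] (e : Fin 4 →₀ ℕ) (r : R) :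
    pz (monomial e r) = Polynomial.C (C r * (X 0 ^ e 1 * X 1 ^ e 2)) * Polynomial.X ^ e 3 := by
  rw [pz, dh_monomial]
  simp only [map_mul, map_pow]
  have h1 : finSuccEquiv R 2 (X 1) = Polynomial.C (X 0) := finSuccEquiv_X_succ (j := 0)
  have h2 : finSuccEquiv R 2 (X 2) = Polynomial.C (X 1) := finSuccEquiv_X_succ (j := 1)
  have h3 : finSuccEquiv R 2 (C r) = Polynomial.C (C r) := by
    rw [← algebraMap_eq, AlgEquiv.commutes]
    rfl
  rw [h1, h2, h3, finSuccEquiv_X_zero]
  ring

theorem coeff_pz {R : Type*} [CommRing R] (F : MvPolynomial (Fin 4) R) (k : ℕ) :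
    (pz F).coeff k = ∑ e ∈ F.support, if k = e 3 then
      C (coeff e F) * (X 0 ^ e 1 * X 1 ^ e 2) else 0 := by
  conv_lhs => rw [F.as_sum]
  have h1 : pz (∑ e ∈ F.support, monomial e (coeff e F)) =
      ∑ e ∈ F.support, pz (monomial e (coeff e F)) := by
    unfold pz dh
    rw [map_sum, map_sum]
  rw [h1, Polynomial.finsetSum_coeff]
  refine Finset.sum_congr rfl fun e _ => ?_
  rw [pz_monomial, Polynomial.coeff_C_mul_X_pow]

theorem natDegree_pz_le {R : Type*} [CommRing R] {F : MvPolynomial (Fin 4) R} {d : ℕ}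
    (hF : F.IsHomogeneous d) : (pz F).natDegree ≤ d := by
  rw [Polynomial.natDegree_le_iff_coeff_eq_zero]
  intro k hk
  rw [coeff_pz]
  refine Finset.sum_eq_zero fun e he => ?_
  have h1 : e.degree = d := by
    have := hF (mem_support_iff.1 he)
    rw [Finsupp.degree_eq_weight_one]
    exact this
  have h2 : e 3 ≤ e.degree := Finsupp.le_degree 3 e
  rw [if_neg (by omega)]

theorem coeff_pz_top {R : Type*} [CommRing R] {F : MvPolynomial (Fin 4) R} {d : ℕ}
    (hF : F.IsHomogeneous d) : (pz F).coeff d = C (coeff (Finsupp.single 3 d) F) := by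
  classical
  rw [coeff_pz]
  have key : ∀ e ∈ F.support, d = e 3 → e = Finsupp.single 3 d := by
    intro e he hd
    have h1 : e.degree = d := by
      have := hF (mem_support_iff.1 he)
      rw [Finsupp.degree_eq_weight_one]
      exact this
    rw [Finsupp.degree_eq_sum, Fin.sum_univ_four] at h1
    ext i
    fin_cases i
    · simp only [Fin.zero_eta, Fin.isValue]
      rw [Finsupp.single_eq_of_ne (by decide)]
      omega
    · simp only [Fin.mk_one, Fin.isValue]
      rw [Finsupp.single_eq_of_ne (by decide)]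
      omega
    · simp only [Fin.reduceFinMk, Fin.isValue]
      rw [Finsupp.single_eq_of_ne (by decide)]
      omega
    · simp only [Fin.reduceFinMk, Fin.isValue]
      rw [Finsupp.single_eq_same]
      omega
  by_cases hs : Finsupp.single 3 d ∈ F.support
  · rw [Finset.sum_eq_single_of_mem _ hs]
    · rw [if_pos (by simp)]
      simp
    · intro e he hne
      rw [if_neg fun h => hne (key e he h)]
  · rw [notMem_support_iff.1 hs, C_0]
    refine Finset.sum_eq_zero fun e he => ?_
    rw [if_neg]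
    intro h
    rw [key e he h] at he
    exact hs he

theorem pz_C_mul {R : Type*} [CommRing R] (r : R) (F : MvPolynomial (Fin 4) R) :
    pz (C r * F) = Polynomial.C (C r) * pz F := by
  unfold pz dh
  rw [map_mul, map_mul]
  congr 1
  rw [aeval_C, algebraMap_eq, ← algebraMap_eq, AlgEquiv.commutes]
  rfl

/-- **`F(1, s, t, Z)` is irreducible** as a polynomial in `Z` over the polynomials in `s, t` with
coefficients in a subfield -/
theorem irreducible_pz {K : Type*} [Field K] (f : K →+* ℂ) {d : ℕ} {F : MvPolynomial (Fin 4) K}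
    (hF : F.IsHomogeneous d) (hirr : Irreducible (map f F))
    (hl : coeff (Finsupp.single 3 d) F ≠ 0) : Irreducible (pz F) := by
  unfold pz
  rw [MulEquiv.irreducible_iff]
  refine irreducible_of_map f ?_
  rw [map_dh]
  refine irreducible_dh (hF.map f) hirr ?_
  rw [coeff_map]
  exact (map_ne_zero f).2 hl

/-- **`F(1, s, t, Z)` is irreducible** as a polynomial in `Z` over the rational functions in `s, t`
with coefficients in a subfield -/
theorem irreducible_pz_frac {K : Type*} [Field K] (f : K →+* ℂ) {d : ℕ}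
    {F : MvPolynomial (Fin 4) K} (hF : F.IsHomogeneous d) (hirr : Irreducible (map f F))
    (hl : coeff (Finsupp.single 3 d) F ≠ 0) :
    Irreducible ((pz F).map (algebraMap (MvPolynomial (Fin 2) K)
      (FractionRing (MvPolynomial (Fin 2) K)))) := by
  set c := coeff (Finsupp.single 3 d) F with hc
  have h1 : (C c⁻¹ * F).IsHomogeneous d := by
    have := (isHomogeneous_C (Fin 4) c⁻¹).mul hF
    rwa [zero_add] at this
  have hcu : IsUnit (C c⁻¹ : MvPolynomial (Fin 4) K) := (isUnit_iff_ne_zero.2 (inv_ne_zero hl)).map C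
  have hm : (pz (C c⁻¹ * F)).Monic := by
    refine Polynomial.monic_of_natDegree_le_of_coeff_eq_one d (natDegree_pz_le h1) ?_
    rw [coeff_pz_top h1, coeff_C_mul, ← hc, inv_mul_cancel₀ hl, C_1]
  have h2 : Irreducible (pz (C c⁻¹ * F)) := by
    refine irreducible_pz f h1 ?_ ?_
    · rw [map_mul, irreducible_isUnit_mul (hcu.map (map f))]
      exact hirr
    · rw [coeff_C_mul, ← hc, inv_mul_cancel₀ hl]
      exact one_ne_zero
  have h3 := (hm.irreducible_iff_irreducible_map_fraction_map
    (K := FractionRing (MvPolynomial (Fin 2) K))).1 h2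
  rw [pz_C_mul, Polynomial.map_mul, irreducible_isUnit_mul] at h3
  · exact h3
  · have h4 : IsUnit (C c⁻¹ : MvPolynomial (Fin 2) K) :=
      (isUnit_iff_ne_zero.2 (inv_ne_zero hl)).map C
    exact (h4.map Polynomial.C).map (Polynomial.mapRingHom _)

end Pool.Agent.Lib.MP_ed661f_ag.W
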