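import Pool.Agent.Lib.MP_ed661f_ag.W.Defs
import Pool.Agent.Lib.MP_ed661f_ag.W.Dehom
import Pool.Agent.Lib.MP_ed661f_ag.W.Ext
import Pool.Agent.Lib.MP_ed661f_ag.S.Indep

/-!
Two very general tuples of points of the surface are conjugate.
-/

set_option autoImplicit false

open MvPolynomial

namespace Pool.Agent.Lib.MP_ed661f_ag.W

open H

theorem eval₂_pz {R A : Type*} [CommRing R] [CommRing A] (φ : MvPolynomial (Fin 2) R →+* A) (z : A)
    (F : MvPolynomial (Fin 4) R) :
    Polynomial.eval₂ φ z (pz F) = eval₂ (φ.comp C) ![1, φ (X 0), φ (X 1), z] F := by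
  have h2 : finSuccEquiv R 2 (X 1) = Polynomial.C (X 0) := finSuccEquiv_X_succ (j := 0)
  have h3 : finSuccEquiv R 2 (X 2) = Polynomial.C (X 1) := finSuccEquiv_X_succ (j := 1)
  have h4 : finSuccEquiv R 2 (X 0) = Polynomial.X := finSuccEquiv_X_zero
  have key : ((Polynomial.eval₂RingHom φ z).comp (finSuccEquiv R 2).toRingEquiv.toRingHom).comp
      (aeval (R := R) (![1, X 1, X 2, X 0] : Fin 4 → MvPolynomial (Fin 3) R)).toRingHom =
      eval₂Hom (φ.comp C) ![1, φ (X 0), φ (X 1), z] := by
    apply MvPolynomial.ringHom_ext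
    · intro r
      rw [coe_eval₂Hom, eval₂_C]
      change Polynomial.eval₂ φ z (finSuccEquiv R 2 (aeval (R := R) _ (C r))) = φ (C r)
      rw [aeval_C, AlgEquiv.commutes]
      exact Polynomial.eval₂_C _ _
    · intro i
      rw [coe_eval₂Hom, eval₂_X]
      change Polynomial.eval₂ φ z (finSuccEquiv R 2 (aeval (R := R) _ (X i))) = _
      rw [aeval_X]
      fin_cases i
      · change Polynomial.eval₂ φ z (finSuccEquiv R 2 1) = 1
        rw [map_one, Polynomial.eval₂_one]
      · change Polynomial.eval₂ φ z (finSuccEquiv R 2 (X 1)) = φ (X 0)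
        rw [h2, Polynomial.eval₂_C]
      · change Polynomial.eval₂ φ z (finSuccEquiv R 2 (X 2)) = φ (X 1)
        rw [h3, Polynomial.eval₂_C]
      · change Polynomial.eval₂ φ z (finSuccEquiv R 2 (X 0)) = z
        rw [h4, Polynomial.eval₂_X]
  exact congrArg (fun ψ => ψ F) key

/-- lifting of a form to a subfield -/
theorem exists_over_form {d : ℕ} {F : Poly 3} (hF : F.IsHomogeneous d) {L : Subfield ℂ}
    (hFL : ∀ e, coeff e F ∈ L) : ∃ F' : MvPolynomial (Fin 4) L, F'.IsHomogeneous d ∧
      map L.subtype F' = F ∧ ∀ e, L.subtype (coeff e F') = coeff e F := by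
  obtain ⟨F', hF'⟩ := S.Hn.exists_over hFL
  have h1 : ∀ e, L.subtype (coeff e F') = coeff e F := fun e => by rw [← hF', coeff_map]
  refine ⟨F', ?_, hF', h1⟩
  intro e he
  apply hF
  rw [← h1]
  exact (map_ne_zero L.subtype).2 he

/-- `F(1,s,t,Z)` is irreducible over `L(s,t)` for all `s, t` algebraically independent over the
subfield `L` which contains the coefficients of `F`. -/
theorem irreducible_over {d : ℕ} {F : Poly 3} (hF : F.IsHomogeneous d) (hirr : Irreducible F)
    (hl : coeff (Finsupp.single 3 d) F ≠ 0) {L : Subfield ℂ} (hFL : ∀ e, coeff e F ∈ L) {s t : ℂ}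
    (hst : AlgebraicIndependent L ![s, t]) :
    ∃ f : Polynomial (IntermediateField.adjoin L ({s, t} : Set ℂ)), Irreducible f ∧
      ∀ z : ℂ, Polynomial.aeval z f = eval ![1, s, t, z] F := by
  obtain ⟨F', hF', hmap, hco⟩ := exists_over_form hF hFL
  have hr : Set.range ![s, t] = {s, t} := by
    ext x
    simp only [Matrix.range_cons, Matrix.range_empty, Set.union_empty, Set.mem_union,
      Set.mem_singleton_iff, Set.mem_insert_iff]
  rw [← hr]
  have h1 := irreducible_pz_frac L.subtype hF' (by rw [hmap]; exact hirr) (by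
    intro h
    apply hl
    rw [← hco, h, map_zero])
  let φ := hst.aevalEquivField
  refine ⟨((pz F').map (algebraMap (MvPolynomial (Fin 2) L)
    (FractionRing (MvPolynomial (Fin 2) L)))).map (φ.toRingEquiv : _ →+* _), ?_, ?_⟩
  · have h2 := (MulEquiv.irreducible_iff (Polynomial.mapEquiv φ.toRingEquiv)).2 h1
    exact h2
  · intro z
    rw [Polynomial.aeval_def, Polynomial.eval₂_map, Polynomial.eval₂_map, eval₂_pz]
    have h3 : ∀ q : MvPolynomial (Fin 2) L, (((algebraMap (IntermediateField.adjoin L
        (Set.range ![s, t])) ℂ).comp (φ.toRingEquiv : _ →+* _)).comp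
          (algebraMap (MvPolynomial (Fin 2) L) (FractionRing (MvPolynomial (Fin 2) L)))) q =
        aeval ![s, t] q := fun q => hst.aevalEquivField_algebraMap_apply_coe q
    rw [h3, h3, aeval_X, aeval_X]
    rw [← hmap, eval_map]
    congr 1
    ext r
    rw [RingHom.comp_apply, h3, aeval_C]
    rfl

/-- the third coordinate of a point of the surface is algebraic over the field of the others -/
theorem isAlgebraic_third {d : ℕ} {F : Poly 3} (hF : F.IsHomogeneous d)
    (hl : coeff (Finsupp.single 3 d) F ≠ 0) {K : Subfield ℂ} (hFK : ∀ e, coeff e F ∈ K)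
    (M : IntermediateField K ℂ) {s t z : ℂ} (hs : s ∈ M) (ht : t ∈ M)
    (hz : eval ![1, s, t, z] F = 0) : IsAlgebraic M z := by
  obtain ⟨F', hF', hmap, hco⟩ := exists_over_form hF hFK
  let φ : MvPolynomial (Fin 2) K →+* M := (aeval (R := K) ![(⟨s, hs⟩ : M), ⟨t, ht⟩]).toRingHom
  have hφC : ∀ r : K, ((φ (C r) : M) : ℂ) = r := by
    intro r
    change ((aeval (R := K) ![(⟨s, hs⟩ : M), ⟨t, ht⟩] (C r) : M) : ℂ) = r
    rw [aeval_C]
    rfl
  refine ⟨(pz F').map φ, ?_, ?_⟩
  · intro h
    have h1 : ((pz F').map φ).coeff d = 0 := by rw [h, Polynomial.coeff_zero]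
    rw [Polynomial.coeff_map, coeff_pz_top hF'] at h1
    apply hl
    rw [← hco]
    have h2 := hφC (coeff (Finsupp.single 3 d) F')
    rw [h1] at h2
    exact h2.symm
  · rw [Polynomial.aeval_def, Polynomial.eval₂_map, eval₂_pz, ← hz, ← hmap, eval_map]
    have h1 : ((algebraMap M ℂ).comp φ).comp C = K.subtype := by
      ext r
      exact hφC r
    have h2 : ((algebraMap M ℂ).comp φ) (X 0) = s := by
      change ((aeval (R := K) ![(⟨s, hs⟩ : M), ⟨t, ht⟩] (X 0) : M) : ℂ) = s
      rw [aeval_X]
      rfl
    have h3 : ((algebraMap M ℂ).comp φ) (X 1) = t := by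
      change ((aeval (R := K) ![(⟨s, hs⟩ : M), ⟨t, ht⟩] (X 1) : M) : ℂ) = t
      rw [aeval_X]
      rfl
    rw [h1, h2, h3]

/-- the field generated by `K` and the coordinates of the points -/
noncomputable def fld (K : Subfield ℂ) {ι : Type} (v : ι → Fin 4 → ℂ) : Subfield ℂ :=
  Subfield.closure ((K : Set ℂ) ∪ Set.range fun q : ι × Fin 4 => v q.1 q.2)

/-- the coordinates of one more point are independent over the field of the others -/
theorem indep_next {d : ℕ} {F : Poly 3} (hF : F.IsHomogeneous d)
    (hl : coeff (Finsupp.single 3 d) F ≠ 0) {K : Subfield ℂ} (hFK : ∀ e, coeff e F ∈ K) {ι : Type}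
    {v : Option ι → Fin 4 → ℂ} (h0 : ∀ i, v i 0 = 1) (hv : ∀ i, eval (v i) F = 0)
    (hi : AlgebraicIndependent K (st v)) :
    AlgebraicIndependent (fld K fun i => v (some i)) ![v none 1, v none 2] := by
  let x : ι × Fin 2 → ℂ := st fun i => v (some i)
  have h1 : AlgebraicIndependent K (Sum.elim ![v none 1, v none 2] x) := by
    let g : Fin 2 ⊕ ι × Fin 2 → Option ι × Fin 2 :=
      Sum.elim (fun k => (none, k)) (fun q => (some q.1, q.2))
    have hg : Function.Injective g := by
      rintro (a | ⟨a, b⟩) (a' | ⟨a', b'⟩) h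
      · simpa [g] using h
      · simp [g] at h
      · simp [g] at h
      · simpa [g] using h
    have h2 := hi.comp g hg
    convert h2 using 1
    funext q
    rcases q with k | ⟨i, k⟩
    · fin_cases k <;> rfl
    · rfl
  have h2 := (AlgebraicIndependent.sumElim_iff.1 h1).2
  let M := IntermediateField.adjoin K (Set.range x)
  have h3 : AlgebraicIndependent M ![v none 1, v none 2] :=
    IntermediateField.algebraicIndependent_adjoin_iff.2 h2
  have h4 : AlgebraicIndependent (algebraicClosure M ℂ) ![v none 1, v none 2] :=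
    h3.algebraicClosure
  -- the field of the other points is contained in the algebraic closure
  have hxM : ∀ q, x q ∈ M := fun q => IntermediateField.subset_adjoin K _ ⟨q, rfl⟩
  have hle : fld K (fun i => v (some i)) ≤ (algebraicClosure M ℂ).toSubfield := by
    unfold fld
    rw [Subfield.closure_le]
    rintro y (hy | ⟨⟨i, k⟩, rfl⟩)
    · have h5 : y ∈ M := IntermediateField.algebraMap_mem M (⟨y, hy⟩ : K)
      exact IntermediateField.algebraMap_mem (algebraicClosure M ℂ) (⟨y, h5⟩ : M)
    · have hs : v (some i) 1 ∈ M := hxM (i, 0)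
      have ht : v (some i) 2 ∈ M := hxM (i, 1)
      change v (some i) k ∈ algebraicClosure M ℂ
      fin_cases k
      · change v (some i) 0 ∈ algebraicClosure M ℂ
        rw [h0]
        exact one_mem _
      · exact IntermediateField.algebraMap_mem (algebraicClosure M ℂ) (⟨_, hs⟩ : M)
      · exact IntermediateField.algebraMap_mem (algebraicClosure M ℂ) (⟨_, ht⟩ : M)
      · rw [mem_algebraicClosure_iff]
        refine isAlgebraic_third hF hl hFK M hs ht ?_
        have h5 : (![1, v (some i) 1, v (some i) 2, v (some i) 3] : Fin 4 → ℂ) = v (some i) := by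
          funext k
          fin_cases k
          · exact (h0 (some i)).symm
          · rfl
          · rfl
          · rfl
        change eval ![1, v (some i) 1, v (some i) 2, v (some i) 3] F = 0
        rw [h5]
        exact hv (some i)
  let _ : Algebra (fld K fun i => v (some i)) (algebraicClosure M ℂ) :=
    (Subfield.inclusion hle).toAlgebra
  have : IsScalarTower (fld K fun i => v (some i)) (algebraicClosure M ℂ) ℂ :=
    IsScalarTower.of_algebraMap_eq fun t => rfl
  exact h4.restrictScalars (algebraMap (fld K fun i => v (some i)) (algebraicClosure M ℂ)).injective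

/-- an automorphism which fixes the coefficients maps zeros to zeros -/
theorem eval_aut {K : Subfield ℂ} {F : Poly 3} (hFK : ∀ e, coeff e F ∈ K) {σ : ℂ ≃+* ℂ}
    (hσ : ∀ x ∈ K, σ x = x) (u : Fin 4 → ℂ) : eval (fun k => σ (u k)) F = σ (eval u F) := by
  rw [eval_eq, eval_eq, map_sum]
  refine Finset.sum_congr rfl fun e _ => ?_
  rw [map_mul, map_prod, hσ _ (hFK e)]
  congr 1
  exact Finset.prod_congr rfl fun k _ => (map_pow σ _ _).symm

/-- independence under automorphisms -/
theorem indep_aut {K : Subfield ℂ} {κ : Type} {x : κ → ℂ} (hx : AlgebraicIndependent K x)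
    {σ : ℂ ≃+* ℂ} (hσ : ∀ x ∈ K, σ x = x) : AlgebraicIndependent K fun i => σ (x i) := by
  let σ' : ℂ ≃ₐ[K] ℂ := AlgEquiv.ofRingEquiv (f := σ) fun x => hσ _ x.2
  exact hx.map' (f := σ'.toAlgHom) σ'.injective

theorem indep_comp {K : Subfield ℂ} {ι κ : Type} {v : ι → Fin 4 → ℂ}
    (hi : AlgebraicIndependent K (st v)) {g : κ → ι} (hg : Function.Injective g) :
    AlgebraicIndependent K (st fun i => v (g i)) := by
  have h1 : (st fun i => v (g i)) = st v ∘ fun q : κ × Fin 2 => (g q.1, q.2) := rfl
  rw [h1]
  refine hi.comp _ ?_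
  rintro ⟨a, b⟩ ⟨a', b'⟩ h
  have h2 : g a = g a' := congrArg Prod.fst h
  have h3 : b = b' := congrArg Prod.snd h
  rw [hg h2, h3]

/-- **two very general tuples are conjugate** under an automorphism of `ℂ` over `K` -/
theorem exists_aut {d : ℕ} {F : Poly 3} (hF : F.IsHomogeneous d) (hirr : Irreducible F)
    (hl : coeff (Finsupp.single 3 d) F ≠ 0) {K : Subfield ℂ} [Countable K]
    (hFK : ∀ e, coeff e F ∈ K) {ι : Type} [Finite ι] {v v' : ι → Fin 4 → ℂ} (h0 : ∀ i, v i 0 = 1)
    (h0' : ∀ i, v' i 0 = 1) (hv : ∀ i, eval (v i) F = 0) (hv' : ∀ i, eval (v' i) F = 0)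
    (hi : AlgebraicIndependent K (st v)) (hi' : AlgebraicIndependent K (st v')) :
    ∃ σ : ℂ ≃+* ℂ, (∀ x ∈ K, σ x = x) ∧ ∀ i k, σ (v i k) = v' i k := by
  classical
  have main : ∀ v v' : ι → Fin 4 → ℂ, (∀ i, v i 0 = 1) → (∀ i, v' i 0 = 1) →
      (∀ i, eval (v i) F = 0) → (∀ i, eval (v' i) F = 0) → AlgebraicIndependent K (st v) →
      AlgebraicIndependent K (st v') →
      ∃ σ : ℂ ≃+* ℂ, (∀ x ∈ K, σ x = x) ∧ ∀ i k, σ (v i k) = v' i k := by
    refine Finite.induction_empty_option (P := fun ι => ∀ v v' : ι → Fin 4 → ℂ,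
      (∀ i, v i 0 = 1) → (∀ i, v' i 0 = 1) →
      (∀ i, eval (v i) F = 0) → (∀ i, eval (v' i) F = 0) → AlgebraicIndependent K (st v) →
      AlgebraicIndependent K (st v') →
      ∃ σ : ℂ ≃+* ℂ, (∀ x ∈ K, σ x = x) ∧ ∀ i k, σ (v i k) = v' i k) ?_ ?_ ?_ ι
    · intro α β e hP v v' h0 h0' hv hv' hi hi'
      obtain ⟨σ, h1, h2⟩ := hP (fun i => v (e i)) (fun i => v' (e i)) (fun i => h0 _)
        (fun i => h0' _) (fun i => hv _) (fun i => hv' _) (indep_comp hi e.injective)
        (indep_comp hi' e.injective)
      refine ⟨σ, h1, fun i k => ?_⟩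
      have := h2 (e.symm i) k
      rwa [Equiv.apply_symm_apply] at this
    · intro v v' _ _ _ _ _ _
      exact ⟨RingEquiv.refl ℂ, fun x _ => rfl, fun i => i.elim⟩
    · intro α _ ih v v' h0 h0' hv hv' hi hi'
      obtain ⟨σ0, h1, h2⟩ := ih (fun i => v (some i)) (fun i => v' (some i)) (fun i => h0 _)
        (fun i => h0' _) (fun i => hv _) (fun i => hv' _) (indep_comp hi (Option.some_injective α))
        (indep_comp hi' (Option.some_injective α))
      -- the tuple moved by `σ0`
      set u : Option α → Fin 4 → ℂ := fun i k => σ0 (v i k) with hu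
      have hu0 : ∀ i, u i 0 = 1 := fun i => by rw [hu]; simp [h0]
      have huv : ∀ i, eval (u i) F = 0 := fun i => by
        rw [hu, eval_aut hFK h1, hv, map_zero]
      have hui : AlgebraicIndependent K (st u) := by
        have h3 := indep_aut hi h1
        convert h3 using 1
        funext q
        obtain ⟨i, k⟩ := q
        fin_cases k <;> rfl
      have hus : (fun i => u (some i)) = fun i => v' (some i) := by
        funext i k
        exact h2 i k
      set L := fld K fun i => v' (some i) with hL
      have hKL : ∀ x ∈ K, x ∈ L := fun x hx => Subfield.subset_closure (Or.inl hx)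
      have hLc : Countable L := S.Hn.countable_closure _
        ((Set.countable_coe_iff.1 inferInstance).union (Set.countable_range _))
      have hiL : AlgebraicIndependent L ![v' none 1, v' none 2] :=
        indep_next hF hl hFK h0' hv' hi'
      have hiL' : AlgebraicIndependent L ![u none 1, u none 2] := by
        have := indep_next hF hl hFK hu0 huv hui
        rwa [hus] at this
      obtain ⟨σ1, h3, h4⟩ := exists_autK hiL' hiL
      have h41 : σ1 (u none 1) = v' none 1 := h4 0
      have h42 : σ1 (u none 2) = v' none 2 := h4 1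
      -- the third coordinate
      obtain ⟨f, hf, hfe⟩ := irreducible_over hF hirr hl (fun e => hKL _ (hFK e)) hiL
      have hc : Countable (IntermediateField.adjoin L ({v' none 1, v' none 2} : Set ℂ)) := by
        have h5 : ((Set.range (algebraMap L ℂ)) ∪ {v' none 1, v' none 2}).Countable :=
          (Set.countable_range _).union (Set.toFinite _).countable
        exact S.Hn.countable_closure _ h5
      have hz : Polynomial.aeval (σ1 (u none 3)) f = 0 := by
        rw [hfe]
        have h5 : (![1, v' none 1, v' none 2, σ1 (u none 3)] : Fin 4 → ℂ) =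
            fun k => σ1 (u none k) := by
          funext k
          fin_cases k
          · change 1 = σ1 (u none 0)
            rw [hu0, map_one]
          · exact h41.symm
          · exact h42.symm
          · rfl
        rw [h5, eval_aut hFK (fun x hx => h3 x (hKL x hx)), huv, map_zero]
      have hz' : Polynomial.aeval (v' none 3) f = 0 := by
        rw [hfe]
        have h5 : (![1, v' none 1, v' none 2, v' none 3] : Fin 4 → ℂ) = v' none := by
          funext k
          fin_cases k
          · exact (h0' none).symm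
          · rfl
          · rfl
          · rfl
        rw [h5]
        exact hv' none
      obtain ⟨σ2, h5, h6⟩ := exists_aut_roots hf hz hz'
      have h5' : ∀ x ∈ IntermediateField.adjoin L ({v' none 1, v' none 2} : Set ℂ), σ2 x = x :=
        fun x hx => h5 ⟨x, hx⟩
      have h5L : ∀ x ∈ L, σ2 x = x := fun x hx =>
        h5' x (IntermediateField.algebraMap_mem _ (⟨x, hx⟩ : L))
      refine ⟨(σ0.trans σ1).trans σ2, fun x hx => ?_, ?_⟩
      · change σ2 (σ1 (σ0 x)) = x
        rw [h1 x hx, h3 x (hKL x hx), h5L x (hKL x hx)]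
      · rintro (_ | i) k
        · change σ2 (σ1 (u none k)) = v' none k
          fin_cases k
          · change σ2 (σ1 (u none 0)) = v' none 0
            rw [hu0, map_one, map_one, h0']
          · change σ2 (σ1 (u none 1)) = v' none 1
            rw [h41]
            exact h5' _ (IntermediateField.subset_adjoin _ _ (by simp))
          · change σ2 (σ1 (u none 2)) = v' none 2
            rw [h42]
            exact h5' _ (IntermediateField.subset_adjoin _ _ (by simp))
          · exact h6
        · have h7 : v' (some i) k ∈ L := Subfield.subset_closure (Or.inr ⟨(i, k), rfl⟩)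
          change σ2 (σ1 (σ0 (v (some i) k))) = v' (some i) k
          rw [h2 i k, h3 _ h7, h5L _ h7]
  exact main v v' h0 h0' hv hv' hi hi'

end Pool.Agent.Lib.MP_ed661f_ag.W
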