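import Pool.Agent.Lib.MP_ed661f_ag.W.PM
import Pool.Agent.Lib.MP_ed661f_ag.R.Rev

/-!
One of the ten points is moved to the point at infinity of `ℙ¹ × ℙ¹`.
-/

set_option autoImplicit false

open MvPolynomial

namespace Pool.Agent.Lib.MP_ed661f_ag.W

open S E R

/-- the order of the reversed polynomial at the origin -/
theorem le_mlt_rev {A B : ℕ} {g : Pol} (hg : g ≠ 0) (hB : g ∈ Box A B) :
    A + B - g.totalDegree ≤ mlt (fun _ => 0) (rev A B g) := by
  rw [le_mlt_iff (rev_ne_zero hB hg)]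
  intro e he
  have htay : tay (fun _ => (0 : ℂ)) (rev A B g) = rev A B g := by
    have h1 : (aeval (fun i => X i + C 0) : Pol →ₐ[ℂ] Pol) = AlgHom.id ℂ _ := by
      apply MvPolynomial.algHom_ext
      intro i
      simp
    exact congrArg (fun φ => φ (rev A B g)) h1
  rw [htay, rev_eq_sum, coeff_sum]
  refine Finset.sum_eq_zero fun f hf => ?_
  rw [coeff_monomial, if_neg]
  rintro rfl
  have h1 := le_totalDegree hf
  rw [Finsupp.sum_fintype _ _ (fun _ => rfl), Fin.sum_univ_two] at h1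
  rw [Finsupp.degree_eq_sum, Fin.sum_univ_two, rexp_zero, rexp_one] at he
  obtain ⟨h2, h3⟩ := mem_Box_support.1 hB f hf
  omega

/-- the inequality with the first point at infinity -/
theorem nef_inf {n : ℕ} {x x' : Fin 5 → Pt} {y : Fin n → Pt}
    (hz : Generic (Sum.elim x (Sum.elim x' y))) {a b : ℝ} {c : Fin 5 → ℝ} {s : ℝ} (ha : 0 ≤ a)
    (hb : 0 ≤ b) (hc : ∀ j, 0 ≤ c j) (hs : 0 ≤ s) (hab : a + b = ∑ j, c j)
    (hq : n * s ^ 2 ≤ 2 * (a * b - ∑ j, c j ^ 2)) :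
    ∃ (z : Fin 4 → Pt) (z' : Fin 5 → Pt) (w : Fin n → Pt), ∀ g : Pol, g ≠ 0 →
      ∑ j : Fin 4, c j.succ * (mlt (z j) g : ℝ) + ∑ j, c j * (mlt (z' j) g : ℝ) +
        s * ∑ i, (mlt (w i) g : ℝ) ≤
      c 0 * g.totalDegree + (b - c 0) * g.degreeOf 0 + (a - c 0) * g.degreeOf 1 := by
  have hinj := hz.injective
  have hne : ∀ i j : Fin 5 ⊕ (Fin 5 ⊕ Fin n), i ≠ j → ∀ k,
      (Sum.elim x (Sum.elim x' y)) i k ≠ (Sum.elim x (Sum.elim x' y)) j k := by
    intro i j hij k h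
    have := hinj (a₁ := (i, k)) (a₂ := (j, k)) h
    exact hij (Prod.mk.inj this).1
  have htor : ∀ i : Fin 5 ⊕ (Fin 5 ⊕ Fin n), i ≠ Sum.inl 0 →
      Tor (fun k => - x 0 k + 1 * (Sum.elim x (Sum.elim x' y)) i k) := by
    intro i hi
    have h1 : ∀ k, - x 0 k + 1 * (Sum.elim x (Sum.elim x' y)) i k ≠ 0 := by
      intro k h0
      apply hne i (Sum.inl 0) hi k
      have : (Sum.elim x (Sum.elim x' y)) i k = x 0 k := by linear_combination h0
      exact this
    exact ⟨h1 0, h1 1⟩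
  refine ⟨fun j => inv (fun k => - x 0 k + 1 * x j.succ k),
    fun j => inv (fun k => - x 0 k + 1 * x' j k),
    fun j => inv (fun k => - x 0 k + 1 * y j k), fun g hg => ?_⟩
  set A := g.degreeOf 0 with hA
  set B := g.degreeOf 1 with hB
  have hbox : g ∈ Box A B := mem_Box.2 ⟨le_rfl, le_rfl⟩
  set G : Pol := sub (fun k => - x 0 k) (fun _ => 1) (rev A B g) with hG
  have hrev : rev A B g ≠ 0 := rev_ne_zero hbox hg
  have hG0 : G ≠ 0 := sub_ne_zero (fun _ => one_ne_zero) hrev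
  have hGm : ∀ p : Pt, mlt p G = mlt (fun k => - x 0 k + 1 * p k) (rev A B g) := fun p =>
    mlt_sub (fun _ => one_ne_zero) hrev p
  have hGt : G = tay (fun k => - x 0 k) (rev A B g) := by
    ext e
    rw [hG, coeff_sub, one_pow, one_pow, one_mul, one_mul]
  have hGbox := mem_Box.1 (show G ∈ Box A B by
    rw [hGt]
    exact tay_mem_Box _ (rev_mem g))
  have hG1 : ∀ i : Fin 5 ⊕ (Fin 5 ⊕ Fin n), i ≠ Sum.inl 0 →
      mlt ((Sum.elim x (Sum.elim x' y)) i) G =
        mlt (inv (fun k => - x 0 k + 1 * (Sum.elim x (Sum.elim x' y)) i k)) g := by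
    intro i hi
    have h1 := mlt_rev hbox hg (htor i hi).inv
    rw [inv_inv'] at h1
    rw [hGm, h1]
  have hG2 : A + B - g.totalDegree ≤ mlt (x 0) G := by
    rw [hGm]
    have h1 : (fun k => - x 0 k + 1 * x 0 k) = fun _ => (0 : ℂ) := by
      funext k
      ring
    rw [h1]
    exact le_mlt_rev hg hbox
  have h1 := nef_generic hz a b c s ha hb hc hs hab hq hG0
  have h2 : ∑ j, c j * ((mlt (x j) G : ℝ) + mlt (x' j) G) =
      c 0 * (mlt (x 0) G : ℝ) + ∑ j : Fin 4, c j.succ * (mlt (x j.succ) G : ℝ) +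
        ∑ j, c j * (mlt (x' j) G : ℝ) := by
    have h3 : ∑ j, c j * ((mlt (x j) G : ℝ) + mlt (x' j) G) =
        ∑ j, c j * (mlt (x j) G : ℝ) + ∑ j, c j * (mlt (x' j) G : ℝ) := by
      rw [← Finset.sum_add_distrib]
      exact Finset.sum_congr rfl fun j _ => mul_add _ _ _
    rw [h3, Fin.sum_univ_succ]
  rw [h2] at h1
  have e1 : ∀ j : Fin 4, mlt (x j.succ) G = mlt (inv (fun k => - x 0 k + 1 * x j.succ k)) g :=
    fun j => hG1 (Sum.inl j.succ) (by simp [Fin.succ_ne_zero])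
  have e2 : ∀ j : Fin 5, mlt (x' j) G = mlt (inv (fun k => - x 0 k + 1 * x' j k)) g :=
    fun j => hG1 (Sum.inr (Sum.inl j)) (by simp)
  have e3 : ∀ j : Fin n, mlt (y j) G = mlt (inv (fun k => - x 0 k + 1 * y j k)) g :=
    fun j => hG1 (Sum.inr (Sum.inr j)) (by simp)
  simp only [e1, e2, e3] at h1
  have h3 : (A : ℝ) + B - g.totalDegree ≤ mlt (x 0) G := by
    have : (A : ℝ) + B ≤ mlt (x 0) G + g.totalDegree := by
      exact_mod_cast (by omega : A + B ≤ mlt (x 0) G + g.totalDegree)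
    linarith
  have h4 := mul_le_mul_of_nonneg_left h3 (hc 0)
  have h5 : a * (G.degreeOf 1 : ℝ) ≤ a * B :=
    mul_le_mul_of_nonneg_left (by exact_mod_cast hGbox.2) ha
  have h6 : b * (G.degreeOf 0 : ℝ) ≤ b * A :=
    mul_le_mul_of_nonneg_left (by exact_mod_cast hGbox.1) hb
  linarith

end Pool.Agent.Lib.MP_ed661f_ag.W
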