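import Mathlib

/-!
The positive cone of the six-dimensional lattice.
-/

set_option autoImplicit false

namespace Pool.Agent.Lib.MP_ed661f_ag.W

/-- the positive cone -/
theorem cone_facts {a b : ℝ} {c : Fin 5 → ℝ} (hab : a + b = ∑ j, c j)
    (hD : ∑ j, c j ^ 2 < a * b) (hh : 0 < a + b - c 0) :
    0 < a ∧ 0 < b ∧ (∀ j, 0 < c j) ∧ c 0 < a ∧ c 0 < b := by
  rw [Fin.sum_univ_five] at hab hD
  have h0 : 0 < a * b := by
    refine lt_of_le_of_lt ?_ hD
    positivity
  have hapos : 0 < a + b := by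
    by_contra hneg
    push Not at hneg
    have h1 : (a + b) ^ 2 ≤ c 0 ^ 2 := by nlinarith
    nlinarith [sq_nonneg (a - b), sq_nonneg (c 1), sq_nonneg (c 2), sq_nonneg (c 3),
      sq_nonneg (c 4)]
  have ha : 0 < a := by
    by_contra hneg
    push Not at hneg
    have h1 : 0 < b := by linarith
    nlinarith
  have hb : 0 < b := by
    by_contra hneg
    push Not at hneg
    nlinarith
  have hab2 : 4 * (a * b) ≤ (a + b) ^ 2 := by nlinarith [sq_nonneg (a - b)]
  have key : ∀ p q r s t : ℝ, a + b = p + q + r + s + t →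
      p ^ 2 + q ^ 2 + r ^ 2 + s ^ 2 + t ^ 2 < a * b → 0 < p := by
    intro p q r s t h1 h2
    by_contra hneg
    push Not at hneg
    have h3 : a + b ≤ q + r + s + t := by linarith
    have h4 : (a + b) ^ 2 ≤ (q + r + s + t) ^ 2 := by nlinarith
    have h5 : (q + r + s + t) ^ 2 ≤ 4 * (q ^ 2 + r ^ 2 + s ^ 2 + t ^ 2) := by
      nlinarith [sq_nonneg (q - r), sq_nonneg (q - s), sq_nonneg (q - t), sq_nonneg (r - s),
        sq_nonneg (r - t), sq_nonneg (s - t)]
    nlinarith [sq_nonneg p]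
  have hc : ∀ j, 0 < c j := by
    intro j
    fin_cases j
    · exact key (c 0) (c 1) (c 2) (c 3) (c 4) (by linarith) (by linarith)
    · exact key (c 1) (c 0) (c 2) (c 3) (c 4) (by linarith) (by linarith)
    · exact key (c 2) (c 0) (c 1) (c 3) (c 4) (by linarith) (by linarith)
    · exact key (c 3) (c 0) (c 1) (c 2) (c 4) (by linarith) (by linarith)
    · exact key (c 4) (c 0) (c 1) (c 2) (c 3) (by linarith) (by linarith)
  have h6 : (c 1 + c 2 + c 3 + c 4) ^ 2 ≤ 4 * (c 1 ^ 2 + c 2 ^ 2 + c 3 ^ 2 + c 4 ^ 2) := by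
    nlinarith [sq_nonneg (c 1 - c 2), sq_nonneg (c 1 - c 3), sq_nonneg (c 1 - c 4),
      sq_nonneg (c 2 - c 3), sq_nonneg (c 2 - c 4), sq_nonneg (c 3 - c 4)]
  have h7 : ∀ a' b' : ℝ, 0 < b' → a' + b' = a + b → a' * b' = a * b → c 0 < a' := by
    intro a' b' hb' h1 h2
    by_contra hneg
    push Not at hneg
    -- `c 0 = a' + δ`
    have h8 : c 1 + c 2 + c 3 + c 4 = b' - (c 0 - a') := by linarith
    rw [h8] at h6
    nlinarith [sq_nonneg (a' - b' / 2 + (c 0 - a')), sq_nonneg (c 0 - a'),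
      mul_nonneg (sub_nonneg.2 hneg) hb'.le]
  exact ⟨ha, hb, hc, h7 a b hb rfl rfl, h7 b a ha (by ring) (by ring)⟩

end Pool.Agent.Lib.MP_ed661f_ag.W
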