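import Pool.Agent.Lib.MP_ed661f_ag.W.ProjSplit

/-!
A line which meets the surface in `d` distinct points.
-/

set_option autoImplicit false

open MvPolynomial

namespace Pool.Agent.Lib.MP_ed661f_ag.W

open H T

/-- **a transversal line**: an irreducible form of degree `d` with a nonzero coefficient at `x_3^d`
has `d` distinct zeros on some line `(1, p_0, p_1, *)`.

PROOF. Let `f ∈ ℂ[s,t][Z]` be `F(1,s,t,Z)` (see `S.Hn.uni` or `S.uni` in S/Chart, with
`natDegree = d`, leading coefficient the constant `coeff (single 3 d) F`). It is irreducible in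
`ℂ[s,t][Z]` (a factorisation of the dehomogenised form gives one of `F`, as `X 0` does not divide
`F`; or use primality of `span {F} ⊔ ..`; T/ExistsLoc and S/Irr have similar statements), hence by
the lemma of Gauss irreducible over `ℂ(s,t)`; its derivative is nonzero of smaller degree, so it is
coprime to it: `A f + B f' = Δ`, `0 ≠ Δ ∈ ℂ[s,t]`. Choose `(p_0,p_1)` with `Δ(p_0,p_1) ≠ 0`
(`MvPolynomial.funext`): then `F(1,p_0,p_1,Z) ∈ ℂ[Z]` has degree `d` and is coprime to its
derivative, so it has `d` distinct roots. -/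
theorem exists_line {d : ℕ} {F : Poly 3} (hF : F.IsHomogeneous d) (hirr : Irreducible F)
    (hl : coeff (Finsupp.single 3 d) F ≠ 0) :
    ∃ (p₀ : Fin 2 → ℂ) (c : Fin d → ℂ), Function.Injective c ∧
      ∀ j, eval ![1, p₀ 0, p₀ 1, c j] F = 0 := by
  classical
  set l := coeff (Finsupp.single (3 : Fin 4) d) F with hl'
  set G : Poly 3 := C l⁻¹ * F with hG
  have hlu : IsUnit (C l⁻¹ : Poly 3) := (Ne.isUnit (inv_ne_zero hl)).map C
  have hirrG : Irreducible G := (irreducible_isUnit_mul hlu).2 hirr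
  have hGh : G.IsHomogeneous d := by
    have := (isHomogeneous_C (Fin 4) l⁻¹).mul hF
    rwa [zero_add] at this
  have hlast : (Fin.last 3 : Fin 4) = 3 := rfl
  have hGc : coeff (Finsupp.single (Fin.last 3) d) G = 1 := by
    rw [hlast, hG, coeff_C_mul, ← hl', inv_mul_cancel₀ hl]
  have hcoef := coeff_eqv hGh
  rw [hGc, C_1] at hcoef
  have hnd' : (eqv G).natDegree = d := by
    refine le_antisymm ((natDegree_eqv_le G).trans hGh.totalDegree_le)
      (Polynomial.le_natDegree_of_ne_zero ?_)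
    rw [hcoef]
    exact one_ne_zero
  have hmonic : (eqv G).Monic := by
    rw [Polynomial.Monic, Polynomial.leadingCoeff, hnd', hcoef]
  have hirr' : Irreducible (eqv G) := (MulEquiv.irreducible_iff eqv).2 hirrG
  obtain ⟨p, hp0, c, hc, hfib⟩ := exists_fibre hmonic hirr'
  have hroot : ∀ k, ((eqv G).map (eval p)).eval (c k) = 0 := by
    intro k
    rw [hfib, Polynomial.eval_prod]
    exact Finset.prod_eq_zero (Finset.mem_univ k) (by simp)
  have hGF : ∀ v : Fin 4 → ℂ, eval v G = 0 → eval v F = 0 := by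
    intro v hv
    rw [hG, map_mul, eval_C] at hv
    exact (mul_eq_zero.1 hv).resolve_left (inv_ne_zero hl)
  refine ⟨![(p 0)⁻¹ * p 1, (p 0)⁻¹ * p 2],
    fun j => (p 0)⁻¹ * c (Fin.cast hnd'.symm j), fun i j hij => ?_, fun j => ?_⟩
  · exact Fin.cast_injective _ (hc (mul_left_cancel₀ (inv_ne_zero hp0) hij))
  · have h1 : (![1, (![(p 0)⁻¹ * p 1, (p 0)⁻¹ * p 2] : Fin 2 → ℂ) 0,
        (![(p 0)⁻¹ * p 1, (p 0)⁻¹ * p 2] : Fin 2 → ℂ) 1,
        (p 0)⁻¹ * c (Fin.cast hnd'.symm j)] : Fin 4 → ℂ) =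
        fun i => (p 0)⁻¹ * (Fin.snoc p (c (Fin.cast hnd'.symm j)) : Fin 4 → ℂ) i := by
      funext i
      fin_cases i
      · change (1 : ℂ) = (p 0)⁻¹ * p 0
        rw [inv_mul_cancel₀ hp0]
      · rfl
      · rfl
      · rfl
    have h2 : eval (Fin.snoc p (c (Fin.cast hnd'.symm j)) : Fin 4 → ℂ) G = 0 := by
      rw [eval_snoc_eqv]
      exact hroot _
    have h3 := hGF _ h2
    refine (congrArg (fun v : Fin 4 → ℂ => eval v F) h1).trans ?_
    exact (hom_eval hF _ _).trans (by rw [h3, mul_zero])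

end Pool.Agent.Lib.MP_ed661f_ag.W
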