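import Pool.Agent.Lib.MP_ed661f_ag.W.Planes
import Pool.Agent.Lib.MP_ed661f_ag.W.Line
import Pool.Agent.Lib.MP_ed661f_ag.W.Aut
import Pool.Agent.Lib.MP_ed661f_ag.S.Transport
import Pool.Agent.Lib.MP_ed661f_ag.S.Irr
import Pool.Agent.Lib.MP_ed661f_ag.T.Curves

/-!
The inequality for all curves on a surface in three-space at very general points.
-/

set_option autoImplicit false

open MvPolynomial
open scoped ENNReal

namespace Pool.Agent.Lib.MP_ed661f_ag.W

open S E R H

/-- the inequality for the forms is transported by the automorphisms of `ℂ` over the field of the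
coefficients -/
theorem FW.transport (σ : ℂ ≃+* ℂ) {F : Poly 3} (hσ : map (σ : ℂ →+* ℂ) F = F) {ι : Type}
    {v v' : ι → Fin 4 → ℂ} (hv : ∀ i k, σ (v' i k) = v i k) {ρ : ι → ℝ} (h : FW F v' ρ) :
    FW F v ρ := by
  intro m w G hG hw hmem
  have h1 : ∀ i, map (σ.symm : ℂ →+* ℂ) G ∈
      Ideal.span {F} ⊔ vecIdeal (v' i) ^ w i ⊔ Ideal.span {X 0 - 1} := by
    intro i
    apply mem_map_symm σ
    rw [hσ]
    have e : (fun k => σ (v' i k)) = v i := funext (hv i)
    rw [e]
    exact hmem i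
  have h2 := h m w _ (hG.map _) hw h1
  have h3 := map_dvd (MvPolynomial.map (σ : ℂ →+* ℂ)) h2
  rwa [hσ, map_symm_map] at h3

/-- **the inequality for curves at very general points**: `d` families of weights for which the
inequality for plane curves holds somewhere. -/
theorem curve_ineq3 {d : ℕ} {F : Poly 3} (hF : F.IsHomogeneous d) (hirr : Irreducible F)
    (hl : coeff (Finsupp.single 3 d) F ≠ 0) {K : Subfield ℂ} [Countable K]
    (hFK : ∀ e, coeff e F ∈ K) {κ : Fin d → Type} [∀ j, Fintype (κ j)] {h : ℝ} (hh : 0 < h)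
    {W : (j : Fin d) → κ j → ℝ} (hW0 : ∀ j i, 0 ≤ W j i) (hW2 : ∀ j, ∑ i, W j i ^ 2 = h ^ 2)
    (hPE : ∀ j, PE h (W j)) {v : ((j : Fin d) × κ j) → Fin 4 → ℂ} (h0 : ∀ q, v q 0 = 1)
    (hv : ∀ q, eval (v q) F = 0) (hi : AlgebraicIndependent K (st v)) {P : Ideal (Poly 3)}
    (hP : IsCurveOn (Ideal.span {F}) P) :
    ∑ q, ENNReal.ofReal (W q.1 q.2 / h) * mult P (v q) ≤ deg P := by
  classical
  have hd : 1 ≤ d := by
    rcases Nat.eq_zero_or_pos d with hd0 | hd0
    · subst hd0
      exact absurd (isUnit_of_degree_zero hF hirr.ne_zero) hirr.not_isUnit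
    · exact hd0
  obtain ⟨p₀, c, hc, hroots⟩ := exists_line hF hirr hl
  obtain ⟨v', h0', hv', hs', hi', hFW⟩ :=
    exists_special hd hF hl hc hroots K hh hW0 hW2 hPE
  obtain ⟨σ, hσK, hσ⟩ := exists_aut hF hirr hl hFK h0' h0 hv' hv hi' hi
  have hσF : map (σ : ℂ →+* ℂ) F = F := by
    ext e
    rw [coeff_map]
    exact hσK _ (hFK e)
  have hFW2 : FW F v (fun q => W q.1 q.2 / h) := FW.transport σ hσF hσ hFW
  have hs : ∀ q, eval (v q) (pderiv 3 F) ≠ 0 := by
    intro q hz
    apply hs' q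
    have e : v q = fun k => σ (v' q k) := funext fun k => (hσ q k).symm
    rw [e, ← hσF, pderiv_map, eval_map_equiv] at hz
    exact (map_eq_zero_iff σ σ.injective).1 hz
  let E := Fintype.equivFin ((j : Fin d) × κ j)
  have key := T.curves_of_forms hF hirr hl (v := fun i => v (E.symm i)) (fun i => h0 _)
    (fun i => hv _) (fun i => hs _) (ρ := fun i => W (E.symm i).1 (E.symm i).2 / h)
    (fun i => div_nonneg (hW0 _ _) hh.le)
    (by
      rw [Equiv.sum_comp E.symm (fun q => (W q.1 q.2 / h) ^ 2), Fintype.sum_sigma]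
      have h1 : ∀ j : Fin d, ∑ i : κ j, (W j i / h) ^ 2 = 1 := by
        intro j
        simp only [div_pow]
        rw [← Finset.sum_div, hW2 j]
        exact div_self (pow_ne_zero 2 hh.ne')
      rw [Finset.sum_congr rfl fun j _ => h1 j]
      simp)
    (fun m w G hG hw hmem => by
      refine hFW2 m (fun q => w (E q)) G hG (fun q => ?_) (fun q => ?_)
      · obtain ⟨i, rfl⟩ := E.symm.surjective q
        rw [E.apply_symm_apply]
        exact hw i
      · obtain ⟨i, rfl⟩ := E.symm.surjective q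
        rw [E.apply_symm_apply]
        exact hmem i)
    hP
  rwa [Equiv.sum_comp E.symm (fun q => ENNReal.ofReal (W q.1 q.2 / h) * mult P (v q))] at key

end Pool.Agent.Lib.MP_ed661f_ag.W
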