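import Pool.Agent.Lib.MP_ed661f_ag.W.DefsGen

/-!
Blow-ups of surfaces in projective space in very general points: definitions.
-/

set_option autoImplicit false

open MvPolynomial
open scoped ENNReal

namespace Pool.Agent.Lib.MP_ed661f_ag.W

open H

/-- the intersection number `L · C'` of `L = h H - ∑ E_i` with the proper transform `C'` of the
curve `C` with homogeneous ideal `P` on the blow-up of the surface in the points represented by
`x i`: it is `h deg C - ∑ mult_{x i} C` -/
noncomputable def inter {N r : ℕ} (h : ℕ) (x : Fin r → Fin (N + 1) → ℂ) (P : Ideal (Poly N)) : ℝ :=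
  h * (deg P).toReal - ∑ i, (mult P (x i)).toReal

/-- the Seshadri constant of `L = h H - ∑ E_i` on the blow-up of the surface with ideal `I` in the
points `x i`, at the points `y j` of the surface: the infimum of
`L · C' / ∑ mult_{y j} C'` over all irreducible curves with `∑ mult_{y j} C' > 0`, that is over the
curves through at least one `y j` -/
noncomputable def seshadriBl {N r n : ℕ} (I : Ideal (Poly N)) (h : ℕ)
    (x : Fin r → Fin (N + 1) → ℂ) (y : Fin n → Fin (N + 1) → ℂ) : ℝ :=
  sInf {t : ℝ | ∃ P, IsCurveOn I P ∧ 0 < ∑ j, (mult P (y j)).toReal ∧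
    t = inter h x P / ∑ j, (mult P (y j)).toReal}

/-- the affine coordinates `x_1, x_2` of the points -/
noncomputable def st {ι : Type} (v : ι → Fin 4 → ℂ) : ι × Fin 2 → ℂ := fun q => ![v q.1 1, v q.1 2] q.2

/-- the inequality for the forms: a form of degree `m` which vanishes to order `> ρ i * m` at the
point `v i` of the surface `F = 0`, for every `i`, is divisible by `F` -/
def FW {ι : Type} (F : Poly 3) (v : ι → Fin 4 → ℂ) (ρ : ι → ℝ) : Prop :=
  ∀ (m : ℕ) (w : ι → ℕ) (G : Poly 3), G.IsHomogeneous m → (∀ i, ρ i * m < w i) →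
    (∀ i, G ∈ Ideal.span {F} ⊔ vecIdeal (v i) ^ w i ⊔ Ideal.span {X 0 - 1}) → F ∣ G

end Pool.Agent.Lib.MP_ed661f_ag.W
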