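import Pool.Agent.Lib.MP_ed661f_ag.H.Defs

/-!
Very general tuples of points of a surface in projective space: definition.
-/

set_option autoImplicit false

open MvPolynomial
open scoped ENNReal

namespace Pool.Agent.Lib.MP_ed661f_ag.W

open H

/-- `v` is a tuple of vectors of the affine cone over the variety with homogeneous ideal `I` which
satisfies no polynomial equation with coefficients in `K`, except those which are satisfied by all
tuples of vectors of the cone. For a countable field `K` this says that the tuple lies outside
countably many proper closed subsets of the product of the cones: it is very general. -/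
def Gen {N : ℕ} (K : Subfield ℂ) (I : Ideal (Poly N)) {ι : Type} (v : ι → Fin (N + 1) → ℂ) :
    Prop :=
  (∀ i, ∀ F ∈ I, eval (v i) F = 0) ∧
    ∀ Q : MvPolynomial (ι × Fin (N + 1)) K, aeval (fun q => v q.1 q.2) Q = 0 →
      ∀ w : ι → Fin (N + 1) → ℂ, (∀ i, ∀ F ∈ I, eval (w i) F = 0) →
        aeval (fun q => w q.1 q.2) Q = 0

end Pool.Agent.Lib.MP_ed661f_ag.W
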