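import Pool.Agent.Lib.MP_ed661f_ag.W.DefsGen

/-!
Blow-ups of surfaces in very general points, arbitrary classes: definitions.

`L : Fin (r + 1) → ℤ` stands for the class `L = h H - ∑ m_i E_i`, `h = L 0`, `m_i = L i.succ`, on
the blow-up of the surface in `r` points, `H` = hyperplane class.
-/

set_option autoImplicit false

open MvPolynomial
open scoped ENNReal

namespace Pool.Agent.Lib.MP_ed661f_ag.W

open H

/-- the intersection number `L · C'` of `L = h H - ∑ m_i E_i` with the proper transform `C'` of the
curve `C` with homogeneous ideal `P`: it is `h deg C - ∑ m_i mult_{x i} C` -/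
noncomputable def interL {N r : ℕ} (L : Fin (r + 1) → ℤ) (x : Fin r → Fin (N + 1) → ℂ)
    (P : Ideal (Poly N)) : ℝ :=
  L 0 * (deg P).toReal - ∑ i : Fin r, L i.succ * (mult P (x i)).toReal

/-- the self-intersection number `L² = h² H² - ∑ m_i²` -/
noncomputable def selfL {N r : ℕ} (I : Ideal (Poly N)) (L : Fin (r + 1) → ℤ) : ℝ :=
  (L 0 : ℝ) ^ 2 * (surfDeg I).toReal - ∑ i : Fin r, (L i.succ : ℝ) ^ 2

/-- the Seshadri constant of `L` on the blow-up of the surface with ideal `I` in the points `x i`,
at the points `y j` of the surface: the infimum of `L · C' / ∑ mult_{y j} C'` over all irreducible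
curves with `∑ mult_{y j} C' > 0`, that is over the curves through at least one `y j` -/
noncomputable def seshadriL {N r n : ℕ} (I : Ideal (Poly N)) (L : Fin (r + 1) → ℤ)
    (x : Fin r → Fin (N + 1) → ℂ) (y : Fin n → Fin (N + 1) → ℂ) : ℝ :=
  sInf {t : ℝ | ∃ P, IsCurveOn I P ∧ 0 < ∑ j, (mult P (y j)).toReal ∧
    t = interL L x P / ∑ j, (mult P (y j)).toReal}

end Pool.Agent.Lib.MP_ed661f_ag.W
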