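import Pool.Agent.Lib.MP_ed661f_ag.W.Defs

/-!
Blow-ups of surfaces in very general points, with multiplicities: definitions.
-/

set_option autoImplicit false

open MvPolynomial
open scoped ENNReal

namespace Pool.Agent.Lib.MP_ed661f_ag.W

open H

/-- the intersection number `L · C'` of `L = h H - ∑ m_i E_i` with the proper transform `C'` of the
curve `C` with homogeneous ideal `P` on the blow-up of the surface in the points represented by
`x i`: it is `h deg C - ∑ m_i mult_{x i} C` -/
noncomputable def interW {N r : ℕ} (h : ℕ) (m : Fin r → ℕ) (x : Fin r → Fin (N + 1) → ℂ)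
    (P : Ideal (Poly N)) : ℝ :=
  h * (deg P).toReal - ∑ i, m i * (mult P (x i)).toReal

/-- the self-intersection number `L² = h² H² - ∑ m_i²` -/
noncomputable def selfW {N r : ℕ} (I : Ideal (Poly N)) (h : ℕ) (m : Fin r → ℕ) : ℝ :=
  h ^ 2 * (surfDeg I).toReal - ∑ i, (m i : ℝ) ^ 2

/-- the Seshadri constant of `L = h H - ∑ m_i E_i` on the blow-up of the surface with ideal `I` in
the points `x i`, at the points `y j` of the surface: the infimum of
`L · C' / ∑ mult_{y j} C'` over all irreducible curves with `∑ mult_{y j} C' > 0`, that is over the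
curves through at least one `y j` -/
noncomputable def seshadriW {N r n : ℕ} (I : Ideal (Poly N)) (h : ℕ) (m : Fin r → ℕ)
    (x : Fin r → Fin (N + 1) → ℂ) (y : Fin n → Fin (N + 1) → ℂ) : ℝ :=
  sInf {t : ℝ | ∃ P, IsCurveOn I P ∧ 0 < ∑ j, (mult P (y j)).toReal ∧
    t = interW h m x P / ∑ j, (mult P (y j)).toReal}

/-- `L = h H - ∑ m_i E_i` on the blow-up of the surface with ideal `I` in very general points `x i`
has positive self-intersection, is positive on all curves, and for every `n ≥ 1` its Seshadri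
constant at `n` very general points is `√(L² / n)` -/
def Good {N r : ℕ} (K : Subfield ℂ) (I : Ideal (Poly N)) (h : ℕ) (m : Fin r → ℕ) : Prop :=
  0 < selfW I h m ∧ ∀ x : Fin r → Fin (N + 1) → ℂ, Gen K I x →
    (∀ P, IsCurveOn I P → 0 < interW h m x P) ∧
    ∀ n : ℕ, 1 ≤ n → ∀ y : Fin n → Fin (N + 1) → ℂ, Gen K I (Sum.elim x y) →
      seshadriW I h m x y = Real.sqrt (selfW I h m / n)

/-- the same for a nef `L` -/
def GoodNef {N r : ℕ} (K : Subfield ℂ) (I : Ideal (Poly N)) (h : ℕ) (m : Fin r → ℕ) : Prop :=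
  0 < selfW I h m ∧ ∀ x : Fin r → Fin (N + 1) → ℂ, Gen K I x →
    (∀ P, IsCurveOn I P → 0 ≤ interW h m x P) ∧
    ∀ n : ℕ, 1 ≤ n → ∀ y : Fin n → Fin (N + 1) → ℂ, Gen K I (Sum.elim x y) →
      seshadriW I h m x y = Real.sqrt (selfW I h m / n)

end Pool.Agent.Lib.MP_ed661f_ag.W
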