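import Pool.Agent.Lib.MP_ed661f_ag.W.Defs

/-!
Very general tuples of points of a surface: one more point.
-/

set_option autoImplicit false

open MvPolynomial

namespace Pool.Agent.Lib.MP_ed661f_ag.W

open H

variable {N : ℕ} {K : Subfield ℂ}

/-- the linear functional on the polynomials with the given values at the monomials -/
noncomputable def fnl (c : (Fin (N + 1) →₀ ℕ) → ℂ) : Poly N →ₗ[ℂ] ℂ :=
  (basisMonomials (Fin (N + 1)) ℂ).constr ℂ c

theorem fnl_apply (c : (Fin (N + 1) →₀ ℕ) → ℂ) {F : Poly N} {A : Finset (Fin (N + 1) →₀ ℕ)}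
    (hA : F.support ⊆ A) : fnl c F = ∑ e ∈ A, coeff e F * c e := by
  have h1 : F = ∑ e ∈ A, coeff e F • (monomial e (1 : ℂ)) := by
    conv_lhs => rw [F.as_sum]
    rw [Finset.sum_subset hA]
    · exact Finset.sum_congr rfl fun e _ => by rw [smul_monomial, smul_eq_mul, mul_one]
    · intro e _ he
      rw [notMem_support_iff.1 he, monomial_zero]
  conv_lhs => rw [h1]
  rw [map_sum]
  refine Finset.sum_congr rfl fun e _ => ?_
  rw [map_smul, smul_eq_mul]
  congr 1
  exact (basisMonomials (Fin (N + 1)) ℂ).constr_basis ℂ c e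

/-- the value of the monomial -/
noncomputable def mon (u : Fin (N + 1) → ℂ) (e : Fin (N + 1) →₀ ℕ) : ℂ := e.prod fun j k => u j ^ k

/-- the coordinates over `K` of the values of the monomials at `u` -/
noncomputable def lamK {κ : Type} (b : Module.Basis κ K ℂ) (u : Fin (N + 1) → ℂ) (k : κ)
    (e : Fin (N + 1) →₀ ℕ) : K := b.repr (mon u e) k

theorem eval_eq_sum (u : Fin (N + 1) → ℂ) {F : Poly N} {A : Finset (Fin (N + 1) →₀ ℕ)}
    (hA : F.support ⊆ A) : eval u F = ∑ e ∈ A, coeff e F * mon u e := by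
  rw [eval_eq, ← Finset.sum_subset hA]
  · exact Finset.sum_congr rfl fun e _ => rfl
  · intro e _ he
    rw [notMem_support_iff.1 he, zero_mul]

/-- a polynomial with coefficients in `K` which vanishes at `u` is killed by the functionals -/
theorem fnl_eq_zero_of_coeff {κ : Type} (b : Module.Basis κ K ℂ) {u : Fin (N + 1) → ℂ} {F : Poly N}
    (hF : ∀ e, coeff e F ∈ K) (h0 : eval u F = 0) (k : κ) :
    fnl (fun e => (lamK b u k e : ℂ)) F = 0 := by
  rw [fnl_apply _ (Finset.Subset.refl _)]
  rw [eval_eq_sum u (Finset.Subset.refl _)] at h0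
  have h1 : ∑ e ∈ F.support, (⟨coeff e F, hF e⟩ : K) • mon u e = 0 := by
    rw [← h0]
    exact Finset.sum_congr rfl fun e _ => rfl
  have h2 := congrArg (fun x => b.repr x k) h1
  simp only [map_sum, map_smul, Finsupp.coe_finsetSum, Finset.sum_apply, Finsupp.smul_apply,
    map_zero, Finsupp.coe_zero, Pi.zero_apply] at h2
  have h3 := congrArg (fun x : K => (x : ℂ)) h2
  simp only [smul_eq_mul, K.coe_zero] at h3
  rw [← h3]
  push_cast
  rfl

/-- the ideal of a variety defined over `K` is killed by the functionals -/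
theorem fnl_eq_zero {I : Ideal (Poly N)}
    (hK : I = Ideal.span {F | F ∈ I ∧ ∀ e, coeff e F ∈ K}) {κ : Type} (b : Module.Basis κ K ℂ)
    {u : Fin (N + 1) → ℂ} (hu : ∀ F ∈ I, eval u F = 0) {F : Poly N} (hF : F ∈ I) (k : κ) :
    fnl (fun e => (lamK b u k e : ℂ)) F = 0 := by
  suffices h : ∀ G : Poly N, fnl (fun e => (lamK b u k e : ℂ)) (G * F) = 0 by
    have := h 1
    rwa [one_mul] at this
  rw [hK] at hF
  induction hF using Submodule.span_induction with
  | mem F h =>
    intro G
    induction G using MvPolynomial.induction_on' with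
    | monomial e c =>
      have h1 : monomial e c * F = c • (monomial e (1 : ℂ) * F) := by
        rw [← smul_mul_assoc, smul_monomial, smul_eq_mul, mul_one]
      rw [h1, map_smul, smul_eq_mul]
      refine mul_eq_zero_of_right _ (fnl_eq_zero_of_coeff b (fun e' => ?_) ?_ k)
      · rw [coeff_monomial_mul']
        split_ifs
        · rw [one_mul]
          exact h.2 _
        · exact K.zero_mem
      · rw [map_mul, hu F h.1, mul_zero]
    | add p q h1 h2 => rw [add_mul, map_add, h1, h2, add_zero]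
  | zero =>
    intro G
    rw [mul_zero, map_zero]
  | add F G _ _ h1 h2 =>
    intro H
    rw [mul_add, map_add, h1, h2, add_zero]
  | smul a F hF h1 =>
    intro G
    have := h1 (G * a)
    rwa [mul_assoc] at this

/-- the value at `u` is determined by the functionals -/
theorem eval_eq_zero_of_fnl {κ : Type} (b : Module.Basis κ K ℂ) {u : Fin (N + 1) → ℂ} {F : Poly N}
    (h : ∀ k, fnl (fun e => (lamK b u k e : ℂ)) F = 0) : eval u F = 0 := by
  classical
  set S : Finset κ := F.support.biUnion fun e => (b.repr (mon u e)).support with hS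
  have h1 : ∀ e ∈ F.support, mon u e = ∑ k ∈ S, (lamK b u k e : ℂ) * b k := by
    intro e he
    conv_lhs => rw [← b.linearCombination_repr (mon u e), Finsupp.linearCombination_apply,
      Finsupp.sum]
    rw [Finset.sum_subset (Finset.subset_biUnion_of_mem (fun e => (b.repr (mon u e)).support) he)]
    · exact Finset.sum_congr rfl fun k _ => rfl
    · intro k _ hk
      rw [Finsupp.notMem_support_iff.1 hk, zero_smul]
  rw [eval_eq_sum u (Finset.Subset.refl _)]
  calc ∑ e ∈ F.support, coeff e F * mon u e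
      = ∑ e ∈ F.support, ∑ k ∈ S, coeff e F * (lamK b u k e : ℂ) * b k := by
        refine Finset.sum_congr rfl fun e he => ?_
        rw [h1 e he, Finset.mul_sum]
        exact Finset.sum_congr rfl fun k _ => by ring
    _ = ∑ k ∈ S, fnl (fun e => (lamK b u k e : ℂ)) F * b k := by
        rw [Finset.sum_comm]
        refine Finset.sum_congr rfl fun k _ => ?_
        rw [fnl_apply _ (Finset.Subset.refl _), Finset.sum_mul]
    _ = 0 := Finset.sum_eq_zero fun k _ => by rw [h k, zero_mul]

/-- substitution of the old vectors -/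
noncomputable def old {ι : Type} (v : ι → Fin (N + 1) → ℂ) :
    MvPolynomial (Option ι × Fin (N + 1)) K →ₐ[K] Poly N :=
  aeval fun q => q.1.elim (X q.2) fun i => C (v i q.2)

theorem eval_old {ι : Type} (v : ι → Fin (N + 1) → ℂ) (u : Fin (N + 1) → ℂ)
    (Q : MvPolynomial (Option ι × Fin (N + 1)) K) :
    eval u (old v Q) = aeval (fun q => (q.1.elim u v) q.2 : Option ι × Fin (N + 1) → ℂ) Q := by
  have h1 : ((aeval u : Poly N →ₐ[ℂ] ℂ).restrictScalars K).comp (old v) =
      (aeval (fun q => (q.1.elim u v) q.2 : Option ι × Fin (N + 1) → ℂ) :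
        MvPolynomial (Option ι × Fin (N + 1)) K →ₐ[K] ℂ) := by
    apply MvPolynomial.algHom_ext
    rintro ⟨_ | i, j⟩
    · simp [old]
    · simp [old]
  have h2 := DFunLike.congr_fun h1 Q
  rw [← h2]
  simp

/-- the old variables as coefficients -/
noncomputable def split {ι : Type} (Q : MvPolynomial (Option ι × Fin (N + 1)) K) :
    MvPolynomial (Fin (N + 1)) (MvPolynomial (ι × Fin (N + 1)) K) :=
  aeval (fun q => q.1.elim (X q.2) fun i => C (X (i, q.2))) Q

theorem old_eq {ι : Type} (v : ι → Fin (N + 1) → ℂ)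
    (Q : MvPolynomial (Option ι × Fin (N + 1)) K) :
    old v Q = map (aeval (fun q : ι × Fin (N + 1) => v q.1 q.2) :
      MvPolynomial (ι × Fin (N + 1)) K →ₐ[K] ℂ).toRingHom (split Q) := by
  induction Q using MvPolynomial.induction_on with
  | C a =>
    simp [old, split, algebraMap_eq, MvPolynomial.algebraMap_apply]
  | add p q h1 h2 =>
    rw [split, map_add, map_add, map_add, h1, h2, split, split]
  | mul_X p q h1 =>
    rw [split, map_mul, map_mul, map_mul, h1, split]
    congr 1
    obtain ⟨_ | i, j⟩ := q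
    · simp [old]
    · simp [old]

/-- **the main point**: a polynomial with coefficients in `K` which at a generic tuple of old vectors
gives an element of the ideal vanishes at all tuples -/
theorem Gen.aeval_eq_zero {I : Ideal (Poly N)}
    (hK : I = Ideal.span {F | F ∈ I ∧ ∀ e, coeff e F ∈ K}) {ι : Type}
    {v : ι → Fin (N + 1) → ℂ} (hv : Gen K I v) (Q : MvPolynomial (Option ι × Fin (N + 1)) K)
    (hQ : old v Q ∈ I) (v' : ι → Fin (N + 1) → ℂ) (hv' : ∀ i, ∀ F ∈ I, eval (v' i) F = 0)
    (u : Fin (N + 1) → ℂ) (hu : ∀ F ∈ I, eval u F = 0) :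
    aeval (fun q => (q.1.elim u v') q.2 : Option ι × Fin (N + 1) → ℂ) Q = 0 := by
  let b := Module.Basis.ofVectorSpace K ℂ
  rw [← eval_old]
  refine eval_eq_zero_of_fnl b fun k => ?_
  set P : MvPolynomial (ι × Fin (N + 1)) K :=
    ∑ e ∈ (split Q).support, coeff e (split Q) * C (lamK b u k e) with hP
  have key : ∀ w : ι → Fin (N + 1) → ℂ, fnl (fun e => (lamK b u k e : ℂ)) (old w Q) =
      aeval (fun q : ι × Fin (N + 1) => w q.1 q.2) P := by
    intro w
    have hs : (old w Q).support ⊆ (split Q).support := by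
      rw [old_eq]
      exact support_map_subset _ _
    rw [fnl_apply _ hs, hP, map_sum]
    refine Finset.sum_congr rfl fun e _ => ?_
    rw [old_eq, coeff_map, map_mul]
    congr 1
    rw [aeval_C]
    rfl
  rw [key]
  refine hv.2 P ?_ v' hv'
  rw [← key]
  exact fnl_eq_zero hK b hu hQ k

/-- **one more very general point**, over a field of definition `K` of the surface -/
theorem Gen.exists_extend_aux {I : Ideal (Poly N)} [Countable K]
    (hA : ∀ s : Set (Poly N), s.Countable → (∀ Q ∈ s, Q ∉ I) →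
      ∃ v : Fin (N + 1) → ℂ, (∀ F ∈ I, eval v F = 0) ∧ ∀ Q ∈ s, eval v Q ≠ 0)
    (hK : I = Ideal.span {F | F ∈ I ∧ ∀ e, coeff e F ∈ K}) {ι : Type} [Finite ι]
    {v : ι → Fin (N + 1) → ℂ} (hv : Gen K I v) :
    ∃ w : Fin (N + 1) → ℂ, Gen K I (fun o : Option ι => o.elim w v) := by
  have hcount : Countable (MvPolynomial (Option ι × Fin (N + 1)) K) := by
    have h1 : Countable (Option ι × Fin (N + 1)) := Finite.to_countable
    have h2 : Countable K := inferInstance
    rw [← Cardinal.mk_le_aleph0_iff] at h1 h2 ⊢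
    exact cardinalMk_le_max.trans (max_le (max_le h2 h1) le_rfl)
  obtain ⟨w, hw, hw'⟩ := hA
    (old v '' {Q : MvPolynomial (Option ι × Fin (N + 1)) K | old v Q ∉ I})
    ((Set.to_countable _).image _) (by
      rintro _ ⟨Q, hQ, rfl⟩
      exact hQ)
  refine ⟨w, ?_, ?_⟩
  · rintro (_ | i) F hF
    · exact hw F hF
    · exact hv.1 i F hF
  · intro Q hQ w' hw''
    have h1 : old v Q ∈ I := by
      by_contra hcon
      apply hw' _ ⟨Q, hcon, rfl⟩
      rw [eval_old]
      exact hQ
    have h2 := hv.aeval_eq_zero hK Q h1 (fun i => w' (some i)) (fun i => hw'' (some i)) (w' none)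
      (hw'' none)
    have h3 : (fun q : Option ι × Fin (N + 1) => w' q.1 q.2) =
        fun q => (q.1.elim (w' none) fun i => w' (some i)) q.2 := by
      funext q
      obtain ⟨_ | i, j⟩ := q
      · rfl
      · rfl
    rw [h3]
    exact h2

/-- **very general tuples exist** -/
theorem exists_gen_aux {I : Ideal (Poly N)} [Countable K]
    (hA : ∀ s : Set (Poly N), s.Countable → (∀ Q ∈ s, Q ∉ I) →
      ∃ v : Fin (N + 1) → ℂ, (∀ F ∈ I, eval v F = 0) ∧ ∀ Q ∈ s, eval v Q ≠ 0)
    (hK : I = Ideal.span {F | F ∈ I ∧ ∀ e, coeff e F ∈ K}) {ι : Type} [Finite ι] :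
    ∃ v : ι → Fin (N + 1) → ℂ, Gen K I v := by
  refine Finite.induction_empty_option (P := fun ι => ∃ v : ι → Fin (N + 1) → ℂ, Gen K I v) ?_ ?_
    ?_ ι
  · rintro α β e ⟨v, hv⟩
    refine ⟨fun i => v (e.symm i), fun i => hv.1 _, fun Q hQ w hw => ?_⟩
    have h1 := hv.2 (rename (fun q => (e.symm q.1, q.2)) Q) (by
      rw [aeval_rename]
      exact hQ) (fun i => w (e i)) fun i => hw _
    rw [aeval_rename] at h1
    have h3 : (fun q : β × Fin (N + 1) => w q.1 q.2) =
        (fun q : α × Fin (N + 1) => w (e q.1) q.2) ∘ fun q => (e.symm q.1, q.2) := by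
      funext q
      simp
    rw [h3]
    exact h1
  · refine ⟨fun i => i.elim, fun i => i.elim, fun Q hQ w _ => ?_⟩
    rw [← hQ]
    refine congrArg (fun f => aeval f Q) (funext fun q => q.1.elim)
  · rintro α _ ⟨v, hv⟩
    obtain ⟨w, hw⟩ := hv.exists_extend_aux hA hK
    exact ⟨_, hw⟩

end Pool.Agent.Lib.MP_ed661f_ag.W
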