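import Pool.Agent.Lib.MP_ed661f_ag.W.ExistsAvoid
import Pool.Agent.Lib.MP_ed661f_ag.W.ExistsGen

/-!
Very general tuples of points of a surface exist.
-/

set_option autoImplicit false

open MvPolynomial

namespace Pool.Agent.Lib.MP_ed661f_ag.W

open H

/-- **one more very general point**, over a field of definition `K` of the surface -/
theorem Gen.exists_extend {N : ℕ} {I : Ideal (Poly N)} (hI : IsSurface I) {K : Subfield ℂ}
    [Countable K] (hK : I = Ideal.span {F | F ∈ I ∧ ∀ e, coeff e F ∈ K}) {ι : Type} [Finite ι]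
    {v : ι → Fin (N + 1) → ℂ} (hv : Gen K I v) :
    ∃ w : Fin (N + 1) → ℂ, Gen K I (fun o : Option ι => o.elim w v) :=
  hv.exists_extend_aux (fun _ hs h => exists_avoid hI hs h) hK

/-- **very general tuples exist** -/
theorem exists_gen {N : ℕ} {I : Ideal (Poly N)} (hI : IsSurface I) {K : Subfield ℂ}
    [Countable K] (hK : I = Ideal.span {F | F ∈ I ∧ ∀ e, coeff e F ∈ K}) {ι : Type} [Finite ι] :
    ∃ v : ι → Fin (N + 1) → ℂ, Gen K I v :=
  exists_gen_aux (fun _ hs h => exists_avoid hI hs h) hK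

end Pool.Agent.Lib.MP_ed661f_ag.W
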