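import Pool.Agent.Lib.MP_ed661f_ag.W.GenAff2
import Pool.Agent.Lib.MP_ed661f_ag.W.Adm
import Pool.Agent.Lib.MP_ed661f_ag.W.Exists
import Pool.Agent.Lib.MP_ed661f_ag.S.Up.UpperGen
import Pool.Agent.Lib.MP_ed661f_ag.S.Lower

/-!
Blow-ups of arbitrary surfaces in very general points: the Seshadri constants of `h H - ∑ E_i`.
-/

set_option autoImplicit false

open MvPolynomial
open scoped ENNReal

namespace Pool.Agent.Lib.MP_ed661f_ag.W

open H T

variable {N : ℕ} {I : Ideal (Poly N)} {d q : ℕ} {F : Poly 3} {L : Fin 4 → Poly N} {s : D3}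

/-- multiplicities of curves are finite, and the inequality in real numbers -/
theorem real_ineq {P : Ideal (Poly N)} (hP : IsCurveOn I P) {m r n : ℕ} {t : ℝ} (ht : 0 < t)
    {x : Fin r → Fin (N + 1) → ℂ} {y : Fin n → Fin (N + 1) → ℂ}
    (h : ∑ i, mult P (x i) + ENNReal.ofReal t * ∑ j, mult P (y j) ≤ m * deg P) :
    (∀ i, mult P (x i) ≠ ⊤) ∧ (∀ j, mult P (y j) ≠ ⊤) ∧
      ∑ i, (mult P (x i)).toReal + t * ∑ j, (mult P (y j)).toReal ≤ m * (deg P).toReal := by
  have hd := (S.degree_curve hP).2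
  have hfin : ∑ i, mult P (x i) + ENNReal.ofReal t * ∑ j, mult P (y j) ≠ ⊤ :=
    ne_top_of_le_ne_top (ENNReal.mul_ne_top (ENNReal.natCast_ne_top m) hd) h
  have h1 : ∑ i, mult P (x i) ≠ ⊤ := (ENNReal.add_ne_top.1 hfin).1
  have h2 : ∑ j, mult P (y j) ≠ ⊤ := by
    intro h3
    apply (ENNReal.add_ne_top.1 hfin).2
    rw [h3, ENNReal.mul_top]
    exact (ENNReal.ofReal_pos.2 ht).ne'
  have hx : ∀ i, mult P (x i) ≠ ⊤ := fun i => (ENNReal.sum_ne_top.1 h1) i (Finset.mem_univ i)
  have hy : ∀ j, mult P (y j) ≠ ⊤ := fun i => (ENNReal.sum_ne_top.1 h2) i (Finset.mem_univ i)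
  refine ⟨hx, hy, ?_⟩
  have h3 := ENNReal.toReal_mono (ENNReal.mul_ne_top (ENNReal.natCast_ne_top m) hd) h
  rw [ENNReal.toReal_add h1 (ENNReal.add_ne_top.1 hfin).2, ENNReal.toReal_mul, ENNReal.toReal_mul,
    ENNReal.toReal_ofReal ht.le, ENNReal.toReal_sum fun i _ => hx i,
    ENNReal.toReal_sum fun i _ => hy i, ENNReal.toReal_natCast] at h3
  exact h3

section

variable (h : Proj4 I d q F L s) (hI : IsSurface I) {K : Subfield ℂ} [Countable K]
  (hFK : ∀ e, coeff e F ∈ K) (hsK : ∀ e, coeff e s ∈ K) {m D r : ℕ} (hD : 1 ≤ D)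
  (hadm : Admissible m D) (hr : r + 2 * D = m ^ 2 * d)

include h hI hFK hsK hD hadm hr

theorem ineq_sqrt {n : ℕ} (hn : 1 ≤ n) {x : Fin r → Fin (N + 1) → ℂ}
    {y : Fin n → Fin (N + 1) → ℂ} (hv : Aff K I L (Sum.elim x y)) {P : Ideal (Poly N)}
    (hP : IsCurveOn I P) :
    ∑ i, mult P (x i) + ENNReal.ofReal (Real.sqrt (2 * D / n)) * ∑ j, mult P (y j) ≤
      m * deg P := by
  obtain ⟨a, b, c, hab, hm, hc⟩ := hadm
  have hn0 : (0 : ℝ) < n := by exact_mod_cast hn
  refine ineqN (a := a) (b := b) (c := c) hab (Real.sqrt_nonneg _) ?_ hm ?_ ?_ h hI hFK hsK hv hP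
  · rw [Real.sq_sqrt (by positivity)]
    have h1 : (a : ℝ) * b = ∑ j, (c j : ℝ) ^ 2 + D := by exact_mod_cast hc
    rw [h1]
    field_simp
    ring
  · by_contra h0
    have h1 : a + b = 0 := by omega
    have h2 : a = 0 := by omega
    rw [h2, zero_mul] at hc
    omega
  · rw [hc]
    have := hr
    nlinarith

/-- **positivity on all curves** -/
theorem inter_pos {x : Fin r → Fin (N + 1) → ℂ} (hx : Aff K I L x) {P : Ideal (Poly N)}
    (hP : IsCurveOn I P) : 0 < inter m x P := by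
  classical
  obtain ⟨y, hy⟩ := hx.exists_extend h
  have hD0 : (1 : ℝ) < Real.sqrt (2 * D / (1 : ℕ)) := by
    rw [Real.lt_sqrt (by norm_num)]
    have : (1 : ℝ) ≤ D := by exact_mod_cast hD
    push_cast
    linarith
  obtain ⟨hd0, hd1⟩ := S.degree_curve hP
  have hm : 1 ≤ m := by
    by_contra hcon
    have h0 : m = 0 := by omega
    rw [h0] at hr
    simp at hr
    omega
  unfold inter
  rw [sub_pos]
  have h1 := ineq_sqrt h hI hFK hsK hD hadm hr le_rfl hy hP
  obtain ⟨hx1, hy1, h2⟩ := real_ineq hP (lt_trans one_pos hD0) h1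
  by_cases hz : ∀ i, (mult P (x i)).toReal = 0
  · rw [Finset.sum_eq_zero fun i _ => hz i]
    have h3 : 0 < (deg P).toReal := ENNReal.toReal_pos hd0 hd1
    have h4 : (0 : ℝ) < m := by exact_mod_cast hm
    positivity
  · push Not at hz
    obtain ⟨i₀, hi₀⟩ := hz
    have hpos : 0 < (mult P (x i₀)).toReal := lt_of_le_of_ne ENNReal.toReal_nonneg (Ne.symm hi₀)
    -- exchange the new point and `x i₀`
    have hsw := hy.comp (Equiv.swap (Sum.inl i₀ : Fin r ⊕ Fin 1) (Sum.inr 0)).injective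
    have hsw' : (Sum.elim x fun _ : Fin 1 => y) ∘ (Equiv.swap (Sum.inl i₀ : Fin r ⊕ Fin 1)
        (Sum.inr 0)) = Sum.elim (Function.update x i₀ y) fun _ : Fin 1 => x i₀ := by
      funext i
      rcases i with i | i
      · rw [Function.comp_apply]
        by_cases hi : i = i₀
        · subst hi
          rw [Equiv.swap_apply_left, Sum.elim_inl, Function.update_self]
          rfl
        · rw [Equiv.swap_apply_of_ne_of_ne (by simpa using hi) (by simp), Sum.elim_inl,
            Sum.elim_inl, Function.update_of_ne hi]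
      · have hi : i = 0 := Subsingleton.elim _ _
        subst hi
        rw [Function.comp_apply, Equiv.swap_apply_right, Sum.elim_inl, Sum.elim_inr]
    rw [hsw'] at hsw
    have h3 := ineq_sqrt h hI hFK hsK hD hadm hr le_rfl hsw hP
    obtain ⟨hx2, hy2, h4⟩ := real_ineq hP (lt_trans one_pos hD0) h3
    have h5 : ∑ i, (mult P (x i)).toReal ≤ ∑ i, (mult P (Function.update x i₀ y i)).toReal +
        (mult P (x i₀)).toReal := by
      rw [← Finset.add_sum_erase _ _ (Finset.mem_univ i₀),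
        ← Finset.add_sum_erase Finset.univ (fun i => (mult P (Function.update x i₀ y i)).toReal)
          (Finset.mem_univ i₀)]
      have h6 : ∑ i ∈ Finset.univ.erase i₀, (mult P (Function.update x i₀ y i)).toReal =
          ∑ i ∈ Finset.univ.erase i₀, (mult P (x i)).toReal := by
        refine Finset.sum_congr rfl fun i hi => ?_
        rw [Function.update_of_ne (Finset.ne_of_mem_erase hi)]
      rw [h6]
      have h7 : 0 ≤ (mult P (Function.update x i₀ y i₀)).toReal := ENNReal.toReal_nonneg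
      linarith
    rw [Fin.sum_univ_one] at h4
    have h8 : (mult P (x i₀)).toReal < Real.sqrt (2 * D / (1 : ℕ)) * (mult P (x i₀)).toReal := by
      nlinarith
    linarith

/-- **the Seshadri constants** -/
theorem seshadriBl_eq (hd : surfDeg I = d) {n : ℕ} (hn : 1 ≤ n) {x : Fin r → Fin (N + 1) → ℂ}
    {y : Fin n → Fin (N + 1) → ℂ} (hv : Aff K I L (Sum.elim x y)) :
    seshadriBl I m x y = Real.sqrt (2 * D / n) := by
  have hn0 : (0 : ℝ) < n := by exact_mod_cast hn
  have hD0 : (0 : ℝ) < D := by exact_mod_cast hD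
  have ht : 0 < Real.sqrt (2 * D / n) := Real.sqrt_pos.2 (by positivity)
  have hm : 1 ≤ m := by
    by_contra hcon
    have h0 : m = 0 := by omega
    rw [h0] at hr
    simp at hr
    omega
  have hineq : ∀ P, IsCurveOn I P → ∑ i, (mult P (x i)).toReal +
      Real.sqrt (2 * D / n) * ∑ j, (mult P (y j)).toReal ≤ m * (deg P).toReal := fun P hP =>
    (real_ineq hP ht (ineq_sqrt h hI hFK hsK hD hadm hr hn hv hP)).2.2
  have hxt : ∀ P, IsCurveOn I P → (∀ i, mult P (x i) ≠ ⊤) ∧ ∀ j, mult P (y j) ≠ ⊤ := fun P hP =>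
    ⟨(real_ineq hP ht (ineq_sqrt h hI hFK hsK hD hadm hr hn hv hP)).1,
      (real_ineq hP ht (ineq_sqrt h hI hFK hsK hD hadm hr hn hv hP)).2.1⟩
  -- nonzero vectors
  have hne : ∀ i : Fin r ⊕ Fin n, (Sum.elim x y : Fin r ⊕ Fin n → Fin (N + 1) → ℂ) i ≠ 0 := by
    intro i h0
    apply hv.ne i
    rw [h0]
    have h1 := eval_smul_linear (h.hL 0) (0 : ℂ) (0 : Fin (N + 1) → ℂ)
    rwa [zero_smul, zero_mul] at h1
  -- curves with a small ratio
  have hex : ∀ ε : ℝ, Real.sqrt (2 * D / n) < ε → ∃ P, IsCurveOn I P ∧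
      0 < ∑ j, (mult P (y j)).toReal ∧ inter m x P / ∑ j, (mult P (y j)).toReal < ε := by
    intro ε hε
    by_contra hcon
    push Not at hcon
    have hε0 : 0 < ε := ht.trans hε
    have h1 := S.Up.blowup_upper hI hd hm (x := x) (y := y) (fun i => hne (Sum.inl i))
      (fun i => hv.mem (Sum.inl i)) (fun i => hne (Sum.inr i)) (fun i => hv.mem (Sum.inr i)) hε0.le
      (fun P hP => by
        obtain ⟨hx1, hy1⟩ := hxt P hP
        have hdt := (S.degree_curve hP).2
        have h2 : ∑ i, (mult P (x i)).toReal + ε * ∑ j, (mult P (y j)).toReal ≤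
            m * (deg P).toReal := by
          rcases (Finset.sum_nonneg fun j (_ : j ∈ Finset.univ) =>
            (ENNReal.toReal_nonneg : 0 ≤ (mult P (y j)).toReal)).eq_or_lt with h3 | h3
          · have h4 := hineq P hP
            rw [← h3] at h4 ⊢
            linarith
          · have h4 := hcon P hP h3
            rw [le_div_iff₀ h3, inter] at h4
            linarith
        have h3 : ∑ i, mult P (x i) + ENNReal.ofReal ε * ∑ j, mult P (y j) ≠ ⊤ := by
          refine ENNReal.add_ne_top.2 ⟨ENNReal.sum_ne_top.2 fun i _ => hx1 i,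
            ENNReal.mul_ne_top ENNReal.ofReal_ne_top (ENNReal.sum_ne_top.2 fun i _ => hy1 i)⟩
        rw [← ENNReal.toReal_le_toReal h3 (ENNReal.mul_ne_top (ENNReal.natCast_ne_top m) hdt),
          ENNReal.toReal_add (ENNReal.sum_ne_top.2 fun i _ => hx1 i)
            (ENNReal.mul_ne_top ENNReal.ofReal_ne_top (ENNReal.sum_ne_top.2 fun i _ => hy1 i)),
          ENNReal.toReal_mul, ENNReal.toReal_mul, ENNReal.toReal_ofReal hε0.le,
          ENNReal.toReal_sum fun i _ => hx1 i, ENNReal.toReal_sum fun i _ => hy1 i,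
          ENNReal.toReal_natCast]
        exact h2)
    have h2 : (r : ℝ) + 2 * D = m ^ 2 * d := by exact_mod_cast hr
    have h3 : ε ^ 2 ≤ 2 * D / n := by
      rw [le_div_iff₀ hn0]
      linarith
    have h4 : ε ≤ Real.sqrt (2 * D / n) := Real.le_sqrt_of_sq_le h3
    linarith
  have hbdd : BddBelow {t : ℝ | ∃ P, IsCurveOn I P ∧ 0 < ∑ j, (mult P (y j)).toReal ∧
      t = inter m x P / ∑ j, (mult P (y j)).toReal} := by
    refine ⟨Real.sqrt (2 * D / n), ?_⟩
    rintro _ ⟨P, hP, hpos, rfl⟩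
    rw [le_div_iff₀ hpos, inter]
    have := hineq P hP
    linarith
  unfold seshadriBl
  apply le_antisymm
  · refine le_of_forall_gt_imp_ge_of_dense fun ε hε => ?_
    obtain ⟨P, hP, hpos, hlt⟩ := hex ε hε
    exact (csInf_le hbdd ⟨P, hP, hpos, rfl⟩).trans hlt.le
  · obtain ⟨P, hP, hpos, -⟩ := hex (Real.sqrt (2 * D / n) + 1) (by linarith)
    refine le_csInf ⟨_, P, hP, hpos, rfl⟩ ?_
    rintro _ ⟨P, hP, hpos, rfl⟩
    rw [le_div_iff₀ hpos, inter]
    have := hineq P hP
    linarith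

end

/-- a countable field of definition -/
theorem exists_field (I : Ideal (Poly N)) (F : Poly 3) (L : Fin 4 → Poly N) (s : D3) : ∃ K : Subfield ℂ,
    (K : Set ℂ).Countable ∧ I = Ideal.span {G | G ∈ I ∧ ∀ e, coeff e G ∈ K} ∧
      (∀ e, coeff e F ∈ K) ∧ (∀ e, coeff e s ∈ K) ∧ ∀ i e, coeff e (L i) ∈ K := by
  classical
  obtain ⟨A, hA⟩ := (IsNoetherian.noetherian I : I.FG)
  let Z : Set ℂ := (⋃ G ∈ (A : Set (Poly N)), Set.range fun e => coeff e G) ∪
    ((Set.range fun e => coeff e F) ∪ ((Set.range fun e => coeff e s) ∪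
      ⋃ i, Set.range fun e => coeff e (L i)))
  have hZ : Z.Countable := by
    refine Set.Countable.union ?_ (Set.Countable.union (Set.countable_range _)
      (Set.Countable.union (Set.countable_range _) (Set.countable_iUnion fun i =>
        Set.countable_range _)))
    exact Set.Countable.biUnion A.countable_toSet fun G _ => Set.countable_range _
  have : Countable (Subfield.closure Z) := S.Hn.countable_closure Z hZ
  refine ⟨Subfield.closure Z, Set.countable_coe_iff.1 this, ?_, ?_, ?_, ?_⟩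
  · apply le_antisymm
    · rw [← hA]
      refine Ideal.span_mono fun G hG => ⟨?_, fun e => ?_⟩
      · exact Ideal.subset_span hG
      · exact Subfield.subset_closure (Or.inl (Set.mem_biUnion hG ⟨e, rfl⟩))
    · rw [Ideal.span_le]
      exact fun G hG => hG.1
  · exact fun e => Subfield.subset_closure (Or.inr (Or.inl ⟨e, rfl⟩))
  · exact fun e => Subfield.subset_closure (Or.inr (Or.inr (Or.inl ⟨e, rfl⟩)))
  · exact fun i e => Subfield.subset_closure (Or.inr (Or.inr (Or.inr (Set.mem_iUnion.2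
      ⟨i, e, rfl⟩))))

/-- **the main theorem** -/
theorem main (hI : IsSurface I) : ∃ K : Subfield ℂ, (K : Set ℂ).Countable ∧
    (∀ p : ℕ, ∃ v : Fin p → Fin (N + 1) → ℂ, Gen K I v) ∧
    ∀ h D r : ℕ, 1 ≤ D → Admissible h D → (r : ℝ≥0∞) + 2 * D = h ^ 2 * surfDeg I →
      ∀ x : Fin r → Fin (N + 1) → ℂ, Gen K I x →
        (∀ P, IsCurveOn I P → 0 < inter h x P) ∧
        ∀ n : ℕ, 1 ≤ n → ∀ y : Fin n → Fin (N + 1) → ℂ, Gen K I (Sum.elim x y) →
          seshadriBl I h x y = Real.sqrt (2 * D / n) := by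
  obtain ⟨d, q, F, L, s, h⟩ := exists_proj4 hI
  obtain ⟨K, hK, hKI, hFK, hsK, hLK⟩ := exists_field I F L s
  have hKc : Countable K := Set.countable_coe_iff.2 hK
  refine ⟨K, hK, fun p => exists_gen hI hKI, fun m D r hD hadm hr x hx => ?_⟩
  have hd := h.surfDeg_eq hI
  rw [hd] at hr
  have hr' : r + 2 * D = m ^ 2 * d := by exact_mod_cast hr
  refine ⟨fun P hP => inter_pos h hI hFK hsK hD hadm hr' (hx.aff h hLK) hP,
    fun n hn y hy => seshadriBl_eq h hI hFK hsK hD hadm hr' hd hn (hy.aff h hLK)⟩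

end Pool.Agent.Lib.MP_ed661f_ag.W
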