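import Pool.Agent.Lib.MP_ed661f_ag.W.IneqW
import Pool.Agent.Lib.MP_ed661f_ag.W.Main

/-!
Exchange of a point with a new point.
-/

set_option autoImplicit false

open MvPolynomial
open scoped ENNReal

namespace Pool.Agent.Lib.MP_ed661f_ag.W

open H T

variable {N : ℕ} {I : Ideal (Poly N)} {d q : ℕ} {F : Poly 3} {L : Fin 4 → Poly N} {s : D3}

theorem map_option {ι : Type} [Fintype ι] (f : ι → ℝ) (t : ℝ) :
    (Finset.univ.val.map (fun o : Option ι => o.elim t f) : Multiset ℝ) =
      t ::ₘ Finset.univ.val.map f := by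
  change Multiset.map (fun o : Option ι => o.elim t f) (none ::ₘ Multiset.map some Finset.univ.val)
    = _
  rw [Multiset.map_cons, Multiset.map_map]
  rfl

theorem map_update {ι : Type} [Fintype ι] [DecidableEq ι] (w : ι → ℝ) (t : ℝ) (i₀ : ι) :
    w i₀ ::ₘ (Finset.univ.val.map (Function.update w i₀ t) : Multiset ℝ) =
      t ::ₘ Finset.univ.val.map w := by
  have h1 : (Finset.univ : Finset ι).val = i₀ ::ₘ (Finset.univ.erase i₀ : Finset ι).val := by
    rw [← Finset.insert_val_of_notMem (Finset.notMem_erase i₀ _),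
      Finset.insert_erase (Finset.mem_univ i₀)]
  rw [h1, Multiset.map_cons, Multiset.map_cons, Function.update_self, Multiset.cons_swap]
  congr 2
  refine Multiset.map_congr rfl fun i hi => ?_
  rw [Function.update_of_ne]
  rintro rfl
  exact Finset.notMem_erase _ _ hi

/-- the point `x i₀` may be given the weight `t` of a new point -/
theorem exch {ι : Type} [Fintype ι] [DecidableEq ι] {w : ι → ℝ} (hw : ∀ i, 0 ≤ w i) {t : ℝ}
    (ht : 0 ≤ t) {H : ℝ} (hH : 0 < H) (hM : PEd d H (t ::ₘ Finset.univ.val.map w))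
    (h : Proj4 I d q F L s) (hI : IsSurface I) {K : Subfield ℂ} [Countable K]
    (hFK : ∀ e, coeff e F ∈ K) (hsK : ∀ e, coeff e s ∈ K) {x : ι → Fin (N + 1) → ℂ}
    {y : Fin (N + 1) → ℂ} (hv : Aff K I L (fun o : Option ι => o.elim y x)) {P : Ideal (Poly N)}
    (hP : IsCurveOn I P) (i₀ : ι) :
    ∑ i, ENNReal.ofReal (Function.update w i₀ t i) * mult P (x i) ≤
      ENNReal.ofReal H * deg P := by
  have h1 := ineqW (ι := Option ι)
    (w := fun o : Option ι => o.elim (w i₀) (Function.update w i₀ t))
    (by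
      rintro (_ | i)
      · exact hw _
      · change 0 ≤ Function.update w i₀ t i
        by_cases hi : i = i₀
        · rw [hi, Function.update_self]
          exact ht
        · rw [Function.update_of_ne hi]
          exact hw i) hH
    (by
      rw [map_option, map_update]
      exact hM) h hI hFK hsK hv hP
  rw [Fintype.sum_option] at h1
  exact le_trans (le_add_of_nonneg_left zero_le) h1

/-- **two-step exchange**: a class with `L · C ≤ 0` on a curve -/
theorem pos2 {ι : Type} [Fintype ι] {w w' : ι → ℝ} (hw : ∀ i, 0 < w i) (hw' : ∀ i, 0 ≤ w' i)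
    {t T : ℝ} (ht : 0 ≤ t) (hT : 0 < T) {H : ℝ} (hH : 0 < H)
    (hM : PEd d H (t ::ₘ Finset.univ.val.map w)) (hM' : PEd d H (T ::ₘ Finset.univ.val.map w'))
    (hwt : ∀ i, w i < t ∨ w' i = w i) (hwT : ∀ i, w' i < T)
    (h : Proj4 I d q F L s) (hI : IsSurface I) {K : Subfield ℂ} [Countable K]
    (hFK : ∀ e, coeff e F ∈ K) (hsK : ∀ e, coeff e s ∈ K) {x : ι → Fin (N + 1) → ℂ}
    {y : Fin (N + 1) → ℂ} (hv : Aff K I L (fun o : Option ι => o.elim y x)) {P : Ideal (Poly N)}
    (hP : IsCurveOn I P) :
    ∑ i, w i * (mult P (x i)).toReal < H * (deg P).toReal := by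
  classical
  obtain ⟨hd0, hd1⟩ := S.degree_curve hP
  have hdpos : 0 < (deg P).toReal := ENNReal.toReal_pos hd0 hd1
  -- the exchanged inequality in real numbers
  have key : ∀ (w : ι → ℝ) (t : ℝ), (∀ i, 0 ≤ w i) → 0 ≤ t →
      PEd d H (t ::ₘ Finset.univ.val.map w) → (∀ i, mult P (x i) ≠ ⊤) → ∀ i₀,
      ∑ i, Function.update w i₀ t i * (mult P (x i)).toReal ≤ H * (deg P).toReal := by
    intro w t hw ht hM hfin i₀
    have h1 := exch hw ht hH hM h hI hFK hsK hv hP i₀
    have h0 : ∀ i, 0 ≤ Function.update w i₀ t i := by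
      intro i
      by_cases hi : i = i₀
      · rw [hi, Function.update_self]
        exact ht
      · rw [Function.update_of_ne hi]
        exact hw i
    have h2 := ENNReal.toReal_mono (ENNReal.mul_ne_top ENNReal.ofReal_ne_top hd1) h1
    rw [ENNReal.toReal_sum (fun i _ => ENNReal.mul_ne_top ENNReal.ofReal_ne_top (hfin i)),
      ENNReal.toReal_mul, ENNReal.toReal_ofReal hH.le] at h2
    refine le_trans (le_of_eq ?_) h2
    refine Finset.sum_congr rfl fun i _ => ?_
    rw [ENNReal.toReal_mul, ENNReal.toReal_ofReal (h0 i)]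
  have hupd : ∀ (w : ι → ℝ) (t : ℝ) (f : ι → ℝ) (i₀ : ι),
      ∑ i, Function.update w i₀ t i * f i = ∑ i, w i * f i + (t - w i₀) * f i₀ := by
    intro w t f i₀
    rw [← Finset.add_sum_erase _ _ (Finset.mem_univ i₀),
      ← Finset.add_sum_erase Finset.univ (fun i => w i * f i) (Finset.mem_univ i₀),
      Function.update_self]
    have h6 : ∑ i ∈ Finset.univ.erase i₀, Function.update w i₀ t i * f i =
        ∑ i ∈ Finset.univ.erase i₀, w i * f i := by
      refine Finset.sum_congr rfl fun i hi => ?_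
      rw [Function.update_of_ne (Finset.ne_of_mem_erase hi)]
    rw [h6]
    ring
  -- all multiplicities are finite
  have hfin : ∀ i, mult P (x i) ≠ ⊤ := by
    have h1 := ineqW (ι := Option ι) (w := fun o : Option ι => o.elim t w)
      (by
        rintro (_ | i)
        · exact ht
        · exact (hw i).le) hH
      (by
        rw [map_option]
        exact hM) h hI hFK hsK hv hP
    rw [Fintype.sum_option] at h1
    have h2 : ∑ i, ENNReal.ofReal (w i) * mult P (x i) ≠ ⊤ :=
      ne_top_of_le_ne_top (ENNReal.mul_ne_top ENNReal.ofReal_ne_top hd1)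
        (le_trans (le_add_of_nonneg_left zero_le) h1)
    intro i h4
    have h5 := (ENNReal.sum_ne_top.1 h2) i (Finset.mem_univ i)
    apply h5
    rw [h4, ENNReal.mul_top]
    exact (ENNReal.ofReal_pos.2 (hw i)).ne'
  by_contra hcon
  push Not at hcon
  have hpos : ∀ i, 0 ≤ (mult P (x i)).toReal := fun i => ENNReal.toReal_nonneg
  -- the first step
  have h1 : ∀ i, w i * (mult P (x i)).toReal = w' i * (mult P (x i)).toReal := by
    intro i
    rcases hwt i with hi | hi
    · have h2 := key w t (fun i => (hw i).le) ht hM hfin i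
      rw [hupd] at h2
      have h3 : (t - w i) * (mult P (x i)).toReal ≤ 0 := by linarith
      have h4 : (mult P (x i)).toReal = 0 := by
        by_contra hne
        have h5 : 0 < (mult P (x i)).toReal := lt_of_le_of_ne (hpos i) (Ne.symm hne)
        have h6 := mul_pos (sub_pos.2 hi) h5
        linarith
      rw [h4, mul_zero, mul_zero]
    · rw [hi]
  have h2 : ∑ i, w i * (mult P (x i)).toReal = ∑ i, w' i * (mult P (x i)).toReal :=
    Finset.sum_congr rfl fun i _ => h1 i
  rw [h2] at hcon
  -- the second step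
  have h3 : ∀ i, (mult P (x i)).toReal = 0 := by
    intro i
    have h4 := key w' T hw' hT.le hM' hfin i
    rw [hupd] at h4
    by_contra hne
    have h5 : 0 < (mult P (x i)).toReal := lt_of_le_of_ne (hpos i) (Ne.symm hne)
    have h6 := mul_pos (sub_pos.2 (hwT i)) h5
    linarith
  rw [Finset.sum_eq_zero fun i _ => by rw [h3 i, mul_zero]] at hcon
  have h7 := mul_pos hH hdpos
  linarith

end Pool.Agent.Lib.MP_ed661f_ag.W
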