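import Pool.Agent.Lib.MP_ed661f_ag.W.ProjMap
import Pool.Agent.Lib.MP_ed661f_ag.A.General

/-!
A vector of the cone over a surface outside countably many hypersurfaces.
-/

set_option autoImplicit false
set_option synthInstance.maxHeartbeats 400000
set_option maxHeartbeats 4000000

open MvPolynomial

namespace Pool.Agent.Lib.MP_ed661f_ag.W

open H T

/-- countably many nonzero polynomials have a common nonzero -/
theorem exists_common_nonzero {n : ℕ} {κ : Type*} [Countable κ]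
    (Φ : κ → MvPolynomial (Fin n) ℂ) (hΦ : ∀ k, Φ k ≠ 0) :
    ∃ t : Fin n → ℂ, ∀ k, eval t (Φ k) ≠ 0 := by
  rcases isEmpty_or_nonempty κ with h | h
  · exact ⟨0, fun k => (h.false k).elim⟩
  · obtain ⟨e, he⟩ := exists_surjective_nat κ
    obtain ⟨t, -, ht⟩ := A.exists_general (fun k => Φ (e k)) (fun k => hΦ (e k))
    refine ⟨t, fun k => ?_⟩
    obtain ⟨j, rfl⟩ := he k
    exact ht j

/-- **a vector of the cone outside countably many hypersurfaces which do not contain it** -/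
theorem exists_avoid {N : ℕ} {I : Ideal (Poly N)} (hI : IsSurface I) {s : Set (Poly N)}
    (hs : s.Countable) (h : ∀ Q ∈ s, Q ∉ I) :
    ∃ v : Fin (N + 1) → ℂ, (∀ F ∈ I, eval v F = 0) ∧ ∀ Q ∈ s, eval v Q ≠ 0 := by
  classical
  have hprime := hI.prime
  have hne : I ≠ ⊤ := hprime.ne_top
  have hdom : IsDomain (Poly N ⧸ I) := Ideal.Quotient.isDomain I
  obtain ⟨y, hy, hinj, hfin⟩ := exists_noether hne hI.homogeneous (r := 3) (by rw [hI.dim]; rfl)
  let _ : Algebra D3 (Poly N ⧸ I) := (proj I y).toRingHom.toAlgebra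
  have hmf : Module.Finite D3 (Poly N ⧸ I) := hfin
  have hint : Algebra.IsIntegral D3 (Poly N ⧸ I) := Algebra.IsIntegral.of_finite _ _
  -- the multiples in `ℂ[y]`
  have hmul : ∀ Q : s, ∃ a : D3, a ≠ 0 ∧ ∃ b : Poly N ⧸ I,
      proj I y a = Ideal.Quotient.mk I (Q : Poly N) * b := by
    intro Q
    have h1 : IsAlgebraic D3 (Ideal.Quotient.mk I (Q : Poly N)) :=
      (Algebra.IsIntegral.isIntegral _).isAlgebraic
    have h2 : Ideal.Quotient.mk I (Q : Poly N) ≠ 0 := by
      rw [Ne, Ideal.Quotient.eq_zero_iff_mem]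
      exact h _ Q.2
    obtain ⟨a, ha, b, hb⟩ := h1.exists_nonzero_dvd (mem_nonZeroDivisors_of_ne_zero h2)
    exact ⟨a, ha, b, hb⟩
  choose a ha b hb using hmul
  have hcount : Countable s := hs.to_subtype
  obtain ⟨u, hu⟩ := exists_common_nonzero a ha
  -- lying over
  have hmax : (vecIdeal (N := 2) u).IsMaximal := finDim_isMaximal u
  obtain ⟨M, hM, hM'⟩ := Ideal.exists_ideal_over_maximal_of_isIntegral (S := Poly N ⧸ I)
    (vecIdeal (N := 2) u) (by
      intro G hG
      have h1 : proj I y G = 0 := hG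
      rw [hinj (h1.trans (map_zero _).symm)]
      exact Ideal.zero_mem _)
  have hMm : (M.comap (Ideal.Quotient.mk I)).IsMaximal :=
    Ideal.comap_isMaximal_of_surjective _ Ideal.Quotient.mk_surjective
  obtain ⟨v, hv⟩ := isMaximal_iff_eq_vanishingIdeal_singleton.1 hMm
  have hmem : ∀ G : Poly N, Ideal.Quotient.mk I G ∈ M ↔ eval v G = 0 := by
    intro G
    have h1 : Ideal.Quotient.mk I G ∈ M ↔ G ∈ M.comap (Ideal.Quotient.mk I) := Iff.rfl
    rw [h1, hv, mem_vanishingIdeal_singleton_iff]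
    rfl
  refine ⟨v, fun G hG => ?_, fun Q hQ h0 => ?_⟩
  · rw [← hmem, Ideal.Quotient.eq_zero_iff_mem.2 hG]
    exact M.zero_mem
  · have h1 : Ideal.Quotient.mk I Q ∈ M := (hmem Q).2 h0
    have h2 : proj I y (a ⟨Q, hQ⟩) ∈ M := by
      rw [hb ⟨Q, hQ⟩]
      exact M.mul_mem_right _ h1
    have h3 : a ⟨Q, hQ⟩ ∈ M.comap (algebraMap D3 (Poly N ⧸ I)) := h2
    rw [hM', mem_vecIdeal] at h3
    exact hu _ h3

end Pool.Agent.Lib.MP_ed661f_ag.W
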