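import Pool.Agent.Lib.MP_ed661f_ag.W.AffIneq
import Pool.Agent.Lib.MP_ed661f_ag.W.Proj

/-!
Very general tuples have independent affine coordinates; extension by one point.
-/

set_option autoImplicit false

open MvPolynomial
open scoped ENNReal

namespace Pool.Agent.Lib.MP_ed661f_ag.W

open H T

variable {N : ℕ} {I : Ideal (Poly N)} {d q : ℕ} {F : Poly 3} {L : Fin 4 → Poly N} {s : D3}

theorem Gen.aff {K : Subfield ℂ} (h : Proj4 I d q F L s) (hLK : ∀ i e, coeff e (L i) ∈ K)
    {ι : Type} [Fintype ι] {v : ι → Fin (N + 1) → ℂ} (hv : Gen K I v) : Aff K I L v := by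
  have h1 := hv.indep (L := fun i : Fin 3 => L i.castSucc) (fun i e => hLK _ e) h.lift3
  have h2 := indep_ratio h1
  refine ⟨hv.1, fun i => h1.ne_zero (i, 0), ?_⟩
  convert h2 using 1
  funext q
  obtain ⟨i, k⟩ := q
  fin_cases k
  · exact aff_apply h.hL (v i) 1
  · exact aff_apply h.hL (v i) 2

theorem Aff.exists_extend {K : Subfield ℂ} [Countable K] (h : Proj4 I d q F L s) {ι : Type}
    [Finite ι] {x : ι → Fin (N + 1) → ℂ} (hx : Aff K I L x) :
    ∃ y : Fin (N + 1) → ℂ, Aff K I L (Sum.elim x fun _ : Fin 1 => y) := by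
  set Z : Set ℂ := K ∪ Set.range (st fun i => aff L (x i)) with hZ
  have hKc : (K : Set ℂ).Countable := Set.countable_coe_iff.1 (inferInstanceAs (Countable K))
  have : Countable (Subfield.closure Z) :=
    S.Hn.countable_closure Z (hKc.union (Set.countable_range _))
  obtain ⟨t, ht⟩ := S.Hn.exists_indep (Subfield.closure Z) (Fin 1 × Fin 2)
  obtain ⟨y, hy1, hy2⟩ := h.lift3 ![1, t (0, 0), t (0, 1)]
  have hy0 : eval y (L 0) = 1 := hy2 0
  have hya : ∀ k : Fin 4, aff L y k = eval y (L k) := by
    intro k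
    rw [aff_apply h.hL, hy0, div_one]
  refine ⟨y, ?_, ?_, ?_⟩
  · rintro (i | i)
    · exact hx.mem i
    · exact hy1
  · rintro (i | i)
    · exact hx.ne i
    · rw [Sum.elim_inr, hy0]
      exact one_ne_zero
  · have hle : K ≤ Subfield.closure Z := fun z hz => Subfield.subset_closure (Or.inl hz)
    let _ : Algebra K (Subfield.closure Z) := (Subfield.inclusion hle).toAlgebra
    have : IsScalarTower K (Subfield.closure Z) ℂ := IsScalarTower.of_algebraMap_eq fun t => rfl
    have h1 : AlgebraicIndependent K (Sum.elim t (st fun i => aff L (x i))) := by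
      refine AlgebraicIndependent.sumElim_of_tower (S := Subfield.closure Z) hx.ind ?_ ht
      rintro _ ⟨q, rfl⟩
      exact ⟨⟨_, Subfield.subset_closure (Or.inr ⟨q, rfl⟩)⟩, rfl⟩
    let g : (ι ⊕ Fin 1) × Fin 2 → (Fin 1 × Fin 2) ⊕ (ι × Fin 2) :=
      fun q => match q with
        | (Sum.inl i, k) => Sum.inr (i, k)
        | (Sum.inr i, k) => Sum.inl (i, k)
    have hg : Function.Injective g := by
      rintro ⟨i | i, k⟩ ⟨j | j, l⟩ h <;> simp [g] at h ⊢ <;> exact h
    have h2 := h1.comp g hg
    convert h2 using 1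
    funext q
    rcases q with ⟨i | i, k⟩
    · rfl
    · have hi : i = 0 := Subsingleton.elim _ _
      subst hi
      change st (fun i => aff L ((Sum.elim x fun _ : Fin 1 => y) i)) (Sum.inr 0, k) = t (0, k)
      fin_cases k
      · change aff L y 1 = t (0, 0)
        rw [hya]
        exact hy2 1
      · change aff L y 2 = t (0, 1)
        rw [hya]
        exact hy2 2

end Pool.Agent.Lib.MP_ed661f_ag.W
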