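import Pool.Agent.Lib.MP_ed661f_ag.W.PE
import Pool.Agent.Lib.MP_ed661f_ag.S.Indep
import Pool.Agent.Lib.MP_ed661f_ag.S.Multi

/-!
The inequality at an algebraically independent configuration.
-/

set_option autoImplicit false

open MvPolynomial

namespace Pool.Agent.Lib.MP_ed661f_ag.W

open S E R

/-- algebraic independence over a smaller field -/
theorem indep_mono {ι : Type} {K K' : Subfield ℂ} (hK : K ≤ K') {t : ι → ℂ}
    (h : AlgebraicIndependent K' t) : AlgebraicIndependent K t := by
  let _ : Algebra K K' := (Subfield.inclusion hK).toAlgebra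
  have : IsScalarTower K K' ℂ := IsScalarTower.of_algebraMap_eq fun t => rfl
  exact h.restrictScalars (algebraMap K K').injective

/-- the inequality at an algebraically independent configuration -/
theorem PE.generic {ι : Type} [Fintype ι] {h : ℝ} (hh : 0 ≤ h) {W : ι → ℝ} (hW0 : ∀ i, 0 ≤ W i)
    (hW : PE h W) (K : Subfield ℂ) [Countable K] :
    ∃ z : ι → Pt, AlgebraicIndependent K (fun q : ι × Fin 2 => z q.1 q.2) ∧
      ∀ g : Pol, g ≠ 0 → ∑ i, W i * (mlt (z i) g : ℝ) ≤ h * g.totalDegree := by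
  obtain ⟨z₀, hz₀⟩ := hW
  set s : Set ℂ := K ∪ Set.range (fun q : ι × Fin 2 => z₀ q.1 q.2) with hs
  have hKc : (K : Set ℂ).Countable := Set.countable_coe_iff.1 (inferInstanceAs (Countable K))
  have : Countable (Subfield.closure s) :=
    Hn.countable_closure s (hKc.union (Set.countable_range _))
  obtain ⟨t, ht⟩ := Hn.exists_indep (Subfield.closure s) (ι × Fin 2)
  obtain ⟨p, hp, hpt⟩ := exists_place_multi (Subfield.closure s) ht
    (a0 := fun q => z₀ q.1 q.2) fun q => Subfield.subset_closure (Or.inr ⟨q, rfl⟩)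
  choose hB hρ using hpt
  refine ⟨fun i k => t (i, k), ?_, fun g hg => ?_⟩
  · have hle : K ≤ Subfield.closure s := fun x hx => Subfield.subset_closure (Or.inl hx)
    exact indep_mono hle ht
  · obtain ⟨c, G, hG⟩ := exists_prm p hg
    refine le_trans ?_ ((hz₀ _ hG.ne).trans
      (mul_le_mul_of_nonneg_left (by exact_mod_cast hG.totalDegree_le) hh))
    refine Finset.sum_le_sum fun i _ => mul_le_mul_of_nonneg_left ?_ (hW0 i)
    have h1 := hG.mlt_le fun k => (⟨t (i, k), hB (i, k)⟩ : p.B)
    have h2 : (fun k => p.ρ ⟨t (i, k), hB (i, k)⟩) = z₀ i := funext fun k => hρ (i, k)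
    rw [h2] at h1
    exact_mod_cast h1

end Pool.Agent.Lib.MP_ed661f_ag.W
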