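import Pool.Agent.Lib.MP_ed661f_ag.W.IneqW

/-!
The class `h H - (h/2) ∑ E_i`, four points on each of `e` planes, one point of weight `h` on the
remaining plane.
-/

set_option autoImplicit false

namespace Pool.Agent.Lib.MP_ed661f_ag.W

open S E R

theorem PM.zero_cons {h : ℝ} {M : Multiset ℝ} (hM : PM h M) : PM h (0 ::ₘ M) := by
  obtain ⟨n, W, rfl, hW⟩ := hM
  have h1 : PE (ι := Option (Fin n)) h (fun o => o.elim 0 W) := by
    obtain ⟨z, hz⟩ := hW
    refine ⟨fun o => o.elim (fun _ => 0) z, fun g hg => ?_⟩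
    rw [Fintype.sum_option]
    simp only [Option.elim_none, Option.elim_some, zero_mul, zero_add]
    exact hz g hg
  refine h1.pm.congr ?_
  change Multiset.map (fun o : Option (Fin n) => o.elim 0 W)
    (none ::ₘ Multiset.map some Finset.univ.val) = _
  rw [Multiset.map_cons, Multiset.map_map]
  rfl

theorem PM.add_zeros {h : ℝ} {M : Multiset ℝ} (hM : PM h M) (n : ℕ) :
    PM h (Multiset.replicate n 0 + M) := by
  induction n with
  | zero => simpa using hM
  | succ n ih =>
    rw [Multiset.replicate_succ, Multiset.cons_add]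
    exact ih.zero_cons

/-- the weights `w` at the points of the other planes, zero on the first plane -/
def w0 (w : ℝ) (p e : ℕ) : Fin 2 ⊕ Fin 4 ⊕ Fin 4 ⊕ Fin p ⊕ (Fin e × Fin 4) → ℝ :=
  Sum.elim (fun _ => 0) (Sum.elim (fun _ => 0) (Sum.elim (fun _ => 0) (Sum.elim (fun _ => 0)
    (fun _ => w))))

theorem PEd_w0 {w : ℝ} (hw : 0 ≤ w) (p e : ℕ) :
    PEd (e + 1) (2 * w) (2 * w ::ₘ Finset.univ.val.map (w0 w p e)) := by
  refine ⟨Fin.cons (Multiset.replicate (10 + p) 0 + {2 * w}) fun _ => Multiset.replicate 4 w,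
    ?_, fun j => ?_⟩
  · rw [Fin.sum_univ_succ]
    simp only [Fin.cons_zero, Fin.cons_succ, Finset.sum_const, Finset.card_univ,
      Fintype.card_fin, Multiset.nsmul_replicate]
    unfold w0
    rw [map_univ_sum, map_univ_sum, map_univ_sum, map_univ_sum]
    simp only [Sum.elim_inl, Sum.elim_inr, Multiset.map_const', Finset.card_val,
      Finset.card_univ, Fintype.card_fin, Fintype.card_prod]
    rw [← Multiset.singleton_add, ← add_assoc (Multiset.replicate 4 (0 : ℝ)),
      ← Multiset.replicate_add, ← add_assoc (Multiset.replicate (4 + 4) (0 : ℝ)),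
      ← Multiset.replicate_add, ← add_assoc (Multiset.replicate 2 (0 : ℝ)),
      ← Multiset.replicate_add, ← add_assoc]
    congr 1
    rw [add_comm]
    congr 2
    ring
  · refine Fin.cases ?_ (fun j => ?_) j
    · simp only [Fin.cons_zero]
      refine ⟨(PM.one (by positivity)).add_zeros _, ?_⟩
      rw [Multiset.map_add, Multiset.sum_add, Multiset.map_replicate, Multiset.sum_replicate]
      simp
    · simp only [Fin.cons_succ]
      refine ⟨(PM.grid 2 hw).congr (by norm_num), ?_⟩
      rw [Multiset.map_replicate, Multiset.sum_replicate]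
      simp only [nsmul_eq_mul]
      push_cast
      ring

end Pool.Agent.Lib.MP_ed661f_ag.W
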