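import Pool.Agent.Lib.MP_ed661f_ag.W.Step
import Pool.Agent.Lib.MP_ed661f_ag.R.Gen
import Pool.Agent.Lib.MP_ed661f_ag.S.Indep

/-!
The inequality for plane curves: `h² - 2 D` points of weight `1` and `n` points of weight `s`,
`n s² = 2 D`.
-/

set_option autoImplicit false

open MvPolynomial

namespace Pool.Agent.Lib.MP_ed661f_ag.W

open S E R

/-- the points of integral weight are replaced by points of weight one -/
theorem PE.split {A B : Type} [Fintype A] [Fintype B] {h : ℝ} (hh : 0 ≤ h) {k : A → ℕ}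
    {U : B → ℝ} (hU0 : ∀ i, 0 ≤ U i) (hW : PE h (Sum.elim (fun i => (k i : ℝ)) U)) :
    PE h (Sum.elim (fun _ : (i : A) × (Fin (k i) × Fin (k i)) => (1 : ℝ)) U) := by
  set kk : A ⊕ B → ℕ := Sum.elim k fun _ => 1 with hkk
  set w : A ⊕ B → ℝ := Sum.elim (fun _ => 1) U with hw
  have hw0 : ∀ i, 0 ≤ w i := by
    rintro (i | i)
    · exact zero_le_one
    · exact hU0 i
  have h1 : ∀ i, (Sum.elim (fun i => (k i : ℝ)) U) i = kk i * w i := by
    rintro (i | i)
    · simp [hkk, hw]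
    · simp [hkk, hw]
  have h2 : ∀ i, PE ((Sum.elim (fun i => (k i : ℝ)) U) i)
      (fun _ : Fin (kk i) × Fin (kk i) => w i) := by
    intro i
    rw [h1]
    obtain ⟨z, hz⟩ := PE.grid (kk i)
    refine ⟨z, fun g hg => ?_⟩
    have h3 := mul_le_mul_of_nonneg_left (hz g hg) (hw0 i)
    rw [Finset.mul_sum] at h3
    refine (le_of_eq ?_).trans (h3.trans (le_of_eq ?_))
    · exact Finset.sum_congr rfl fun j _ => by ring
    · ring
  have h3 := PE.comp hh (fun i => by rw [h1]; exact mul_nonneg (Nat.cast_nonneg _) (hw0 i))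
    (W' := fun i _ => w i) (fun i _ => hw0 i) hW h2
  let e : ((i : A) × (Fin (k i) × Fin (k i))) ⊕ B ≃ (i : A ⊕ B) × (Fin (kk i) × Fin (kk i)) :=
    { toFun := Sum.elim (fun x => ⟨Sum.inl x.1, x.2⟩) (fun x => ⟨Sum.inr x, ((0 : Fin 1), (0 : Fin 1))⟩)
      invFun := fun x => match x with
        | ⟨Sum.inl i, y⟩ => Sum.inl ⟨i, y⟩
        | ⟨Sum.inr i, _⟩ => Sum.inr i
      left_inv := by
        rintro (⟨i, y⟩ | i)
        · rfl
        · rfl
      right_inv := by
        rintro ⟨i | i, y⟩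
        · rfl
        · have h4 : ∀ y : Fin 1 × Fin 1, y = (0, 0) := fun y => Subsingleton.elim _ _
          have h5 : y = ((0 : Fin 1), (0 : Fin 1)) := h4 y
          subst h5
          rfl }
  have h4 := h3.reindex e
  convert h4 using 1
  funext x
  rcases x with ⟨i, y⟩ | i
  · rfl
  · rfl

/-- the inequality for `h = a + b` -/
theorem PE.base {a b : ℕ} {c : Fin 5 → ℕ} (hab : a + b = ∑ j, c j)
    {n : ℕ} {s : ℝ} (hs : 0 ≤ s)
    (hns : n * s ^ 2 ≤ 2 * ((a : ℝ) * b - ∑ j, (c j : ℝ) ^ 2)) {m : ℕ}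
    (hm : m + 2 * (a * b) = (a + b) ^ 2 + 2 * ∑ j, c j ^ 2) :
    PE (ι := Fin m ⊕ Fin n) ((a + b : ℕ) : ℝ) (Sum.elim (fun _ => 1) fun _ => s) := by
  classical
  -- generic points
  have : Countable (⊥ : Subfield ℂ) := by
    have h1 := Hn.countable_closure (∅ : Set ℂ) Set.countable_empty
    rwa [Subfield.closure_empty] at h1
  obtain ⟨t, ht⟩ := Hn.exists_indep (⊥ : Subfield ℂ) ((Fin 5 ⊕ (Fin 5 ⊕ Fin n)) × Fin 2)
  have ht' : AlgebraicIndependent ℚ t := ht.restrictScalars (algebraMap ℚ (⊥ : Subfield ℂ)).injective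
  set x : Fin 5 → Pt := fun j k => t (Sum.inl j, k) with hx
  set x' : Fin 5 → Pt := fun j k => t (Sum.inr (Sum.inl j), k) with hx'
  set y : Fin n → Pt := fun j k => t (Sum.inr (Sum.inr j), k) with hy
  have hgen : Generic (Sum.elim x (Sum.elim x' y)) := by
    unfold Generic
    convert ht' using 1
    funext q
    rcases q with ⟨i | i | i, k⟩ <;> rfl
  -- weights
  have hz : ∀ g : Pol, g ≠ 0 →
      ∑ i, (Sum.elim (fun j => (c j : ℝ)) (Sum.elim (fun j => (c j : ℝ)) fun _ => s)) i *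
        (mlt ((Sum.elim x (Sum.elim x' y)) i) g : ℝ) ≤
      0 * (g.totalDegree : ℝ) + b * g.degreeOf 0 + a * g.degreeOf 1 := by
    intro g hg
    have h1 := nef_generic hgen a b (fun j => (c j : ℝ)) s (Nat.cast_nonneg a) (Nat.cast_nonneg b)
      (fun j => Nat.cast_nonneg _) hs (by exact_mod_cast hab) hns hg
    rw [Fintype.sum_sum_type, Fintype.sum_sum_type]
    simp only [Sum.elim_inl, Sum.elim_inr]
    have h2 : ∑ j, (c j : ℝ) * (mlt (x j) g + mlt (x' j) g) =
        ∑ j, (c j : ℝ) * (mlt (x j) g : ℝ) + ∑ j, (c j : ℝ) * (mlt (x' j) g : ℝ) := by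
      rw [← Finset.sum_add_distrib]
      exact Finset.sum_congr rfl fun j _ => mul_add _ _ _
    rw [h2, Finset.mul_sum] at h1
    linarith
  have h1 := PE.inf (a := b) (b := a) (c := 0) (Nat.cast_nonneg b) (Nat.cast_nonneg a) le_rfl
    (W := Sum.elim (fun j => (c j : ℝ)) (Sum.elim (fun j => (c j : ℝ)) fun _ => s))
    (by
      rintro (i | i | i)
      · exact Nat.cast_nonneg _
      · exact Nat.cast_nonneg _
      · exact hs) hz (W₀ := fun _ : Fin b × Fin b => 1) (fun _ => zero_le_one) (PE.grid b)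
    (W₁ := fun _ : Fin a × Fin a => 1) (fun _ => zero_le_one) (PE.grid a)
  -- regroup
  let A := (Fin b × Fin b) ⊕ (Fin a × Fin a) ⊕ Fin 5 ⊕ Fin 5
  let k : A → ℕ := Sum.elim (fun _ => 1) (Sum.elim (fun _ => 1) (Sum.elim c c))
  let e : A ⊕ Fin n ≃ (Fin b × Fin b) ⊕ (Fin a × Fin a) ⊕ Fin 5 ⊕ Fin 5 ⊕ Fin n :=
    { toFun := Sum.elim (Sum.elim Sum.inl (Sum.elim (fun i => Sum.inr (Sum.inl i))
        (Sum.elim (fun i => Sum.inr (Sum.inr (Sum.inl i)))
          (fun i => Sum.inr (Sum.inr (Sum.inr (Sum.inl i)))))))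
        (fun i => Sum.inr (Sum.inr (Sum.inr (Sum.inr i))))
      invFun := Sum.elim (fun i => Sum.inl (Sum.inl i)) (Sum.elim
        (fun i => Sum.inl (Sum.inr (Sum.inl i))) (Sum.elim
          (fun i => Sum.inl (Sum.inr (Sum.inr (Sum.inl i)))) (Sum.elim
            (fun i => Sum.inl (Sum.inr (Sum.inr (Sum.inr i)))) Sum.inr)))
      left_inv := by rintro ((i | i | i | i) | i) <;> rfl
      right_inv := by rintro (i | i | i | i | i) <;> rfl }
  have h2 := h1.reindex e
  have h3 : PE (ι := A ⊕ Fin n) ((b : ℝ) + a + 0) (Sum.elim (fun i => (k i : ℝ)) fun _ => s) := by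
    convert h2 using 1
    funext x
    rcases x with (i | i | i | i) | i
    · simp [k, e]
    · simp [k, e]
    · rfl
    · rfl
    · rfl
  have h4 := PE.split (by positivity) (fun _ => hs) h3
  have hcard : Fintype.card ((i : A) × (Fin (k i) × Fin (k i))) = Fintype.card (Fin m) := by
    rw [Fintype.card_sigma]
    simp only [Fintype.card_prod, Fintype.card_fin]
    change ∑ i : (Fin b × Fin b) ⊕ (Fin a × Fin a) ⊕ Fin 5 ⊕ Fin 5, k i * k i = m
    rw [Fintype.sum_sum_type, Fintype.sum_sum_type, Fintype.sum_sum_type]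
    simp only [k, Sum.elim_inl, Sum.elim_inr, mul_one, Finset.sum_const, Finset.card_univ,
      Fintype.card_prod, Fintype.card_fin, smul_eq_mul]
    have h5 : ∑ j, c j * c j = ∑ j, c j ^ 2 := Finset.sum_congr rfl fun j _ => (sq _).symm
    rw [h5]
    nlinarith
  have h5 := h4.reindex (Equiv.sumCongr (Fintype.equivOfCardEq hcard).symm (Equiv.refl (Fin n)))
  convert h5 using 1
  · push_cast
    ring
  · funext x
    rcases x with i | i
    · rfl
    · rfl

/-- **the inequality for plane curves** -/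
theorem PE.main {a b : ℕ} {c : Fin 5 → ℕ} (hab : a + b = ∑ j, c j)
    {n : ℕ} {s : ℝ} (hs : 0 ≤ s)
    (hns : n * s ^ 2 ≤ 2 * ((a : ℝ) * b - ∑ j, (c j : ℝ) ^ 2)) {h : ℕ} (hh : a + b ≤ h) :
    ∀ {m : ℕ}, m + 2 * (a * b) = h ^ 2 + 2 * ∑ j, c j ^ 2 →
    PE (ι := Fin m ⊕ Fin n) (h : ℝ) (Sum.elim (fun _ => 1) fun _ => s) := by
  induction h, hh using Nat.le_induction with
  | base =>
    intro m hm
    exact PE.base hab hs hns hm
  | succ h hh ih =>
    intro m hm
    have h1 : h ^ 2 + 2 * ∑ j, c j ^ 2 ≥ 2 * (a * b) := by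
      have h2 : (a + b) ^ 2 ≤ h ^ 2 := Nat.pow_le_pow_left hh 2
      have h3 : 2 * (a * b) ≤ (a + b) ^ 2 := by
        nlinarith [Nat.zero_le (a * a), Nat.zero_le (b * b)]
      omega
    obtain ⟨m', hm'⟩ : ∃ m', m' + 2 * (a * b) = h ^ 2 + 2 * ∑ j, c j ^ 2 :=
      ⟨h ^ 2 + 2 * ∑ j, c j ^ 2 - 2 * (a * b), by omega⟩
    have h2 := (ih hm').step (by
      rintro (i | i)
      · exact zero_le_one
      · exact hs)
    have h3 : m = m' + (2 * h + 1) := by nlinarith
    subst h3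
    let e : Fin (m' + (2 * h + 1)) ⊕ Fin n ≃ (Fin m' ⊕ Fin n) ⊕ Fin (2 * h + 1) :=
      (Equiv.sumCongr finSumFinEquiv.symm (Equiv.refl _)).trans
        ((Equiv.sumAssoc _ _ _).trans ((Equiv.sumCongr (Equiv.refl _) (Equiv.sumComm _ _)).trans
          (Equiv.sumAssoc _ _ _).symm))
    have h4 := h2.reindex e
    convert h4 using 1
    funext x
    rcases x with i | i
    · simp only [Sum.elim_inl, Function.comp_apply, e, Equiv.trans_apply, Equiv.sumCongr_apply,
        Sum.map_inl]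
      rcases finSumFinEquiv.symm i with j | j
      · rfl
      · rfl
    · rfl

end Pool.Agent.Lib.MP_ed661f_ag.W
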