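import Pool.Agent.Lib.MP_ed661f_ag.W.Curve3
import Pool.Agent.Lib.MP_ed661f_ag.W.Plane

/-!
The inequality for curves on a surface in three-space: `r = h² d - 2 D` points of weight one and
`n` points of weight `s`, `n s² = 2 D`.
-/

set_option autoImplicit false

open MvPolynomial
open scoped ENNReal

namespace Pool.Agent.Lib.MP_ed661f_ag.W

open S E R H

theorem ineq3 {a b : ℕ} {c : Fin 5 → ℕ} (hab : a + b = ∑ j, c j) {h r n d : ℕ} {s : ℝ}
    (hs : 0 ≤ s) (hns : n * s ^ 2 = 2 * ((a : ℝ) * b - ∑ j, (c j : ℝ) ^ 2)) (hh : a + b ≤ h)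
    (hh0 : 1 ≤ h) (hd : 1 ≤ d) (hr : r + 2 * (a * b) = h ^ 2 * d + 2 * ∑ j, c j ^ 2) {F : Poly 3}
    (hF : F.IsHomogeneous d) (hirr : Irreducible F) (hl : coeff (Finsupp.single 3 d) F ≠ 0)
    {K : Subfield ℂ} [Countable K] (hFK : ∀ e, coeff e F ∈ K) {v : Fin r ⊕ Fin n → Fin 4 → ℂ}
    (h0 : ∀ i, v i 0 = 1) (hv : ∀ i, eval (v i) F = 0) (hi : AlgebraicIndependent K (st v))
    {P : Ideal (Poly 3)} (hP : IsCurveOn (Ideal.span {F}) P) :
    ∑ i, mult P (v (Sum.inl i)) + ENNReal.ofReal s * ∑ j, mult P (v (Sum.inr j)) ≤ h * deg P := by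
  classical
  obtain ⟨e, rfl⟩ := Nat.exists_eq_add_of_le' hd
  have hab2 : 2 * (a * b) ≤ h ^ 2 := by
    have h1 : (a + b) ^ 2 ≤ h ^ 2 := Nat.pow_le_pow_left hh 2
    nlinarith [Nat.zero_le (a * a), Nat.zero_le (b * b)]
  obtain ⟨m, hm⟩ : ∃ m, m + 2 * (a * b) = h ^ 2 + 2 * ∑ j, c j ^ 2 :=
    ⟨h ^ 2 + 2 * ∑ j, c j ^ 2 - 2 * (a * b), by omega⟩
  have hrm : r = m + e * h ^ 2 := by nlinarith
  have hmR : (m : ℝ) + n * s ^ 2 = (h : ℝ) ^ 2 := by
    have h1 : (m : ℝ) + 2 * (a * b) = h ^ 2 + 2 * ∑ j, (c j : ℝ) ^ 2 := by exact_mod_cast hm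
    rw [hns]
    linarith
  let k : Fin (e + 1) → ℕ := Fin.cons m fun _ => h ^ 2
  let l : Fin (e + 1) → ℕ := Fin.cons n fun _ => 0
  have hh0' : (0 : ℝ) < h := by exact_mod_cast hh0
  have hPE : ∀ j, PE (ι := Fin (k j) ⊕ Fin (l j)) (h : ℝ) (Sum.elim (fun _ => 1) fun _ => s) := by
    intro j
    refine Fin.cases ?_ (fun j => ?_) j
    · exact PE.main hab hs hns.le hh hm
    · have h1 : Fintype.card (Fin (h ^ 2) ⊕ Fin 0) = Fintype.card (Fin h × Fin h) := by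
        simp [sq]
      have h2 := (PE.grid h).reindex (Fintype.equivOfCardEq h1)
      have h3 : ((fun _ => 1 : Fin h × Fin h → ℝ) ∘ (Fintype.equivOfCardEq h1)) =
          (Sum.elim (fun _ => 1) fun _ => s : Fin (h ^ 2) ⊕ Fin 0 → ℝ) := by
        funext x
        rcases x with x | x
        · rfl
        · exact x.elim0
      rw [h3] at h2
      exact h2
  have hW0 : ∀ j, ∀ i : Fin (k j) ⊕ Fin (l j), (0 : ℝ) ≤
      (Sum.elim (fun _ => 1) fun _ => s : Fin (k j) ⊕ Fin (l j) → ℝ) i := by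
    rintro j (i | i)
    · exact zero_le_one
    · exact hs
  have hW2 : ∀ j, ∑ i : Fin (k j) ⊕ Fin (l j),
      (Sum.elim (fun _ => 1) fun _ => s : Fin (k j) ⊕ Fin (l j) → ℝ) i ^ 2 = (h : ℝ) ^ 2 := by
    intro j
    rw [Fintype.sum_sum_type]
    simp only [Sum.elim_inl, Sum.elim_inr, one_pow, Finset.sum_const, Finset.card_univ,
      Fintype.card_fin, nsmul_eq_mul, mul_one]
    refine Fin.cases ?_ (fun j => ?_) j
    · exact hmR
    · simp [k, l]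
  -- the equivalence
  have hk : ∑ j, k j = r := by
    rw [Fin.sum_univ_succ]
    simp only [k, Fin.cons_zero, Fin.cons_succ, Finset.sum_const, Finset.card_univ,
      Fintype.card_fin, smul_eq_mul]
    exact hrm.symm
  have hl' : ∑ j, l j = n := by
    rw [Fin.sum_univ_succ]
    simp [l]
  let e1 : ((j : Fin (e + 1)) × Fin (k j)) ≃ Fin r :=
    finSigmaFinEquiv.trans (finCongr hk)
  let e2 : ((j : Fin (e + 1)) × Fin (l j)) ≃ Fin n :=
    finSigmaFinEquiv.trans (finCongr hl')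
  let E : ((j : Fin (e + 1)) × (Fin (k j) ⊕ Fin (l j))) ≃ Fin r ⊕ Fin n :=
    (Equiv.sigmaSumDistrib _ _).trans (Equiv.sumCongr e1 e2)
  have hi' : AlgebraicIndependent K (st (v ∘ E)) := by
    have h1 := hi.comp (fun q : ((j : Fin (e + 1)) × (Fin (k j) ⊕ Fin (l j))) × Fin 2 =>
      (E q.1, q.2)) (by
        rintro ⟨x, i⟩ ⟨y, j⟩ hxy
        simp only [Prod.mk.injEq, EmbeddingLike.apply_eq_iff_eq] at hxy
        rw [hxy.1, hxy.2])
    exact h1
  have h1 := curve_ineq3 hF hirr hl hFK hh0' hW0 hW2 hPE (v := v ∘ E) (fun q => h0 _)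
    (fun q => hv _) hi' hP
  have h2 : ∀ x : Fin r ⊕ Fin n, (Sum.elim (fun _ => (1 : ℝ)) fun _ => s : Fin r ⊕ Fin n → ℝ) x =
      (Sum.elim (fun _ => (1 : ℝ)) fun _ => s : Fin (k (E.symm x).1) ⊕ Fin (l (E.symm x).1) → ℝ)
        (E.symm x).2 := by
    intro x
    rcases x with x | x
    · rfl
    · rfl
  have h3 : ∑ q, ENNReal.ofReal ((Sum.elim (fun _ => (1 : ℝ)) fun _ => s :
      Fin (k q.1) ⊕ Fin (l q.1) → ℝ) q.2 / h) * mult P ((v ∘ E) q) =
      ∑ x : Fin r ⊕ Fin n, ENNReal.ofReal ((Sum.elim (fun _ => (1 : ℝ)) fun _ => s :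
        Fin r ⊕ Fin n → ℝ) x / h) * mult P (v x) := by
    rw [← Equiv.sum_comp E.symm]
    refine Finset.sum_congr rfl fun x _ => ?_
    rw [← h2, Function.comp_apply, Equiv.apply_symm_apply]
  rw [h3] at h1
  have h4 : (h : ℝ≥0∞) * ∑ x : Fin r ⊕ Fin n, ENNReal.ofReal ((Sum.elim (fun _ => (1 : ℝ))
      fun _ => s : Fin r ⊕ Fin n → ℝ) x / h) * mult P (v x) ≤ h * deg P := by gcongr
  refine le_trans (le_of_eq ?_) h4
  have h5 : ∀ t : ℝ, (h : ℝ≥0∞) * ENNReal.ofReal (t / h) = ENNReal.ofReal t := by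
    intro t
    rw [← ENNReal.ofReal_natCast, ← ENNReal.ofReal_mul (Nat.cast_nonneg h)]
    congr 1
    field_simp
  rw [Fintype.sum_sum_type, mul_add]
  congr 1
  · rw [Finset.mul_sum]
    refine Finset.sum_congr rfl fun i _ => ?_
    rw [← mul_assoc, h5, Sum.elim_inl, ENNReal.ofReal_one, one_mul]
  · rw [Finset.mul_sum, Finset.mul_sum]
    refine Finset.sum_congr rfl fun i _ => ?_
    rw [← mul_assoc, h5, Sum.elim_inr]

end Pool.Agent.Lib.MP_ed661f_ag.W
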