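import Pool.Agent.Lib.MP_ed661f_ag.W.PM
import Pool.Agent.Lib.MP_ed661f_ag.W.Curve3
import Pool.Agent.Lib.MP_ed661f_ag.W.AffIneq

/-!
The inequality for the curves on a surface in a projective space, with arbitrary weights.
-/

set_option autoImplicit false

open MvPolynomial
open scoped ENNReal

namespace Pool.Agent.Lib.MP_ed661f_ag.W

open H T

/-- the multiset `M` of weights is the union of `d` multisets of square sum `h²` for which the
inequality for plane curves holds -/
def PEd (d : ℕ) (h : ℝ) (M : Multiset ℝ) : Prop :=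
  ∃ Ms : Fin d → Multiset ℝ, ∑ j, Ms j = M ∧
    ∀ j, PM h (Ms j) ∧ ((Ms j).map fun x => x ^ 2).sum = h ^ 2

variable {N : ℕ} {I : Ideal (Poly N)} {d q : ℕ} {F : Poly 3} {L : Fin 4 → Poly N} {s : D3}

private theorem iw_map_eq_sum {ι : Type} [Fintype ι] (f : ι → ℝ) :
    (Finset.univ.val.map f : Multiset ℝ) = ∑ x, ({f x} : Multiset ℝ) := by
  have h1 : (Finset.univ.val.map fun x => ({f x} : Multiset ℝ)) =
      (Finset.univ.val.map f).map fun a => ({a} : Multiset ℝ) := by
    rw [Multiset.map_map]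
    rfl
  rw [Finset.sum_eq_multiset_sum, h1, Multiset.sum_map_singleton]

/-- **the inequality for curves at very general points, with arbitrary weights**.

PROOF. As `ineq3` and `ineqN`: `∑ j, Ms j = M = W(univ)` gives a bijection
`(Σ j, Fin (card (Ms j))) ≃ ι` which respects the weights (`exists_equiv`), so `curve_ineq3` (with
`κ j = Fin (card (Ms j))`, `W j = ` an enumeration of `Ms j`) applies to the image of the curve in
three-space; then as in `ineqN`. -/
theorem ineqW {ι : Type} [Fintype ι] {w : ι → ℝ} (hw : ∀ i, 0 ≤ w i) {H : ℝ} (hH : 0 < H)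
    (hM : PEd d H (Finset.univ.val.map w)) (h : Proj4 I d q F L s) (hI : IsSurface I)
    {K : Subfield ℂ} [Countable K] (hFK : ∀ e, coeff e F ∈ K) (hsK : ∀ e, coeff e s ∈ K)
    {v : ι → Fin (N + 1) → ℂ} (hv : Aff K I L v) {P : Ideal (Poly N)} (hP : IsCurveOn I P) :
    ∑ i, ENNReal.ofReal (w i) * mult P (v i) ≤ ENNReal.ofReal H * deg P := by
  classical
  obtain ⟨Ms, hMs, hMj⟩ := hM
  choose n W hW hPE using fun j => (hMj j).1
  have hsig : (Finset.univ.val.map w : Multiset ℝ) =
      Finset.univ.val.map fun x : ((j : Fin d) × Fin (n j)) => W x.1 x.2 := by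
    rw [← hMs, iw_map_eq_sum, Fintype.sum_sigma]
    refine Finset.sum_congr rfl fun j _ => ?_
    rw [← hW j, iw_map_eq_sum]
  obtain ⟨e, he⟩ := exists_equiv hsig
  have hWe : ∀ x : ((j : Fin d) × Fin (n j)), W x.1 x.2 = w (e x) := fun x => congrFun he x
  have hW0 : ∀ j i, 0 ≤ W j i := fun j i => by
    rw [hWe ⟨j, i⟩]
    exact hw _
  have hW2 : ∀ j, ∑ i, W j i ^ 2 = H ^ 2 := by
    intro j
    rw [← (hMj j).2, ← hW j, Multiset.map_map]
    rfl
  have hl : coeff (Finsupp.single 3 d) F ≠ 0 := by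
    have h1 := h.hcoeff
    have h2 : (Fin.last 3 : Fin 4) = 3 := rfl
    rw [h2] at h1
    rw [h1]
    exact one_ne_zero
  have hi' : AlgebraicIndependent K (st fun x => aff L (v (e x))) := (hv.comp e.injective).ind
  have h1 := curve_ineq3 h.hF (h.irreducible hI.prime) hl hFK hH hW0 hW2 hPE
    (v := fun x => aff L (v (e x))) (fun x => aff_zero h.hL (hv.ne _))
    (fun x => aff_root h hI (hv.mem _)) hi' (h.isCurveOn hP)
  have h2 : ∀ i, mult (P.comap (sub4 L)) (aff L (v i)) = mult P (v i) := by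
    intro i
    rw [aff, h.mult_eq (mem_smul hI.homogeneous (hv.mem i) _) (eval_aff_inc_ne h hsK hv i) hP.le,
      mult_smul hP.homogeneous _ (inv_ne_zero (hv.ne i))]
  have h3 : ∑ x : ((j : Fin d) × Fin (n j)), ENNReal.ofReal (W x.1 x.2 / H) *
      mult (P.comap (sub4 L)) (aff L (v (e x))) = ∑ i, ENNReal.ofReal (w i / H) * mult P (v i) := by
    rw [← Equiv.sum_comp e]
    refine Finset.sum_congr rfl fun x _ => ?_
    rw [hWe, h2]
  have h4 : ∑ i, ENNReal.ofReal (w i / H) * mult P (v i) ≤ deg P := by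
    rw [← h3]
    exact h1.trans (h.deg_comap_le P)
  have h5 : ∀ t : ℝ, ENNReal.ofReal H * ENNReal.ofReal (t / H) = ENNReal.ofReal t := by
    intro t
    rw [← ENNReal.ofReal_mul hH.le]
    congr 1
    field_simp
  calc ∑ i, ENNReal.ofReal (w i) * mult P (v i)
      = ENNReal.ofReal H * ∑ i, ENNReal.ofReal (w i / H) * mult P (v i) := by
        rw [Finset.mul_sum]
        refine Finset.sum_congr rfl fun i _ => ?_
        rw [← mul_assoc, h5]
    _ ≤ ENNReal.ofReal H * deg P := by gcongr

end Pool.Agent.Lib.MP_ed661f_ag.W
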