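import Pool.Agent.Lib.MP_ed661f_ag.W.Red

/-!
Collision of points at infinity.
-/

set_option autoImplicit false

open MvPolynomial

namespace Pool.Agent.Lib.MP_ed661f_ag.W

open S E R

variable {p : Place}

/-- the point with the `i`-th coordinate divided by `τ` -/
noncomputable def far (i : Fin 2) (τ : ℂ) (ζ : Pt) : Pt := fun j => if j = i then ζ j / τ else ζ j

theorem mlt_X_pow {i : Fin 2} {z : Pt} (hz : z i ≠ 0) (k : ℕ) : mlt z (X i ^ k : Pol) = 0 := by
  by_contra h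
  have h1 := (mlt_pos_iff (p := z) (pow_ne_zero k (X_ne_zero i))).1 (Nat.one_le_iff_ne_zero.2 h)
  rw [map_pow, eval_X] at h1
  exact pow_ne_zero k hz h1

theorem exists_degreeOf {g : Pol} (hg : g ≠ 0) (i : Fin 2) :
    ∃ e ∈ g.support, e i = g.degreeOf i := by
  rw [degreeOf_eq_sup]
  obtain ⟨e, he, h⟩ := Finset.exists_mem_eq_sup g.support (support_nonempty.2 hg) fun m => m i
  exact ⟨e, he, h.symm⟩

/-- **collision at infinity** -/
theorem collide_inf (i : Fin 2) {τ : ℂ} (hτ : τ ∈ p.B) (hτ0 : p.ρ ⟨τ, hτ⟩ = 0) (hτ1 : τ ≠ 0)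
    {g : Pol} {c : ℂ} {G : MvPolynomial (Fin 2) p.B} (h : Prm p g c G) :
    ∃ Q : Pol, Q ≠ 0 ∧ Q.totalDegree + (map p.ρ G).degreeOf i ≤ g.totalDegree ∧
      ∀ ζ : Fin 2 → p.B, p.ρ (ζ i) ≠ 0 → mlt (far i τ fun j => (ζ j : ℂ)) g ≤
        mlt (fun j => p.ρ (ζ j)) Q := by
  classical
  have hg := h.ne_zero
  let t : Fin 2 → ℂ := fun j => if j = i then τ⁻¹ else 1
  have ht : ∀ j, t j ≠ 0 := by
    intro j
    by_cases hj : j = i
    · simp [t, hj, hτ1]
    · simp [t, hj]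
  have ht' : ∀ e : Fin 2 →₀ ℕ, t 0 ^ e 0 * t 1 ^ e 1 = (τ ^ e i)⁻¹ := by
    intro e
    fin_cases i <;> simp [t]
  set q : Pol := sub (fun _ => 0) t g with hq
  have hq0 : q ≠ 0 := sub_ne_zero ht hg
  have htay : tay (fun _ => (0 : ℂ)) g = g := by
    have h1 : (aeval (fun i => X i + C 0) : Pol →ₐ[ℂ] Pol) = AlgHom.id ℂ _ := by
      apply MvPolynomial.algHom_ext
      intro i
      simp
    exact congrArg (fun φ => φ g) h1
  obtain ⟨c', Q, hQ⟩ := exists_prm p hq0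
  obtain ⟨e₀, he₀, hi₀⟩ := exists_degreeOf h.ne i
  set i₀ := (map p.ρ G).degreeOf i with hi₀'
  have hA : ∀ e, ((Q.coeff e : p.B) : ℂ) = c' / c * (τ ^ e i)⁻¹ * (G.coeff e : p.B) := by
    intro e
    rw [hQ.coeff_eq, hq, coeff_sub, ht', htay, h.coeff_eq e]
    field_simp [h.c0]
  have hu : p.ρ (G.coeff e₀) ≠ 0 := by
    rw [mem_support_iff, coeff_map] at he₀
    exact he₀
  have hinv := p.inv_mem hu
  have hu0 : ((G.coeff e₀ : p.B) : ℂ) ≠ 0 := by
    intro h0
    apply hu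
    have : G.coeff e₀ = 0 := Subtype.ext h0
    rw [this, map_zero]
  -- the monomials of the reduction
  have hmon : ∀ e ∈ (map p.ρ Q).support, i₀ ≤ e i := by
    intro e he
    by_contra hcon
    push Not at hcon
    rw [mem_support_iff] at he
    apply he
    have h1 : Q.coeff e = Q.coeff e₀ * ⟨_, hinv⟩ * ⟨τ, hτ⟩ ^ (i₀ - e i) * G.coeff e := by
      apply Subtype.ext
      have h2 : ((Q.coeff e₀ * ⟨_, hinv⟩ * ⟨τ, hτ⟩ ^ (i₀ - e i) * G.coeff e : p.B) : ℂ) =
          (Q.coeff e₀ : p.B) * ((G.coeff e₀ : p.B) : ℂ)⁻¹ * τ ^ (i₀ - e i) *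
          (G.coeff e : p.B) := by
        push_cast
        rfl
      rw [h2, hA e, hA e₀, hi₀]
      have h3 : τ ^ i₀ = τ ^ e i * τ ^ (i₀ - e i) := by
        rw [← pow_add]
        congr 1
        omega
      rw [h3]
      field_simp
    have h2 : i₀ - e i ≠ 0 := by omega
    rw [coeff_map, h1, map_mul, map_mul, map_pow, hτ0, zero_pow h2, mul_zero, zero_mul]
  -- divide by the power of the variable
  have hdvd : (X i ^ i₀ : Pol) ∣ map p.ρ Q := by
    rw [(map p.ρ Q).as_sum]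
    refine Finset.dvd_sum fun e he => ?_
    rw [X_pow_eq_monomial, monomial_dvd_monomial]
    refine ⟨Or.inr ?_, one_dvd _⟩
    rw [Finsupp.single_le_iff]
    exact hmon e he
  obtain ⟨Q₁, hQ₁⟩ := hdvd
  have hQne := hQ.ne
  rw [hQ₁] at hQne
  have h1 : (X i ^ i₀ : Pol) ≠ 0 := left_ne_zero_of_mul hQne
  have h2 : Q₁ ≠ 0 := right_ne_zero_of_mul hQne
  refine ⟨Q₁, h2, ?_, fun ζ hζ => ?_⟩
  · have h3 : (map p.ρ Q).totalDegree ≤ g.totalDegree := by
      refine Finset.sup_le fun e he => ?_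
      apply le_totalDegree
      rw [mem_support_iff]
      intro h0
      rw [mem_support_iff] at he
      apply he
      apply hQ.coeff_zero
      rw [hq, coeff_sub, htay, h0, mul_zero]
    rw [hQ₁, totalDegree_mul_of_isDomain h1 h2, totalDegree_X_pow] at h3
    omega
  · have h3 := hQ.mlt_le ζ
    rw [hQ₁, mlt_mul h1 h2, mlt_X_pow hζ, zero_add, hq, mlt_sub ht hg] at h3
    have h4 : (fun j => (0 : ℂ) + t j * (ζ j : ℂ)) = far i τ fun j => (ζ j : ℂ) := by
      funext j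
      by_cases hj : j = i
      · simp [t, far, hj, div_eq_inv_mul]
      · simp [t, far, hj]
    rw [h4] at h3
    exact h3

end Pool.Agent.Lib.MP_ed661f_ag.W
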