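import Mathlib

/-!
A lattice of classes of rank at least two which contains a class of positive square contains a
class of positive square which is not a perfect square.
-/

set_option autoImplicit false


namespace Pool.Agent.Lib.MP_ed661f_ag.W


/-- a class whose self-intersection number is positive and not a perfect square -/
theorem exists_nonsquare_class {r : ℕ} (d : ℕ) (hd : 1 ≤ d) (T : (Fin 6 → ℤ) →+ (Fin (r + 1) → ℤ))
    (hT : Function.Injective T)
    (h : ∃ L ∈ Set.range T, 0 < L 0 ∧ ∑ i : Fin r, L i.succ ^ 2 < (L 0) ^ 2 * d) :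
    ∃ L ∈ Set.range T, 0 < L 0 ∧ ∑ i : Fin r, L i.succ ^ 2 < (L 0) ^ 2 * d ∧
      ¬ IsSquare ((L 0) ^ 2 * d - ∑ i : Fin r, L i.succ ^ 2) := by
  obtain ⟨L, ⟨l, hl⟩, h0, hL⟩ := h
  by_cases hsq : IsSquare ((L 0) ^ 2 * d - ∑ i : Fin r, L i.succ ^ 2)
  swap
  · exact ⟨L, ⟨l, hl⟩, h0, hL, hsq⟩
  -- a nonzero class orthogonal to `L`
  obtain ⟨M, ⟨m, hm⟩, hM0, hM⟩ : ∃ M ∈ Set.range T, M ≠ 0 ∧
      L 0 * M 0 * d - ∑ i : Fin r, L i.succ * M i.succ = 0 := by
    set e0 : Fin 6 → ℤ := Pi.single 0 1 with he0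
    set e1 : Fin 6 → ℤ := Pi.single 1 1 with he1
    let B : (Fin (r + 1) → ℤ) → ℤ := fun M => L 0 * M 0 * d - ∑ i : Fin r, L i.succ * M i.succ
    have hB : ∀ (a b : ℤ) (P Q : Fin (r + 1) → ℤ), B (a • P + b • Q) = a * B P + b * B Q := by
      intro a b P Q
      simp only [B, Pi.add_apply, Pi.smul_apply, smul_eq_mul, mul_add, Finset.sum_add_distrib]
      have h1 : ∑ i : Fin r, L i.succ * (a * P i.succ) = a * ∑ i : Fin r, L i.succ * P i.succ := by
        rw [Finset.mul_sum]; exact Finset.sum_congr rfl fun i _ => by ring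
      have h2 : ∑ i : Fin r, L i.succ * (b * Q i.succ) = b * ∑ i : Fin r, L i.succ * Q i.succ := by
        rw [Finset.mul_sum]; exact Finset.sum_congr rfl fun i _ => by ring
      rw [h1, h2]; ring
    by_cases hab : B (T e0) = 0
    · refine ⟨T e0, ⟨e0, rfl⟩, ?_, hab⟩
      intro h
      have : e0 = 0 := hT (by rw [h, map_zero])
      have := congrFun this 0
      simp [he0] at this
    · refine ⟨T (B (T e1) • e0 + (- B (T e0)) • e1), ⟨_, rfl⟩, ?_, ?_⟩
      · intro h
        have h' : B (T e1) • e0 + (- B (T e0)) • e1 = 0 := hT (by rw [h, map_zero])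
        have := congrFun h' 1
        simp [he0, he1] at this
        exact hab this
      · have : T (B (T e1) • e0 + (- B (T e0)) • e1) = B (T e1) • T e0 + (- B (T e0)) • T e1 := by
          rw [map_add, map_zsmul, map_zsmul]
        rw [this]
        have := hB (B (T e1)) (- B (T e0)) (T e0) (T e1)
        simp only [B] at this ⊢
        rw [this]; ring
  -- its square is negative
  have hMneg : (M 0) ^ 2 * d < ∑ i : Fin r, M i.succ ^ 2 := by
    have hCS := Finset.sum_mul_sq_le_sq_mul_sq (Finset.univ : Finset (Fin r))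
      (fun i => L i.succ) (fun i => M i.succ)
    have hpos : 0 ≤ ∑ i : Fin r, M i.succ ^ 2 := Finset.sum_nonneg fun i _ => sq_nonneg _
    have hd' : (1 : ℤ) ≤ d := by exact_mod_cast hd
    have heq : ∑ i : Fin r, L i.succ * M i.succ = L 0 * M 0 * d := by linarith
    rw [heq] at hCS
    by_contra hcon
    replace hcon := not_lt.mp hcon
    rcases hpos.eq_or_lt with hz | hz
    · have hM00 : M 0 = 0 := by
        have h1 : (L 0 * M 0 * d) ^ 2 ≤ 0 := by rw [← hz, mul_zero] at hCS; exact hCS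
        have h2 : L 0 * M 0 * d = 0 := by nlinarith
        rcases mul_eq_zero.mp h2 with h3 | h3
        · rcases mul_eq_zero.mp h3 with h4 | h4
          · omega
          · exact h4
        · exfalso; omega
      apply hM0
      funext j
      refine Fin.cases ?_ (fun i => ?_) j
      · simpa using hM00
      · have := (Finset.sum_eq_zero_iff_of_nonneg (fun i _ => sq_nonneg (M (Fin.succ i)))).mp
          hz.symm i (Finset.mem_univ _)
        simpa using pow_eq_zero_iff (two_ne_zero) |>.mp this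
    · -- (L0 M0 d)^2 ≤ ΣL² ΣM² < L0² d ΣM² ≤ L0² d · M0² d
      have h1 : (∑ i : Fin r, L i.succ ^ 2) * ∑ i : Fin r, M i.succ ^ 2
          < ((L 0) ^ 2 * d) * ∑ i : Fin r, M i.succ ^ 2 := mul_lt_mul_of_pos_right hL hz
      have h2 : ((L 0) ^ 2 * d) * ∑ i : Fin r, M i.succ ^ 2 ≤ ((L 0) ^ 2 * d) * ((M 0) ^ 2 * d) :=
        mul_le_mul_of_nonneg_left hcon (by positivity)
      nlinarith
  -- large combinations
  obtain ⟨c, hc⟩ := hsq
  set e : ℤ := ∑ i : Fin r, M i.succ ^ 2 - (M 0) ^ 2 * d with he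
  have he0 : 0 < e := by omega
  obtain ⟨t, ht1, ht2⟩ : ∃ t : ℤ, e < t ∧ |M 0| < t := ⟨e + |M 0| + 1, by
    constructor
    · have := abs_nonneg (M 0); omega
    · omega⟩
  have ht0 : 0 < t := by omega
  have hself : ((t • L + M) 0) ^ 2 * d - ∑ i : Fin r, (t • L + M) i.succ ^ 2
      = t ^ 2 * (c * c) - e := by
    have h1 : ∑ i : Fin r, (t • L + M) i.succ ^ 2 = t ^ 2 * ∑ i : Fin r, L i.succ ^ 2
        + 2 * t * ∑ i : Fin r, L i.succ * M i.succ + ∑ i : Fin r, M i.succ ^ 2 := by
      simp only [Pi.add_apply, Pi.smul_apply, smul_eq_mul]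
      rw [Finset.mul_sum, Finset.mul_sum, ← Finset.sum_add_distrib, ← Finset.sum_add_distrib]
      exact Finset.sum_congr rfl fun i _ => by ring
    rw [h1, ← hc, he]
    simp only [Pi.add_apply, Pi.smul_apply, smul_eq_mul]
    linear_combination (2 * t) * hM
  have hcc : 0 < c * c := by rw [← hc]; omega
  have hself0 : 0 < t ^ 2 * (c * c) - e := by nlinarith
  refine ⟨t • L + M, ⟨t • l + m, by rw [map_add, map_zsmul, hl, hm]⟩, ?_, ?_, ?_⟩
  · have h1 : (t • L + M) 0 = t * L 0 + M 0 := by simp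
    rw [h1]
    have := neg_abs_le (M 0)
    nlinarith
  · have := hself; omega
  · rw [hself]
    rintro ⟨s, hs⟩
    -- s² = (tc)² - e, 0 < e < t
    have hc0 : c ≠ 0 := by rintro rfl; simp at hcc
    have hs' : |s| * |s| = (t * |c|) * (t * |c|) - e := by
      rw [abs_mul_abs_self]
      have : (t * |c|) * (t * |c|) = t ^ 2 * (c * c) := by
        rw [← abs_mul_abs_self c]; ring
      rw [this]; exact hs.symm
    have hc1 : 1 ≤ |c| := Int.one_le_abs hc0
    have hs0 : 0 ≤ |s| := abs_nonneg s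
    have hlt : |s| < t * |c| := by
      by_contra hh
      have h3 := mul_self_le_mul_self (mul_nonneg ht0.le (abs_nonneg c)) (not_lt.mp hh)
      linarith
    have hle : |s| ≤ t * |c| - 1 := by linarith [Int.add_one_le_iff.mpr hlt]
    have h4 := mul_self_le_mul_self hs0 hle
    nlinarith

end Pool.Agent.Lib.MP_ed661f_ag.W
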