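import Pool.Agent.Lib.MP_ed661f_ag.W.IneqW

/-!
Families of weights.
-/

set_option autoImplicit false

namespace Pool.Agent.Lib.MP_ed661f_ag.W

/-- the weights `m i` and, for every `n`, `n` further equal weights which make the square sum equal
to `h² d`, satisfy the inequality on a surface of degree `d` -/
def Nice (d h : ℕ) {r : ℕ} (m : Fin r → ℕ) : Prop :=
  ∀ (n : ℕ) (t : ℝ), 0 ≤ t → n * t ^ 2 + ∑ i, (m i : ℝ) ^ 2 = h ^ 2 * d →
    PEd d h (Finset.univ.val.map (fun i => (m i : ℝ)) + Multiset.replicate n t)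

end Pool.Agent.Lib.MP_ed661f_ag.W
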