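import Pool.Agent.Lib.MP_ed661f_ag.W.PM

/-!
Splitting one point of the plane.
-/

set_option autoImplicit false

namespace Pool.Agent.Lib.MP_ed661f_ag.W

open S E R

/-- `c` positive integers `≤ k` with square sum `k²` which satisfy the inequality for `h = k` -/
private def Sp (c : ℕ) : Prop := ∃ (k : ℕ) (M : Multiset ℕ), 1 ≤ k ∧ M.card = c ∧
    (∀ x ∈ M, 1 ≤ x ∧ x ≤ k) ∧ (M.map fun x : ℕ => x ^ 2).sum = k ^ 2 ∧
    PM k (M.map (fun x : ℕ => (x : ℝ)))

/-- replacing one weight `k w` by the family `V w` with the same square sum, after scaling by `k` -/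
private theorem sp_step {c k : ℕ} (hk : 1 ≤ k) (V : ℕ → Multiset ℕ) {e : ℕ}
    (hVc : ∀ w, (V w).card = e) (hV : ∀ w, 1 ≤ w → ∀ x ∈ V w, 1 ≤ x ∧ x ≤ k * w)
    (hVs : ∀ w, ((V w).map fun x : ℕ => x ^ 2).sum = (k * w) ^ 2)
    (hVp : ∀ w : ℕ, PM ((k : ℝ) * (w : ℝ)) ((V w).map (fun x : ℕ => (x : ℝ))))
    (h : Sp (c + 1)) : Sp (c + e) := by
  obtain ⟨t, M, ht, hc, hM, hs, hP⟩ := h
  obtain ⟨w, M0, rfl⟩ : ∃ w M0, M = w ::ₘ M0 := by
    have h0 : M ≠ 0 := by
      rintro rfl
      simp at hc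
    obtain ⟨w, hw⟩ := Multiset.exists_mem_of_ne_zero h0
    exact ⟨w, M.erase w, (Multiset.cons_erase hw).symm⟩
  have hw := hM w (Multiset.mem_cons_self w M0)
  have hM0 : ∀ x ∈ M0, 1 ≤ x ∧ x ≤ t := fun x hx => hM x (Multiset.mem_cons_of_mem hx)
  rw [Multiset.card_cons] at hc
  refine ⟨k * t, V w + M0.map (fun x => k * x), ?_, ?_, ?_, ?_, ?_⟩
  · exact Nat.mul_pos hk ht
  · rw [Multiset.card_add, Multiset.card_map, hVc]
    omega
  · intro x hx
    rcases Multiset.mem_add.1 hx with hx | hx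
    · obtain ⟨h1, h2⟩ := hV w hw.1 x hx
      exact ⟨h1, h2.trans (Nat.mul_le_mul_left k hw.2)⟩
    · obtain ⟨y, hy, rfl⟩ := Multiset.mem_map.1 hx
      obtain ⟨h1, h2⟩ := hM0 y hy
      exact ⟨Nat.mul_pos hk h1, Nat.mul_le_mul_left k h2⟩
  · rw [Multiset.map_add, Multiset.sum_add, hVs, Multiset.map_map]
    have e1 : (M0.map ((fun x : ℕ => x ^ 2) ∘ fun x => k * x)).sum
        = k ^ 2 * (M0.map fun x : ℕ => x ^ 2).sum := by
      rw [← Multiset.sum_map_mul_left]
      congr 1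
      apply Multiset.map_congr rfl
      intro x _
      simp only [Function.comp]
      ring
    rw [e1]
    rw [Multiset.map_cons, Multiset.sum_cons] at hs
    calc (k * w) ^ 2 + k ^ 2 * (M0.map fun x : ℕ => x ^ 2).sum
        = k ^ 2 * (w ^ 2 + (M0.map fun x : ℕ => x ^ 2).sum) := by ring
      _ = (k * t) ^ 2 := by rw [hs]; ring
  · have hk0 : (0 : ℝ) < k := by exact_mod_cast hk
    have h2 := hP.scale hk0.le
    have h3 : PM ((k * t : ℕ) : ℝ) ((((k * w : ℕ) : ℝ)) ::ₘ
        (M0.map (fun x : ℕ => ((k * x : ℕ) : ℝ)))) := by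
      have e1 : (k : ℝ) * (t : ℝ) = ((k * t : ℕ) : ℝ) := by
        push_cast
        ring
      rw [e1] at h2
      convert h2 using 1
      rw [Multiset.map_cons, Multiset.map_cons, Multiset.map_map]
      congr 1
      · push_cast
        ring
      · apply Multiset.map_congr rfl
        intro x _
        simp only [Function.comp]
        push_cast
        ring
    have h4 := h3.split (M' := (V w).map (fun x : ℕ => (x : ℝ))) (by positivity) (by positivity)
      ?_ ?_ ?_
    · convert h4 using 1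
      rw [Multiset.map_add, Multiset.map_map]
      rfl
    · intro x hx
      obtain ⟨y, _, rfl⟩ := Multiset.mem_map.1 hx
      positivity
    · intro x hx
      obtain ⟨y, _, rfl⟩ := Multiset.mem_map.1 hx
      positivity
    · have := hVp w
      rw [show ((k * w : ℕ) : ℝ) = (k : ℝ) * w by push_cast; ring]
      exact this

private theorem sp_three {c : ℕ} (h : Sp (c + 1)) : Sp (c + 4) := by
  refine sp_step (k := 2) (by norm_num) (fun w => Multiset.replicate 4 w) (e := 4) ?_ ?_ ?_ ?_ h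
  · intro w
    exact Multiset.card_replicate _ _
  · intro w hw x hx
    rw [Multiset.eq_of_mem_replicate hx]
    omega
  · intro w
    rw [Multiset.map_replicate, Multiset.sum_replicate, smul_eq_mul]
    ring
  · intro w
    rw [Multiset.map_replicate]
    have := PM.grid 2 (w := (w : ℝ)) (by positivity)
    simpa using this

private theorem sp_one : Sp 1 := by
  refine ⟨1, {1}, le_rfl, ?_, ?_, ?_, ?_⟩
  · simp
  · intro x hx
    rw [Multiset.mem_singleton.1 hx]
    exact ⟨le_rfl, le_rfl⟩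
  · simp
  · have := PM.one (w := (1 : ℝ)) zero_le_one
    simpa using this

/-- one point of weight `h` and `2 h + 1` points of weight one -/
private theorem sp_base (h : ℕ) (hh : 1 ≤ h) : Sp (2 * h + 1 + 1) := by
  have h1 : PE (h : ℝ) (fun _ : Fin 1 => (h : ℝ)) := PE.one (Nat.cast_nonneg h)
  have h2 := (PE.step (fun _ => Nat.cast_nonneg h) h1).pm
  refine ⟨h + 1, h ::ₘ Multiset.replicate (2 * h + 1) 1, by omega, ?_, ?_, ?_, ?_⟩
  · simp
  · intro x hx
    rcases Multiset.mem_cons.1 hx with rfl | hx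
    · exact ⟨hh, by omega⟩
    · rw [Multiset.eq_of_mem_replicate hx]
      exact ⟨le_rfl, by omega⟩
  · rw [Multiset.map_cons, Multiset.sum_cons, Multiset.map_replicate, Multiset.sum_replicate,
      smul_eq_mul]
    ring
  · convert h2 using 1
    rw [map_univ_sum, Multiset.map_cons, Multiset.map_replicate]
    simp only [Sum.elim_inl, Sum.elim_inr, Multiset.map_const', Finset.card_val, Finset.card_univ,
      Fintype.card_fin, Multiset.replicate_one, Multiset.singleton_add, Nat.cast_one]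

private theorem sp_add {c : ℕ} (h : Sp (c + 1)) (i : ℕ) : Sp (c + 3 * i + 1) := by
  induction i with
  | zero => simpa using h
  | succ i ih =>
    have : c + 3 * (i + 1) + 1 = c + 3 * i + 4 := by ring
    rw [this]
    exact sp_three ih

private theorem sp_all {δ : ℕ} (hδ : 5 ≤ δ) : Sp (δ + 1) := by
  obtain ⟨i, hi | hi | hi⟩ : ∃ i, δ = 0 + 3 * i ∨ δ = 5 + 3 * i ∨ δ = 7 + 3 * i := by
    rcases (by omega : δ % 3 = 0 ∨ δ % 3 = 2 ∨ δ % 3 = 1) with h | h | h
    · exact ⟨δ / 3, Or.inl (by omega)⟩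
    · exact ⟨(δ - 5) / 3, Or.inr (Or.inl (by omega))⟩
    · exact ⟨(δ - 7) / 3, Or.inr (Or.inr (by omega))⟩
  · rw [hi]
    exact sp_add sp_one i
  · rw [hi]
    exact sp_add (sp_base 2 (by norm_num)) i
  · rw [hi]
    exact sp_add (sp_base 3 (by norm_num)) i

private theorem sp_fn {α : Type} {c : ℕ} (M : Multiset α) (hM : M.card = c) :
    ∃ W : Fin c → α, Finset.univ.val.map W = M := by
  obtain ⟨l, rfl⟩ : ∃ l : List α, (l : Multiset α) = M := ⟨M.toList, Multiset.coe_toList M⟩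
  rw [Multiset.coe_card] at hM
  subst hM
  refine ⟨fun i => l.get i, ?_⟩
  rw [Fin.univ_val_map, List.ofFn_get]

/-- **splitting one point**: for every `δ ≥ 5` there are `k ≥ 1` and `δ + 1` positive
integers with square sum `k²` which satisfy the inequality for `h = k`. -/
theorem exists_splitting {δ : ℕ} (hδ : 5 ≤ δ) : ∃ (k : ℕ) (W : Fin (δ + 1) → ℕ), 1 ≤ k ∧
    (∀ l, 1 ≤ W l) ∧ (∀ l, W l ≤ k) ∧ ∑ l, W l ^ 2 = k ^ 2 ∧ PE (k : ℝ) (fun l => (W l : ℝ)) := by
  obtain ⟨k, M, hk, hc, hM, hs, hP⟩ := sp_all hδ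
  obtain ⟨W, rfl⟩ := sp_fn M hc
  have hW : ∀ l, 1 ≤ W l ∧ W l ≤ k := fun l =>
    hM _ (Multiset.mem_map_of_mem W (Finset.mem_univ_val l))
  refine ⟨k, W, hk, fun l => (hW l).1, fun l => (hW l).2, ?_, ?_⟩
  · rw [Multiset.map_map] at hs
    exact hs
  · rw [Multiset.map_map] at hP
    exact hP.pe rfl

end Pool.Agent.Lib.MP_ed661f_ag.W
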