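import Pool.Agent.Lib.MP_ed661f_ag.W.Base11

/-!
Nef classes on the blow-up of the plane in eleven and more points.
-/

set_option autoImplicit false

open MvPolynomial

namespace Pool.Agent.Lib.MP_ed661f_ag.W

open S E R

private theorem pm11_sum {α β : Type} [Fintype α] [Fintype β] (f : α → ℝ) (g : β → ℝ) :
    (Finset.univ.val.map (Sum.elim f g) : Multiset ℝ) =
      Finset.univ.val.map f + Finset.univ.val.map g := by
  rw [← Finset.univ_disjSum_univ, Finset.val_disjSum, Multiset.disjSum, Multiset.map_add,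
    Multiset.map_map, Multiset.map_map]
  rfl

/-- the nef classes of the blow-up of `ℙ¹ × ℙ¹` with one point at `(∞,∞)` and two more points at
infinity, of weights `b - c 0`, `a - c 0`.

PROOF. `nef_inf` (generic points exist as in `PE.base`) gives the hypothesis of `PE.inf` with
`a := b - c 0`, `b := a - c 0`, `c := c 0`, `W = Sum.elim (c ∘ succ) (Sum.elim c s)` on
`Fin 4 ⊕ Fin 5 ⊕ Fin n`; `W₀`, `W₁` = one point (`PE.one`); then `PE.pm`. -/
theorem PM.base11 {a b : ℝ} {c : Fin 5 → ℝ} (hc : ∀ j, 0 ≤ c j) (ha : c 0 ≤ a) (hb : c 0 ≤ b)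
    (hab : a + b = ∑ j, c j) {n : ℕ} {s : ℝ} (hs : 0 ≤ s)
    (hns : n * s ^ 2 ≤ 2 * (a * b - ∑ j, c j ^ 2)) :
    PM (a + b - c 0) ((b - c 0) ::ₘ (a - c 0) ::ₘ (Finset.univ.val.map (fun j : Fin 4 => c j.succ) +
      (Finset.univ.val.map c + Multiset.replicate n s))) := by
  classical
  -- generic points
  have : Countable (⊥ : Subfield ℂ) := by
    have h1 := Hn.countable_closure (∅ : Set ℂ) Set.countable_empty
    rwa [Subfield.closure_empty] at h1
  obtain ⟨t, ht⟩ := Hn.exists_indep (⊥ : Subfield ℂ) ((Fin 5 ⊕ (Fin 5 ⊕ Fin n)) × Fin 2)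
  have ht' : AlgebraicIndependent ℚ t := ht.restrictScalars (algebraMap ℚ (⊥ : Subfield ℂ)).injective
  set x : Fin 5 → Pt := fun j k => t (Sum.inl j, k) with hx
  set x' : Fin 5 → Pt := fun j k => t (Sum.inr (Sum.inl j), k) with hx'
  set y : Fin n → Pt := fun j k => t (Sum.inr (Sum.inr j), k) with hy
  have hgen : Generic (Sum.elim x (Sum.elim x' y)) := by
    unfold Generic
    convert ht' using 1
    funext q
    rcases q with ⟨i | i | i, k⟩ <;> rfl
  obtain ⟨z, z', w, hz⟩ := nef_inf hgen ((hc 0).trans ha) ((hc 0).trans hb) hc hs hab hns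
  have hz1 : ∀ g : Pol, g ≠ 0 →
      ∑ i, (Sum.elim (fun j : Fin 4 => c j.succ) (Sum.elim c fun _ : Fin n => s)) i *
        (mlt ((Sum.elim z (Sum.elim z' w)) i) g : ℝ) ≤
      c 0 * (g.totalDegree : ℝ) + (b - c 0) * g.degreeOf 0 + (a - c 0) * g.degreeOf 1 := by
    intro g hg
    have h1 := hz g hg
    rw [Fintype.sum_sum_type, Fintype.sum_sum_type]
    simp only [Sum.elim_inl, Sum.elim_inr]
    rw [Finset.mul_sum] at h1
    linarith
  have h1 := PE.inf (sub_nonneg.2 hb) (sub_nonneg.2 ha) (hc 0)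
    (W := Sum.elim (fun j : Fin 4 => c j.succ) (Sum.elim c fun _ : Fin n => s))
    (by
      rintro (i | i | i)
      · exact hc _
      · exact hc _
      · exact hs) hz1 (W₀ := fun _ : Fin 1 => b - c 0) (fun _ => sub_nonneg.2 hb)
    (PE.one (sub_nonneg.2 hb)) (W₁ := fun _ : Fin 1 => a - c 0) (fun _ => sub_nonneg.2 ha)
    (PE.one (sub_nonneg.2 ha))
  have h2 := h1.pm
  have h3 : b - c 0 + (a - c 0) + c 0 = a + b - c 0 := by ring
  rw [h3, pm11_sum, pm11_sum, pm11_sum, pm11_sum] at h2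
  have h4 : (Finset.univ.val.map (fun _ : Fin 1 => b - c 0) : Multiset ℝ) = {b - c 0} := rfl
  have h5 : (Finset.univ.val.map (fun _ : Fin 1 => a - c 0) : Multiset ℝ) = {a - c 0} := rfl
  have h6 : (Finset.univ.val.map (fun _ : Fin n => s) : Multiset ℝ) = Multiset.replicate n s := by
    rw [Multiset.map_const', ← Finset.card_def, Finset.card_univ, Fintype.card_fin]
  rw [h4, h5, h6, Multiset.singleton_add, Multiset.singleton_add] at h2
  exact h2

end Pool.Agent.Lib.MP_ed661f_ag.W
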