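import Pool.Agent.Lib.MP_ed661f_ag.W.IneqW
import Pool.Agent.Lib.MP_ed661f_ag.W.PM11

/-!
The weights of the six-dimensional family of divisors.
-/

set_option autoImplicit false

namespace Pool.Agent.Lib.MP_ed661f_ag.W

open S E R

/-- the weights of the divisor with parameters `a, b, c` (`a + b = ∑ c_j`): `11 + (p - 1)` points on
the first plane, four points on each of the `e` other planes -/
def mV (k : ℝ) {p : ℕ} (W : Fin p → ℝ) (e : ℕ) (a b : ℝ) (c : Fin 5 → ℝ) :
    Fin 2 ⊕ Fin 4 ⊕ Fin 4 ⊕ Fin p ⊕ (Fin e × Fin 4) → ℝ :=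
  Sum.elim ![2 * k * (b - c 0), 2 * k * (a - c 0)] (Sum.elim (fun j => 2 * k * c j.succ)
    (Sum.elim (fun j => 2 * k * c j.castSucc) (Sum.elim (fun l => 2 * c 4 * W l)
      (fun _ => k * (a + b - c 0)))))

/-- the square sum (`ring` after splitting the sums) -/
theorem sum_mV_sq (k : ℝ) {p : ℕ} {W : Fin p → ℝ} (hW : ∑ l, W l ^ 2 = k ^ 2) (e : ℕ) {a b : ℝ}
    {c : Fin 5 → ℝ} (hab : a + b = ∑ j, c j) :
    ∑ x, mV k W e a b c x ^ 2 + 8 * k ^ 2 * (a * b - ∑ j, c j ^ 2) =
      (2 * k * (a + b - c 0)) ^ 2 * (e + 1) := by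
  rw [Fintype.sum_sum_type, Fintype.sum_sum_type, Fintype.sum_sum_type, Fintype.sum_sum_type]
  simp only [mV, Sum.elim_inl, Sum.elim_inr, Finset.sum_const, Finset.card_univ,
    Fintype.card_prod, Fintype.card_fin, nsmul_eq_mul, Nat.cast_mul, Nat.cast_ofNat]
  have h1 : ∑ l, (2 * c 4 * W l) ^ 2 = 4 * c 4 ^ 2 * k ^ 2 := by
    rw [← hW, Finset.mul_sum]
    exact Finset.sum_congr rfl fun l _ => by ring
  rw [h1, Fin.sum_univ_two, Fin.sum_univ_four, Fin.sum_univ_four, Fin.sum_univ_five]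
  have h2 : (Fin.succ (0 : Fin 4)) = (1 : Fin 5) := rfl
  have h3 : (Fin.succ (1 : Fin 4)) = (2 : Fin 5) := rfl
  have h4 : (Fin.succ (2 : Fin 4)) = (3 : Fin 5) := rfl
  have h5 : (Fin.succ (3 : Fin 4)) = (4 : Fin 5) := rfl
  have h6 : (Fin.castSucc (0 : Fin 4)) = (0 : Fin 5) := rfl
  have h7 : (Fin.castSucc (1 : Fin 4)) = (1 : Fin 5) := rfl
  have h8 : (Fin.castSucc (2 : Fin 4)) = (2 : Fin 5) := rfl
  have h9 : (Fin.castSucc (3 : Fin 4)) = (3 : Fin 5) := rfl
  rw [h2, h3, h4, h5, h6, h7, h8, h9]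
  simp only [Matrix.cons_val_zero, Matrix.cons_val_one]
  ring

/-- **the inequality on a surface of degree `e + 1`**.

PROOF. First plane: `PM.base11` scaled by `2 k` (or with `2 k a, 2 k b, 2 k c` for `a, b, c`), and
the last weight `2 k c 4` (the second copy of `c`, index `Fin.last 4`) split by `hPE` scaled by
`2 c 4` (`PE.pm`, `PM.scale`, `PM.split`); the other planes: `PM.grid 2` with weight
`k (a + b - c 0)`, `Ms j = replicate 4 _`. -/
theorem PEd_V {k : ℝ} (hk : 0 ≤ k) {p : ℕ} {W : Fin p → ℝ} (hW0 : ∀ l, 0 ≤ W l)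
    (hW : ∑ l, W l ^ 2 = k ^ 2) (hPE : PE k W) (e : ℕ) {a b : ℝ} {c : Fin 5 → ℝ}
    (hc : ∀ j, 0 ≤ c j) (ha : c 0 ≤ a) (hb : c 0 ≤ b) (hab : a + b = ∑ j, c j) {n : ℕ} {s : ℝ}
    (hs : 0 ≤ s) (hns : n * s ^ 2 = 8 * k ^ 2 * (a * b - ∑ j, c j ^ 2)) :
    PEd (e + 1) (2 * k * (a + b - c 0))
      (Finset.univ.val.map (mV k W e a b c) + Multiset.replicate n s) := by
  classical
  have hk2 : 0 ≤ 2 * k := by positivity
  have hc4 : 0 ≤ 2 * c 4 := mul_nonneg (by norm_num) (hc 4)
  -- the first plane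
  have h1 : PM (2 * k * a + 2 * k * b - 2 * k * c 0) ((2 * k * b - 2 * k * c 0) ::ₘ
      (2 * k * a - 2 * k * c 0) ::ₘ (Finset.univ.val.map (fun j : Fin 4 => 2 * k * c j.succ) +
      (Finset.univ.val.map (fun j : Fin 5 => 2 * k * c j) + Multiset.replicate n s))) := by
    refine PM.base11 (c := fun j => 2 * k * c j) (fun j => mul_nonneg hk2 (hc j))
      (mul_le_mul_of_nonneg_left ha hk2) (mul_le_mul_of_nonneg_left hb hk2) ?_ hs ?_
    · rw [← Finset.mul_sum, ← hab]
      ring
    · have h2 : ∑ j, (2 * k * c j) ^ 2 = 4 * k ^ 2 * ∑ j, c j ^ 2 := by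
        rw [Finset.mul_sum]
        exact Finset.sum_congr rfl fun j _ => by ring
      rw [hns, h2]
      exact le_of_eq (by ring)
  have h2 : PM (2 * k * c 4) (Finset.univ.val.map fun l => 2 * c 4 * W l) := by
    have h3 := hPE.pm.scale hc4
    rw [Multiset.map_map] at h3
    have h4 : 2 * c 4 * k = 2 * k * c 4 := by ring
    rw [h4] at h3
    exact h3
  have h3 : (Finset.univ.val.map (fun j : Fin 5 => 2 * k * c j) : Multiset ℝ) =
      (2 * k * c 4) ::ₘ Finset.univ.val.map (fun j : Fin 4 => 2 * k * c j.castSucc) := by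
    rw [Fin.univ_castSuccEmb, Finset.cons_val, Multiset.map_cons, Finset.map_val,
      Multiset.map_map]
    rfl
  have h4 : PM (2 * k * (a + b - c 0)) (Finset.univ.val.map (fun l => 2 * c 4 * W l) +
      ((2 * k * (b - c 0)) ::ₘ (2 * k * (a - c 0)) ::ₘ
        (Finset.univ.val.map (fun j : Fin 4 => 2 * k * c j.succ) +
        (Finset.univ.val.map (fun j : Fin 4 => 2 * k * c j.castSucc) +
          Multiset.replicate n s)))) := by
    refine PM.split (w := 2 * k * c 4) ?_ (mul_nonneg hk2 (hc 4)) ?_ ?_ ?_ h2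
    · have := hc 0
      have : 0 ≤ a + b - c 0 := by linarith
      positivity
    · intro x hx
      rcases Multiset.mem_cons.1 hx with rfl | hx
      · exact mul_nonneg hk2 (sub_nonneg.2 hb)
      rcases Multiset.mem_cons.1 hx with rfl | hx
      · exact mul_nonneg hk2 (sub_nonneg.2 ha)
      rcases Multiset.mem_add.1 hx with hx | hx
      · obtain ⟨j, -, rfl⟩ := Multiset.mem_map.1 hx
        exact mul_nonneg hk2 (hc _)
      rcases Multiset.mem_add.1 hx with hx | hx
      · obtain ⟨j, -, rfl⟩ := Multiset.mem_map.1 hx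
        exact mul_nonneg hk2 (hc _)
      · rw [Multiset.eq_of_mem_replicate hx]
        exact hs
    · intro x hx
      obtain ⟨j, -, rfl⟩ := Multiset.mem_map.1 hx
      exact mul_nonneg hc4 (hW0 _)
    · rw [h3] at h1
      have h5 : 2 * k * a + 2 * k * b - 2 * k * c 0 = 2 * k * (a + b - c 0) := by ring
      have h6 : 2 * k * b - 2 * k * c 0 = 2 * k * (b - c 0) := by ring
      have h7 : 2 * k * a - 2 * k * c 0 = 2 * k * (a - c 0) := by ring
      rw [h5, h6, h7] at h1
      refine h1.congr ?_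
      rw [Multiset.cons_add, Multiset.add_cons, Multiset.cons_swap (2 * k * (a - c 0)),
        Multiset.cons_swap (2 * k * (b - c 0))]
  set A : Multiset ℝ := Finset.univ.val.map (fun l => 2 * c 4 * W l) +
      ((2 * k * (b - c 0)) ::ₘ (2 * k * (a - c 0)) ::ₘ
        (Finset.univ.val.map (fun j : Fin 4 => 2 * k * c j.succ) +
        (Finset.univ.val.map (fun j : Fin 4 => 2 * k * c j.castSucc) +
          Multiset.replicate n s))) with hA
  set B : Multiset ℝ := Multiset.replicate 4 (k * (a + b - c 0)) with hB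
  have hB1 : PM (2 * k * (a + b - c 0)) B := by
    have h5 := PM.grid 2 (w := k * (a + b - c 0)) (by
      have := hc 0
      have : 0 ≤ a + b - c 0 := by linarith
      positivity)
    have h6 : ((2 : ℕ) : ℝ) * (k * (a + b - c 0)) = 2 * k * (a + b - c 0) := by
      push_cast
      ring
    rw [h6] at h5
    exact h5
  -- all weights
  have hM : (Finset.univ.val.map (mV k W e a b c) : Multiset ℝ) + Multiset.replicate n s =
      A + e • B := by
    rw [map_univ_sum, map_univ_sum, map_univ_sum, map_univ_sum]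
    simp only [mV, Sum.elim_inl, Sum.elim_inr]
    have h5 : (Finset.univ.val.map (![2 * k * (b - c 0), 2 * k * (a - c 0)]) : Multiset ℝ) =
        (2 * k * (b - c 0)) ::ₘ (2 * k * (a - c 0)) ::ₘ 0 := rfl
    have h6 : ((Finset.univ : Finset (Fin e × Fin 4)).val.map fun _ => k * (a + b - c 0) :
        Multiset ℝ) = e • B := by
      rw [Multiset.map_const', ← Finset.card_def, Finset.card_univ, Fintype.card_prod,
        Fintype.card_fin, Fintype.card_fin, hB, Multiset.nsmul_replicate]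
    rw [h5, h6, hA]
    simp only [← Multiset.singleton_add]
    abel
  refine ⟨Fin.cons A fun _ => B, ?_, ?_⟩
  · rw [Fin.sum_univ_succ, hM]
    simp only [Fin.cons_zero, Fin.cons_succ, Finset.sum_const, Finset.card_univ,
      Fintype.card_fin]
  · have hsA : (A.map fun x => x ^ 2).sum = (2 * k * (a + b - c 0)) ^ 2 := by
      have h5 := sum_mV_sq k hW e (a := a) (b := b) (c := c) hab
      have h6 : ∑ x, mV k W e a b c x ^ 2 + n * s ^ 2 =
          (((Finset.univ.val.map (mV k W e a b c) : Multiset ℝ) +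
            Multiset.replicate n s).map fun x => x ^ 2).sum := by
        rw [Multiset.map_add, Multiset.sum_add, Multiset.map_map, Multiset.map_replicate,
          Multiset.sum_replicate, nsmul_eq_mul]
        rfl
      rw [hM, Multiset.map_add, Multiset.sum_add, Multiset.map_nsmul, Multiset.sum_nsmul, hB,
        Multiset.map_replicate, Multiset.sum_replicate, nsmul_eq_mul, nsmul_eq_mul] at h6
      push_cast at h6
      linarith
    have hsB : (B.map fun x => x ^ 2).sum = (2 * k * (a + b - c 0)) ^ 2 := by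
      rw [hB, Multiset.map_replicate, Multiset.sum_replicate, nsmul_eq_mul]
      push_cast
      ring
    intro j
    refine Fin.cases ?_ (fun i => ?_) j
    · exact ⟨h4, hsA⟩
    · exact ⟨hB1, hsB⟩

end Pool.Agent.Lib.MP_ed661f_ag.W
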