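import Pool.Agent.Lib.MP_ed661f_ag.W.Cone
import Pool.Agent.Lib.MP_ed661f_ag.W.Vee2
import Pool.Agent.Lib.MP_ed661f_ag.W.Split2
import Pool.Agent.Lib.MP_ed661f_ag.W.Nice
import Pool.Agent.Lib.MP_ed661f_ag.W.Grid2

/-!
The six-dimensional lattice of divisors.
-/

set_option autoImplicit false

namespace Pool.Agent.Lib.MP_ed661f_ag.W

/-- the indices of the points -/
abbrev JJ (p e : ℕ) := Fin 2 ⊕ Fin 4 ⊕ Fin 4 ⊕ Fin p ⊕ (Fin e × Fin 4)

/-- the integral weights (compare `mV`) -/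
def mZ (k : ℤ) {p : ℕ} (W : Fin p → ℤ) (e : ℕ) (a b : ℤ) (c : Fin 5 → ℤ) : JJ p e → ℤ :=
  Sum.elim ![2 * k * (b - c 0), 2 * k * (a - c 0)] (Sum.elim (fun j => 2 * k * c j.succ)
    (Sum.elim (fun j => 2 * k * c j.castSucc) (Sum.elim (fun l => 2 * c 4 * W l)
      (fun _ => k * (a + b - c 0)))))

theorem cast_mZ (k : ℤ) {p : ℕ} (W : Fin p → ℤ) (e : ℕ) (a b : ℤ) (c : Fin 5 → ℤ) (x : JJ p e) :
    ((mZ k W e a b c x : ℤ) : ℝ) =
      mV (k : ℝ) (fun l => (W l : ℝ)) e (a : ℝ) (b : ℝ) (fun j => (c j : ℝ)) x := by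
  rcases x with x | x | x | x | x
  · fin_cases x <;> simp [mZ, mV]
  · simp [mZ, mV]
  · simp [mZ, mV]
  · simp [mZ, mV]
  · simp [mZ, mV]

/-- the second parameter -/
def bZ (u : Fin 6 → ℤ) : ℤ := ∑ j : Fin 5, u j.succ - u 0

/-- the other parameters -/
def cZ (u : Fin 6 → ℤ) : Fin 5 → ℤ := fun j => u j.succ

theorem bZ_add (u v : Fin 6 → ℤ) : bZ (u + v) = bZ u + bZ v := by
  simp only [bZ, Pi.add_apply, Finset.sum_add_distrib]
  ring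

theorem bZ_smul (t : ℤ) (u : Fin 6 → ℤ) : bZ (t • u) = t * bZ u := by
  simp only [bZ, Pi.smul_apply, smul_eq_mul, mul_sub, Finset.mul_sum]

theorem mZ_add (k : ℤ) {p : ℕ} (W : Fin p → ℤ) (e : ℕ) (u v : Fin 6 → ℤ) (x : JJ p e) :
    mZ k W e ((u + v) 0) (bZ (u + v)) (cZ (u + v)) x =
      mZ k W e (u 0) (bZ u) (cZ u) x + mZ k W e (v 0) (bZ v) (cZ v) x := by
  rw [bZ_add]
  rcases x with x | x | x | x | x
  · fin_cases x <;> simp [mZ, cZ] <;> ring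
  · simp [mZ, cZ]
    ring
  · simp [mZ, cZ]
    ring
  · simp [mZ, cZ]
    ring
  · simp [mZ, cZ]
    ring

theorem mZ_smul (k : ℤ) {p : ℕ} (W : Fin p → ℤ) (e : ℕ) (t : ℤ) (u : Fin 6 → ℤ) (x : JJ p e) :
    mZ k W e ((t • u) 0) (bZ (t • u)) (cZ (t • u)) x = t * mZ k W e (u 0) (bZ u) (cZ u) x := by
  rw [bZ_smul]
  rcases x with x | x | x | x | x
  · fin_cases x <;> simp [mZ, cZ] <;> ring
  · simp [mZ, cZ]
    ring
  · simp [mZ, cZ]
    ring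
  · simp [mZ, cZ]
    ring
  · simp [mZ, cZ]
    ring

/-- the parametrisation of the lattice -/
def TT (k : ℤ) {p : ℕ} (W : Fin p → ℤ) (e : ℕ) {r : ℕ} (σ : Fin r ≃ JJ p e) :
    (Fin 6 → ℤ) →ₗ[ℤ] (Fin (r + 1) → ℤ) where
  toFun u := Fin.cons (2 * k * (u 0 + bZ u - cZ u 0))
    (fun i => mZ k W e (u 0) (bZ u) (cZ u) (σ i))
  map_add' u v := by
    ext i
    refine Fin.cases ?_ (fun i => ?_) i
    · simp only [Fin.cons_zero, Pi.add_apply, bZ_add, cZ]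
      ring
    · simp only [Fin.cons_succ, Pi.add_apply]
      exact mZ_add k W e u v (σ i)
  map_smul' t u := by
    ext i
    refine Fin.cases ?_ (fun i => ?_) i
    · simp only [Fin.cons_zero, Pi.smul_apply, bZ_smul, cZ, smul_eq_mul, RingHom.id_apply]
      ring
    · simp only [Fin.cons_succ, Pi.smul_apply, smul_eq_mul, RingHom.id_apply]
      exact mZ_smul k W e t u (σ i)

theorem TT_zero (k : ℤ) {p : ℕ} (W : Fin p → ℤ) (e : ℕ) {r : ℕ} (σ : Fin r ≃ JJ p e)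
    (u : Fin 6 → ℤ) : TT k W e σ u 0 = 2 * k * (u 0 + bZ u - cZ u 0) := rfl

theorem TT_succ (k : ℤ) {p : ℕ} (W : Fin p → ℤ) (e : ℕ) {r : ℕ} (σ : Fin r ≃ JJ p e)
    (u : Fin 6 → ℤ) (i : Fin r) :
    TT k W e σ u i.succ = mZ k W e (u 0) (bZ u) (cZ u) (σ i) := rfl

theorem TT_injective {k : ℤ} (hk : 1 ≤ k) {p : ℕ} (W : Fin p → ℤ) (e : ℕ) {r : ℕ}
    (σ : Fin r ≃ JJ p e) : Function.Injective (TT k W e σ) := by
  rw [injective_iff_map_eq_zero]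
  intro u hu
  have h1 : ∀ x : JJ p e, mZ k W e (u 0) (bZ u) (cZ u) x = 0 := by
    intro x
    have := congrFun hu (σ.symm x).succ
    rwa [TT_succ, Equiv.apply_symm_apply] at this
  have hk' : k ≠ 0 := by omega
  have h2 : ∀ j : Fin 4, cZ u j.castSucc = 0 := by
    intro j
    have := h1 (Sum.inr (Sum.inr (Sum.inl j)))
    simpa [mZ, hk'] using this
  have h3 : ∀ j : Fin 4, cZ u j.succ = 0 := by
    intro j
    have := h1 (Sum.inr (Sum.inl j))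
    simpa [mZ, hk'] using this
  have h4 : ∀ j : Fin 5, cZ u j = 0 := by
    intro j
    refine Fin.cases ?_ (fun j => h3 j) j
    exact h2 0
  have h5 := h1 (Sum.inl 1)
  have h6 : u 0 = 0 := by
    simpa [mZ, hk', h4 0] using h5
  ext i
  refine Fin.cases h6 (fun j => h4 j) i

/-- the lattice -/
def VV (k : ℤ) {p : ℕ} (W : Fin p → ℤ) (e : ℕ) {r : ℕ} (σ : Fin r ≃ JJ p e) :
    Submodule ℤ (Fin (r + 1) → ℤ) := LinearMap.range (TT k W e σ)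

theorem finrank_VV {k : ℤ} (hk : 1 ≤ k) {p : ℕ} (W : Fin p → ℤ) (e : ℕ) {r : ℕ}
    (σ : Fin r ≃ JJ p e) : Module.finrank ℤ (VV k W e σ) = 6 := by
  rw [VV, LinearMap.finrank_range_of_inj (TT_injective hk W e σ), Module.finrank_fin_fun]

/-- the self-intersection number, as an integer -/
def qf (d : ℕ) {r : ℕ} (L : Fin (r + 1) → ℤ) : ℤ := L 0 ^ 2 * d - ∑ i : Fin r, L i.succ ^ 2

/-- the intersection form, as an integer -/
def bf (d : ℕ) {r : ℕ} (L L' : Fin (r + 1) → ℤ) : ℤ :=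
  L 0 * L' 0 * d - ∑ i : Fin r, L i.succ * L' i.succ

theorem qf_sub (d : ℕ) {r : ℕ} (j : ℤ) (L L' : Fin (r + 1) → ℤ) :
    qf d (j • L - L') = j ^ 2 * qf d L - 2 * j * bf d L L' + qf d L' := by
  have h : ∀ i : Fin r, (j • L - L') i.succ ^ 2 =
      j ^ 2 * L i.succ ^ 2 - 2 * j * (L i.succ * L' i.succ) + L' i.succ ^ 2 := by
    intro i
    simp only [Pi.sub_apply, Pi.smul_apply, smul_eq_mul]
    ring
  unfold qf bf
  simp only [h, Finset.sum_add_distrib, Finset.sum_sub_distrib, ← Finset.mul_sum]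
  simp only [Pi.sub_apply, Pi.smul_apply, smul_eq_mul]
  ring

section

variable {k p e r : ℕ} {W : Fin p → ℕ} {σ : Fin r ≃ JJ p e}

theorem qf_TT (hW : ∑ l, W l ^ 2 = k ^ 2) (u : Fin 6 → ℤ) :
    ((qf (e + 1) (TT (k : ℤ) (fun l => (W l : ℤ)) e σ u) : ℤ) : ℝ) =
      8 * (k : ℝ) ^ 2 * ((u 0 : ℝ) * (bZ u : ℝ) - ∑ j, (cZ u j : ℝ) ^ 2) := by
  have hW' : ∑ l, (((W l : ℕ) : ℤ) : ℝ) ^ 2 = (((k : ℕ) : ℤ) : ℝ) ^ 2 := by
    push_cast
    exact_mod_cast hW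
  have hab : (u 0 : ℝ) + (bZ u : ℝ) = ∑ j, (cZ u j : ℝ) := by
    unfold bZ cZ
    push_cast
    ring
  have h1 := sum_mV_sq (((k : ℕ) : ℤ) : ℝ) (W := fun l => (((W l : ℕ) : ℤ) : ℝ)) hW' e hab
  have h2 : ((∑ i : Fin r, (TT (k : ℤ) (fun l => (W l : ℤ)) e σ u) i.succ ^ 2 : ℤ) : ℝ) =
      ∑ x, mV (((k : ℕ) : ℤ) : ℝ) (fun l => (((W l : ℕ) : ℤ) : ℝ)) e (u 0 : ℝ) (bZ u : ℝ)
        (fun j => (cZ u j : ℝ)) x ^ 2 := by
    rw [← Equiv.sum_comp σ]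
    push_cast
    refine Finset.sum_congr rfl fun i _ => ?_
    rw [TT_succ, cast_mZ]
    push_cast
    rfl
  unfold qf
  rw [Int.cast_sub, h2, TT_zero]
  push_cast
  push_cast at h1
  linarith

/-- the positive cone -/
theorem cone_TT (hk : 1 ≤ k) (hW : ∑ l, W l ^ 2 = k ^ 2) {u : Fin 6 → ℤ}
    (h0 : 0 < TT (k : ℤ) (fun l => (W l : ℤ)) e σ u 0)
    (hq : 0 < qf (e + 1) (TT (k : ℤ) (fun l => (W l : ℤ)) e σ u)) :
    0 < (u 0 : ℝ) ∧ 0 < (bZ u : ℝ) ∧ (∀ j, 0 < (cZ u j : ℝ)) ∧ (cZ u 0 : ℝ) < (u 0 : ℝ) ∧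
      (cZ u 0 : ℝ) < (bZ u : ℝ) := by
  have hk' : (0 : ℝ) < k := by exact_mod_cast hk
  refine cone_facts ?_ ?_ ?_
  · unfold bZ cZ
    push_cast
    ring
  · have h1 : (0 : ℝ) < ((qf (e + 1) (TT (k : ℤ) (fun l => (W l : ℤ)) e σ u) : ℤ) : ℝ) := by
      exact_mod_cast hq
    rw [qf_TT hW] at h1
    have h2 : 0 < 8 * (k : ℝ) ^ 2 := by positivity
    have h3 := (mul_pos_iff_of_pos_left h2).1 h1
    linarith
  · have h1 : (0 : ℝ) < ((TT (k : ℤ) (fun l => (W l : ℤ)) e σ u 0 : ℤ) : ℝ) := by exact_mod_cast h0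
    rw [TT_zero] at h1
    push_cast at h1
    have h2 : 0 < 2 * (k : ℝ) := by positivity
    exact (mul_pos_iff_of_pos_left h2).1 h1

theorem TT_pos (hk : 1 ≤ k) (hW : ∑ l, W l ^ 2 = k ^ 2) (hW1 : ∀ l, 1 ≤ W l) {u : Fin 6 → ℤ}
    (h0 : 0 < TT (k : ℤ) (fun l => (W l : ℤ)) e σ u 0)
    (hq : 0 < qf (e + 1) (TT (k : ℤ) (fun l => (W l : ℤ)) e σ u)) (i : Fin r) :
    0 < TT (k : ℤ) (fun l => (W l : ℤ)) e σ u i.succ := by
  obtain ⟨ha, hb, hc, hca, hcb⟩ := cone_TT hk hW h0 hq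
  have hk' : (0 : ℝ) < k := by exact_mod_cast hk
  have h1 : (0 : ℝ) < ((TT (k : ℤ) (fun l => (W l : ℤ)) e σ u i.succ : ℤ) : ℝ) := by
    rw [TT_succ, cast_mZ]
    generalize σ i = x
    rcases x with x | x | x | x | x
    · fin_cases x
      · have := mul_pos hk' (sub_pos.2 hcb)
        simp [mV]
        nlinarith
      · have := mul_pos hk' (sub_pos.2 hca)
        simp [mV]
        nlinarith
    · have := mul_pos hk' (hc x.succ)
      simp [mV]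
      nlinarith
    · have := mul_pos hk' (hc x.castSucc)
      simp [mV]
      nlinarith
    · have h5 : (1 : ℝ) ≤ (W x : ℝ) := by exact_mod_cast hW1 x
      have := mul_pos (hc 4) (lt_of_lt_of_le one_pos h5)
      simp [mV]
      nlinarith
    · have : (0 : ℝ) < k * ((u 0 : ℝ) + (bZ u : ℝ) - (cZ u 0 : ℝ)) := mul_pos hk' (by linarith)
      simpa [mV] using this
  exact_mod_cast h1

theorem map_univ_comp {ι κ α : Type} [Fintype ι] [Fintype κ] (σ : ι ≃ κ) (f : κ → α) :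
    (Finset.univ.val.map fun i => f (σ i)) = Finset.univ.val.map f := by
  have h := Multiset.map_univ_val_equiv σ
  rw [← h, Multiset.map_map]
  rfl

/-- all classes of the positive cone are nice -/
theorem nice_TT (hk : 1 ≤ k) (hW : ∑ l, W l ^ 2 = k ^ 2) (hW1 : ∀ l, 1 ≤ W l)
    (hPE : PE (k : ℝ) (fun l => (W l : ℝ))) {u : Fin 6 → ℤ}
    (h0 : 0 < TT (k : ℤ) (fun l => (W l : ℤ)) e σ u 0)
    (hq : 0 < qf (e + 1) (TT (k : ℤ) (fun l => (W l : ℤ)) e σ u)) :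
    Nice (e + 1) (TT (k : ℤ) (fun l => (W l : ℤ)) e σ u 0).toNat
      (fun i : Fin r => (TT (k : ℤ) (fun l => (W l : ℤ)) e σ u i.succ).toNat) := by
  obtain ⟨ha, hb, hc, hca, hcb⟩ := cone_TT hk hW h0 hq
  intro n t ht hnt
  have hH : (((TT (k : ℤ) (fun l => (W l : ℤ)) e σ u 0).toNat : ℕ) : ℝ) =
      2 * (k : ℝ) * ((u 0 : ℝ) + (bZ u : ℝ) - (cZ u 0 : ℝ)) := by
    have h1 : (((TT (k : ℤ) (fun l => (W l : ℤ)) e σ u 0).toNat : ℕ) : ℤ) =
      TT (k : ℤ) (fun l => (W l : ℤ)) e σ u 0 := Int.toNat_of_nonneg h0.le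
    have h2 : (((TT (k : ℤ) (fun l => (W l : ℤ)) e σ u 0).toNat : ℕ) : ℝ) =
      ((TT (k : ℤ) (fun l => (W l : ℤ)) e σ u 0 : ℤ) : ℝ) := by exact_mod_cast h1
    rw [h2, TT_zero]
    push_cast
    ring
  have hm : ∀ i : Fin r, (((TT (k : ℤ) (fun l => (W l : ℤ)) e σ u i.succ).toNat : ℕ) : ℝ) =
      mV (k : ℝ) (fun l => (W l : ℝ)) e (u 0 : ℝ) (bZ u : ℝ) (fun j => (cZ u j : ℝ)) (σ i) := by
    intro i
    have h1 : (((TT (k : ℤ) (fun l => (W l : ℤ)) e σ u i.succ).toNat : ℕ) : ℤ) =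
      TT (k : ℤ) (fun l => (W l : ℤ)) e σ u i.succ :=
      Int.toNat_of_nonneg (TT_pos hk hW hW1 h0 hq i).le
    have h2 : (((TT (k : ℤ) (fun l => (W l : ℤ)) e σ u i.succ).toNat : ℕ) : ℝ) =
      ((TT (k : ℤ) (fun l => (W l : ℤ)) e σ u i.succ : ℤ) : ℝ) := by exact_mod_cast h1
    rw [h2, TT_succ, cast_mZ]
    push_cast
    rfl
  simp only [hm] at hnt ⊢
  rw [hH] at hnt ⊢
  rw [map_univ_comp σ (mV (k : ℝ) (fun l => (W l : ℝ)) e (u 0 : ℝ) (bZ u : ℝ)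
    (fun j => (cZ u j : ℝ)))]
  have hab : (u 0 : ℝ) + (bZ u : ℝ) = ∑ j, (cZ u j : ℝ) := by
    unfold bZ cZ
    push_cast
    ring
  have hW' : ∑ l, (W l : ℝ) ^ 2 = (k : ℝ) ^ 2 := by exact_mod_cast hW
  have h1 := sum_mV_sq (k : ℝ) (W := fun l => (W l : ℝ)) hW' e hab
  refine PEd_V (Nat.cast_nonneg k) (fun l => Nat.cast_nonneg _) hW' hPE e (fun j => (hc j).le)
    hca.le hcb.le hab ht ?_
  rw [Equiv.sum_comp σ (fun x => mV (k : ℝ) (fun l => (W l : ℝ)) e (u 0 : ℝ) (bZ u : ℝ)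
    (fun j => (cZ u j : ℝ)) x ^ 2)] at hnt
  push_cast at hnt
  linarith

/-- the parameters of `L₀` -/
def u0 : Fin 6 → ℤ := ![15, 6, 6, 6, 6, 6]

theorem bZ_u0 : bZ u0 = 15 := by
  unfold bZ u0
  decide

theorem TT_u0_zero : TT (k : ℤ) (fun l => (W l : ℤ)) e σ u0 0 = 48 * k := by
  rw [TT_zero, bZ_u0]
  simp [u0, cZ]
  ring

theorem qf_u0 (hW : ∑ l, W l ^ 2 = k ^ 2) :
    qf (e + 1) (TT (k : ℤ) (fun l => (W l : ℤ)) e σ u0) = 360 * k ^ 2 := by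
  have h := qf_TT (e := e) (σ := σ) hW u0
  have h2 : ((qf (e + 1) (TT (k : ℤ) (fun l => (W l : ℤ)) e σ u0) : ℤ) : ℝ) =
      ((360 * (k : ℤ) ^ 2 : ℤ) : ℝ) := by
    rw [h, bZ_u0, Fin.sum_univ_five]
    simp [u0, cZ]
    ring
  exact_mod_cast h2

/-- the weights of `L₀` -/
theorem TT_u0_succ (i : Fin r) :
    ((TT (k : ℤ) (fun l => (W l : ℤ)) e σ u0 i.succ : ℤ) : ℝ) =
      mV (k : ℝ) (fun l => (W l : ℝ)) e 15 15 (fun _ => 6) (σ i) := by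
  have h1 : (fun j => ((cZ u0 j : ℤ) : ℝ)) = fun _ => 6 := by
    funext j
    fin_cases j <;> simp [cZ, u0]
  rw [TT_succ, cast_mZ, h1, bZ_u0]
  simp [u0]

end

section

variable {k : ℝ} {p e : ℕ} {W : Fin p → ℝ}

theorem mV_u0_lt (hk : 0 < k) (hWk : ∀ l, W l ≤ k) {t : ℝ} (ht : 0 ≤ t) (ht2 : t ^ 2 = 360 * k ^ 2)
    (x : JJ p e) :
    mV k W e 15 15 (fun _ => 6) x < t ∨ w0 (24 * k) p e x = mV k W e 15 15 (fun _ => 6) x := by
  have h18 : 18 * k < t := by nlinarith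
  rcases x with x | x | x | x | x
  · left
    fin_cases x <;> simp [mV] <;> linarith
  · left
    simp [mV]
    linarith
  · left
    simp [mV]
    linarith
  · left
    have := hWk x
    simp [mV]
    linarith
  · right
    simp [mV, w0]
    ring

theorem w0_lt (hk : 0 < k) (x : JJ p e) : w0 (24 * k) p e x < 2 * (24 * k) := by
  rcases x with x | x | x | x | x <;> simp [w0, hk]

theorem w0_nonneg (hk : 0 < k) (x : JJ p e) : 0 ≤ w0 (24 * k) p e x := by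
  rcases x with x | x | x | x | x <;> simp [w0, hk.le]

theorem PEd_u0 (hk : 0 < k) (hW1 : ∀ l, 0 ≤ W l) (hW : ∑ l, W l ^ 2 = k ^ 2) (hPE : PE k W)
    {t : ℝ} (ht : 0 ≤ t) (ht2 : t ^ 2 = 360 * k ^ 2) :
    PEd (e + 1) (48 * k) (t ::ₘ Finset.univ.val.map (mV k W e 15 15 (fun _ => 6))) := by
  have h1 := PEd_V hk.le hW1 hW hPE e (a := 15) (b := 15) (c := fun _ => 6)
    (fun _ => by norm_num) (by norm_num) (by norm_num) (by simp; norm_num) (n := 1) ht (by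
      simp
      rw [ht2]
      ring)
  have h2 : Finset.univ.val.map (mV k W e 15 15 fun _ => 6) + Multiset.replicate 1 t =
      t ::ₘ Finset.univ.val.map (mV k W e 15 15 fun _ => 6) := by
    rw [Multiset.replicate_one, add_comm, Multiset.singleton_add]
  have h3 : 2 * k * (15 + 15 - 6) = 48 * k := by ring
  rw [h2, h3] at h1
  exact h1

end

end Pool.Agent.Lib.MP_ed661f_ag.W
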