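import Pool.Agent.Lib.MP_ed661f_ag.W.PlanesAux

/-!
The linear substitution `x ↦ (x_0, a x_0 + τ x_1, b x_0 + τ x_2, x_3)`.
-/

set_option autoImplicit false

open MvPolynomial

namespace Pool.Agent.Lib.MP_ed661f_ag.W

open S E R H

section

variable {R : Type*} [CommRing R]

/-- the substitution `x ↦ (x_0, a x_0 + τ x_1, b x_0 + τ x_2, x_3)` -/
noncomputable def lin (a b τ : R) : MvPolynomial (Fin 4) R →ₐ[R] MvPolynomial (Fin 4) R :=
  aeval ![X 0, C a * X 0 + C τ * X 1, C b * X 0 + C τ * X 2, X 3]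

theorem map_lin {R' : Type*} [CommRing R'] (ψ : R →+* R') (a b τ : R)
    (P : MvPolynomial (Fin 4) R) :
    map ψ (lin a b τ P) = lin (ψ a) (ψ b) (ψ τ) (map ψ P) := by
  have h : (map ψ).comp (lin a b τ).toRingHom =
      ((lin (ψ a) (ψ b) (ψ τ)).toRingHom).comp (map ψ) := by
    apply MvPolynomial.ringHom_ext
    · intro r
      simp [lin]
    · intro i
      fin_cases i <;> simp [lin]
  exact congrArg (fun φ => φ P) h

theorem eval_lin (a b τ s t x : R) (P : MvPolynomial (Fin 4) R) :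
    eval ![1, s, t, x] (lin a b τ P) = eval ![1, a + τ * s, b + τ * t, x] P := by
  have h : (eval ![1, s, t, x]).comp (lin a b τ).toRingHom =
      eval ![1, a + τ * s, b + τ * t, x] := by
    apply MvPolynomial.ringHom_ext
    · intro r
      simp [lin]
    · intro i
      fin_cases i <;> simp [lin]
  exact congrArg (fun φ => φ P) h

theorem uni_lin (r : Fin 3 → R) (a b τ : R) (P : MvPolynomial (Fin 4) R) :
    Hn.uni r (lin a b τ P) = Hn.uni ![r 0, a * r 0 + τ * r 1, b * r 0 + τ * r 2] P := by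
  have h : (Hn.uni (R := R) r).comp (lin a b τ) =
      Hn.uni ![r 0, a * r 0 + τ * r 1, b * r 0 + τ * r 2] := by
    apply MvPolynomial.algHom_ext
    intro i
    fin_cases i <;> simp [lin, Hn.uni]
  exact congrArg (fun φ => φ P) h

theorem pderiv_lin (a b τ : R) (P : MvPolynomial (Fin 4) R) :
    pderiv 3 (lin a b τ P) = lin a b τ (pderiv 3 P) := by
  induction P using MvPolynomial.induction_on with
  | C r =>
    have h : lin a b τ (C r : MvPolynomial (Fin 4) R) = C r := by
      rw [lin, algHom_C, algebraMap_eq]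
    rw [h, pderiv_C, map_zero]
  | add p q hp hq => rw [map_add, map_add, map_add, map_add, hp, hq]
  | mul_X p i hp =>
    rw [map_mul, Derivation.leibniz, Derivation.leibniz, smul_eq_mul, smul_eq_mul, smul_eq_mul,
      smul_eq_mul, map_add, map_mul, map_mul, hp]
    have h1 : pderiv 3 (lin a b τ (X i : MvPolynomial (Fin 4) R)) =
        lin a b τ (pderiv 3 (X i : MvPolynomial (Fin 4) R)) := by
      fin_cases i <;> simp [lin, pderiv_X]
    rw [h1]

theorem lin_hom (a b τ : R) {P : MvPolynomial (Fin 4) R} {m : ℕ} (hP : P.IsHomogeneous m) :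
    (lin a b τ P).IsHomogeneous m := by
  have h1 : ∀ (r : R) (j : Fin 4), (C r * X j : MvPolynomial (Fin 4) R).IsHomogeneous 1 :=
    fun r j => isHomogeneous_C_mul_X r j
  have h2 : ∀ i : Fin 4, ((![X 0, C a * X 0 + C τ * X 1, C b * X 0 + C τ * X 2, X 3] :
      Fin 4 → MvPolynomial (Fin 4) R) i).IsHomogeneous 1 := by
    intro i
    fin_cases i
    · exact isHomogeneous_X _ _
    · exact IsHomogeneous.add (h1 a 0) (h1 τ 1)
    · exact IsHomogeneous.add (h1 b 0) (h1 τ 2)
    · exact isHomogeneous_X _ _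
  have h := hP.aeval _ h2
  rw [one_mul] at h
  exact h

theorem coeff_lin (a b τ : R) {P : MvPolynomial (Fin 4) R} {d : ℕ} (hP : P.IsHomogeneous d) :
    coeff (Finsupp.single 3 d) (lin a b τ P) = coeff (Finsupp.single 3 d) P := by
  have h1 := coeff_uni (A := R) (fun _ => 0) (lin_hom a b τ hP)
  rw [uni_lin, coeff_uni (A := R) _ hP] at h1
  exact h1.symm

end

/-- the inverse substitution -/
theorem lin_inv {a b τ : ℂ} (hτ : τ ≠ 0) (P : Poly 3) :
    aeval ![X 0, C τ⁻¹ * (X 1 - C a * X 0), C τ⁻¹ * (X 2 - C b * X 0), X 3] (lin a b τ P) =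
      P := by
  have h1 : (C τ : Poly 3) * C τ⁻¹ = 1 := by
    rw [← C_mul, mul_inv_cancel₀ hτ, C_1]
  have h : (aeval ![X 0, C τ⁻¹ * (X 1 - C a * X 0), C τ⁻¹ * (X 2 - C b * X 0), X 3] :
      Poly 3 →ₐ[ℂ] Poly 3).comp (lin a b τ) = AlgHom.id ℂ _ := by
    apply MvPolynomial.algHom_ext
    intro i
    fin_cases i
    · simp [lin]
    · simp only [lin, Fin.mk_one, AlgHom.comp_apply, aeval_X, Matrix.cons_val_one,
        Matrix.cons_val_zero, map_add, map_mul, algHom_C, algebraMap_eq, AlgHom.id_apply]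
      linear_combination (X 1 - C a * X 0) * h1
    · simp only [lin, Fin.reduceFinMk, AlgHom.comp_apply, aeval_X, Matrix.cons_val,
        map_add, map_mul, algHom_C, algebraMap_eq, AlgHom.id_apply]
      linear_combination (X 2 - C b * X 0) * h1
    · simp [lin]
  exact congrArg (fun φ => φ P) h

theorem dvd_of_lin {a b τ : ℂ} (hτ : τ ≠ 0) {P Q : Poly 3} (h : lin a b τ P ∣ lin a b τ Q) :
    P ∣ Q := by
  obtain ⟨S, hS⟩ := h
  refine ⟨aeval ![X 0, C τ⁻¹ * (X 1 - C a * X 0), C τ⁻¹ * (X 2 - C b * X 0), X 3] S, ?_⟩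
  have h1 := congrArg (aeval ![X 0, C τ⁻¹ * (X 1 - C a * X 0), C τ⁻¹ * (X 2 - C b * X 0), X 3] :
      Poly 3 →ₐ[ℂ] Poly 3) hS
  rwa [map_mul, lin_inv hτ, lin_inv hτ] at h1

theorem lin_mem {a b τ s t x : ℂ} {F G : Poly 3} {w : ℕ}
    (h : G ∈ Ideal.span {F} ⊔ vecIdeal ![1, a + τ * s, b + τ * t, x] ^ w ⊔
      Ideal.span {X 0 - 1}) :
    lin a b τ G ∈ Hn.KK (lin a b τ F) ![1, s, t, x] w := by
  have key : Ideal.span {F} ⊔ vecIdeal ![1, a + τ * s, b + τ * t, x] ^ w ⊔
      Ideal.span {X 0 - 1} ≤ (Hn.KK (lin a b τ F) ![1, s, t, x] w).comap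
        (lin a b τ).toRingHom := by
    refine sup_le (sup_le ?_ ?_) ?_
    · rw [Ideal.span_singleton_le_iff_mem, Ideal.mem_comap]
      exact Ideal.mem_sup_left (Ideal.mem_sup_left (Ideal.subset_span rfl))
    · rw [← Ideal.map_le_iff_le_comap, Ideal.map_pow]
      refine le_trans (Ideal.pow_right_mono ?_ w) (le_sup_right.trans le_sup_left)
      rw [Ideal.map_le_iff_le_comap]
      intro P hP
      rw [Ideal.mem_comap]
      change eval ![1, s, t, x] (lin a b τ P) = 0
      rw [eval_lin]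
      exact hP
    · rw [Ideal.span_singleton_le_iff_mem, Ideal.mem_comap]
      have h1 : (lin a b τ).toRingHom (X 0 - 1) = (X 0 - 1 : Poly 3) := by
        simp [lin]
      rw [h1]
      exact Ideal.mem_sup_right (Ideal.subset_span rfl)
  exact key h

end Pool.Agent.Lib.MP_ed661f_ag.W
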