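import Pool.Agent.Lib.MP_ed661f_ag.W.Nice
import Pool.Agent.Lib.MP_ed661f_ag.W.DefsW
import Pool.Agent.Lib.MP_ed661f_ag.W.Main

/-!
Blow-ups of arbitrary surfaces in very general points: the Seshadri constants of
`h H - ∑ m_i E_i`.
-/

set_option autoImplicit false

open MvPolynomial
open scoped ENNReal

namespace Pool.Agent.Lib.MP_ed661f_ag.W

open H T

variable {N : ℕ} {I : Ideal (Poly N)} {d q : ℕ} {F : Poly 3} {L : Fin 4 → Poly N} {s : D3}
  (h : Proj4 I d q F L s) (hI : IsSurface I) {K : Subfield ℂ} [Countable K]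
  (hFK : ∀ e, coeff e F ∈ K) (hsK : ∀ e, coeff e s ∈ K) {H r : ℕ} {m : Fin r → ℕ}
  (hnice : Nice d H m) (hL : ∑ i, m i ^ 2 < H ^ 2 * d)

private theorem mw_map_eq_sum {ι : Type} [Fintype ι] (f : ι → ℝ) :
    (Finset.univ.val.map f : Multiset ℝ) = ∑ x, ({f x} : Multiset ℝ) := by
  have h1 : (Finset.univ.val.map fun x => ({f x} : Multiset ℝ)) =
      (Finset.univ.val.map f).map fun a => ({a} : Multiset ℝ) := by
    rw [Multiset.map_map]
    rfl
  rw [Finset.sum_eq_multiset_sum, h1, Multiset.sum_map_singleton]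

private theorem mw_map_sum {r n : ℕ} (f : Fin r → ℝ) (t : ℝ) :
    (Finset.univ.val.map (Sum.elim f fun _ : Fin n => t) : Multiset ℝ) =
      Finset.univ.val.map f + Multiset.replicate n t := by
  rw [mw_map_eq_sum, Fintype.sum_sum_type, mw_map_eq_sum]
  simp only [Sum.elim_inl, Sum.elim_inr, Finset.sum_const, Finset.card_univ, Fintype.card_fin,
    Multiset.nsmul_singleton]

omit h hI hnice in
include hL in
private theorem mw_pos : 1 ≤ H := by
  by_contra hcon
  have h0 : H = 0 := by omega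
  rw [h0] at hL
  simp at hL

include h hI hFK hsK hnice hL

/-- the inequality in real numbers, `n t² = L²` -/
theorem real_ineqW {n : ℕ} {t : ℝ} (ht : 0 < t)
    (hnt : n * t ^ 2 + ∑ i, (m i : ℝ) ^ 2 = (H : ℝ) ^ 2 * d) (hm : ∀ i, 1 ≤ m i)
    {x : Fin r → Fin (N + 1) → ℂ} {y : Fin n → Fin (N + 1) → ℂ} (hv : Aff K I L (Sum.elim x y))
    {P : Ideal (Poly N)} (hP : IsCurveOn I P) :
    (∀ i, mult P (x i) ≠ ⊤) ∧ (∀ j, mult P (y j) ≠ ⊤) ∧
      ∑ i, m i * (mult P (x i)).toReal + t * ∑ j, (mult P (y j)).toReal ≤ H * (deg P).toReal := by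
  have hH : (0 : ℝ) < H := by exact_mod_cast mw_pos hL
  have hd := (S.degree_curve hP).2
  have h1 := ineqW (ι := Fin r ⊕ Fin n) (w := Sum.elim (fun i => (m i : ℝ)) fun _ => t)
    (fun i => by
      rcases i with i | i
      · exact Nat.cast_nonneg _
      · exact ht.le) hH (by
      rw [mw_map_sum]
      exact hnice n t ht.le hnt) h hI hFK hsK hv hP
  rw [Fintype.sum_sum_type] at h1
  simp only [Sum.elim_inl, Sum.elim_inr] at h1
  have hfin : ∑ i, ENNReal.ofReal (m i : ℝ) * mult P (x i) + ∑ j, ENNReal.ofReal t * mult P (y j) ≠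
      ⊤ := ne_top_of_le_ne_top (ENNReal.mul_ne_top ENNReal.ofReal_ne_top hd) h1
  have h2 : ∑ i, ENNReal.ofReal (m i : ℝ) * mult P (x i) ≠ ⊤ := (ENNReal.add_ne_top.1 hfin).1
  have h3 : ∑ j, ENNReal.ofReal t * mult P (y j) ≠ ⊤ := (ENNReal.add_ne_top.1 hfin).2
  have hx : ∀ i, mult P (x i) ≠ ⊤ := by
    intro i h4
    have h5 := (ENNReal.sum_ne_top.1 h2) i (Finset.mem_univ i)
    apply h5
    rw [h4, ENNReal.mul_top]
    have h6 : (0 : ℝ) < m i := by exact_mod_cast hm i
    exact (ENNReal.ofReal_pos.2 h6).ne'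
  have hy : ∀ j, mult P (y j) ≠ ⊤ := by
    intro j h4
    have h5 := (ENNReal.sum_ne_top.1 h3) j (Finset.mem_univ j)
    apply h5
    rw [h4, ENNReal.mul_top]
    exact (ENNReal.ofReal_pos.2 ht).ne'
  refine ⟨hx, hy, ?_⟩
  have h4 := ENNReal.toReal_mono (ENNReal.mul_ne_top ENNReal.ofReal_ne_top hd) h1
  rw [ENNReal.toReal_add h2 h3, ENNReal.toReal_sum (fun i _ => (ENNReal.sum_ne_top.1 h2) i
    (Finset.mem_univ i)), ENNReal.toReal_sum (fun i _ => (ENNReal.sum_ne_top.1 h3) i
    (Finset.mem_univ i)), ENNReal.toReal_mul, ENNReal.toReal_ofReal hH.le] at h4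
  simp only [ENNReal.toReal_mul, ENNReal.toReal_ofReal ht.le,
    ENNReal.toReal_ofReal (Nat.cast_nonneg _)] at h4
  rw [← Finset.mul_sum Finset.univ (fun j => (mult P (y j)).toReal) t] at h4
  exact h4

/-- **positivity on all curves** (as `inter_pos`, exchange of `x i` and a new point) -/
theorem interW_pos (hm : ∀ i, 1 ≤ m i) (hmL : ∀ i, m i ^ 2 + ∑ k, m k ^ 2 < H ^ 2 * d)
    {x : Fin r → Fin (N + 1) → ℂ} (hx : Aff K I L x) {P : Ideal (Poly N)} (hP : IsCurveOn I P) :
    0 < interW H m x P := by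
  classical
  obtain ⟨y, hy⟩ := hx.exists_extend h
  have hH : (0 : ℝ) < H := by exact_mod_cast mw_pos hL
  have hL' : (0 : ℝ) < (H : ℝ) ^ 2 * d - ∑ i, (m i : ℝ) ^ 2 := by
    have h1 : (∑ i, (m i : ℝ) ^ 2) < (H : ℝ) ^ 2 * d := by exact_mod_cast hL
    linarith
  set t : ℝ := Real.sqrt ((H : ℝ) ^ 2 * d - ∑ i, (m i : ℝ) ^ 2) with ht
  have ht0 : 0 < t := Real.sqrt_pos.2 hL'
  have ht2 : t ^ 2 = (H : ℝ) ^ 2 * d - ∑ i, (m i : ℝ) ^ 2 := Real.sq_sqrt hL'.le
  have hnt : ((1 : ℕ) : ℝ) * t ^ 2 + ∑ i, (m i : ℝ) ^ 2 = (H : ℝ) ^ 2 * d := by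
    rw [ht2]
    push_cast
    ring
  have hmt : ∀ i, (m i : ℝ) < t := by
    intro i
    have h1 : (m i : ℝ) ^ 2 + ∑ k, (m k : ℝ) ^ 2 < (H : ℝ) ^ 2 * d := by exact_mod_cast hmL i
    have h2 : (m i : ℝ) ^ 2 < t ^ 2 := by
      rw [ht2]
      linarith
    exact lt_of_pow_lt_pow_left₀ 2 ht0.le h2
  obtain ⟨hd0, hd1⟩ := S.degree_curve hP
  unfold interW
  rw [sub_pos]
  obtain ⟨hx1, hy1, h2⟩ := real_ineqW h hI hFK hsK hnice hL ht0 hnt hm hy hP
  by_cases hz : ∀ i, (mult P (x i)).toReal = 0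
  · rw [Finset.sum_eq_zero fun i _ => by rw [hz i, mul_zero]]
    have h3 : 0 < (deg P).toReal := ENNReal.toReal_pos hd0 hd1
    positivity
  · push Not at hz
    obtain ⟨i₀, hi₀⟩ := hz
    have hpos : 0 < (mult P (x i₀)).toReal := lt_of_le_of_ne ENNReal.toReal_nonneg (Ne.symm hi₀)
    -- exchange the new point and `x i₀`
    have hsw := hy.comp (Equiv.swap (Sum.inl i₀ : Fin r ⊕ Fin 1) (Sum.inr 0)).injective
    have hsw' : (Sum.elim x fun _ : Fin 1 => y) ∘ (Equiv.swap (Sum.inl i₀ : Fin r ⊕ Fin 1)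
        (Sum.inr 0)) = Sum.elim (Function.update x i₀ y) fun _ : Fin 1 => x i₀ := by
      funext i
      rcases i with i | i
      · rw [Function.comp_apply]
        by_cases hi : i = i₀
        · subst hi
          rw [Equiv.swap_apply_left, Sum.elim_inl, Function.update_self]
          rfl
        · rw [Equiv.swap_apply_of_ne_of_ne (by simpa using hi) (by simp), Sum.elim_inl,
            Sum.elim_inl, Function.update_of_ne hi]
      · have hi : i = 0 := Subsingleton.elim _ _
        subst hi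
        rw [Function.comp_apply, Equiv.swap_apply_right, Sum.elim_inl, Sum.elim_inr]
    rw [hsw'] at hsw
    obtain ⟨hx2, hy2, h4⟩ := real_ineqW h hI hFK hsK hnice hL ht0 hnt hm hsw hP
    have h5 : ∑ i, m i * (mult P (x i)).toReal ≤
        ∑ i, m i * (mult P (Function.update x i₀ y i)).toReal +
        m i₀ * (mult P (x i₀)).toReal := by
      rw [← Finset.add_sum_erase _ _ (Finset.mem_univ i₀),
        ← Finset.add_sum_erase Finset.univ
          (fun i => (m i : ℝ) * (mult P (Function.update x i₀ y i)).toReal)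
          (Finset.mem_univ i₀)]
      have h6 : ∑ i ∈ Finset.univ.erase i₀, (m i : ℝ) * (mult P (Function.update x i₀ y i)).toReal =
          ∑ i ∈ Finset.univ.erase i₀, (m i : ℝ) * (mult P (x i)).toReal := by
        refine Finset.sum_congr rfl fun i hi => ?_
        rw [Function.update_of_ne (Finset.ne_of_mem_erase hi)]
      rw [h6]
      have h7 : 0 ≤ (m i₀ : ℝ) * (mult P (Function.update x i₀ y i₀)).toReal := by positivity
      linarith
    rw [Fin.sum_univ_one] at h4
    have h8 : (m i₀ : ℝ) * (mult P (x i₀)).toReal < t * (mult P (x i₀)).toReal :=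
      mul_lt_mul_of_pos_right (hmt i₀) hpos
    linarith

/-- **the Seshadri constants** (as `seshadriBl_eq`; the upper bound is `S.Up.sum_sq_le` with the
weights `m i / H`, `ε / H`) -/
theorem seshadriW_eq (hd : surfDeg I = d) (hm : ∀ i, 1 ≤ m i) {n : ℕ} (hn : 1 ≤ n)
    {x : Fin r → Fin (N + 1) → ℂ} {y : Fin n → Fin (N + 1) → ℂ} (hv : Aff K I L (Sum.elim x y)) :
    seshadriW I H m x y = Real.sqrt (selfW I H m / n) := by
  have hn0 : (0 : ℝ) < n := by exact_mod_cast hn
  have hH : (0 : ℝ) < H := by exact_mod_cast mw_pos hL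
  have hself : selfW I H m = (H : ℝ) ^ 2 * d - ∑ i, (m i : ℝ) ^ 2 := by
    rw [selfW, hd, ENNReal.toReal_natCast]
  have hL' : (0 : ℝ) < (H : ℝ) ^ 2 * d - ∑ i, (m i : ℝ) ^ 2 := by
    have h1 : (∑ i, (m i : ℝ) ^ 2) < (H : ℝ) ^ 2 * d := by exact_mod_cast hL
    linarith
  rw [hself]
  set t : ℝ := Real.sqrt (((H : ℝ) ^ 2 * d - ∑ i, (m i : ℝ) ^ 2) / n) with htdef
  have ht : 0 < t := Real.sqrt_pos.2 (by positivity)
  have ht2 : t ^ 2 = ((H : ℝ) ^ 2 * d - ∑ i, (m i : ℝ) ^ 2) / n := Real.sq_sqrt (by positivity)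
  have hnt : (n : ℝ) * t ^ 2 + ∑ i, (m i : ℝ) ^ 2 = (H : ℝ) ^ 2 * d := by
    rw [ht2]
    field_simp
    ring
  have hall : ∀ P, IsCurveOn I P → (∀ i, mult P (x i) ≠ ⊤) ∧ (∀ j, mult P (y j) ≠ ⊤) ∧
      ∑ i, m i * (mult P (x i)).toReal + t * ∑ j, (mult P (y j)).toReal ≤
        H * (deg P).toReal := fun P hP => real_ineqW h hI hFK hsK hnice hL ht hnt hm hv hP
  -- nonzero vectors
  have hne : ∀ i : Fin r ⊕ Fin n, (Sum.elim x y : Fin r ⊕ Fin n → Fin (N + 1) → ℂ) i ≠ 0 := by
    intro i h0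
    apply hv.ne i
    rw [h0]
    have h1 := eval_smul_linear (h.hL 0) (0 : ℂ) (0 : Fin (N + 1) → ℂ)
    rwa [zero_smul, zero_mul] at h1
  -- curves with a small ratio
  have hex : ∀ ε : ℝ, t < ε → ∃ P, IsCurveOn I P ∧
      0 < ∑ j, (mult P (y j)).toReal ∧ interW H m x P / ∑ j, (mult P (y j)).toReal < ε := by
    intro ε hε
    by_contra hcon
    push Not at hcon
    have hε0 : 0 < ε := ht.trans hε
    have h1 := S.Up.sum_sq_le hI hd (v := Fin.append x y)
      (ρ := Fin.append (fun i => (m i : ℝ) / H) (fun _ => ε / H))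
      (fun i => by
        refine Fin.addCases (fun i => ?_) (fun i => ?_) i
        · rw [Fin.append_left]; exact hne (Sum.inl i)
        · rw [Fin.append_right]; exact hne (Sum.inr i))
      (fun i => by
        refine Fin.addCases (fun i => ?_) (fun i => ?_) i
        · rw [Fin.append_left]; exact hv.mem (Sum.inl i)
        · rw [Fin.append_right]; exact hv.mem (Sum.inr i))
      (fun i => by
        refine Fin.addCases (fun i => ?_) (fun i => ?_) i
        · rw [Fin.append_left]; positivity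
        · rw [Fin.append_right]; positivity)
      (fun P hP => by
        rw [Fin.sum_univ_add]
        simp only [Fin.append_left, Fin.append_right]
        obtain ⟨hx1, hy1, h4⟩ := hall P hP
        have hdt := (S.degree_curve hP).2
        have h2 : ∑ i, m i * (mult P (x i)).toReal + ε * ∑ j, (mult P (y j)).toReal ≤
            H * (deg P).toReal := by
          rcases (Finset.sum_nonneg fun j (_ : j ∈ Finset.univ) =>
            (ENNReal.toReal_nonneg : 0 ≤ (mult P (y j)).toReal)).eq_or_lt with h3 | h3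
          · rw [← h3] at h4 ⊢
            linarith
          · have h5 := hcon P hP h3
            rw [le_div_iff₀ h3, interW] at h5
            linarith
        have hxt : ∀ i, ENNReal.ofReal ((m i : ℝ) / H) * mult P (x i) ≠ ⊤ := fun i =>
          ENNReal.mul_ne_top ENNReal.ofReal_ne_top (hx1 i)
        have hyt : ∀ j, ENNReal.ofReal (ε / H) * mult P (y j) ≠ ⊤ := fun j =>
          ENNReal.mul_ne_top ENNReal.ofReal_ne_top (hy1 j)
        rw [← ENNReal.toReal_le_toReal (ENNReal.add_ne_top.2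
            ⟨ENNReal.sum_ne_top.2 fun i _ => hxt i, ENNReal.sum_ne_top.2 fun j _ => hyt j⟩) hdt,
          ENNReal.toReal_add (ENNReal.sum_ne_top.2 fun i _ => hxt i)
            (ENNReal.sum_ne_top.2 fun j _ => hyt j),
          ENNReal.toReal_sum fun i _ => hxt i, ENNReal.toReal_sum fun j _ => hyt j]
        have h6 : ∀ i, (ENNReal.ofReal ((m i : ℝ) / H) * mult P (x i)).toReal =
            (m i * (mult P (x i)).toReal) / H := fun i => by
          rw [ENNReal.toReal_mul, ENNReal.toReal_ofReal (by positivity)]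
          ring
        have h7 : ∀ j, (ENNReal.ofReal (ε / H) * mult P (y j)).toReal =
            ε * (mult P (y j)).toReal / H := fun j => by
          rw [ENNReal.toReal_mul, ENNReal.toReal_ofReal (by positivity)]
          ring
        rw [Finset.sum_congr rfl fun i _ => h6 i, Finset.sum_congr rfl fun j _ => h7 j,
          ← Finset.sum_div, ← Finset.sum_div, ← Finset.mul_sum, ← add_div, div_le_iff₀ hH]
        linarith)
    rw [Fin.sum_univ_add] at h1
    simp only [Fin.append_left, Fin.append_right, Finset.sum_const, Finset.card_univ,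
      Fintype.card_fin, nsmul_eq_mul, div_pow] at h1
    rw [← Finset.sum_div, ← mul_div_assoc, ← add_div, div_le_iff₀ (by positivity)] at h1
    have h3 : ε ^ 2 ≤ t ^ 2 := by
      rw [ht2, le_div_iff₀ hn0]
      linarith
    have h4 : ε ≤ t := by
      by_contra h5
      push Not at h5
      have h6 : t ^ 2 < ε ^ 2 := by nlinarith
      linarith
    linarith
  have hbdd : BddBelow {t : ℝ | ∃ P, IsCurveOn I P ∧ 0 < ∑ j, (mult P (y j)).toReal ∧
      t = interW H m x P / ∑ j, (mult P (y j)).toReal} := by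
    refine ⟨t, ?_⟩
    rintro _ ⟨P, hP, hpos, rfl⟩
    rw [le_div_iff₀ hpos, interW]
    have := (hall P hP).2.2
    linarith
  unfold seshadriW
  apply le_antisymm
  · refine le_of_forall_gt_imp_ge_of_dense fun ε hε => ?_
    obtain ⟨P, hP, hpos, hlt⟩ := hex ε hε
    exact (csInf_le hbdd ⟨P, hP, hpos, rfl⟩).trans hlt.le
  · obtain ⟨P, hP, hpos, -⟩ := hex (t + 1) (by linarith)
    refine le_csInf ⟨_, P, hP, hpos, rfl⟩ ?_
    rintro _ ⟨P, hP, hpos, rfl⟩
    rw [le_div_iff₀ hpos, interW]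
    have := (hall P hP).2.2
    linarith

end Pool.Agent.Lib.MP_ed661f_ag.W
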