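import Pool.Agent.Lib.MP_ed661f_ag.W.Inf
import Pool.Agent.Lib.MP_ed661f_ag.R.Grid

/-!
Weighted inequalities for plane curves at some configuration of points.
-/

set_option autoImplicit false

open MvPolynomial Cardinal

namespace Pool.Agent.Lib.MP_ed661f_ag.W

open S E R

/-- numbers which are transcendental over a countable set -/
theorem exists_transc {s : Set ℂ} (hs : s.Countable) :
    ∃ (K₀ : Subfield ℂ) (τ : ℂ), s ⊆ K₀ ∧ (K₀ : Set ℂ).Countable ∧ Transcendental K₀ τ := by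
  have h1 : #(Subfield.closure s) ≤ ℵ₀ := by
    refine (Subfield.cardinalMk_closure_le_max s).trans (max_le ?_ le_rfl)
    exact Cardinal.le_aleph0_iff_set_countable.2 hs
  refine ⟨Subfield.closure s, ?_⟩
  by_contra hcon
  push Not at hcon
  have h2 : Algebra.IsAlgebraic (Subfield.closure s) ℂ := by
    refine ⟨fun x => ?_⟩
    have h3 := hcon x Subfield.subset_closure (Cardinal.le_aleph0_iff_set_countable.1 h1)
    unfold Transcendental at h3
    rwa [not_not] at h3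
  have h3 := Algebra.IsAlgebraic.cardinalMk_le_max (Subfield.closure s) ℂ
  have h4 : #ℂ ≤ ℵ₀ := h3.trans (max_le h1 le_rfl)
  rw [Cardinal.mk_complex] at h4
  exact absurd h4 (not_le.2 Cardinal.aleph0_lt_continuum)

/-- a place which is the identity on a countable set, with a parameter -/
theorem exists_place_countable {s : Set ℂ} (hs : s.Countable) :
    ∃ (p : Place) (τ : ℂ) (hτ : τ ∈ p.B), (∀ x ∈ s, x ∈ p.K) ∧ p.ρ ⟨τ, hτ⟩ = 0 ∧ τ ≠ 0 := by
  obtain ⟨K₀, τ, h1, -, h2⟩ := exists_transc hs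
  obtain ⟨p, hp, hτ, h0⟩ := exists_place K₀ h2
  refine ⟨p, τ, hτ, fun x hx => hp (h1 hx), h0, ?_⟩
  rintro rfl
  exact h2 isAlgebraic_zero

/-- there are points `z i` such that the inequality `∑ W i mult_{z i} g ≤ h deg g` holds for all
plane curves `g = 0` -/
def PE {ι : Type} [Fintype ι] (h : ℝ) (W : ι → ℝ) : Prop :=
  ∃ z : ι → Pt, ∀ g : Pol, g ≠ 0 → ∑ i, W i * (mlt (z i) g : ℝ) ≤ h * g.totalDegree

theorem PE.reindex {ι κ : Type} [Fintype ι] [Fintype κ] {h : ℝ} {W : ι → ℝ} (hW : PE h W)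
    (e : κ ≃ ι) : PE h (W ∘ e) := by
  obtain ⟨z, hz⟩ := hW
  refine ⟨z ∘ e, fun g hg => ?_⟩
  have := hz g hg
  rwa [← Equiv.sum_comp e] at this

/-- the square grid -/
theorem PE.grid (k : ℕ) : PE (ι := Fin k × Fin k) k fun _ => 1 := by
  refine ⟨fun x => ![(x.1 : ℕ), (x.2 : ℕ)], fun g hg => ?_⟩
  have := R.grid k hg
  simp only [one_mul]
  exact_mod_cast this

/-- one point -/
theorem PE.one {w : ℝ} (hw : 0 ≤ w) : PE (ι := Fin 1) w fun _ => w := by
  refine ⟨fun _ => ![0, 0], fun g hg => ?_⟩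
  rw [Fin.sum_univ_one]
  refine mul_le_mul_of_nonneg_left ?_ hw
  have h1 := R.grid 1 hg
  rw [Fintype.sum_prod_type, Fin.sum_univ_one, Fin.sum_univ_one] at h1
  simp only [Fin.isValue, Fin.val_eq_zero, Nat.cast_zero, one_mul] at h1
  exact_mod_cast h1

theorem totalDegree_tay_le (z : Pt) (g : Pol) : (tay z g).totalDegree ≤ g.totalDegree := by
  rw [tay, aeval_def, eval₂_eq']
  refine (totalDegree_finsetSum _ _).trans (Finset.sup_le fun e he => ?_)
  refine (totalDegree_mul _ _).trans ?_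
  rw [algebraMap_eq, totalDegree_C, zero_add]
  refine (totalDegree_finsetProd _ _).trans ?_
  have h1 : ∀ i : Fin 2, ((X i + C (z i) : Pol) ^ e i).totalDegree ≤ e i := by
    intro i
    refine (totalDegree_pow _ _).trans ?_
    have h2 : (X i + C (z i) : Pol).totalDegree ≤ 1 := by
      refine (totalDegree_add _ _).trans ?_
      rw [totalDegree_C, totalDegree_X]
      exact le_rfl
    calc e i * (X i + C (z i) : Pol).totalDegree ≤ e i * 1 := Nat.mul_le_mul_left _ h2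
      _ = e i := mul_one _
  refine (Finset.sum_le_sum fun i _ => h1 i).trans ?_
  refine le_trans (le_of_eq ?_) (le_totalDegree he)
  rw [Finsupp.sum_fintype _ _ (fun _ => rfl)]

/-- the configuration can be moved to the torus -/
theorem PE.torus {ι : Type} [Fintype ι] {h : ℝ} (hh : 0 ≤ h) {W : ι → ℝ} (hW : PE h W) :
    ∃ z : ι → Pt, (∀ i j, z i j ≠ 0) ∧
      ∀ g : Pol, g ≠ 0 → ∑ i, W i * (mlt (z i) g : ℝ) ≤ h * g.totalDegree := by
  classical
  obtain ⟨z, hz⟩ := hW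
  obtain ⟨c, hc⟩ := Infinite.exists_notMem_finset
    ((Finset.univ : Finset (ι × Fin 2)).image fun q => - z q.1 q.2)
  have hc' : ∀ i j, c + z i j ≠ 0 := by
    intro i j h0
    apply hc
    rw [Finset.mem_image]
    exact ⟨(i, j), Finset.mem_univ _, (eq_neg_of_add_eq_zero_left h0).symm⟩
  refine ⟨fun i j => c + z i j, hc', fun g hg => ?_⟩
  have h1 := hz (sub (fun _ => c) (fun _ => 1) g) (sub_ne_zero (fun _ => one_ne_zero) hg)
  simp only [mlt_sub (fun _ => one_ne_zero) hg, one_mul] at h1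
  refine h1.trans (mul_le_mul_of_nonneg_left ?_ hh)
  have h2 : (sub (fun _ => c) (fun _ => 1) g) = tay (fun _ => c) g := by
    ext e
    rw [coeff_sub, one_pow, one_pow, one_mul, one_mul]
  rw [h2]
  exact_mod_cast totalDegree_tay_le _ g

/-- **composition**: the point of weight `W i` is replaced by points of weights `W' i j` -/
theorem PE.comp {ι : Type} [Fintype ι] {κ : ι → Type} [∀ i, Fintype (κ i)] {h : ℝ} (hh : 0 ≤ h)
    {W : ι → ℝ} (hW0 : ∀ i, 0 ≤ W i) {W' : (i : ι) → κ i → ℝ} (hW'0 : ∀ i j, 0 ≤ W' i j)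
    (hW : PE h W) (hW' : ∀ i, PE (W i) (W' i)) :
    PE (ι := (i : ι) × κ i) h fun x => W' x.1 x.2 := by
  obtain ⟨z, hz⟩ := hW
  choose ζ hζ using hW'
  obtain ⟨p, τ, hτ, hs, hτ0, hτ1⟩ := exists_place_countable
    (s := Set.range (fun q : ι × Fin 2 => z q.1 q.2) ∪
      Set.range (fun q : ((i : ι) × κ i) × Fin 2 => ζ q.1.1 q.1.2 q.2))
    ((Set.countable_range _).union (Set.countable_range _))
  have hzK : ∀ i k, z i k ∈ p.K := fun i k => hs _ (Or.inl ⟨(i, k), rfl⟩)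
  have hζK : ∀ i j k, ζ i j k ∈ p.K := fun i j k => hs _ (Or.inr ⟨(⟨i, j⟩, k), rfl⟩)
  refine ⟨fun x k => z x.1 k + τ * ζ x.1 x.2 k, fun g hg => ?_⟩
  obtain ⟨c, G, hG⟩ := exists_prm p hg
  let zB : ι → Fin 2 → p.B := fun i k => ⟨z i k, p.le _ (hzK i k)⟩
  let ζB : (i : ι) → κ i → Fin 2 → p.B := fun i j k => ⟨ζ i j k, p.le _ (hζK i j k)⟩
  have hz' : ∀ i, (fun k => p.ρ (zB i k)) = z i := fun i => funext fun k => p.id _ (hzK i k)
  have hζ' : ∀ i j, (fun k => p.ρ (ζB i j k)) = ζ i j :=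
    fun i j => funext fun k => p.id _ (hζK i j k)
  have h1 := hz _ hG.ne
  have h2 : ∀ i, ∑ j, W' i j * (mlt (fun k => z i k + τ * ζ i j k) g : ℝ) ≤
      W i * (mlt (z i) (map p.ρ G) : ℝ) := by
    intro i
    obtain ⟨Q, hQ0, hQ1, hQ2⟩ := collide hτ hτ0 hτ1 hG (zB i)
    rw [hz'] at hQ1
    calc ∑ j, W' i j * (mlt (fun k => z i k + τ * ζ i j k) g : ℝ)
        ≤ ∑ j, W' i j * (mlt (ζ i j) Q : ℝ) := by
          refine Finset.sum_le_sum fun j _ => mul_le_mul_of_nonneg_left ?_ (hW'0 i j)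
          have := hQ2 (ζB i j)
          rw [hζ'] at this
          exact_mod_cast this
      _ ≤ W i * Q.totalDegree := hζ i Q hQ0
      _ ≤ W i * (mlt (z i) (map p.ρ G) : ℝ) :=
          mul_le_mul_of_nonneg_left (by exact_mod_cast hQ1) (hW0 i)
  rw [Fintype.sum_sigma]
  calc ∑ i, ∑ j, W' i j * (mlt (fun k => z i k + τ * ζ i j k) g : ℝ)
      ≤ ∑ i, W i * (mlt (z i) (map p.ρ G) : ℝ) := Finset.sum_le_sum fun i _ => h2 i
    _ ≤ h * (map p.ρ G).totalDegree := h1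
    _ ≤ h * g.totalDegree :=
        mul_le_mul_of_nonneg_left (by exact_mod_cast hG.totalDegree_le) hh

/-- **points at infinity** -/
theorem PE.inf {ι κ₀ κ₁ : Type} [Fintype ι] [Fintype κ₀] [Fintype κ₁] {a b c : ℝ} (ha : 0 ≤ a)
    (hb : 0 ≤ b) (hc : 0 ≤ c) {W : ι → ℝ} (hW0 : ∀ i, 0 ≤ W i) {z : ι → Pt}
    (hz : ∀ g : Pol, g ≠ 0 → ∑ i, W i * (mlt (z i) g : ℝ) ≤
      c * g.totalDegree + a * g.degreeOf 0 + b * g.degreeOf 1)
    {W₀ : κ₀ → ℝ} (hW₀0 : ∀ i, 0 ≤ W₀ i) (hW₀ : PE a W₀)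
    {W₁ : κ₁ → ℝ} (hW₁0 : ∀ i, 0 ≤ W₁ i) (hW₁ : PE b W₁) :
    PE (ι := κ₀ ⊕ κ₁ ⊕ ι) (a + b + c) (Sum.elim W₀ (Sum.elim W₁ W)) := by
  obtain ⟨ξ, hξ0, hξ⟩ := hW₀.torus ha
  obtain ⟨η, hη0, hη⟩ := hW₁.torus hb
  obtain ⟨p, τ, hτ, hs, hτ0, hτ1⟩ := exists_place_countable
    (s := Set.range (fun q : ι × Fin 2 => z q.1 q.2) ∪
      (Set.range (fun q : κ₀ × Fin 2 => ξ q.1 q.2) ∪ Set.range (fun q : κ₁ × Fin 2 => η q.1 q.2)))
    ((Set.countable_range _).union ((Set.countable_range _).union (Set.countable_range _)))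
  have hzK : ∀ i k, z i k ∈ p.K := fun i k => hs _ (Or.inl ⟨(i, k), rfl⟩)
  have hξK : ∀ i k, ξ i k ∈ p.K := fun i k => hs _ (Or.inr (Or.inl ⟨(i, k), rfl⟩))
  have hηK : ∀ i k, η i k ∈ p.K := fun i k => hs _ (Or.inr (Or.inr ⟨(i, k), rfl⟩))
  let zB : ι → Fin 2 → p.B := fun i k => ⟨z i k, p.le _ (hzK i k)⟩
  let ξB : κ₀ → Fin 2 → p.B := fun i k => ⟨ξ i k, p.le _ (hξK i k)⟩
  let ηB : κ₁ → Fin 2 → p.B := fun i k => ⟨η i k, p.le _ (hηK i k)⟩
  have hz' : ∀ i, (fun k => p.ρ (zB i k)) = z i := fun i => funext fun k => p.id _ (hzK i k)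
  have hξ' : ∀ i, (fun k => p.ρ (ξB i k)) = ξ i := fun i => funext fun k => p.id _ (hξK i k)
  have hη' : ∀ i, (fun k => p.ρ (ηB i k)) = η i := fun i => funext fun k => p.id _ (hηK i k)
  refine ⟨Sum.elim (fun i => far 0 τ (ξ i)) (Sum.elim (fun i => far 1 τ (η i)) z),
    fun g hg => ?_⟩
  obtain ⟨e, G, hG⟩ := exists_prm p hg
  have h1 := hz _ hG.ne
  have h2 : ∑ i, W i * (mlt (z i) g : ℝ) ≤ ∑ i, W i * (mlt (z i) (map p.ρ G) : ℝ) := by
    refine Finset.sum_le_sum fun i _ => mul_le_mul_of_nonneg_left ?_ (hW0 i)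
    have := hG.mlt_le (zB i)
    rw [hz'] at this
    exact_mod_cast this
  have h3 : ∑ i, W₀ i * (mlt (far 0 τ (ξ i)) g : ℝ) ≤
      a * ((g.totalDegree : ℝ) - (map p.ρ G).degreeOf 0) := by
    obtain ⟨Q, hQ0, hQ1, hQ2⟩ := collide_inf 0 hτ hτ0 hτ1 hG
    calc ∑ i, W₀ i * (mlt (far 0 τ (ξ i)) g : ℝ) ≤ ∑ i, W₀ i * (mlt (ξ i) Q : ℝ) := by
          refine Finset.sum_le_sum fun i _ => mul_le_mul_of_nonneg_left ?_ (hW₀0 i)
          have := hQ2 (ξB i) (by
            have := congrFun (hξ' i) 0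
            rw [this]
            exact hξ0 i 0)
          rw [hξ'] at this
          exact_mod_cast this
      _ ≤ a * Q.totalDegree := hξ Q hQ0
      _ ≤ a * ((g.totalDegree : ℝ) - (map p.ρ G).degreeOf 0) := by
          refine mul_le_mul_of_nonneg_left ?_ ha
          have h4 : ((Q.totalDegree + (map p.ρ G).degreeOf 0 : ℕ) : ℝ) ≤ g.totalDegree := by
            exact_mod_cast hQ1
          push_cast at h4
          linarith
  have h4 : ∑ i, W₁ i * (mlt (far 1 τ (η i)) g : ℝ) ≤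
      b * ((g.totalDegree : ℝ) - (map p.ρ G).degreeOf 1) := by
    obtain ⟨Q, hQ0, hQ1, hQ2⟩ := collide_inf 1 hτ hτ0 hτ1 hG
    calc ∑ i, W₁ i * (mlt (far 1 τ (η i)) g : ℝ) ≤ ∑ i, W₁ i * (mlt (η i) Q : ℝ) := by
          refine Finset.sum_le_sum fun i _ => mul_le_mul_of_nonneg_left ?_ (hW₁0 i)
          have := hQ2 (ηB i) (by
            have := congrFun (hη' i) 1
            rw [this]
            exact hη0 i 1)
          rw [hη'] at this
          exact_mod_cast this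
      _ ≤ b * Q.totalDegree := hη Q hQ0
      _ ≤ b * ((g.totalDegree : ℝ) - (map p.ρ G).degreeOf 1) := by
          refine mul_le_mul_of_nonneg_left ?_ hb
          have h4 : ((Q.totalDegree + (map p.ρ G).degreeOf 1 : ℕ) : ℝ) ≤ g.totalDegree := by
            exact_mod_cast hQ1
          push_cast at h4
          linarith
  have h5 : c * ((map p.ρ G).totalDegree : ℝ) ≤ c * g.totalDegree :=
    mul_le_mul_of_nonneg_left (by exact_mod_cast hG.totalDegree_le) hc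
  rw [Fintype.sum_sum_type, Fintype.sum_sum_type]
  simp only [Sum.elim_inl, Sum.elim_inr]
  linarith

end Pool.Agent.Lib.MP_ed661f_ag.W
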