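import Pool.Agent.Lib.MP_ed661f_ag.W.PMa

/-!
The inequality for plane curves for multisets of weights.
-/

set_option autoImplicit false

open MvPolynomial

namespace Pool.Agent.Lib.MP_ed661f_ag.W

open S E R

/-- `(3; 2, 1^5)`, from `PE.step` with `h = 2` and one point of weight `2`, scaled -/
theorem PM.cubic {w : ℝ} (hw : 0 ≤ w) : PM (3 * w) ((2 * w) ::ₘ Multiset.replicate 5 w) := by
  have h0 : PE (ι := Fin 1) ((2 : ℕ) : ℝ) fun _ => ((2 : ℕ) : ℝ) := PE.one (Nat.cast_nonneg 2)
  have h1 := (h0.step fun _ => Nat.cast_nonneg 2).pm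
  rw [map_univ_sum] at h1
  have h2 := h1.scale hw
  have h3 : w * ((2 + 1 : ℕ) : ℝ) = 3 * w := by
    push_cast
    ring
  rw [h3] at h2
  refine h2.congr ?_
  rw [Multiset.map_add, Multiset.map_map, Multiset.map_map]
  simp only [Function.comp_def, Sum.elim_inl, Sum.elim_inr, Multiset.map_const', Finset.card_val,
    Finset.card_univ, Fintype.card_fin, Nat.cast_ofNat, mul_one, Multiset.replicate_one]
  rw [Multiset.singleton_add, mul_comm w 2]

/-- the nef classes of the blow-up of `ℙ¹ × ℙ¹`, with two points at infinity of weights `a, b`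
(proof: as `PE.base`, with `PE.one` in the place of the grids) -/
theorem PM.base {a b : ℝ} {c : Fin 5 → ℝ} (ha : 0 ≤ a) (hb : 0 ≤ b) (hc : ∀ j, 0 ≤ c j)
    (hab : a + b = ∑ j, c j) {n : ℕ} {s : ℝ} (hs : 0 ≤ s)
    (hns : n * s ^ 2 ≤ 2 * (a * b - ∑ j, c j ^ 2)) :
    PM (a + b) (a ::ₘ b ::ₘ (Finset.univ.val.map c + (Finset.univ.val.map c +
      Multiset.replicate n s))) := by
  classical
  -- generic points
  have : Countable (⊥ : Subfield ℂ) := by
    have h1 := Hn.countable_closure (∅ : Set ℂ) Set.countable_empty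
    rwa [Subfield.closure_empty] at h1
  obtain ⟨t, ht⟩ := Hn.exists_indep (⊥ : Subfield ℂ) ((Fin 5 ⊕ (Fin 5 ⊕ Fin n)) × Fin 2)
  have ht' : AlgebraicIndependent ℚ t := ht.restrictScalars (algebraMap ℚ (⊥ : Subfield ℂ)).injective
  set x : Fin 5 → Pt := fun j k => t (Sum.inl j, k) with hx
  set x' : Fin 5 → Pt := fun j k => t (Sum.inr (Sum.inl j), k) with hx'
  set y : Fin n → Pt := fun j k => t (Sum.inr (Sum.inr j), k) with hy
  have hgen : Generic (Sum.elim x (Sum.elim x' y)) := by
    unfold Generic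
    convert ht' using 1
    funext q
    rcases q with ⟨i | i | i, k⟩ <;> rfl
  -- weights
  have hz : ∀ g : Pol, g ≠ 0 →
      ∑ i, (Sum.elim c (Sum.elim c fun _ => s)) i *
        (mlt ((Sum.elim x (Sum.elim x' y)) i) g : ℝ) ≤
      0 * (g.totalDegree : ℝ) + a * g.degreeOf 0 + b * g.degreeOf 1 := by
    intro g hg
    have h1 := nef_generic hgen b a c s hb ha hc hs (by rw [add_comm]; exact hab)
      (by rw [mul_comm b a]; exact hns) hg
    rw [Fintype.sum_sum_type, Fintype.sum_sum_type]
    simp only [Sum.elim_inl, Sum.elim_inr]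
    have h2 : ∑ j, c j * (mlt (x j) g + mlt (x' j) g) =
        ∑ j, c j * (mlt (x j) g : ℝ) + ∑ j, c j * (mlt (x' j) g : ℝ) := by
      rw [← Finset.sum_add_distrib]
      exact Finset.sum_congr rfl fun j _ => mul_add _ _ _
    rw [h2, Finset.mul_sum] at h1
    linarith
  have h1 := PE.inf (a := a) (b := b) (c := 0) ha hb le_rfl
    (W := Sum.elim c (Sum.elim c fun _ => s))
    (by
      rintro (i | i | i)
      · exact hc _
      · exact hc _
      · exact hs) hz (W₀ := fun _ : Fin 1 => a) (fun _ => ha) (PE.one ha)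
    (W₁ := fun _ : Fin 1 => b) (fun _ => hb) (PE.one hb)
  have h2 := h1.pm
  rw [map_univ_sum, map_univ_sum, map_univ_sum, map_univ_sum, add_zero] at h2
  refine h2.congr ?_
  simp only [Sum.elim_inl, Sum.elim_inr, Multiset.map_const', Finset.card_val,
    Finset.card_univ, Fintype.card_fin, Multiset.replicate_one]
  rw [Multiset.singleton_add, Multiset.singleton_add]

end Pool.Agent.Lib.MP_ed661f_ag.W
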