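import Pool.Agent.Lib.MP_ed661f_ag.W.Plane

/-!
The inequality for plane curves for multisets of weights: reindexing, grids, splitting.
-/

set_option autoImplicit false

open MvPolynomial

namespace Pool.Agent.Lib.MP_ed661f_ag.W

open S E R

/-- the inequality `PE` for the multiset `M` of weights -/
def PM (h : ℝ) (M : Multiset ℝ) : Prop :=
  ∃ (n : ℕ) (W : Fin n → ℝ), Finset.univ.val.map W = M ∧ PE h W

/-- two families with the same multiset of values differ by a bijection of the indices -/
theorem exists_equiv {ι κ : Type} [Fintype ι] [Fintype κ] {W : ι → ℝ} {W' : κ → ℝ}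
    (h : (Finset.univ.val.map W : Multiset ℝ) = Finset.univ.val.map W') :
    ∃ e : κ ≃ ι, W' = W ∘ e := by
  classical
  have hc : ∀ y : ℝ, Fintype.card {j // W' j = y} = Fintype.card {i // W i = y} := by
    intro y
    have h1 := congrArg (Multiset.count y) h
    rw [Multiset.count_map, Multiset.count_map] at h1
    rw [Fintype.card_subtype, Fintype.card_subtype]
    have h2 : ∀ {α : Type} [Fintype α] (f : α → ℝ),
        Multiset.card (Multiset.filter (fun a => y = f a) Finset.univ.val) =
          (Finset.univ.filter fun a => f a = y).card := by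
      intro α _ f
      rw [Finset.card_def, Finset.filter_val]
      congr 1
      exact Multiset.filter_congr fun a _ => eq_comm
    rw [h2, h2] at h1
    exact h1.symm
  let e : κ ≃ ι := (Equiv.sigmaFiberEquiv W').symm.trans
    ((Equiv.sigmaCongrRight fun y => Fintype.equivOfCardEq (hc y)).trans
      (Equiv.sigmaFiberEquiv W))
  refine ⟨e, funext fun j => ?_⟩
  have h1 : W (e j) = W' j :=
    ((Fintype.equivOfCardEq (hc (W' j))) ⟨j, rfl⟩).2
  exact h1.symm

theorem PM.pe {h : ℝ} {M : Multiset ℝ} (hM : PM h M) {κ : Type} [Fintype κ] {W : κ → ℝ}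
    (hW : Finset.univ.val.map W = M) : PE h W := by
  obtain ⟨n, W', h1, h2⟩ := hM
  obtain ⟨e, rfl⟩ := exists_equiv (h1.trans hW.symm)
  exact h2.reindex e

theorem PE.pm {h : ℝ} {κ : Type} [Fintype κ] {W : κ → ℝ} (hW : PE h W) :
    PM h (Finset.univ.val.map W) := by
  refine ⟨Fintype.card κ, W ∘ (Fintype.equivFin κ).symm, ?_, hW.reindex _⟩
  rw [← Multiset.map_map]
  congr 1
  exact Multiset.map_univ_val_equiv _

theorem PM.congr {h : ℝ} {M M' : Multiset ℝ} (hM : PM h M) (hMM' : M = M') : PM h M' := hMM' ▸ hM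

/-- `PE` is homogeneous in `(h, W)` -/
theorem PE.scale {h t : ℝ} (ht : 0 ≤ t) {κ : Type} [Fintype κ] {W : κ → ℝ} (hW : PE h W) :
    PE (t * h) fun i => t * W i := by
  obtain ⟨z, hz⟩ := hW
  refine ⟨z, fun g hg => ?_⟩
  have h1 := mul_le_mul_of_nonneg_left (hz g hg) ht
  rw [Finset.mul_sum] at h1
  refine (le_of_eq ?_).trans (h1.trans (le_of_eq ?_))
  · exact Finset.sum_congr rfl fun i _ => mul_assoc _ _ _
  · ring

/-- `PE` is homogeneous in `(h, W)` -/
theorem PM.scale {h t : ℝ} (ht : 0 ≤ t) {M : Multiset ℝ} (hM : PM h M) :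
    PM (t * h) (M.map fun x => t * x) := by
  obtain ⟨n, W, rfl, hW⟩ := hM
  have h1 := (hW.scale ht).pm
  rw [Multiset.map_map]
  exact h1

/-- the square grid, with weight `w` (compare the proof of `PE.split`) -/
theorem PM.grid (k : ℕ) {w : ℝ} (hw : 0 ≤ w) : PM (k * w) (Multiset.replicate (k ^ 2) w) := by
  have h1 := ((PE.grid k).scale hw).pm
  refine (mul_comm w (k : ℝ)) ▸ h1.congr ?_
  rw [mul_one, Multiset.map_const', Finset.card_val, Finset.card_univ]
  congr 1
  rw [Fintype.card_prod, Fintype.card_fin, sq]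

theorem PM.one {w : ℝ} (hw : 0 ≤ w) : PM w {w} := by
  have h1 := (PE.one hw).pm
  exact h1.congr (by simp)

theorem exists_fin (M : Multiset ℝ) :
    ∃ (n : ℕ) (W : Fin n → ℝ), (Finset.univ.val.map W : Multiset ℝ) = M := by
  induction M using Quot.inductionOn with
  | h l =>
    refine ⟨l.length, l.get, ?_⟩
    rw [Fin.univ_val_map, List.ofFn_get]
    rfl

theorem map_univ_sum {α β : Type} [Fintype α] [Fintype β] (f : α ⊕ β → ℝ) :
    ((Finset.univ : Finset (α ⊕ β)).val.map f : Multiset ℝ) =
      Finset.univ.val.map (fun a => f (Sum.inl a)) + Finset.univ.val.map fun b => f (Sum.inr b) := by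
  rw [← Finset.univ_disjSum_univ, Finset.val_disjSum, Multiset.disjSum, Multiset.map_add,
    Multiset.map_map, Multiset.map_map]
  rfl

/-- **splitting** of one weight (`PE.comp` with `PE.one` at the other points) -/
theorem PM.split {h w : ℝ} (hh : 0 ≤ h) (hw : 0 ≤ w) {M M' : Multiset ℝ} (hM0 : ∀ x ∈ M, 0 ≤ x)
    (hM'0 : ∀ x ∈ M', 0 ≤ x) (h1 : PM h (w ::ₘ M)) (h2 : PM w M') : PM h (M' + M) := by
  obtain ⟨m, W, rfl⟩ := exists_fin M
  obtain ⟨m', W', rfl⟩ := exists_fin M'
  have hW0 : ∀ i, 0 ≤ W i := fun i => hM0 _ (Multiset.mem_map_of_mem _ (Finset.mem_univ_val i))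
  have hW'0 : ∀ i, 0 ≤ W' i := fun i => hM'0 _ (Multiset.mem_map_of_mem _ (Finset.mem_univ_val i))
  have h3 : PE (ι := Option (Fin m)) h (fun o => o.elim w W) := by
    refine h1.pe ?_
    change Multiset.map (fun o : Option (Fin m) => o.elim w W)
      (none ::ₘ Multiset.map some Finset.univ.val) = _
    rw [Multiset.map_cons, Multiset.map_map]
    rfl
  have h4 : PE w W' := h2.pe rfl
  let k : Option (Fin m) → ℕ := fun o => o.elim m' fun _ => 1
  let V : (o : Option (Fin m)) → Fin (k o) → ℝ := fun o => match o with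
    | none => W'
    | some i => fun _ => W i
  have h5 := PE.comp hh (W := fun o : Option (Fin m) => o.elim w W) (by
      rintro (_ | i)
      · exact hw
      · exact hW0 i) (W' := V) (by
      rintro (_ | i) j
      · exact hW'0 j
      · exact hW0 i) h3 (by
      rintro (_ | i)
      · exact h4
      · exact PE.one (hW0 i))
  let e : Fin m' ⊕ Fin m ≃ (o : Option (Fin m)) × Fin (k o) :=
    { toFun := Sum.elim (fun j => ⟨none, j⟩) fun i => ⟨some i, (0 : Fin 1)⟩
      invFun := fun x => match x with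
        | ⟨none, j⟩ => Sum.inl j
        | ⟨some i, _⟩ => Sum.inr i
      left_inv := by
        rintro (j | i)
        · rfl
        · rfl
      right_inv := by
        rintro ⟨_ | i, y⟩
        · rfl
        · have h6 : ∀ y : Fin 1, y = 0 := fun y => Subsingleton.elim _ _
          have h7 : y = (0 : Fin 1) := h6 y
          subst h7
          rfl }
  have h6 := (h5.reindex e).pm
  rw [map_univ_sum] at h6
  exact h6

end Pool.Agent.Lib.MP_ed661f_ag.W
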