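import Pool.Agent.Lib.MP_ed661f_ag.W.Lin

/-!
The surface degenerates to `d` planes: the inequality for the forms at special points.
-/

set_option autoImplicit false

open MvPolynomial

namespace Pool.Agent.Lib.MP_ed661f_ag.W

open S E R H

/-- the inequality at the special points -/
theorem forms_special (p : Place) {d : ℕ} {F' F₀ : Poly 3}
    {FB : MvPolynomial (Fin 4) p.B} (hF' : map p.B.subtype FB = F') (hF₀ : map p.ρ FB = F₀)
    (hF'h : F'.IsHomogeneous d) (hF₀h : F₀.IsHomogeneous d)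
    (hl : coeff (Finsupp.single 3 d) F' ≠ 0)
    {c : Fin d → ℂ} (hc : Function.Injective c)
    (hroots : ∀ j, aeval ![1, X 0, X 1, C (c j)] F₀ = (0 : Pol))
    {κ : Fin d → Type} [∀ j, Fintype (κ j)] {h : ℝ} (hh : 0 < h)
    {W : (j : Fin d) → κ j → ℝ} (hW0 : ∀ j i, 0 ≤ W j i) (hW2 : ∀ j, ∑ i, W j i ^ 2 = h ^ 2)
    {z : ((j : Fin d) × κ j) → Pt}
    (hin : ∀ (j : Fin d) (g : Pol), g ≠ 0 →
      ∑ i, W j i * (mlt (z ⟨j, i⟩) g : ℝ) ≤ h * g.totalDegree)
    {s t ζ : ((j : Fin d) × κ j) → p.B} (hs : ∀ q, p.ρ (s q) = z q 0)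
    (ht : ∀ q, p.ρ (t q) = z q 1) (hζ : ∀ q, p.ρ (ζ q) = c q.1)
    (hF : ∀ q, eval ![1, s q, t q, ζ q] FB = 0)
    (hδ : ∀ q, p.ρ (eval ![1, s q, t q, ζ q] (pderiv 3 FB)) ≠ 0) {m : ℕ}
    {w : ((j : Fin d) × κ j) → ℕ} {G : Poly 3} (hG : G.IsHomogeneous m)
    (hw : ∀ q, W q.1 q.2 / h * m < w q)
    (hGK : ∀ q, G ∈ Hn.KK F' ![1, (s q : ℂ), (t q : ℂ), (ζ q : ℂ)] (w q)) : F' ∣ G := by
  classical
  by_contra hnd
  obtain ⟨G', hdvd, hG'h, hG's⟩ := Hn.exists_rem hF'h hl hG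
  have hG'0 : G' ≠ 0 := by
    rintro rfl
    rw [sub_zero] at hdvd
    exact hnd hdvd
  obtain ⟨r, GB, hr, hGB, hGρ⟩ := Hn.exists_primitive p hG'0
  set G0 : Poly 3 := map p.ρ GB with hG0
  have hcoef : ∀ e, coeff e GB ≠ 0 → coeff e G' ≠ 0 := by
    intro e he h
    apply he
    have h1 := congrArg (coeff e) hGB
    rw [coeff_map, coeff_C_mul, h, mul_zero] at h1
    exact Subtype.ext h1
  have hGBh : GB.IsHomogeneous m := fun e he => hG'h (hcoef e he)
  have hG0h : G0.IsHomogeneous m := hGBh.map _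
  have hG0s : ∀ e ∈ G0.support, e 3 < d := by
    intro e he
    apply hG's e
    rw [mem_support_iff] at he ⊢
    apply hcoef
    intro h
    rw [hG0, coeff_map, h, map_zero] at he
    exact he rfl
  set g : Fin d → Pol := fun j => aeval ![1, X 0, X 1, C (c j)] G0 with hg
  -- orders
  have hord : ∀ q : (j : Fin d) × κ j, Bz.Ord (w q) (tay (z q) (g q.1)) := by
    intro q
    have hw0 : w q ≠ 0 := by
      intro h0
      have h1 := hw q
      rw [h0, Nat.cast_zero] at h1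
      exact absurd h1 (not_lt.2 (mul_nonneg (div_nonneg (hW0 _ _) hh.le) (Nat.cast_nonneg _)))
    obtain ⟨w', hw'⟩ := Nat.exists_eq_succ_of_ne_zero hw0
    rw [hw']
    refine Hn.transfer p (by rw [hF₀]; exact hF₀h) hG0h (hF q) (hδ q)
      (by rw [hF₀]; exact hroots q.1) (y := z q) ?_ ?_ ?_ ?_ ?_
    · change eval (z q) (1 : Pol) ≠ 0
      rw [map_one]
      exact one_ne_zero
    · change eval (z q) (X 0 : Pol) = eval (z q) (1 : Pol) * _
      rw [map_one, eval_X, hs, one_mul]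
    · change eval (z q) (X 1 : Pol) = eval (z q) (1 : Pol) * _
      rw [map_one, eval_X, ht, one_mul]
    · change eval (z q) (C (c q.1) : Pol) = eval (z q) (1 : Pol) * _
      rw [map_one, eval_C, hζ, one_mul]
    · rw [hF', hGB]
      refine Ideal.mul_mem_left _ _ ?_
      obtain ⟨Q, hQ⟩ := hdvd
      have h1 : G' = G - F' * Q := by rw [← hQ]; ring
      rw [h1]
      refine Ideal.sub_mem _ (by have := hGK q; rwa [hw'] at this) (Ideal.mul_mem_right _ _ ?_)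
      exact Ideal.mem_sup_left (Ideal.mem_sup_left (Ideal.subset_span rfl))
  -- one of the restrictions is not zero
  obtain ⟨j, hj⟩ : ∃ j, g j ≠ 0 := by
    by_contra hcon
    push Not at hcon
    apply hGρ
    refine zero_of_chart hG0h fun u v x => ?_
    have h1 : Hn.uni ![1, u, v] G0 = (0 : Polynomial ℂ) := by
      refine zero_of_roots (uni_degree_lt _ hG0s) hc fun j => ?_
      rw [eval_uni']
      have h2 : (eval ![u, v]).comp (aeval ![1, X 0, X 1, C (c j)] : Poly 3 →ₐ[ℂ] Pol).toRingHom =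
          eval ![1, u, v, c j] := by
        apply MvPolynomial.ringHom_ext
        · intro r
          simp
        · intro i
          fin_cases i <;> simp
      have h3 : eval ![1, u, v, c j] G0 = eval ![u, v] (g j) :=
        (congrArg (fun φ => φ G0) h2).symm
      rw [h3, hcon j, map_zero]
    rw [← eval_uni', h1, Polynomial.eval_zero]
  have hdeg : (g j).totalDegree ≤ m := by
    refine totalDegree_aeval_le hG0h fun i => ?_
    fin_cases i
    · change (1 : Pol).totalDegree ≤ 1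
      rw [totalDegree_one]
      exact Nat.zero_le _
    · exact (totalDegree_X _).le
    · exact (totalDegree_X _).le
    · change (C (c j) : Pol).totalDegree ≤ 1
      rw [totalDegree_C]
      exact Nat.zero_le _
  have hmlt : ∀ i, (w ⟨j, i⟩ : ℝ) ≤ mlt (z ⟨j, i⟩) (g j) := by
    intro i
    have := (le_mlt_iff hj (w ⟨j, i⟩)).2 (hord ⟨j, i⟩)
    exact_mod_cast this
  have h1 : ∑ i, W j i * (w ⟨j, i⟩ : ℝ) ≤ h * m := by
    refine (Finset.sum_le_sum fun i _ => mul_le_mul_of_nonneg_left (hmlt i) (hW0 j i)).trans ?_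
    refine (hin j (g j) hj).trans (mul_le_mul_of_nonneg_left ?_ hh.le)
    exact_mod_cast hdeg
  have h2 : ∑ i, W j i * (W j i / h * m) < ∑ i, W j i * (w ⟨j, i⟩ : ℝ) := by
    have h3 : ∃ i, W j i ≠ 0 := by
      by_contra hcon
      push Not at hcon
      have h4 := hW2 j
      rw [Finset.sum_eq_zero fun i _ => by rw [hcon i]; ring] at h4
      exact (pow_pos hh 2).ne h4
    obtain ⟨i, hi⟩ := h3
    refine Finset.sum_lt_sum (fun i _ => mul_le_mul_of_nonneg_left (hw ⟨j, i⟩).le (hW0 j i))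
      ⟨i, Finset.mem_univ _, ?_⟩
    exact mul_lt_mul_of_pos_left (hw ⟨j, i⟩) (lt_of_le_of_ne (hW0 j i) hi.symm)
  have h3 : ∑ i, W j i * (W j i / h * m) = h * m := by
    have h4 : ∀ i, W j i * (W j i / h * m) = W j i ^ 2 * (m / h) := by
      intro i
      ring
    rw [Finset.sum_congr rfl fun i _ => h4 i, ← Finset.sum_mul, hW2 j]
    field_simp
  linarith

/-- **the degeneration to `d` planes**.

PROOF. Let `K₁` be the field generated by `K`, the coefficients of `F`, `p₀`, the `c j` (countable).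
`PE.generic` for every `j` (successively: or for one family over the field generated by the earlier
ones; simplest: `S.Hn.exists_indep K₁ (((j : Fin d) × κ j) × Fin 2)` and one place as in the proof
of `PE.generic`, for all `j` at once) gives points `z q = (α_q, β_q)` with all coordinates
algebraically independent over `K₁` such that for every `j` and `g ≠ 0`:
`∑ i, W j i * mlt (z ⟨j,i⟩) g ≤ h * totalDegree g`. Let `K₂ = K₁(z)`, `τ` transcendental over `K₂`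
(`exists_transc`, or `exists_indep K₂ (Fin 1)`), `p` a place with `K₂ ≤ p.K`, `ρ τ = 0`
(`exists_place`). Put `FB(x) = F(x_0, p₀_0 x_0 + τ x_1, p₀_1 x_0 + τ x_2, x_3)` over `p.B`
(`aeval` of the lift of `F`); `map ρ FB = F(x_0, p₀_0 x_0, p₀_1 x_0, x_3) =: F₀`, a form of degree
`d` in `x_0, x_3` only, `coeff (single 3 d) F₀ = coeff (single 3 d) F ≠ 0`, and
`F₀(1,s,t,Z) = F(1,p₀,Z)` has the `d` distinct, hence simple, roots `c j`. By `Hn.exists_root'`
there is `ζ_q ∈ p.B` with `FB(1, α_q, β_q, ζ_q) = 0`, `ρ ζ_q = c q.1`. The points are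
`v q = (1, p₀_0 + τ α_q, p₀_1 + τ β_q, ζ_q)`; `∂_3 F (v q) = ∂_3 FB (1, α_q, β_q, ζ_q) ≠ 0` as its
reduction is `∂_3 F(1,p₀,c q.1) ≠ 0`; independence over `K`: `p₀ ∈ K₁`, and `(α, β, τ)` are
independent over `K₁`, hence so are the `τ α_q, τ β_q`.
FORMS: `G` of degree `m`, `G ∈ span{F} ⊔ vecIdeal (v q)^(w q) ⊔ span {X 0 - 1}`, `¬ F ∣ G`. The
linear substitution `φ : x ↦ (x_0, p₀_0 x_0 + τ x_1, p₀_1 x_0 + τ x_2, x_3)` is an automorphism of
`Poly 3` (`τ ≠ 0`), maps `F` to `FB`, `vecIdeal (v q)` to `vecIdeal (u q)`,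
`u q = (1, α_q, β_q, ζ_q)`, and fixes `X 0 - 1`; so `φ G` is not divisible by `FB` and lies in
`KK FB (u q) (w q)`. Now exactly as in `Hn.bound_of_place`: `Hn.exists_rem`, `Hn.exists_primitive`
give `GB` over `p.B`, homogeneous of degree `m`, of degree `< d` in `x_3`, `G₀ := map ρ GB ≠ 0`,
`map subtype GB ∈ KK FB (u q) (w q)`; `Hn.transfer` with
`f = ![1, X 0, X 1, C (c j)]` (`aeval f F₀ = 0`), `y = z q`, `s = α_q`, `t = β_q` shows
`g_j := aeval f G₀` has order `≥ w q` at `z q` for `q = ⟨j,i⟩`. Some `g_j ≠ 0`: otherwise the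
polynomial `G₀(1,u,v,Z)`, of degree `< d` in `Z`, has the `d` distinct roots `c j`, so it is zero
and `G₀ = 0`. `totalDegree g_j ≤ m`. So `h m ≥ ∑ i, W j i * w ⟨j,i⟩ > (m/h) ∑ i, W j i ^ 2 = h m`
(strict as some `W j i > 0` by `hW2`), a contradiction. -/
theorem exists_special {d : ℕ} (hd : 1 ≤ d) {F : Poly 3} (hF : F.IsHomogeneous d)
    (hl : coeff (Finsupp.single 3 d) F ≠ 0) {p₀ : Fin 2 → ℂ} {c : Fin d → ℂ}
    (hc : Function.Injective c) (hroots : ∀ j, eval ![1, p₀ 0, p₀ 1, c j] F = 0)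
    (K : Subfield ℂ) [Countable K] {κ : Fin d → Type} [∀ j, Fintype (κ j)] {h : ℝ} (hh : 0 < h)
    {W : (j : Fin d) → κ j → ℝ} (hW0 : ∀ j i, 0 ≤ W j i) (hW2 : ∀ j, ∑ i, W j i ^ 2 = h ^ 2)
    (hPE : ∀ j, PE h (W j)) :
    ∃ v : ((j : Fin d) × κ j) → Fin 4 → ℂ, (∀ q, v q 0 = 1) ∧ (∀ q, eval (v q) F = 0) ∧
      (∀ q, eval (v q) (pderiv 3 F) ≠ 0) ∧ AlgebraicIndependent K (st v) ∧
      FW F v (fun q => W q.1 q.2 / h) := by
  classical
  obtain ⟨K₁, z, hsK₁, hK₁c, hz, hin⟩ := PE.generic_family hh.le hW0 hPE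
    (s := (K : Set ℂ) ∪ (Set.range (fun e : Fin 4 →₀ ℕ => coeff e F) ∪
      (Set.range p₀ ∪ Set.range c)))
    ((Set.countable_coe_iff.1 (inferInstanceAs (Countable K))).union
      ((Set.countable_range _).union ((Set.countable_range _).union (Set.countable_range _))))
  have hKK₁ : K ≤ K₁ := fun x hx => hsK₁ (Or.inl hx)
  have hFK₁ : ∀ e, coeff e F ∈ K₁ := fun e => hsK₁ (Or.inr (Or.inl ⟨e, rfl⟩))
  have hpK₁ : ∀ k, p₀ k ∈ K₁ := fun k => hsK₁ (Or.inr (Or.inr (Or.inl ⟨k, rfl⟩)))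
  have hcK₁ : ∀ j, c j ∈ K₁ := fun j => hsK₁ (Or.inr (Or.inr (Or.inr ⟨j, rfl⟩)))
  obtain ⟨K₂, τ, hsK₂, -, hτ⟩ := exists_transc (s := (K₁ : Set ℂ) ∪
    Set.range (fun q : ((j : Fin d) × κ j) × Fin 2 => z q.1 q.2))
    (hK₁c.union (Set.countable_range _))
  have hK₁₂ : K₁ ≤ K₂ := fun x hx => hsK₂ (Or.inl hx)
  have hzK₂ : ∀ q k, z q k ∈ K₂ := fun q k => hsK₂ (Or.inr ⟨(q, k), rfl⟩)
  obtain ⟨p, hpK, hτB, hτ0⟩ := exists_place K₂ hτ
  have hτne : τ ≠ 0 := by
    rintro rfl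
    exact hτ isAlgebraic_zero
  obtain ⟨FL, hFL1, hFL2⟩ := exists_lift_over (p := p) (F := F)
    (fun e => hpK (hK₁₂ (hFK₁ e)))
  let a : p.B := ⟨p₀ 0, p.le _ (hpK (hK₁₂ (hpK₁ 0)))⟩
  let b : p.B := ⟨p₀ 1, p.le _ (hpK (hK₁₂ (hpK₁ 1)))⟩
  let τB : p.B := ⟨τ, hτB⟩
  have ha : p.ρ a = p₀ 0 := p.id (p₀ 0) (hpK (hK₁₂ (hpK₁ 0)))
  have hb : p.ρ b = p₀ 1 := p.id (p₀ 1) (hpK (hK₁₂ (hpK₁ 1)))
  have hτρ : p.ρ τB = 0 := hτ0
  set FB : MvPolynomial (Fin 4) p.B := lin a b τB FL with hFB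
  have hF₀ : map p.ρ FB = lin (p₀ 0) (p₀ 1) 0 F := by
    rw [hFB, map_lin, ha, hb, hτρ]
    exact congrArg _ hFL2
  have hF' : map p.B.subtype FB = lin (p₀ 0) (p₀ 1) τ F := by
    rw [hFB, map_lin]
    exact congrArg _ hFL1
  -- simple roots
  have hsimple : ∀ j, eval ![1, p₀ 0, p₀ 1, c j] (pderiv 3 F) ≠ 0 := by
    intro j
    rw [← eval_uni', ← Hn.derivative_uni]
    refine simple_roots ?_ (uni_natDegree_le _ (d := d) ?_) hc ?_ j
    · intro h0
      have h1 := coeff_uni (A := ℂ) ![1, p₀ 0, p₀ 1] hF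
      rw [h0, Polynomial.coeff_zero] at h1
      exact hl h1.symm
    · intro e he
      have := exp_le hF he
      omega
    · intro i
      rw [eval_uni']
      exact hroots i
  let s : ((j : Fin d) × κ j) → p.B := fun q => ⟨z q 0, p.le _ (hpK (hzK₂ q 0))⟩
  let t : ((j : Fin d) × κ j) → p.B := fun q => ⟨z q 1, p.le _ (hpK (hzK₂ q 1))⟩
  have hs : ∀ q, p.ρ (s q) = z q 0 := fun q => p.id (z q 0) (hpK (hzK₂ q 0))
  have ht : ∀ q, p.ρ (t q) = z q 1 := fun q => p.id (z q 1) (hpK (hzK₂ q 1))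
  have hval : ∀ (q : (j : Fin d) × κ j) (x : p.B), p.ρ x = c q.1 →
      ∀ P : MvPolynomial (Fin 4) p.B, p.ρ (eval ![1, s q, t q, x] (lin a b τB P)) =
        eval ![1, p₀ 0, p₀ 1, c q.1] (map p.ρ P) := by
    intro q x hx P
    rw [eval_lin, ← Hn.eval_map_comp]
    congr 2
    funext i
    fin_cases i
    · exact map_one p.ρ
    · change p.ρ (a + τB * s q) = p₀ 0
      rw [map_add, map_mul, hτρ, zero_mul, add_zero, ha]
    · change p.ρ (b + τB * t q) = p₀ 1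
      rw [map_add, map_mul, hτρ, zero_mul, add_zero, hb]
    · exact hx
  have hex : ∀ q : (j : Fin d) × κ j, ∃ x : p.B, eval ![1, s q, t q, x] FB = 0 ∧
      p.ρ x = c q.1 := by
    intro q
    have h0 : p.ρ (⟨c q.1, p.le _ (hpK (hK₁₂ (hcK₁ q.1)))⟩ : p.B) = c q.1 :=
      p.id (c q.1) (hpK (hK₁₂ (hcK₁ q.1)))
    obtain ⟨x, hx1, hx2⟩ := Hn.exists_root' p (Hn.uni ![1, s q, t q] FB)
      (⟨c q.1, p.le _ (hpK (hK₁₂ (hcK₁ q.1)))⟩ : p.B)
      (by
        rw [eval_uni', hval q _ h0]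
        have : map p.ρ FL = F := hFL2
        rw [this]
        exact hroots q.1)
      (by
        rw [Hn.derivative_uni, eval_uni', hFB, pderiv_lin, hval q _ h0, ← pderiv_map]
        have : map p.ρ FL = F := hFL2
        rw [this]
        exact hsimple q.1)
    refine ⟨x, ?_, ?_⟩
    · rw [← eval_uni']
      exact hx1
    · rw [hx2, h0]
  choose ζ hζ1 hζ2 using hex
  have hδ : ∀ q, p.ρ (eval ![1, s q, t q, ζ q] (pderiv 3 FB)) ≠ 0 := by
    intro q
    rw [hFB, pderiv_lin, hval q _ (hζ2 q), ← pderiv_map]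
    have : map p.ρ FL = F := hFL2
    rw [this]
    exact hsimple q.1
  have hcoe : ∀ (q : (j : Fin d) × κ j) (P : MvPolynomial (Fin 4) p.B),
      eval ![1, z q 0, z q 1, (ζ q : ℂ)] (map p.B.subtype P) =
        p.B.subtype (eval ![1, s q, t q, ζ q] P) := by
    intro q P
    rw [← Hn.eval_map_comp]
    congr 2
    funext j
    fin_cases j <;> rfl
  refine ⟨fun q => ![1, p₀ 0 + τ * z q 0, p₀ 1 + τ * z q 1, (ζ q : ℂ)], fun q => rfl, fun q => ?_,
    fun q => ?_, ?_, ?_⟩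
  · rw [← eval_lin, ← hF', hcoe, hζ1, map_zero]
  · rw [← eval_lin, ← pderiv_lin, ← hF', pderiv_map, hcoe]
    intro h0
    have h1 : eval ![1, s q, t q, ζ q] (pderiv 3 FB) = 0 := Subtype.ext h0
    apply hδ q
    rw [h1, map_zero]
  · have h1 : st (fun q : (j : Fin d) × κ j =>
        (![1, p₀ 0 + τ * z q 0, p₀ 1 + τ * z q 1, (ζ q : ℂ)] : Fin 4 → ℂ)) =
        fun x => p₀ x.2 + τ * z x.1 x.2 := by
      funext x
      obtain ⟨q, k⟩ := x
      fin_cases k <;> rfl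
    rw [h1]
    exact indep_affine (hKK₁.trans hK₁₂) hKK₁ hz (fun x => hpK₁ x.2)
      (fun x => hK₁₂ (hpK₁ x.2)) (fun x => hzK₂ x.1 x.2) hτ
  · intro m w G hG hw hGK
    refine dvd_of_lin (a := p₀ 0) (b := p₀ 1) hτne ?_
    refine forms_special p hF' hF₀ (lin_hom _ _ _ hF) (lin_hom _ _ _ hF) ?_ hc ?_ hh hW0 hW2
      hin hs ht hζ2 hζ1 hδ (lin_hom _ _ _ hG) hw ?_
    · rw [coeff_lin _ _ _ hF]
      exact hl
    · intro j
      have h1 : (aeval ![1, X 0, X 1, C (c j)] : Poly 3 →ₐ[ℂ] Pol).comp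
          (lin (p₀ 0) (p₀ 1) 0) = (Algebra.ofId ℂ Pol).comp
            (aeval ![1, p₀ 0, p₀ 1, c j] : Poly 3 →ₐ[ℂ] ℂ) := by
        apply MvPolynomial.algHom_ext
        intro i
        fin_cases i <;> simp [lin, Algebra.ofId_apply, algebraMap_eq]
      have h2 := congrArg (fun φ => φ F) h1
      change aeval ![1, X 0, X 1, C (c j)] (lin (p₀ 0) (p₀ 1) 0 F) =
        (Algebra.ofId ℂ Pol) (eval ![1, p₀ 0, p₀ 1, c j] F) at h2
      rw [h2, hroots j, map_zero]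
    · intro q
      exact lin_mem (hGK q)

end Pool.Agent.Lib.MP_ed661f_ag.W
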