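import Pool.Agent.Lib.MP_ed661f_ag.W.Generic
import Pool.Agent.Lib.MP_ed661f_ag.W.Defs
import Pool.Agent.Lib.MP_ed661f_ag.S.FormsIneq
import Pool.Agent.Lib.MP_ed661f_ag.S.Lim

/-!
Auxiliary lemmas for the degeneration of a surface of degree `d` to `d` planes.
-/

set_option autoImplicit false

open MvPolynomial

namespace Pool.Agent.Lib.MP_ed661f_ag.W

open S E R H

/-! ### generic points -/

/-- a finite family of inequalities at one algebraically independent configuration -/
theorem PE.generic_family {d : ℕ} {κ : Fin d → Type} [∀ j, Fintype (κ j)] {h : ℝ} (hh : 0 ≤ h)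
    {W : (j : Fin d) → κ j → ℝ} (hW0 : ∀ j i, 0 ≤ W j i) (hW : ∀ j, PE h (W j))
    {s : Set ℂ} (hs : s.Countable) :
    ∃ (K₁ : Subfield ℂ) (z : ((j : Fin d) × κ j) → Pt), s ⊆ K₁ ∧ (K₁ : Set ℂ).Countable ∧
      AlgebraicIndependent K₁ (fun q : ((j : Fin d) × κ j) × Fin 2 => z q.1 q.2) ∧
      ∀ (j : Fin d) (g : Pol), g ≠ 0 →
        ∑ i, W j i * (mlt (z ⟨j, i⟩) g : ℝ) ≤ h * g.totalDegree := by
  classical
  choose z₀ hz₀ using hW
  set s' : Set ℂ := s ∪ Set.range (fun q : ((j : Fin d) × κ j) × Fin 2 => z₀ q.1.1 q.1.2 q.2)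
    with hs'
  have hc : s'.Countable := hs.union (Set.countable_range _)
  have hc' : Countable (Subfield.closure s') := Hn.countable_closure s' hc
  obtain ⟨t, ht⟩ := Hn.exists_indep (Subfield.closure s') (((j : Fin d) × κ j) × Fin 2)
  let a0 : ((j : Fin d) × κ j) × Fin 2 → ℂ := fun q => z₀ q.1.1 q.1.2 q.2
  have ha0 : ∀ q, a0 q ∈ Subfield.closure s' := fun q =>
    Subfield.subset_closure (Or.inr ⟨q, rfl⟩)
  obtain ⟨p, hp, hpt⟩ := exists_place_multi (Subfield.closure s') ht ha0
  choose hB hρ using hpt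
  refine ⟨Subfield.closure s', fun i k => t (i, k), fun x hx => Subfield.subset_closure (Or.inl hx),
    Set.countable_coe_iff.1 hc', ht, fun j g hg => ?_⟩
  obtain ⟨c, G, hG⟩ := exists_prm p hg
  refine le_trans ?_ ((hz₀ j _ hG.ne).trans
    (mul_le_mul_of_nonneg_left (by exact_mod_cast hG.totalDegree_le) hh))
  refine Finset.sum_le_sum fun i _ => mul_le_mul_of_nonneg_left ?_ (hW0 j i)
  have h1 := hG.mlt_le fun k => (⟨t (⟨j, i⟩, k), hB (⟨j, i⟩, k)⟩ : p.B)
  have h2 : (fun k => p.ρ ⟨t (⟨j, i⟩, k), hB (⟨j, i⟩, k)⟩) = z₀ j i :=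
    funext fun k => hρ (⟨j, i⟩, k)
  rw [h2] at h1
  exact_mod_cast h1

/-- affine transformation of an independent family with a transcendental factor -/
theorem indep_affine {ι : Type} {K K₂ : Subfield ℂ} (hK : K ≤ K₂) {t a : ι → ℂ} {τ : ℂ}
    {K₁ : Subfield ℂ} (hK₁ : K ≤ K₁) (ht : AlgebraicIndependent K₁ t) (ha : ∀ i, a i ∈ K₁)
    (ha₂ : ∀ i, a i ∈ K₂) (ht₂ : ∀ i, t i ∈ K₂) (hτ : Transcendental K₂ τ) :
    AlgebraicIndependent K (fun i => a i + τ * t i) := by
  rw [algebraicIndependent_iff]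
  intro Q hQ
  set f₂ : K →+* K₂ := Subfield.inclusion hK with hf₂
  set f₁ : K →+* K₁ := Subfield.inclusion hK₁ with hf₁
  -- the polynomial in one variable
  set R : Polynomial K₂ := eval₂ (Polynomial.C.comp f₂)
    (fun i => Polynomial.C (⟨a i, ha₂ i⟩ : K₂) + Polynomial.X * Polynomial.C ⟨t i, ht₂ i⟩) Q with hR
  have hev : ∀ x : ℂ, Polynomial.aeval x R = aeval (fun i => a i + x * t i) Q := by
    intro x
    have h : ((Polynomial.aeval x : Polynomial K₂ →ₐ[K₂] ℂ).toRingHom).comp
        (eval₂Hom (Polynomial.C.comp f₂)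
          (fun i => Polynomial.C (⟨a i, ha₂ i⟩ : K₂) + Polynomial.X * Polynomial.C ⟨t i, ht₂ i⟩)) =
        (aeval (fun i => a i + x * t i) : MvPolynomial ι K →ₐ[K] ℂ).toRingHom := by
      apply MvPolynomial.ringHom_ext
      · intro r
        simp
        rfl
      · intro i
        simp only [AlgHom.toRingHom_eq_coe, RingHom.coe_comp, RingHom.coe_coe, coe_eval₂Hom,
          Function.comp_apply, eval₂_X, map_add, map_mul, Polynomial.aeval_C, Polynomial.aeval_X,
          aeval_X]
        rfl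
    exact congrArg (fun φ => φ Q) h
  have h0 : R = 0 := by
    by_contra hne
    exact hτ ⟨R, hne, by rw [hev]; exact hQ⟩
  have h1 : aeval (fun i => a i + t i) Q = 0 := by
    have h5 := hev 1
    simp only [one_mul] at h5
    rw [← h5, h0, map_zero]
  -- translation
  set Q' : MvPolynomial ι K₁ := aeval (fun i => X i + C (⟨a i, ha i⟩ : K₁)) (map f₁ Q) with hQ'
  have h2 : aeval t Q' = 0 := by
    rw [← h1, hQ']
    have h : ((aeval t : MvPolynomial ι K₁ →ₐ[K₁] ℂ).toRingHom).comp
        ((aeval (fun i => X i + C (⟨a i, ha i⟩ : K₁)) :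
          MvPolynomial ι K₁ →ₐ[K₁] MvPolynomial ι K₁).toRingHom.comp (map f₁)) =
        (aeval (fun i => a i + t i) : MvPolynomial ι K →ₐ[K] ℂ).toRingHom := by
      apply MvPolynomial.ringHom_ext
      · intro r
        simp
        rfl
      · intro i
        simp [add_comm]
        rfl
    exact congrArg (fun φ => φ Q) h
  have h3 : Q' = 0 := by
    rw [← map_zero (aeval (R := K₁) t)] at h2
    exact ht h2
  have h4 : map f₁ Q = 0 := by
    have h : (aeval (fun i => X i - C (⟨a i, ha i⟩ : K₁)) :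
        MvPolynomial ι K₁ →ₐ[K₁] MvPolynomial ι K₁).comp
          (aeval (fun i => X i + C (⟨a i, ha i⟩ : K₁))) = AlgHom.id K₁ _ := by
      apply MvPolynomial.algHom_ext
      intro i
      rw [AlgHom.comp_apply, aeval_X, map_add, aeval_X, algHom_C, AlgHom.id_apply, algebraMap_eq,
        sub_add_cancel]
    have h5 : aeval (fun i => X i - C (⟨a i, ha i⟩ : K₁)) Q' = map f₁ Q := by
      rw [hQ', ← AlgHom.comp_apply, h, AlgHom.id_apply]
    rw [← h5, h3, map_zero]
  have h6 := map_injective (σ := ι) f₁ (RingHom.injective f₁)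
  exact h6 (h4.trans (map_zero (map f₁)).symm)

/-! ### polynomials in one variable -/

/-- a polynomial of degree `≤ d` with `d` distinct roots has simple roots -/
theorem simple_roots {d : ℕ} {P : Polynomial ℂ} (hP0 : P ≠ 0) (hP : P.natDegree ≤ d)
    {c : Fin d → ℂ} (hc : Function.Injective c) (hr : ∀ j, P.eval (c j) = 0) (j : Fin d) :
    P.derivative.eval (c j) ≠ 0 := by
  classical
  intro h0
  have h1 : 1 < P.rootMultiplicity (c j) := by
    rw [Polynomial.one_lt_rootMultiplicity_iff_isRoot hP0]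
    exact ⟨hr j, h0⟩
  have h2 : (Finset.univ.image c).val ≤ P.roots := by
    rw [Multiset.le_iff_subset (Finset.univ.image c).nodup]
    intro x hx
    rw [Finset.mem_val, Finset.mem_image] at hx
    obtain ⟨i, -, rfl⟩ := hx
    rw [Polynomial.mem_roots hP0]
    exact hr i
  have h3 : (Finset.univ.image c).val.card = d := by
    rw [Finset.card_val, Finset.card_image_of_injective _ hc, Finset.card_univ, Fintype.card_fin]
  have h4 : P.roots.card ≤ d := (Polynomial.card_roots' P).trans hP
  have h5 : (Finset.univ.image c).val = P.roots := Multiset.eq_of_le_of_card_le h2 (by omega)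
  have h6 : P.roots.count (c j) ≤ 1 := by
    rw [← h5]
    exact Multiset.nodup_iff_count_le_one.1 (Finset.univ.image c).nodup _
  rw [Polynomial.count_roots] at h6
  omega

/-- a polynomial of degree `< d` with `d` distinct roots is zero -/
theorem zero_of_roots {d : ℕ} {P : Polynomial ℂ} (hP : P.degree < d)
    {c : Fin d → ℂ} (hc : Function.Injective c) (hr : ∀ j, P.eval (c j) = 0) : P = 0 := by
  classical
  refine Polynomial.eq_zero_of_degree_lt_of_eval_finset_eq_zero (Finset.univ.image c) ?_ ?_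
  · rw [Finset.card_image_of_injective _ hc, Finset.card_univ, Fintype.card_fin]
    exact hP
  · intro x hx
    rw [Finset.mem_image] at hx
    obtain ⟨i, -, rfl⟩ := hx
    exact hr i

theorem uni_eq_sum {R A : Type*} [CommRing R] [CommRing A] [Algebra R A] (r : Fin 3 → A)
    (G : MvPolynomial (Fin 4) R) : Hn.uni r G = ∑ e ∈ G.support,
      Polynomial.C (algebraMap R A (coeff e G) * (r 0 ^ e 0 * r 1 ^ e 1 * r 2 ^ e 2)) *
        Polynomial.X ^ e 3 := by
  rw [Hn.uni, aeval_def, eval₂_eq']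
  refine Finset.sum_congr rfl fun e _ => ?_
  rw [Fin.prod_univ_four]
  simp only [Matrix.cons_val_zero, Matrix.cons_val_one, Matrix.cons_val, Polynomial.C_mul,
    Polynomial.C_pow, IsScalarTower.algebraMap_apply R A (Polynomial A),
    ← Polynomial.C_eq_algebraMap]
  ring

theorem uni_degree_lt {R A : Type*} [CommRing R] [CommRing A] [Algebra R A] (r : Fin 3 → A)
    {G : MvPolynomial (Fin 4) R} {d : ℕ} (hG : ∀ e ∈ G.support, e 3 < d) :
    (Hn.uni r G).degree < d := by
  rw [uni_eq_sum, ← Polynomial.mem_degreeLT]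
  refine Submodule.sum_mem _ fun e he => ?_
  rw [Polynomial.mem_degreeLT]
  refine (Polynomial.degree_C_mul_X_pow_le _ _).trans_lt ?_
  exact_mod_cast hG e he

theorem uni_natDegree_le {R A : Type*} [CommRing R] [CommRing A] [Algebra R A] (r : Fin 3 → A)
    {G : MvPolynomial (Fin 4) R} {d : ℕ} (hG : ∀ e ∈ G.support, e 3 ≤ d) :
    (Hn.uni r G).natDegree ≤ d := by
  have h := uni_degree_lt r (d := d + 1) fun e he => Nat.lt_succ_of_le (hG e he)
  by_cases h0 : Hn.uni r G = 0
  · rw [h0, Polynomial.natDegree_zero]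
    exact Nat.zero_le _
  · rw [Polynomial.degree_eq_natDegree h0] at h
    have : (Hn.uni r G).natDegree < d + 1 := by exact_mod_cast h
    omega

theorem exp_le {R : Type*} [CommRing R] {G : MvPolynomial (Fin 4) R} {d : ℕ}
    (hG : G.IsHomogeneous d) {e : Fin 4 →₀ ℕ} (he : e ∈ G.support) : e 0 + e 1 + e 2 + e 3 = d := by
  have h : e.degree = d := by
    have := hG (mem_support_iff.1 he)
    rw [Finsupp.degree_eq_weight_one]
    exact this
  rw [Finsupp.degree_eq_sum, Fin.sum_univ_four] at h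
  exact h

theorem coeff_uni {R A : Type*} [CommRing R] [CommRing A] [Algebra R A] (r : Fin 3 → A)
    {G : MvPolynomial (Fin 4) R} {d : ℕ} (hG : G.IsHomogeneous d) :
    (Hn.uni r G).coeff d = algebraMap R A (coeff (Finsupp.single 3 d) G) := by
  classical
  rw [uni_eq_sum, Polynomial.finsetSum_coeff]
  rw [Finset.sum_eq_single (Finsupp.single 3 d)]
  · simp
  · intro e he hne
    have h1 := exp_le hG he
    rw [Polynomial.coeff_C_mul, Polynomial.coeff_X_pow, if_neg, mul_zero]
    intro h2
    apply hne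
    ext i
    fin_cases i <;> simp <;> omega
  · intro h
    rw [notMem_support_iff.1 h, map_zero, zero_mul, map_zero, zero_mul, Polynomial.coeff_zero]

theorem eval_uni' {R : Type*} [CommRing R] (a b c z : R) (P : MvPolynomial (Fin 4) R) :
    (Hn.uni ![a, b, c] P).eval z = eval ![a, b, c, z] P := by
  rw [Hn.eval_uni]
  rfl

/-- a form `G(x)` with `G(1, u, v, z) = 0` for all `u, v, z` is zero -/
theorem zero_of_chart {G : Poly 3} {m : ℕ} (hG : G.IsHomogeneous m)
    (h : ∀ u v z : ℂ, eval ![1, u, v, z] G = 0) : G = 0 := by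
  have h1 : (X 0 : Poly 3) * G = 0 := by
    apply MvPolynomial.funext
    intro x
    rw [map_mul, eval_X, map_zero]
    by_cases hx : x 0 = 0
    · rw [hx, zero_mul]
    · have h2 := Hn.aeval_mul_hom (A := ℂ) (R := ℂ) hG (x 0) ![1, x 1 / x 0, x 2 / x 0, x 3 / x 0]
      have h3 : (fun i => x 0 * (![1, x 1 / x 0, x 2 / x 0, x 3 / x 0] : Fin 4 → ℂ) i) = x := by
        funext i
        fin_cases i
        · simp
        · simp [mul_div_cancel₀ _ hx]
        · simp [mul_div_cancel₀ _ hx]
        · simp [mul_div_cancel₀ _ hx]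
      rw [h3] at h2
      have h4 : aeval (![1, x 1 / x 0, x 2 / x 0, x 3 / x 0] : Fin 4 → ℂ) G = 0 := h _ _ _
      rw [h4, mul_zero] at h2
      have h5 : eval x G = 0 := h2
      rw [h5, mul_zero]
  rcases mul_eq_zero.1 h1 with h2 | h2
  · exact absurd h2 (X_ne_zero 0)
  · exact h2

/-- total degree of a substitution -/
theorem totalDegree_aeval_le {σ : Type*} {G : MvPolynomial σ ℂ} {m : ℕ} [Fintype σ]
    (hG : G.IsHomogeneous m) {f : σ → Pol} (hf : ∀ i, (f i).totalDegree ≤ 1) :
    (aeval f G).totalDegree ≤ m := by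
  rw [aeval_def, eval₂_eq']
  refine (totalDegree_finsetSum _ _).trans (Finset.sup_le fun e he => ?_)
  refine (totalDegree_mul _ _).trans ?_
  rw [algebraMap_eq, totalDegree_C, zero_add]
  refine (totalDegree_finsetProd _ _).trans ?_
  have h1 : ∀ i, ((f i : Pol) ^ e i).totalDegree ≤ e i := by
    intro i
    refine (totalDegree_pow _ _).trans ?_
    calc e i * (f i : Pol).totalDegree ≤ e i * 1 := Nat.mul_le_mul_left _ (hf i)
      _ = e i := mul_one _
  refine (Finset.sum_le_sum fun i _ => h1 i).trans ?_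
  have h2 : e.degree = m := by
    have := hG (mem_support_iff.1 he)
    rw [Finsupp.degree_eq_weight_one]
    exact this
  rw [Finsupp.degree_eq_sum] at h2
  exact h2.le

end Pool.Agent.Lib.MP_ed661f_ag.W
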