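import Pool.Agent.Lib.MP_ed661f_ag.W.ProjForm
import Pool.Agent.Lib.MP_ed661f_ag.S.SDeg
import Pool.Agent.Lib.MP_ed661f_ag.H.FinDim
import Pool.Agent.Lib.MP_ed661f_ag.H.Slice

/-!
Projection of a surface in `ℙᴺ` to a surface `F = 0` in `ℙ³`: points and local rings.
-/

set_option autoImplicit false
set_option synthInstance.maxHeartbeats 400000
set_option maxHeartbeats 4000000

open MvPolynomial Filter
open scoped ENNReal

namespace Pool.Agent.Lib.MP_ed661f_ag.W

open Pool.Agent.Lib.MP_ed661f_ag.H Pool.Agent.Lib.MP_ed661f_ag.T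

variable {N : ℕ}

/-- the image point -/
noncomputable def img (L : Fin 4 → Poly N) (v : Fin (N + 1) → ℂ) : Fin 4 → ℂ :=
  fun i => eval v (L i)

theorem eval_sub4 (L : Fin 4 → Poly N) (v : Fin (N + 1) → ℂ) (G : Poly 3) :
    eval v (sub4 L G) = eval (img L v) G := by
  rw [sub4, aeval_def, eval_eval₂]
  have h : (eval v).comp (algebraMap ℂ (Poly N)) = RingHom.id ℂ := by
    ext c
    simp [algebraMap_eq]
  rw [h]
  rfl

theorem mem_vecIdeal {v : Fin (N + 1) → ℂ} {G : Poly N} : G ∈ vecIdeal v ↔ eval v G = 0 :=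
  RingHom.mem_ker

namespace Proj4

variable {I : Ideal (Poly N)} {d q : ℕ} {F : Poly 3} {L : Fin 4 → Poly N} {s : D3}

theorem ne_zero (h : Proj4 I d q F L s) : F ≠ 0 := by
  intro h0
  have h1 := h.hcoeff
  rw [h0, coeff_zero] at h1
  exact zero_ne_one h1

theorem comap_eq (h : Proj4 I d q F L s) : I.comap (sub4 L) = Ideal.span {F} := by
  ext G
  rw [Ideal.mem_comap, h.hker, Ideal.mem_span_singleton]

theorem prime_span (h : Proj4 I d q F L s) (hI : I.IsPrime) : (Ideal.span {F}).IsPrime := by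
  rw [← h.comap_eq]
  exact hI.comap _

theorem irreducible (h : Proj4 I d q F L s) (hI : I.IsPrime) : Irreducible F :=
  ((Ideal.span_singleton_prime h.ne_zero).1 (h.prime_span hI)).irreducible

theorem isSurface (h : Proj4 I d q F L s) (hI : I.IsPrime) : IsSurface (Ideal.span {F}) :=
  S.isSurface_of_irreducible h.hF h.hd (h.irreducible hI) (by
    have h1 := h.hcoeff
    have h2 : (Fin.last 3 : Fin 4) = 3 := rfl
    rw [h2] at h1
    rw [h1]
    exact one_ne_zero)

/-- every point of `F = 0` is the image of a point of the surface -/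
theorem lift (h : Proj4 I d q F L s) {v' : Fin 4 → ℂ} (hv' : eval v' F = 0) :
    ∃ v : Fin (N + 1) → ℂ, (∀ G ∈ I, eval v G = 0) ∧ img L v = v' := by
  let _ : Algebra (Poly 3) (Poly N ⧸ I) := (phi I L).toRingHom.toAlgebra
  have hfin : Module.Finite (Poly 3) (Poly N ⧸ I) := h.fin
  have hint : Algebra.IsIntegral (Poly 3) (Poly N ⧸ I) := Algebra.IsIntegral.of_finite _ _
  have hmax : (vecIdeal (N := 3) v').IsMaximal := finDim_isMaximal v'
  obtain ⟨Q, hQ, hQ'⟩ := Ideal.exists_ideal_over_maximal_of_isIntegral (S := Poly N ⧸ I)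
    (vecIdeal (N := 3) v') (by
      intro G hG
      have h1 : Ideal.Quotient.mk I (sub4 L G) = 0 := hG
      rw [Ideal.Quotient.eq_zero_iff_mem, h.hker] at h1
      obtain ⟨R, rfl⟩ := h1
      rw [mem_vecIdeal, map_mul, hv', zero_mul])
  have hQm : (Q.comap (Ideal.Quotient.mk I)).IsMaximal :=
    Ideal.comap_isMaximal_of_surjective _ Ideal.Quotient.mk_surjective
  obtain ⟨v, hv⟩ := isMaximal_iff_eq_vanishingIdeal_singleton.1 hQm
  have hmem : ∀ G : Poly N, Ideal.Quotient.mk I G ∈ Q ↔ eval v G = 0 := by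
    intro G
    have h1 : Ideal.Quotient.mk I G ∈ Q ↔ G ∈ Q.comap (Ideal.Quotient.mk I) := Iff.rfl
    rw [h1, hv, mem_vanishingIdeal_singleton_iff]
    rfl
  refine ⟨v, fun G hG => ?_, ?_⟩
  · rw [← hmem, Ideal.Quotient.eq_zero_iff_mem.2 hG]
    exact Q.zero_mem
  · funext i
    have h2 : (X i - C (v' i) : Poly 3) ∈ Q.comap (algebraMap (Poly 3) (Poly N ⧸ I)) := by
      rw [hQ', mem_vecIdeal]
      simp
    have h3 : Ideal.Quotient.mk I (sub4 L (X i - C (v' i))) ∈ Q := h2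
    rw [hmem, eval_sub4] at h3
    simp only [map_sub, eval_X, eval_C] at h3
    exact sub_eq_zero.1 h3

/-! ### local rings -/

/-- a form which does not vanish at the point is a unit modulo the powers of the ideal of the
point -/
theorem exists_inv {δ : Poly N} {v : Fin (N + 1) → ℂ} (hδ : eval v δ ≠ 0) (t : ℕ) :
    ∃ ε : Poly N, δ * ε - 1 ∈ vecIdeal v ^ t := by
  set u : ℂ := (eval v δ)⁻¹ with hu
  have h1 : 1 - C u * δ ∈ vecIdeal v := by
    rw [mem_vecIdeal, map_sub, map_one, map_mul, eval_C, hu, inv_mul_cancel₀ hδ, sub_self]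
  have h2 := Ideal.pow_mem_pow h1 t
  have h3 : (1 : Poly N) - (1 - C u * δ) ∣ 1 ^ t - (1 - C u * δ) ^ t := sub_dvd_pow_sub_pow _ _ t
  obtain ⟨R, hR⟩ := h3
  refine ⟨C u * R, ?_⟩
  have h4 : δ * (C u * R) - 1 = -((1 - C u * δ) ^ t) := by
    have h5 : (1 - C u * δ) ^ t = 1 ^ t - (1 - (1 - C u * δ)) * R := by
      rw [← hR]; ring
    rw [h5, one_pow]; ring
  rw [h4]
  exact Submodule.neg_mem _ h2

theorem vecIdeal_comap (L : Fin 4 → Poly N) (v : Fin (N + 1) → ℂ) {G : Poly 3}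
    (hG : G ∈ vecIdeal (img L v)) : sub4 L G ∈ vecIdeal v := by
  rw [mem_vecIdeal, eval_sub4]
  exact hG

theorem vecIdeal_pow_comap (L : Fin 4 → Poly N) (v : Fin (N + 1) → ℂ) {t : ℕ} {G : Poly 3}
    (hG : G ∈ vecIdeal (img L v) ^ t) : sub4 L G ∈ vecIdeal v ^ t := by
  have h1 : Ideal.map (sub4 L) (vecIdeal (img L v)) ≤ vecIdeal v :=
    Ideal.map_le_iff_le_comap.2 fun G hG => vecIdeal_comap L v hG
  have h2 := Ideal.pow_right_mono h1 t
  rw [← Ideal.map_pow] at h2
  exact h2 (Ideal.mem_map_of_mem _ hG)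

/-- local surjectivity -/
theorem surj (h : Proj4 I d q F L s) {v : Fin (N + 1) → ℂ}
    (hv : eval (img L v) (inc s) ≠ 0) {J : Ideal (Poly N)} (hIJ : I ≤ J) {t : ℕ}
    (hJ : vecIdeal v ^ t ≤ J) (H : Poly N) : ∃ G : Poly 3, sub4 L G - H ∈ J := by
  obtain ⟨ε, hε⟩ := exists_inv (N := 3) hv t
  obtain ⟨G, hG⟩ := h.cond H
  refine ⟨ε * G, ?_⟩
  have h1 : sub4 L (inc s * ε - 1) ∈ J := hJ (vecIdeal_pow_comap L v hε)
  have h2 : sub4 L (ε * G) - H = -(sub4 L ε * (sub4 L (inc s) * H - sub4 L G)) +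
      sub4 L (inc s * ε - 1) * H := by
    rw [map_mul, map_sub, map_mul, map_one]
    ring
  rw [h2]
  exact J.add_mem (J.neg_mem (J.mul_mem_left _ (hIJ hG))) (J.mul_mem_right _ h1)

theorem finrank_comap (h : Proj4 I d q F L s) {v : Fin (N + 1) → ℂ}
    (hv : eval (img L v) (inc s) ≠ 0) {J : Ideal (Poly N)} (hIJ : I ≤ J) {t : ℕ}
    (hJ : vecIdeal v ^ t ≤ J) :
    Module.finrank ℂ (Poly 3 ⧸ J.comap (sub4 L)) = Module.finrank ℂ (Poly N ⧸ J) := by
  set f : Poly 3 →ₐ[ℂ] Poly N ⧸ J := (Ideal.Quotient.mkₐ ℂ J).comp (sub4 L) with hf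
  have hsurj : Function.Surjective f := by
    intro x
    obtain ⟨H, rfl⟩ := Ideal.Quotient.mk_surjective x
    obtain ⟨G, hG⟩ := h.surj hv hIJ hJ H
    refine ⟨G, ?_⟩
    change Ideal.Quotient.mk J (sub4 L G) = _
    rw [← sub_eq_zero, ← map_sub, Ideal.Quotient.eq_zero_iff_mem]
    exact hG
  have hker : RingHom.ker f = J.comap (sub4 L) := by
    ext G
    rw [RingHom.mem_ker, Ideal.mem_comap]
    exact Ideal.Quotient.eq_zero_iff_mem
  rw [← hker]
  exact (Ideal.quotientKerAlgEquivOfSurjective hsurj).toLinearEquiv.finrank_eq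

/-- elements of the power of the ideal of the point come from `ℙ³`, up to a unit -/
theorem pow_down (h : Proj4 I d q F L s) {v : Fin (N + 1) → ℂ} (hIv : ∀ G ∈ I, eval v G = 0)
    (t : ℕ) : ∀ H ∈ vecIdeal v ^ t, ∃ G ∈ vecIdeal (img L v) ^ t,
      sub4 L (inc s ^ (t + 1)) * H - sub4 L G ∈ I := by
  induction t with
  | zero =>
    intro H _
    obtain ⟨G, hG⟩ := h.cond H
    refine ⟨G, by rw [pow_zero, Ideal.one_eq_top]; trivial, ?_⟩
    rw [zero_add, pow_one]
    exact hG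
  | succ t ih =>
    intro H hH
    rw [pow_succ] at hH
    induction hH using Submodule.mul_induction_on' with
    | mem_mul_mem a ha b hb =>
      obtain ⟨a', ha', h1⟩ := ih a ha
      obtain ⟨b', h2⟩ := h.cond b
      have hb' : b' ∈ vecIdeal (img L v) := by
        have h3 := hIv _ h2
        rw [map_sub, map_mul, mem_vecIdeal.1 hb, mul_zero, zero_sub, neg_eq_zero, eval_sub4] at h3
        exact h3
      refine ⟨a' * b', by rw [pow_succ]; exact Ideal.mul_mem_mul ha' hb', ?_⟩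
      have h4 : sub4 L (inc s ^ (t + 1 + 1)) * (a * b) - sub4 L (a' * b') =
          (sub4 L (inc s ^ (t + 1)) * a - sub4 L a') * (sub4 L (inc s) * b) +
          sub4 L a' * (sub4 L (inc s) * b - sub4 L b') := by
        rw [pow_succ (inc s) (t + 1), map_mul, map_mul (sub4 L) a' b']
        ring
      rw [h4]
      exact I.add_mem (I.mul_mem_right _ h1) (I.mul_mem_left _ h2)
    | add x _ y _ hx hy =>
      obtain ⟨x', hx', h1⟩ := hx
      obtain ⟨y', hy', h2⟩ := hy
      refine ⟨x' + y', Ideal.add_mem _ hx' hy', ?_⟩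
      have h4 : sub4 L (inc s ^ (t + 1 + 1)) * (x + y) - sub4 L (x' + y') =
          (sub4 L (inc s ^ (t + 1 + 1)) * x - sub4 L x') +
          (sub4 L (inc s ^ (t + 1 + 1)) * y - sub4 L y') := by
        rw [map_add (sub4 L) x' y']
        ring
      rw [h4]
      exact I.add_mem h1 h2

theorem map_down (h : Proj4 I d q F L s) (K' : Ideal (Poly 3)) :
    ∀ H ∈ Ideal.map (sub4 L) K', ∃ G ∈ K', sub4 L (inc s) * H - sub4 L G ∈ I := by
  have key : ∀ H ∈ Ideal.map (sub4 L) K', ∀ r : Poly N, ∃ G ∈ K',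
      sub4 L (inc s) * (r * H) - sub4 L G ∈ I := by
    intro H hH
    refine Submodule.span_induction (p := fun H _ => ∀ r : Poly N, ∃ G ∈ K',
      sub4 L (inc s) * (r * H) - sub4 L G ∈ I) ?_ ?_ ?_ ?_ hH
    · rintro _ ⟨G, hG, rfl⟩ r
      obtain ⟨r', hr'⟩ := h.cond r
      refine ⟨r' * G, K'.mul_mem_left _ hG, ?_⟩
      change sub4 L (inc s) * (r * sub4 L G) - sub4 L (r' * G) ∈ I
      have h4 : sub4 L (inc s) * (r * sub4 L G) - sub4 L (r' * G) =
          (sub4 L (inc s) * r - sub4 L r') * sub4 L G := by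
        rw [map_mul (sub4 L) r' G]; ring
      rw [h4]
      exact I.mul_mem_right _ hr'
    · intro r
      exact ⟨0, K'.zero_mem, by rw [mul_zero, mul_zero, map_zero, sub_zero]; exact I.zero_mem⟩
    · intro x y _ _ hx hy r
      obtain ⟨x', hx', h1⟩ := hx r
      obtain ⟨y', hy', h2⟩ := hy r
      refine ⟨x' + y', K'.add_mem hx' hy', ?_⟩
      have h4 : sub4 L (inc s) * (r * (x + y)) - sub4 L (x' + y') =
          (sub4 L (inc s) * (r * x) - sub4 L x') + (sub4 L (inc s) * (r * y) - sub4 L y') := by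
        rw [map_add (sub4 L) x' y']; ring
      rw [h4]
      exact I.add_mem h1 h2
    · intro r' x _ hx r
      obtain ⟨x', hx', h1⟩ := hx (r * r')
      refine ⟨x', hx', ?_⟩
      rw [smul_eq_mul, ← mul_assoc r r' x]
      exact h1
  intro H hH
  obtain ⟨G, hG, h1⟩ := key H hH 1
  rw [one_mul] at h1
  exact ⟨G, hG, h1⟩

/-- the inverse images of the ideals of jets -/
theorem comap_sup (h : Proj4 I d q F L s) {v : Fin (N + 1) → ℂ} (hIv : ∀ G ∈ I, eval v G = 0)
    (hv : eval (img L v) (inc s) ≠ 0) {P : Ideal (Poly N)} (hP : I ≤ P) (t : ℕ)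
    (K' : Ideal (Poly 3)) :
    (P ⊔ vecIdeal v ^ t ⊔ Ideal.map (sub4 L) K').comap (sub4 L) =
      P.comap (sub4 L) ⊔ vecIdeal (img L v) ^ t ⊔ K' := by
  apply le_antisymm
  · intro G hG
    rw [Ideal.mem_comap, Submodule.mem_sup] at hG
    obtain ⟨x, hx, κ, hκ, hxκ⟩ := hG
    rw [Submodule.mem_sup] at hx
    obtain ⟨p, hp, m, hm, hpm⟩ := hx
    obtain ⟨m', hm', h1⟩ := h.pow_down hIv t m hm
    obtain ⟨κ', hκ', h2⟩ := h.map_down K' κ hκ
    -- the multiple of `G`
    have h3 : inc s ^ (t + 1) * G - m' - inc s ^ t * κ' ∈ P.comap (sub4 L) := by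
      rw [Ideal.mem_comap]
      have h4 : sub4 L (inc s ^ (t + 1) * G - m' - inc s ^ t * κ') =
          sub4 L (inc s ^ (t + 1)) * p + (sub4 L (inc s ^ (t + 1)) * m - sub4 L m') +
          sub4 L (inc s ^ t) * (sub4 L (inc s) * κ - sub4 L κ') := by
        rw [map_sub, map_sub, map_mul, map_mul, ← hxκ, ← hpm, pow_succ (inc s) t, map_mul]
        ring
      rw [h4]
      exact P.add_mem (P.add_mem (P.mul_mem_left _ hp) (hP h1)) (P.mul_mem_left _ (hP h2))
    have h5 : inc s ^ (t + 1) * G ∈ P.comap (sub4 L) ⊔ vecIdeal (img L v) ^ t ⊔ K' := by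
      have h6 : inc s ^ (t + 1) * G = (inc s ^ (t + 1) * G - m' - inc s ^ t * κ') + m' +
          inc s ^ t * κ' := by ring
      rw [h6]
      refine Ideal.add_mem _ (Ideal.add_mem _ ?_ ?_) ?_
      · exact Ideal.mem_sup_left (Ideal.mem_sup_left h3)
      · exact Ideal.mem_sup_left (Ideal.mem_sup_right hm')
      · exact Ideal.mem_sup_right (K'.mul_mem_left _ hκ')
    have hv2 : eval (img L v) (inc s ^ (t + 1)) ≠ 0 := by
      rw [map_pow]
      exact pow_ne_zero _ hv
    obtain ⟨ε, hε⟩ := exists_inv (N := 3) hv2 t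
    have h7 : G = ε * (inc s ^ (t + 1) * G) - (inc s ^ (t + 1) * ε - 1) * G := by ring
    rw [h7]
    refine Ideal.sub_mem _ (Ideal.mul_mem_left _ _ h5) ?_
    exact Ideal.mem_sup_left (Ideal.mem_sup_right (Ideal.mul_mem_right _ _ hε))
  · refine sup_le (sup_le ?_ ?_) ?_
    · exact Ideal.comap_mono (le_sup_left.trans le_sup_left)
    · intro G hG
      exact Ideal.mem_sup_left (Ideal.mem_sup_right (vecIdeal_pow_comap L v hG))
    · exact (Ideal.le_comap_map).trans (Ideal.comap_mono le_sup_right)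

/-- **jets of a subvariety of the surface and of its image** -/
theorem jetDim_eq (h : Proj4 I d q F L s) {v : Fin (N + 1) → ℂ} (hIv : ∀ G ∈ I, eval v G = 0)
    (hv : eval (img L v) (inc s) ≠ 0) {P : Ideal (Poly N)} (hP : I ≤ P) (t : ℕ) :
    jetDim (P.comap (sub4 L)) (img L v) t = jetDim P v t := by
  have h1 := h.finrank_comap hv (hP.trans (le_sup_left (b := vecIdeal v ^ t))) (t := t) le_sup_right
  have h2 := h.comap_sup hIv hv hP t ⊥
  rw [Ideal.map_bot, sup_bot_eq, sup_bot_eq] at h2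
  rw [jetDim, jetDim, ← h1, h2]

theorem lam_eq (h : Proj4 I d q F L s) {v : Fin (N + 1) → ℂ} (hIv : ∀ G ∈ I, eval v G = 0)
    (hv : eval (img L v) (inc s) ≠ 0) {P : Ideal (Poly N)} (hP : I ≤ P) (l : Poly 3) (t : ℕ) :
    lam (P.comap (sub4 L)) l (img L v) t = lam P (sub4 L l) v t := by
  have h1 := h.finrank_comap hv (J := P ⊔ vecIdeal v ^ t ⊔ Ideal.span {sub4 L l - 1})
    (hP.trans (le_sup_left.trans le_sup_left)) (t := t) (le_sup_right.trans le_sup_left)
  have h2 := h.comap_sup hIv hv hP t (Ideal.span {l - 1})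
  rw [Ideal.map_span, Set.image_singleton, map_sub, map_one] at h2
  rw [lam, lam, ← h1, ← h2]

/-- **multiplicities of a curve on the surface and of its image** -/
theorem mult_eq (h : Proj4 I d q F L s) {v : Fin (N + 1) → ℂ} (hIv : ∀ G ∈ I, eval v G = 0)
    (hv : eval (img L v) (inc s) ≠ 0) {P : Ideal (Poly N)} (hP : I ≤ P) :
    mult (P.comap (sub4 L)) (img L v) = mult P v := by
  unfold mult
  congr 1
  funext t
  rw [h.jetDim_eq hIv hv hP]

end Proj4

end Pool.Agent.Lib.MP_ed661f_ag.W
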