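import Pool.Agent.Lib.MP_ed661f_ag.W.ProjForm

/-!
The coordinates of the projection can be chosen such that the line `x₁ = x₂ = 0` meets the surface
`F = 0` in `d` distinct points.
-/

set_option autoImplicit false
set_option synthInstance.maxHeartbeats 400000
set_option maxHeartbeats 4000000

open MvPolynomial

namespace Pool.Agent.Lib.MP_ed661f_ag.W

open Pool.Agent.Lib.MP_ed661f_ag.H Pool.Agent.Lib.MP_ed661f_ag.T

variable {N : ℕ}

/-- the values of `G` -/
theorem eval_snoc_eqv (x : Fin 3 → ℂ) (t : ℂ) (G : Poly 3) :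
    eval (Fin.snoc x t : Fin 4 → ℂ) G = ((eqv G).map (eval x)).eval t := by
  induction G using MvPolynomial.induction_on with
  | C a => rw [eqv_C, Polynomial.map_C, Polynomial.eval_C, eval_C, eval_C]
  | add p q hp hq => rw [map_add, map_add, Polynomial.map_add, Polynomial.eval_add, hp, hq]
  | mul_X p i hp =>
    rw [map_mul, map_mul, Polynomial.map_mul, Polynomial.eval_mul, hp]
    congr 1
    refine Fin.lastCases ?_ (fun i => ?_) i
    · rw [eqv_X_last, Polynomial.map_X, Polynomial.eval_X, eval_X]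
      exact Fin.snoc_last (α := fun _ => ℂ) t x
    · rw [eqv_X_castSucc, Polynomial.map_C, Polynomial.eval_C, eval_X, eval_X]
      exact Fin.snoc_castSucc (α := fun _ => ℂ) t x i

/-- a relation between a monic irreducible polynomial and its derivative -/
theorem exists_bezout {D : Type*} [CommRing D] [IsDomain D] [IsIntegrallyClosed D] [CharZero D]
    {m : Polynomial D} (hm : m.Monic) (hirr : Irreducible m) :
    ∃ (A B : Polynomial D) (r : D), r ≠ 0 ∧
      A * m + B * Polynomial.derivative m = Polynomial.C r := by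
  have hirr' : Irreducible (m.map (algebraMap D (FractionRing D))) :=
    (Polynomial.Monic.irreducible_iff_irreducible_map_fraction_map hm).1 hirr
  have hcz : CharZero (FractionRing D) := IsFractionRing.charZero_of_isFractionRing D
  have hsep : (m.map (algebraMap D (FractionRing D))).Separable := hirr'.separable
  obtain ⟨a, b, hab⟩ := hsep
  obtain ⟨s, hs0, hs⟩ := IsLocalization.integerNormalization_spec (nonZeroDivisors D) a
  obtain ⟨t, ht0, ht⟩ := IsLocalization.integerNormalization_spec (nonZeroDivisors D) b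
  set A := IsLocalization.integerNormalization (nonZeroDivisors D) a
  set B := IsLocalization.integerNormalization (nonZeroDivisors D) b
  refine ⟨Polynomial.C t * A, Polynomial.C s * B, s * t,
    mul_ne_zero (nonZeroDivisors.ne_zero hs0) (nonZeroDivisors.ne_zero ht0), ?_⟩
  apply Polynomial.map_injective (algebraMap D (FractionRing D)) (IsFractionRing.injective D _)
  rw [Polynomial.map_add, Polynomial.map_mul, Polynomial.map_mul, Polynomial.map_mul,
    Polynomial.map_mul, Polynomial.map_C, Polynomial.map_C, Polynomial.map_C, hs, ht,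
    ← Polynomial.derivative_map, map_mul, Polynomial.C_mul]
  rw [← IsScalarTower.algebraMap_smul (FractionRing D) s a,
    ← IsScalarTower.algebraMap_smul (FractionRing D) t b, Polynomial.smul_eq_C_mul,
    Polynomial.smul_eq_C_mul]
  linear_combination (Polynomial.C (algebraMap D (FractionRing D) s) *
    Polynomial.C (algebraMap D (FractionRing D) t)) * hab

/-- a fibre with distinct roots -/
theorem exists_fibre {m : Polynomial D3} (hm : m.Monic) (hirr : Irreducible m) :
    ∃ p : Fin 3 → ℂ, p 0 ≠ 0 ∧ ∃ c : Fin m.natDegree → ℂ, Function.Injective c ∧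
      m.map (eval p) = ∏ j, (Polynomial.X - Polynomial.C (c j)) := by
  classical
  obtain ⟨A, B, r, hr, hAB⟩ := exists_bezout hm hirr
  have h1 : (X 0 * r : D3) ≠ 0 := mul_ne_zero (X_ne_zero 0) hr
  obtain ⟨p, hp⟩ : ∃ p : Fin 3 → ℂ, eval p (X 0 * r : D3) ≠ 0 := by
    by_contra hcon
    push Not at hcon
    exact h1 (MvPolynomial.funext fun p => by rw [hcon p, map_zero])
  rw [map_mul, eval_X] at hp
  refine ⟨p, left_ne_zero_of_mul hp, ?_⟩
  have hr' := right_ne_zero_of_mul hp
  set mp := m.map (eval p) with hmp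
  have hmonic : mp.Monic := hm.map _
  have hdeg : mp.natDegree = m.natDegree := hm.natDegree_map _
  have hsep : mp.Separable := by
    refine ⟨Polynomial.C (eval p r)⁻¹ * A.map (eval p), Polynomial.C (eval p r)⁻¹ * B.map (eval p),
      ?_⟩
    have h2 := congrArg (Polynomial.map (eval p)) hAB
    rw [Polynomial.map_add, Polynomial.map_mul, Polynomial.map_mul, Polynomial.map_C,
      ← Polynomial.derivative_map] at h2
    rw [mul_assoc, mul_assoc, ← mul_add, h2, ← Polynomial.C_mul, inv_mul_cancel₀ hr',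
      Polynomial.C_1]
  have hsplit : mp.Splits := IsAlgClosed.splits mp
  have hcard : mp.roots.toFinset.card = m.natDegree := by
    rw [Multiset.toFinset_card_of_nodup (Polynomial.nodup_roots hsep), ← hdeg]
    exact hsplit.natDegree_eq_card_roots.symm
  have e := Finset.equivFinOfCardEq hcard
  refine ⟨fun j => (e.symm j : ℂ), fun i j hij => e.symm.injective (Subtype.ext hij), ?_⟩
  have h3 : mp = (mp.roots.map fun a => Polynomial.X - Polynomial.C a).prod :=
    hsplit.eq_prod_roots_of_monic hmonic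
  have h4 : (mp.roots.map fun a => Polynomial.X - Polynomial.C a).prod =
      ∏ a ∈ mp.roots.toFinset, (Polynomial.X - Polynomial.C a) := by
    rw [Finset.prod, Multiset.toFinset_val, (Polynomial.nodup_roots hsep).dedup]
  refine (h3.trans h4).trans ?_
  rw [← Finset.prod_coe_sort]
  exact Fintype.prod_equiv e _ _ fun x => by simp

/-! ### the change of coordinates -/

/-- the linear substitution `x₀ ↦ p₀ x₀`, `x₁ ↦ x₁ + p₁ x₀`, `x₂ ↦ x₂ + p₂ x₀` in three variables -/
noncomputable def tr3 (p : Fin 3 → ℂ) : D3 →ₐ[ℂ] D3 :=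
  aeval ![C (p 0) * X 0, X 1 + C (p 1) * X 0, X 2 + C (p 2) * X 0]

/-- the same substitution in four variables -/
noncomputable def tr4 (p : Fin 3 → ℂ) : Poly 3 →ₐ[ℂ] Poly 3 :=
  aeval ![C (p 0) * X 0, X 1 + C (p 1) * X 0, X 2 + C (p 2) * X 0, X 3]

/-- the inverse substitution -/
noncomputable def tri4 (p : Fin 3 → ℂ) : Poly 3 →ₐ[ℂ] Poly 3 :=
  aeval ![C (p 0)⁻¹ * X 0, X 1 - C (p 1) * C (p 0)⁻¹ * X 0, X 2 - C (p 2) * C (p 0)⁻¹ * X 0, X 3]

theorem C_mul_inv {p : Fin 3 → ℂ} (hp : p 0 ≠ 0) : (C (p 0) * C (p 0)⁻¹ : Poly 3) = 1 := by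
  rw [← C_mul, mul_inv_cancel₀ hp, C_1]

theorem tri4_tr4 {p : Fin 3 → ℂ} (hp : p 0 ≠ 0) (G : Poly 3) : tri4 p (tr4 p G) = G := by
  have hC := C_mul_inv hp
  have h : (tri4 p).comp (tr4 p) = AlgHom.id ℂ _ := by
    apply MvPolynomial.algHom_ext
    intro i
    fin_cases i
    · simp [tri4, tr4]
      linear_combination X 0 * hC
    · simp [tri4, tr4]
      ring
    · simp [tri4, tr4]
      ring
    · simp [tri4, tr4]
  exact congrArg (fun φ => φ G) h

theorem tr4_tri4 {p : Fin 3 → ℂ} (hp : p 0 ≠ 0) (G : Poly 3) : tr4 p (tri4 p G) = G := by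
  have hC := C_mul_inv hp
  have h : (tr4 p).comp (tri4 p) = AlgHom.id ℂ _ := by
    apply MvPolynomial.algHom_ext
    intro i
    fin_cases i
    · simp [tri4, tr4]
      linear_combination X 0 * hC
    · simp [tri4, tr4]
      linear_combination - C (p 1) * X 0 * hC
    · simp [tri4, tr4]
      linear_combination - C (p 2) * X 0 * hC
    · simp [tri4, tr4]
  exact congrArg (fun φ => φ G) h

theorem tr4_inc (p : Fin 3 → ℂ) (s : D3) : tr4 p (inc s) = inc (tr3 p s) := by
  have h : (tr4 p).comp inc = inc.comp (tr3 p) := by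
    apply MvPolynomial.algHom_ext
    intro i
    fin_cases i <;> simp [tr3, tr4, inc]
  exact congrArg (fun φ => φ s) h

theorem isHomogeneous_lin {n : ℕ} (a b : ℂ) (i j : Fin n) :
    (C a * X i + C b * X j : MvPolynomial (Fin n) ℂ).IsHomogeneous 1 := by
  have h : ∀ (c : ℂ) (k : Fin n), (C c * X k : MvPolynomial (Fin n) ℂ).IsHomogeneous 1 := by
    intro c k
    have := (isHomogeneous_C (Fin n) c).mul (isHomogeneous_X ℂ k)
    rwa [zero_add] at this
  exact (h a i).add (h b j)

theorem tr3_homogeneous (p : Fin 3 → ℂ) {s : D3} {q : ℕ} (hs : s.IsHomogeneous q) :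
    (tr3 p s).IsHomogeneous q := by
  have h0 : ∀ i, ((![C (p 0) * X 0, X 1 + C (p 1) * X 0, X 2 + C (p 2) * X 0] :
      Fin 3 → D3) i).IsHomogeneous 1 := by
    intro i
    fin_cases i
    · simpa using isHomogeneous_lin (p 0) 0 (0 : Fin 3) 0
    · simpa using isHomogeneous_lin 1 (p 1) (1 : Fin 3) 0
    · simpa using isHomogeneous_lin 1 (p 2) (2 : Fin 3) 0
  have h := hs.aeval _ h0
  rwa [one_mul] at h

theorem tr4_homogeneous (p : Fin 3 → ℂ) {s : Poly 3} {q : ℕ} (hs : s.IsHomogeneous q) :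
    (tr4 p s).IsHomogeneous q := by
  have h0 : ∀ i, ((![C (p 0) * X 0, X 1 + C (p 1) * X 0, X 2 + C (p 2) * X 0, X 3] :
      Fin 4 → Poly 3) i).IsHomogeneous 1 := by
    intro i
    fin_cases i
    · simpa using isHomogeneous_lin (p 0) 0 (0 : Fin 4) 0
    · simpa using isHomogeneous_lin 1 (p 1) (1 : Fin 4) 0
    · simpa using isHomogeneous_lin 1 (p 2) (2 : Fin 4) 0
    · simpa using isHomogeneous_lin 1 0 (3 : Fin 4) 0
  have h := hs.aeval _ h0
  rwa [one_mul] at h

theorem tr3_ne_zero {p : Fin 3 → ℂ} (hp : p 0 ≠ 0) {s : D3} (hs : s ≠ 0) : tr3 p s ≠ 0 := by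
  intro h
  apply hs
  apply inc_injective
  have h1 := tr4_inc p s
  rw [h, map_zero] at h1
  have h2 := tri4_tr4 hp (inc s)
  rw [h1, map_zero] at h2
  rw [← h2, map_zero]

theorem eval_tr4 (p : Fin 3 → ℂ) (a t : ℂ) (G : Poly 3) :
    eval ![a, 0, 0, t] (tr4 p G) = eval ![a * p 0, a * p 1, a * p 2, t] G := by
  have h : (aeval (![a, 0, 0, t] : Fin 4 → ℂ)).comp (tr4 p) =
      (aeval (![a * p 0, a * p 1, a * p 2, t] : Fin 4 → ℂ) : Poly 3 →ₐ[ℂ] ℂ) := by
    apply MvPolynomial.algHom_ext
    intro i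
    fin_cases i <;> simp [tr4, mul_comm]
  have h1 := congrArg (fun φ => φ G) h
  simpa [aeval_eq_eval] using h1

/-- the value of a form at the point `(0,0,0,t)` -/
theorem eval_last {F : Poly 3} {d : ℕ} (hF : F.IsHomogeneous d) (t : ℂ) :
    eval ![0, 0, 0, t] F = coeff (Finsupp.single (Fin.last 3) d) F * t ^ d := by
  classical
  rw [eval_eq']
  rw [Finset.sum_eq_single (Finsupp.single (Fin.last 3) d)]
  · congr 1
    rw [Fin.prod_univ_four]
    simp [Fin.last]
  · intro e he hne
    have hdeg : e.degree = d := by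
      by_contra h
      exact mem_support_iff.1 he (hF.coeff_eq_zero h)
    have h1 : ∃ i : Fin 4, i ≠ Fin.last 3 ∧ e i ≠ 0 := by
      by_contra hcon
      push Not at hcon
      apply hne
      have h2 : e = Finsupp.single (Fin.last 3) (e (Fin.last 3)) := by
        ext i
        by_cases hi : i = Fin.last 3
        · rw [hi, Finsupp.single_eq_same]
        · rw [Finsupp.single_eq_of_ne hi, hcon i hi]
      rw [h2, Finsupp.degree_single] at hdeg
      rw [h2, hdeg]
    obtain ⟨i, hi, hei⟩ := h1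
    rw [Finset.prod_eq_zero (Finset.mem_univ i), mul_zero]
    have h2 : (![0, 0, 0, t] : Fin 4 → ℂ) i = 0 := by
      fin_cases i
      · rfl
      · rfl
      · rfl
      · exact absurd rfl hi
    rw [h2, zero_pow hei]
  · intro h
    rw [notMem_support_iff.1 h, zero_mul]

theorem hom_eval {F : Poly 3} {d : ℕ} (hF : F.IsHomogeneous d) (a : ℂ) (x : Fin 4 → ℂ) :
    eval (fun i => a * x i) F = a ^ d * eval x F := by
  rw [eval_eq', eval_eq', Finset.mul_sum]
  refine Finset.sum_congr rfl fun e he => ?_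
  have hdeg : e.degree = d := by
    by_contra h
    exact mem_support_iff.1 he (hF.coeff_eq_zero h)
  simp only [mul_pow, Finset.prod_mul_distrib]
  rw [Finset.prod_pow_eq_pow_sum]
  have h1 : ∑ i, e i = d := by
    rw [← hdeg, Finsupp.degree_eq_sum]
  rw [h1]
  ring

theorem exists_split {I : Ideal (Poly N)} {d q : ℕ} {F : Poly 3} {L : Fin 4 → Poly N} {s : D3}
    (h : Proj4 I d q F L s) (hirr : Irreducible F) :
    ∃ (F' : Poly 3) (L' : Fin 4 → Poly N) (s' : D3), Proj4 I d q F' L' s' ∧ Irreducible F' ∧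
      ∃ c : Fin d → ℂ, Function.Injective c ∧
        ∀ a t : ℂ, eval ![a, 0, 0, t] F' = ∏ j, (t - c j * a) := by
  classical
  -- the polynomial in the last variable
  have hcoef := coeff_eqv h.hF
  rw [h.hcoeff, C_1] at hcoef
  have hnd : (eqv F).natDegree ≤ d := (natDegree_eqv_le F).trans h.hF.totalDegree_le
  have hnd' : (eqv F).natDegree = d := by
    refine le_antisymm hnd (Polynomial.le_natDegree_of_ne_zero ?_)
    rw [hcoef]
    exact one_ne_zero
  have hmonic : (eqv F).Monic := by
    rw [Polynomial.Monic, Polynomial.leadingCoeff, hnd', hcoef]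
  have hirr' : Irreducible (eqv F) := (MulEquiv.irreducible_iff eqv).2 hirr
  obtain ⟨p, hp0, c, hc, hfib⟩ := exists_fibre hmonic hirr'
  -- the new linear forms
  set L' : Fin 4 → Poly N := ![C (p 0)⁻¹ * L 0, L 1 - C (p 1) * C (p 0)⁻¹ * L 0,
    L 2 - C (p 2) * C (p 0)⁻¹ * L 0, L 3] with hL'
  have hsub : ∀ G, sub4 L' G = sub4 L (tri4 p G) := by
    intro G
    have h1 : sub4 L' = (sub4 L).comp (tri4 p) := by
      apply MvPolynomial.algHom_ext
      intro i
      fin_cases i <;> simp [sub4, tri4, hL']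
    rw [h1]
    rfl
  have hsub' : ∀ G, sub4 L' (tr4 p G) = sub4 L G := by
    intro G
    rw [hsub, tri4_tr4 hp0]
  have hL1 : ∀ (b : ℂ) (i : Fin 4), (C b * L i).IsHomogeneous 1 := by
    intro b i
    have := (isHomogeneous_C (Fin (N + 1)) b).mul (h.hL i)
    rwa [zero_add] at this
  have hL2 : ∀ (b b' : ℂ) (i j : Fin 4), (L i - C b * C b' * L j).IsHomogeneous 1 := by
    intro b b' i j
    rw [← C_mul]
    exact (h.hL i).sub (hL1 _ j)
  let e4 : Poly 3 ≃ₐ[ℂ] Poly 3 := AlgEquiv.ofAlgHom (tr4 p) (tri4 p)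
    (AlgHom.ext fun G => tr4_tri4 hp0 G) (AlgHom.ext fun G => tri4_tr4 hp0 G)
  refine ⟨tr4 p F, L', tr3 p s, ⟨h.hd, tr4_homogeneous p h.hF, ?_, ?_, ?_,
    tr3_homogeneous p h.hs, tr3_ne_zero hp0 h.hs0, ?_, ?_⟩, ?_, c ∘ Fin.cast hnd'.symm,
    hc.comp (Fin.cast_injective _), ?_⟩
  · have h1 := eval_last (tr4_homogeneous p h.hF) 1
    rw [eval_tr4, one_pow, mul_one] at h1
    rw [← h1]
    have h2 : (![0 * p 0, 0 * p 1, 0 * p 2, 1] : Fin 4 → ℂ) = ![0, 0, 0, 1] := by
      simp
    rw [h2, eval_last h.hF, h.hcoeff, one_pow, mul_one]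
  · intro i
    fin_cases i
    · exact hL1 _ 0
    · exact hL2 _ _ 1 0
    · exact hL2 _ _ 2 0
    · exact h.hL 3
  · intro G
    rw [hsub, h.hker]
    constructor
    · intro h1
      have h2 := map_dvd (tr4 p) h1
      rwa [tr4_tri4 hp0] at h2
    · intro h1
      have h2 := map_dvd (tri4 p) h1
      rwa [tri4_tr4 hp0] at h2
  · intro H
    obtain ⟨G, hG⟩ := h.cond H
    refine ⟨tr4 p G, ?_⟩
    rw [← tr4_inc, hsub', hsub']
    exact hG
  · have h1 : (phi I L').toRingHom = (phi I L).toRingHom.comp (tri4 p).toRingHom := by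
      apply RingHom.ext
      intro G
      change phi I L' G = phi I L (tri4 p G)
      rw [phi_apply, phi_apply, hsub]
    rw [h1]
    apply RingHom.Finite.comp h.fin
    apply RingHom.Finite.of_surjective
    intro G
    exact ⟨tr4 p G, tri4_tr4 hp0 G⟩
  · exact (MulEquiv.irreducible_iff e4).2 hirr
  · intro a t
    rw [eval_tr4]
    by_cases ha : a = 0
    · subst ha
      have h2 : (![0 * p 0, 0 * p 1, 0 * p 2, t] : Fin 4 → ℂ) = ![0, 0, 0, t] := by
        simp
      rw [h2, eval_last h.hF, h.hcoeff, one_mul]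
      simp
    · have h2 : (![a * p 0, a * p 1, a * p 2, t] : Fin 4 → ℂ) =
          fun i => a * (Fin.snoc p (t / a) : Fin 4 → ℂ) i := by
        funext i
        fin_cases i
        · rfl
        · rfl
        · rfl
        · change t = a * (t / a)
          field_simp
      rw [h2, hom_eval h.hF, eval_snoc_eqv, hfib, Polynomial.eval_prod]
      simp only [Polynomial.eval_sub, Polynomial.eval_X, Polynomial.eval_C]
      have h3 : ∏ j : Fin (eqv F).natDegree, (t / a - c j) =
          ∏ j : Fin d, (t / a - (c ∘ Fin.cast hnd'.symm) j) :=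
        Fintype.prod_equiv (finCongr hnd') _ _ fun j => rfl
      rw [h3]
      have h4 : a ^ d = ∏ _j : Fin d, a := by simp
      rw [h4, ← Finset.prod_mul_distrib]
      refine Finset.prod_congr rfl fun j _ => ?_
      field_simp

end Pool.Agent.Lib.MP_ed661f_ag.W
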