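import Pool.Agent.Lib.MP_ed661f_ag.S.Prim
import Pool.Agent.Lib.MP_ed661f_ag.S.Lift

/-!
Reduction of plane polynomials with respect to a place: multiplicities do not drop; collision of
points, also at infinity.
-/

set_option autoImplicit false

open MvPolynomial

namespace Pool.Agent.Lib.MP_ed661f_ag.W

open S E R

/-! ### substitutions -/

/-- multiplication of the variables by constants -/
noncomputable def scale (t : Fin 2 → ℂ) : Pol →ₐ[ℂ] Pol := aeval fun i => C (t i) * X i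

theorem coeff_scale (t : Fin 2 → ℂ) (g : Pol) (e : Fin 2 →₀ ℕ) :
    coeff e (scale t g) = t 0 ^ e 0 * t 1 ^ e 1 * coeff e g := by
  classical
  induction g using MvPolynomial.induction_on' with
  | monomial u a =>
    have h1 : scale t (monomial u a) = monomial u (t 0 ^ u 0 * t 1 ^ u 1 * a) := by
      rw [scale, aeval_monomial, Finsupp.prod_fintype _ _ (fun i => pow_zero _), Fin.prod_univ_two]
      have h2 : (monomial u (t 0 ^ u 0 * t 1 ^ u 1 * a) : Pol) =
          C (t 0 ^ u 0 * t 1 ^ u 1 * a) * monomial u 1 := by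
        rw [C_mul_monomial, mul_one]
      have h3 : (monomial u 1 : Pol) = X 0 ^ u 0 * X 1 ^ u 1 := by
        rw [monomial_eq, C_1, one_mul, Finsupp.prod_fintype _ _ (fun i => pow_zero _),
          Fin.prod_univ_two]
      rw [h2, h3, algebraMap_eq]
      simp only [C_mul, C_pow]
      ring
    rw [h1, coeff_monomial, coeff_monomial]
    split_ifs with h
    · rw [h]
    · rw [mul_zero]
  | add f g hf hg => rw [map_add, coeff_add, coeff_add, hf, hg]; ring

/-- the substitution `Z ↦ z₀ + t Z` -/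
noncomputable def sub (z₀ : Pt) (t : Fin 2 → ℂ) : Pol →ₐ[ℂ] Pol :=
  aeval fun i => C (z₀ i) + C (t i) * X i

theorem sub_eq (z₀ : Pt) (t : Fin 2 → ℂ) (g : Pol) : sub z₀ t g = scale t (tay z₀ g) := by
  have h : (scale t).comp (aeval (fun i => X i + C (z₀ i)) : Pol →ₐ[ℂ] Pol) = sub z₀ t := by
    apply MvPolynomial.algHom_ext
    intro i
    simp [scale, sub, add_comm]
  exact (congrArg (fun φ => φ g) h).symm

theorem coeff_sub (z₀ : Pt) (t : Fin 2 → ℂ) (g : Pol) (e : Fin 2 →₀ ℕ) :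
    coeff e (sub z₀ t g) = t 0 ^ e 0 * t 1 ^ e 1 * coeff e (tay z₀ g) := by
  rw [sub_eq, coeff_scale]

theorem tay_sub' (z₀ : Pt) (t : Fin 2 → ℂ) (ζ : Pt) (g : Pol) :
    tay ζ (sub z₀ t g) = scale t (tay (fun i => z₀ i + t i * ζ i) g) := by
  have h : (aeval (fun i => X i + C (ζ i)) : Pol →ₐ[ℂ] Pol).comp (sub z₀ t) =
      (scale t).comp (aeval (fun i => X i + C (z₀ i + t i * ζ i)) : Pol →ₐ[ℂ] Pol) := by
    apply MvPolynomial.algHom_ext
    intro i
    simp only [sub, scale, AlgHom.coe_comp, Function.comp_apply, aeval_X, map_add, map_mul,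
      algHom_C, algebraMap_eq]
    ring
  exact congrArg (fun φ => φ g) h

theorem tay_eq_zero {z : Pt} {g : Pol} (h : tay z g = 0) : g = 0 := by
  have h1 := Bz.tay_neg_tay (-z) g
  rw [neg_neg, h] at h1
  rw [← h1]
  simp [tay]

theorem sub_ne_zero {z₀ : Pt} {t : Fin 2 → ℂ} (ht : ∀ i, t i ≠ 0) {g : Pol} (hg : g ≠ 0) :
    sub z₀ t g ≠ 0 := by
  intro h
  apply hg
  apply tay_eq_zero (z := z₀)
  ext e
  have h1 := coeff_sub z₀ t g e
  rw [h, coeff_zero] at h1
  rw [coeff_zero]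
  rcases mul_eq_zero.1 h1.symm with h2 | h2
  · rcases mul_eq_zero.1 h2 with h3 | h3
    · exact absurd h3 (pow_ne_zero _ (ht 0))
    · exact absurd h3 (pow_ne_zero _ (ht 1))
  · exact h2

theorem mlt_sub {z₀ : Pt} {t : Fin 2 → ℂ} (ht : ∀ i, t i ≠ 0) {g : Pol} (hg : g ≠ 0) (ζ : Pt) :
    mlt ζ (sub z₀ t g) = mlt (fun i => z₀ i + t i * ζ i) g := by
  have key : ∀ m, m ≤ mlt ζ (sub z₀ t g) ↔ m ≤ mlt (fun i => z₀ i + t i * ζ i) g := by
    intro m
    rw [le_mlt_iff (sub_ne_zero ht hg), le_mlt_iff hg]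
    refine forall_congr' fun e => imp_congr_right fun _ => ?_
    rw [tay_sub', coeff_scale]
    constructor
    · intro h1
      rcases mul_eq_zero.1 h1 with h2 | h2
      · rcases mul_eq_zero.1 h2 with h3 | h3
        · exact absurd h3 (pow_ne_zero _ (ht 0))
        · exact absurd h3 (pow_ne_zero _ (ht 1))
      · exact h2
    · intro h1
      rw [h1, mul_zero]
  exact le_antisymm ((key _).1 le_rfl) ((key _).2 le_rfl)

/-! ### reduction -/

variable (p : Place)

/-- `G` is a primitive multiple of `g` -/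
structure Prm (g : Pol) (c : ℂ) (G : MvPolynomial (Fin 2) p.B) : Prop where
  c0 : c ≠ 0
  eq : map p.B.subtype G = C c * g
  ne : map p.ρ G ≠ 0

theorem exists_prm {g : Pol} (hg : g ≠ 0) : ∃ c G, Prm p g c G := by
  obtain ⟨c, G, h1, h2, h3⟩ := exists_prim (N := 1) p hg
  exact ⟨c, G, h1, h2, h3⟩

variable {p}

theorem Prm.coeff_eq {g : Pol} {c : ℂ} {G : MvPolynomial (Fin 2) p.B} (h : Prm p g c G)
    (e : Fin 2 →₀ ℕ) : ((G.coeff e : p.B) : ℂ) = c * coeff e g := by
  have := congrArg (coeff e) h.eq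
  rw [coeff_map, coeff_C_mul] at this
  exact this

theorem Prm.coeff_zero {g : Pol} {c : ℂ} {G : MvPolynomial (Fin 2) p.B} (h : Prm p g c G)
    {e : Fin 2 →₀ ℕ} (he : coeff e g = 0) : coeff e (map p.ρ G) = 0 := by
  have h1 := h.coeff_eq e
  rw [he, mul_zero] at h1
  have h2 : G.coeff e = 0 := Subtype.ext h1
  rw [coeff_map, h2, map_zero]

theorem Prm.support {g : Pol} {c : ℂ} {G : MvPolynomial (Fin 2) p.B} (h : Prm p g c G) :
    (map p.ρ G).support ⊆ g.support := by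
  intro e he
  rw [mem_support_iff] at he ⊢
  exact fun h1 => he (h.coeff_zero h1)

theorem Prm.totalDegree_le {g : Pol} {c : ℂ} {G : MvPolynomial (Fin 2) p.B} (h : Prm p g c G) :
    (map p.ρ G).totalDegree ≤ g.totalDegree :=
  Finset.sup_mono h.support

theorem Prm.degreeOf_le {g : Pol} {c : ℂ} {G : MvPolynomial (Fin 2) p.B} (h : Prm p g c G)
    (i : Fin 2) : (map p.ρ G).degreeOf i ≤ g.degreeOf i := by
  rw [degreeOf_le_iff]
  intro e he
  exact monomial_le_degreeOf i (h.support he)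

theorem Prm.ne_zero {g : Pol} {c : ℂ} {G : MvPolynomial (Fin 2) p.B} (h : Prm p g c G) :
    g ≠ 0 := by
  rintro rfl
  apply h.ne
  have : G = 0 := by
    ext e
    have := h.coeff_eq e
    rw [MvPolynomial.coeff_zero, mul_zero] at this
    rw [this]
    rfl
  rw [this, map_zero]

theorem Prm.coeff_tay {g : Pol} {c : ℂ} {G : MvPolynomial (Fin 2) p.B} (h : Prm p g c G)
    (ζ : Fin 2 → p.B) (e : Fin 2 →₀ ℕ) :
    (((tayR ζ G).coeff e : p.B) : ℂ) = c * coeff e (tay (fun i => (ζ i : ℂ)) g) := by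
  have h1 := map_tayR p.B.subtype ζ G
  rw [h.eq, tayR_eq] at h1
  have h2 := congrArg (coeff e) h1
  rw [coeff_map] at h2
  have h3 : tay (fun i => p.B.subtype (ζ i)) (C c * g) =
      C c * tay (fun i => (ζ i : ℂ)) g := by
    rw [Bz.tay_mul]
    congr 1
    simp [tay]
  rw [h3, coeff_C_mul] at h2
  exact h2

/-- multiplicities do not drop -/
theorem Prm.mlt_le {g : Pol} {c : ℂ} {G : MvPolynomial (Fin 2) p.B} (h : Prm p g c G)
    (ζ : Fin 2 → p.B) : mlt (fun i => (ζ i : ℂ)) g ≤ mlt (fun i => p.ρ (ζ i)) (map p.ρ G) := by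
  rw [le_mlt_iff h.ne]
  intro e he
  have h1 := h.coeff_tay ζ e
  rw [(le_mlt_iff h.ne_zero _).1 le_rfl e he, mul_zero] at h1
  have h2 : (tayR ζ G).coeff e = 0 := Subtype.ext h1
  have h3 := congrArg (coeff e) (map_tayR p.ρ ζ G)
  rw [coeff_map, h2, map_zero, tayR_eq] at h3
  exact h3.symm

/-- a Taylor coefficient of degree `mlt` of the reduction which is not zero -/
theorem exists_coeff_ne {g : Pol} (hg : g ≠ 0) (z : Pt) :
    ∃ e : Fin 2 →₀ ℕ, e.degree = mlt z g ∧ coeff e (tay z g) ≠ 0 := by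
  by_contra hcon
  push Not at hcon
  have h1 : mlt z g + 1 ≤ mlt z g := by
    rw [le_mlt_iff hg]
    intro e he
    rcases Nat.lt_succ_iff_lt_or_eq.1 he with h | h
    · exact (le_mlt_iff hg _).1 le_rfl e h
    · exact hcon e h
  omega

/-- **collision**: the points `z₀ + τ ζ` -/
theorem collide {τ : ℂ} (hτ : τ ∈ p.B) (hτ0 : p.ρ ⟨τ, hτ⟩ = 0) (hτ1 : τ ≠ 0) {g : Pol} {c : ℂ}
    {G : MvPolynomial (Fin 2) p.B} (h : Prm p g c G) (z₀ : Fin 2 → p.B) :
    ∃ Q : Pol, Q ≠ 0 ∧ Q.totalDegree ≤ mlt (fun i => p.ρ (z₀ i)) (map p.ρ G) ∧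
      ∀ ζ : Fin 2 → p.B, mlt (fun i => (z₀ i : ℂ) + τ * (ζ i : ℂ)) g ≤
        mlt (fun i => p.ρ (ζ i)) Q := by
  have hg := h.ne_zero
  set q : Pol := sub (fun i => (z₀ i : ℂ)) (fun _ => τ) g with hq
  have hq0 : q ≠ 0 := sub_ne_zero (fun _ => hτ1) hg
  obtain ⟨c', Q, hQ⟩ := exists_prm p hq0
  refine ⟨map p.ρ Q, hQ.ne, ?_, fun ζ => ?_⟩
  · obtain ⟨e₀, he₀, hne⟩ := exists_coeff_ne h.ne (fun i => p.ρ (z₀ i))
    set M := mlt (fun i => p.ρ (z₀ i)) (map p.ρ G) with hM
    -- the coefficients of `G` and `Q`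
    have hA : ∀ e, ((Q.coeff e : p.B) : ℂ) = c' / c * τ ^ e.degree * ((tayR z₀ G).coeff e : p.B) := by
      intro e
      rw [hQ.coeff_eq, hq, coeff_sub, h.coeff_tay z₀ e, Bz.degree_two', pow_add]
      field_simp [h.c0]
    have hu : p.ρ ((tayR z₀ G).coeff e₀) ≠ 0 := by
      intro h0
      apply hne
      have h3 := congrArg (coeff e₀) (map_tayR p.ρ z₀ G)
      rw [coeff_map, h0, tayR_eq] at h3
      exact h3.symm
    have hinv := p.inv_mem hu
    have hu0 : (((tayR z₀ G).coeff e₀ : p.B) : ℂ) ≠ 0 := by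
      intro h0
      apply hu
      have : (tayR z₀ G).coeff e₀ = 0 := Subtype.ext h0
      rw [this, map_zero]
    refine Finset.sup_le fun e he => ?_
    by_contra hcon
    push Not at hcon
    rw [mem_support_iff] at he
    apply he
    have hlt : M < e.degree := by
      rw [Bz.degree_two', ← Bz.degree_two]
      exact hcon
    -- the coefficient is divisible by `τ`
    have h1 : Q.coeff e = Q.coeff e₀ * ⟨_, hinv⟩ * ⟨τ, hτ⟩ ^ (e.degree - M) *
        (tayR z₀ G).coeff e := by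
      apply Subtype.ext
      have h2 : ((Q.coeff e₀ * ⟨_, hinv⟩ * ⟨τ, hτ⟩ ^ (e.degree - M) *
          (tayR z₀ G).coeff e : p.B) : ℂ) = (Q.coeff e₀ : p.B) *
          (((tayR z₀ G).coeff e₀ : p.B) : ℂ)⁻¹ * τ ^ (e.degree - M) *
          ((tayR z₀ G).coeff e : p.B) := by
        push_cast
        rfl
      rw [h2, hA e, hA e₀, he₀]
      have h3 : τ ^ e.degree = τ ^ M * τ ^ (e.degree - M) := by
        rw [← pow_add]
        congr 1
        omega
      rw [h3]
      field_simp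
    have h2 : e.degree - M ≠ 0 := by omega
    rw [coeff_map, h1, map_mul, map_mul, map_pow, hτ0, zero_pow h2, mul_zero, zero_mul]
  · have h1 := hQ.mlt_le ζ
    rw [hq, mlt_sub (fun _ => hτ1) hg] at h1
    exact h1

end Pool.Agent.Lib.MP_ed661f_ag.W
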