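import Pool.Agent.Lib.MP_ed661f_ag.W.PE

/-!
Curves through `2 h + 1` points of the curve `v = u ^ (h + 1)`, and the step from `h` to `h + 1`.
-/

set_option autoImplicit false

open MvPolynomial

namespace Pool.Agent.Lib.MP_ed661f_ag.W

open S E R

/-- the equation of the curve `v = u ^ (h + 1)` -/
noncomputable def Phi (h : ℕ) : Pol := X 1 - X 0 ^ (h + 1)

/-- the points of the curve `v = u ^ (h + 1)` -/
noncomputable def xPt (h : ℕ) (i : Fin (2 * h + 1)) : Pt := ![((i : ℕ) : ℂ), ((i : ℕ) : ℂ) ^ (h + 1)]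

theorem coeff_X_pow_eq_zero {k : ℕ} (e : Fin 2 →₀ ℕ) (he : e 1 ≠ 0) :
    coeff e ((X 0 : Pol) ^ k) = 0 := by
  rw [X_pow_eq_monomial, coeff_monomial, if_neg]
  rintro rfl
  apply he
  rw [Finsupp.single_apply, if_neg]
  decide

theorem Phi_ne_zero (h : ℕ) : Phi h ≠ 0 := by
  intro h0
  have h1 := congrArg (coeff (Finsupp.single 1 1)) h0
  rw [Phi, MvPolynomial.coeff_sub, coeff_X, if_pos rfl, coeff_X_pow_eq_zero _ (by simp), coeff_zero] at h1
  simp at h1

theorem totalDegree_Phi (h : ℕ) : (Phi h).totalDegree = h + 1 := by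
  apply le_antisymm
  · refine (totalDegree_sub _ _).trans ?_
    rw [totalDegree_X, totalDegree_X_pow]
    exact max_le (by omega) le_rfl
  · have h1 : coeff (Finsupp.single 0 (h + 1)) (Phi h) ≠ 0 := by
      rw [Phi, MvPolynomial.coeff_sub, X_pow_eq_monomial, coeff_monomial, if_pos rfl, coeff_X, if_neg]
      · simp
      · intro h2
        have := DFunLike.congr_fun h2 1
        simp at this
    have h2 := le_totalDegree (mem_support_iff.2 h1)
    rwa [Finsupp.sum_single_index rfl] at h2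

theorem degreeOf_Phi (h : ℕ) : (Phi h).degreeOf 1 = 1 := by
  apply le_antisymm
  · refine (degreeOf_sub_le _ _ _).trans (max_le ?_ ?_)
    · rw [degreeOf_X_self]
    · refine (degreeOf_pow_le _ _ _).trans ?_
      rw [degreeOf_X_of_ne (by decide)]
      simp
  · have h1 : coeff (Finsupp.single 1 1) (Phi h) ≠ 0 := by
      rw [Phi, MvPolynomial.coeff_sub, coeff_X, if_pos rfl, coeff_X_pow_eq_zero _ (by simp)]
      simp
    have h2 := monomial_le_degreeOf 1 (mem_support_iff.2 h1)
    rwa [Finsupp.single_eq_same] at h2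

theorem mlt_Phi_le (h : ℕ) (z : Pt) : mlt z (Phi h) ≤ 1 := by
  by_contra h1
  push Not at h1
  have h2 := (le_mlt_iff (p := z) (Phi_ne_zero h) 2).1 h1 (Finsupp.single 1 1) (by simp)
  have h3 : tay z (Phi h) = X 1 + C (z 1) - (X 0 + C (z 0)) ^ (h + 1) := by
    simp [tay, Phi]
  have h4 : ∀ k, coeff (Finsupp.single 1 1) ((X 0 + C (z 0) : Pol) ^ k) = 0 := by
    intro k
    rw [add_pow, coeff_sum]
    refine Finset.sum_eq_zero fun j _ => ?_
    have h5 : (X 0 ^ j * C (z 0) ^ (k - j) * ((k.choose j : ℕ) : Pol)) =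
        C (z 0 ^ (k - j) * (k.choose j : ℕ)) * X 0 ^ j := by
      rw [C_mul, C_pow]
      have h6 : (C ((k.choose j : ℕ) : ℂ) : Pol) = ((k.choose j : ℕ) : Pol) := by simp
      rw [h6]
      ring
    rw [h5, coeff_C_mul, coeff_X_pow_eq_zero _ (by simp), mul_zero]
  rw [h3, MvPolynomial.coeff_sub, h4, coeff_add, coeff_X, if_pos rfl, coeff_C, if_neg] at h2
  · simp at h2
  · intro h5
    have := DFunLike.congr_fun h5 1
    simp at this

/-- the restriction to the curve -/
noncomputable def res (h : ℕ) (g : Pol) : Polynomial ℂ :=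
  aeval (![Polynomial.X, Polynomial.X ^ (h + 1)] : Fin 2 → Polynomial ℂ) g

theorem dvd_of_res {h : ℕ} {g : Pol} (h0 : res h g = 0) : Phi h ∣ g := by
  have h1 : (Ideal.Quotient.mkₐ ℂ (Ideal.span {Phi h})) =
      ((Ideal.Quotient.mkₐ ℂ (Ideal.span {Phi h})).comp (Polynomial.aeval (X 0 : Pol))).comp
        (aeval (![Polynomial.X, Polynomial.X ^ (h + 1)] : Fin 2 → Polynomial ℂ)) := by
    apply MvPolynomial.algHom_ext
    intro i
    fin_cases i
    · simp
    · simp only [Fin.mk_one, Fin.isValue, AlgHom.coe_comp, Function.comp_apply, aeval_X,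
        Matrix.cons_val_one, Matrix.cons_val_fin_one, Ideal.Quotient.mkₐ_eq_mk, map_pow,
        Polynomial.aeval_X]
      rw [← map_pow, ← sub_eq_zero, ← map_sub, Ideal.Quotient.eq_zero_iff_mem]
      exact Ideal.mem_span_singleton_self _
  have h2 := congrArg (fun φ => φ g) h1
  change Ideal.Quotient.mk (Ideal.span {Phi h}) g = Ideal.Quotient.mk (Ideal.span {Phi h})
    (Polynomial.aeval (X 0 : Pol) (res h g)) at h2
  rw [h0, map_zero, map_zero, Ideal.Quotient.eq_zero_iff_mem, Ideal.mem_span_singleton] at h2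
  exact h2

theorem natDegree_res (h : ℕ) (g : Pol) :
    (res h g).natDegree ≤ g.totalDegree + h * g.degreeOf 1 := by
  rw [res, aeval_def, eval₂_eq']
  refine Polynomial.natDegree_sum_le_of_forall_le _ _ fun e he => ?_
  rw [Fin.prod_univ_two]
  simp only [Fin.isValue, Matrix.cons_val_zero, Matrix.cons_val_one, Matrix.cons_val_fin_one,
    Polynomial.algebraMap_eq]
  refine (Polynomial.natDegree_C_mul_le _ _).trans ?_
  rw [← pow_mul, ← pow_add, Polynomial.natDegree_X_pow]
  have h1 := le_totalDegree he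
  rw [Finsupp.sum_fintype _ _ (fun _ => rfl), Fin.sum_univ_two] at h1
  have h2 := monomial_le_degreeOf 1 he
  have h3 : h * e 1 ≤ h * g.degreeOf 1 := Nat.mul_le_mul_left h h2
  nlinarith

theorem sum_res_le {h : ℕ} {g : Pol} (hg : g ≠ 0) (hd : ¬ Phi h ∣ g) :
    ∑ i, mlt (xPt h i) g ≤ g.totalDegree + h * g.degreeOf 1 := by
  have h0 : res h g ≠ 0 := fun h1 => hd (dvd_of_res h1)
  refine le_trans ?_ (natDegree_res h g)
  have h1 : ∏ i : Fin (2 * h + 1), (Polynomial.X - Polynomial.C ((i : ℕ) : ℂ)) ^ mlt (xPt h i) g ∣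
      res h g := by
    refine Finset.prod_dvd_of_coprime ?_ fun i _ => ?_
    · intro i _ j _ hij
      refine (Polynomial.pairwise_coprime_X_sub_C (s := fun i : Fin (2 * h + 1) => ((i : ℕ) : ℂ))
        ?_ hij).pow
      intro a b hab
      exact Fin.ext (Nat.cast_injective hab)
    · have := X_sub_C_pow_dvd_of_mlt hg Polynomial.X (Polynomial.X ^ (h + 1)) ((i : ℕ) : ℂ)
      rw [Polynomial.eval_X, Polynomial.eval_pow, Polynomial.eval_X] at this
      exact this
  have h2 := Polynomial.natDegree_le_of_dvd h1 h0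
  rw [Polynomial.natDegree_prod_of_monic _ _ fun a _ => (Polynomial.monic_X_sub_C _).pow _] at h2
  simp only [Polynomial.natDegree_pow, Polynomial.natDegree_X_sub_C, mul_one] at h2
  exact h2

/-- **curves through `2 h + 1` points of the curve `v = u ^ (h + 1)`** -/
theorem sum_xPt_le (h : ℕ) : ∀ (n : ℕ) {g : Pol}, g ≠ 0 → g.totalDegree = n →
    ∑ i, mlt (xPt h i) g ≤ g.totalDegree + h * g.degreeOf 1 := by
  intro n
  induction n using Nat.strong_induction_on with
  | _ n ih =>
    intro g hg hn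
    by_cases hd : Phi h ∣ g
    · obtain ⟨g', rfl⟩ := hd
      have hl := Phi_ne_zero h
      have hg' : g' ≠ 0 := right_ne_zero_of_mul hg
      have hdeg : (Phi h * g').totalDegree = h + 1 + g'.totalDegree := by
        rw [totalDegree_mul_of_isDomain hl hg', totalDegree_Phi]
      have hdeg1 : (Phi h * g').degreeOf 1 = 1 + g'.degreeOf 1 := by
        rw [degreeOf_mul_eq hl hg', degreeOf_Phi]
      have h1 := ih g'.totalDegree (by omega) hg' rfl
      rw [hdeg, hdeg1]
      calc ∑ i, mlt (xPt h i) (Phi h * g')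
          = ∑ i, mlt (xPt h i) (Phi h) + ∑ i, mlt (xPt h i) g' := by
            rw [← Finset.sum_add_distrib]
            exact Finset.sum_congr rfl fun i _ => mlt_mul hl hg'
        _ ≤ (2 * h + 1) + (g'.totalDegree + h * g'.degreeOf 1) := by
            refine add_le_add ?_ h1
            refine (Finset.sum_le_sum fun i _ => mlt_Phi_le h (xPt h i)).trans ?_
            simp
        _ = h + 1 + g'.totalDegree + h * (1 + g'.degreeOf 1) := by ring
    · exact sum_res_le hg hd

/-- **the step** from `h` to `h + 1` -/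
theorem PE.step {κ : Type} [Fintype κ] {h : ℕ} {W : κ → ℝ} (hW0 : ∀ i, 0 ≤ W i)
    (hW : PE h W) : PE (ι := κ ⊕ Fin (2 * h + 1)) ((h + 1 : ℕ) : ℝ) (Sum.elim W fun _ => 1) := by
  have h1 : PE (ι := Empty) 0 (fun x : Empty => x.elim) :=
    ⟨fun x => x.elim, fun g _ => by simp⟩
  have h2 := PE.inf (a := 0) (b := h) (c := 1) le_rfl (Nat.cast_nonneg h) zero_le_one
    (W := fun _ : Fin (2 * h + 1) => 1) (fun _ => zero_le_one) (z := xPt h) (by
      intro g hg
      have := sum_xPt_le h _ hg rfl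
      simp only [one_mul, zero_mul, add_zero]
      exact_mod_cast this) (W₀ := fun x : Empty => x.elim) (fun x => x.elim) h1 hW0 hW
  have h3 := h2.reindex (Equiv.emptySum Empty (κ ⊕ Fin (2 * h + 1))).symm
  have h4 : (Sum.elim (fun x : Empty => (x.elim : ℝ)) (Sum.elim W fun _ : Fin (2 * h + 1) => 1)) ∘
      (Equiv.emptySum Empty (κ ⊕ Fin (2 * h + 1))).symm = Sum.elim W fun _ => 1 := by
    funext x
    simp
  rw [h4] at h3
  convert h3 using 1
  push_cast
  ring

end Pool.Agent.Lib.MP_ed661f_ag.W
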