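import Pool.Agent.Lib.MP_ed661f_ag.W.Lat2
import Pool.Agent.Lib.MP_ed661f_ag.W.Exch
import Pool.Agent.Lib.MP_ed661f_ag.W.MainW
import Pool.Agent.Lib.MP_ed661f_ag.W.DefsL

/-!
The theorem for all surfaces.
-/

set_option autoImplicit false

open MvPolynomial
open scoped ENNReal

namespace Pool.Agent.Lib.MP_ed661f_ag.W

open H T

variable {N : ℕ} {I : Ideal (Poly N)}

/-- positivity for nef classes -/
theorem interW_nonneg {d q : ℕ} {F : Poly 3} {L : Fin 4 → Poly N} {s : D3}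
    (h : Proj4 I d q F L s) (hI : IsSurface I) {K : Subfield ℂ} [Countable K]
    (hFK : ∀ e, coeff e F ∈ K) (hsK : ∀ e, coeff e s ∈ K) {H r : ℕ} {m : Fin r → ℕ}
    (hnice : Nice d H m) (hL : ∑ i, m i ^ 2 < H ^ 2 * d) (hm : ∀ i, 1 ≤ m i)
    {x : Fin r → Fin (N + 1) → ℂ} (hx : Aff K I L x) {P : Ideal (Poly N)} (hP : IsCurveOn I P) :
    0 ≤ interW H m x P := by
  obtain ⟨y, hy⟩ := hx.exists_extend h
  have hL' : (0 : ℝ) < (H : ℝ) ^ 2 * d - ∑ i, (m i : ℝ) ^ 2 := by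
    rw [sub_pos]
    exact_mod_cast hL
  have ht : 0 < Real.sqrt ((H : ℝ) ^ 2 * d - ∑ i, (m i : ℝ) ^ 2) := Real.sqrt_pos.2 hL'
  have h1 := (real_ineqW h hI hFK hsK hnice hL (n := 1) ht (by
    rw [Real.sq_sqrt hL'.le]
    push_cast
    ring) hm hy hP).2.2
  unfold interW
  have h2 : 0 ≤ ∑ j : Fin 1, (mult P y).toReal :=
    Finset.sum_nonneg fun _ _ => ENNReal.toReal_nonneg
  have h3 := mul_nonneg ht.le h2
  linarith

/-- the integral class of natural numbers -/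
theorem cast_toNat {t : ℤ} (ht : 0 ≤ t) : ((t.toNat : ℕ) : ℝ) = (t : ℝ) := by
  have h1 : ((t.toNat : ℕ) : ℤ) = t := Int.toNat_of_nonneg ht
  exact_mod_cast h1

theorem interL_eq {r : ℕ} {L : Fin (r + 1) → ℤ} (h0 : 0 ≤ L 0) (hi : ∀ i : Fin r, 0 ≤ L i.succ)
    (x : Fin r → Fin (N + 1) → ℂ) (P : Ideal (Poly N)) :
    interL L x P = interW (L 0).toNat (fun i => (L i.succ).toNat) x P := by
  unfold interL interW
  rw [cast_toNat h0]
  congr 1
  refine Finset.sum_congr rfl fun i _ => ?_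
  rw [cast_toNat (hi i)]

theorem selfL_eq {r : ℕ} {L : Fin (r + 1) → ℤ} (h0 : 0 ≤ L 0) (hi : ∀ i : Fin r, 0 ≤ L i.succ) :
    selfL I L = selfW I (L 0).toNat (fun i => (L i.succ).toNat) := by
  unfold selfL selfW
  rw [cast_toNat h0]
  congr 1
  refine Finset.sum_congr rfl fun i _ => ?_
  rw [cast_toNat (hi i)]

theorem seshadriL_eq {r n : ℕ} {L : Fin (r + 1) → ℤ} (h0 : 0 ≤ L 0)
    (hi : ∀ i : Fin r, 0 ≤ L i.succ) (x : Fin r → Fin (N + 1) → ℂ)
    (y : Fin n → Fin (N + 1) → ℂ) :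
    seshadriL I L x y = seshadriW I (L 0).toNat (fun i => (L i.succ).toNat) x y := by
  unfold seshadriL seshadriW
  simp only [interL_eq h0 hi]

theorem selfL_eq_qf {d : ℕ} (hd : surfDeg I = d) {r : ℕ} (L : Fin (r + 1) → ℤ) :
    selfL I L = ((qf d L : ℤ) : ℝ) := by
  unfold selfL qf
  rw [hd, ENNReal.toReal_natCast]
  push_cast
  ring

theorem interL_sub {r : ℕ} (j : ℤ) (L L' : Fin (r + 1) → ℤ) (x : Fin r → Fin (N + 1) → ℂ)
    (P : Ideal (Poly N)) : interL (j • L - L') x P = j * interL L x P - interL L' x P := by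
  have h : ∀ i : Fin r, (((j • L - L') i.succ : ℤ) : ℝ) * (mult P (x i)).toReal =
      j * ((L i.succ : ℝ) * (mult P (x i)).toReal) - (L' i.succ : ℝ) * (mult P (x i)).toReal := by
    intro i
    simp only [Pi.sub_apply, Pi.smul_apply, smul_eq_mul]
    push_cast
    ring
  unfold interL
  simp only [h, Finset.sum_sub_distrib, ← Finset.mul_sum]
  simp only [Pi.sub_apply, Pi.smul_apply, smul_eq_mul]
  push_cast
  ring

/-- the sum of squares, in natural numbers -/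
theorem toNat_sq {d r : ℕ} {L : Fin (r + 1) → ℤ} (h0 : 0 < L 0) (hi : ∀ i : Fin r, 0 < L i.succ)
    (hq : 0 < qf d L) :
    ∑ i : Fin r, (L i.succ).toNat ^ 2 < (L 0).toNat ^ 2 * d := by
  have h1 : ((∑ i : Fin r, (L i.succ).toNat ^ 2 : ℕ) : ℤ) < (((L 0).toNat ^ 2 * d : ℕ) : ℤ) := by
    have h2 : ∀ i : Fin r, (((L i.succ).toNat ^ 2 : ℕ) : ℤ) = L i.succ ^ 2 := fun i => by
      rw [Nat.cast_pow, Int.toNat_of_nonneg (hi i).le]
    rw [Nat.cast_sum, Nat.cast_mul, Nat.cast_pow, Int.toNat_of_nonneg h0.le]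
    simp only [h2]
    unfold qf at hq
    linarith
  exact_mod_cast h1

/-- **the theorem** -/
theorem thm (hI : IsSurface I) : ∃ d : ℕ, 1 ≤ d ∧ surfDeg I = d ∧
    ∃ K : Subfield ℂ, (K : Set ℂ).Countable ∧
    (∀ p : ℕ, ∃ v : Fin p → Fin (N + 1) → ℂ, Gen K I v) ∧
    ∀ r : ℕ, 4 * d + 12 ≤ r → ∃ T : (Fin 6 → ℤ) →+ (Fin (r + 1) → ℤ),
      Function.Injective T ∧ (∃ L ∈ Set.range T, 0 < L 0 ∧ 0 < selfL I L) ∧
      ∀ L ∈ Set.range T, 0 < L 0 → 0 < selfL I L →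
        (∀ i : Fin r, 0 < L i.succ) ∧ ∀ x : Fin r → Fin (N + 1) → ℂ, Gen K I x →
          (∀ P, IsCurveOn I P → 0 < interL L x P) ∧
          ∀ n : ℕ, 1 ≤ n → ∀ y : Fin n → Fin (N + 1) → ℂ, Gen K I (Sum.elim x y) →
            seshadriL I L x y = Real.sqrt (selfL I L / n) := by
  obtain ⟨d, q, F, L, s, h⟩ := exists_proj4 hI
  obtain ⟨K, hK, hKI, hFK, hsK, hLK⟩ := exists_field I F L s
  have hKc : Countable K := Set.countable_coe_iff.2 hK
  have hd := h.surfDeg_eq hI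
  have hd1 := h.hd
  refine ⟨d, hd1, hd, K, hK, fun p => exists_gen hI hKI, fun r hr' => ?_⟩
  obtain ⟨e, rfl⟩ : ∃ e, d = e + 1 := ⟨d - 1, by omega⟩
  obtain ⟨δ, hδ⟩ : ∃ δ, r = 11 + δ + e * 4 := ⟨r - 11 - e * 4, by omega⟩
  have h5 : 5 ≤ δ := by omega
  obtain ⟨k, W, hk, hW1, hWk, hW, hPE⟩ := exists_splitting h5
  have hcard : Fintype.card (JJ (δ + 1) e) = r := by
    simp only [JJ, Fintype.card_sum, Fintype.card_prod, Fintype.card_fin]
    omega
  obtain ⟨σ⟩ : Nonempty (Fin r ≃ JJ (δ + 1) e) :=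
    ⟨(Fintype.equivFinOfCardEq hcard).symm⟩
  -- the positive cone in terms of integers
  have hcone : ∀ {M : Fin (r + 1) → ℤ}, 0 < selfL I M → 0 < qf (e + 1) M := by
    intro M hM
    rw [selfL_eq_qf hd] at hM
    exact_mod_cast hM
  have hk' : (1 : ℤ) ≤ (k : ℤ) := by exact_mod_cast hk
  set Wz : Fin (δ + 1) → ℤ := fun l => (W l : ℤ) with hWz
  have hL0 : 0 < TT (k : ℤ) Wz e σ u0 0 := by
    rw [hWz, TT_u0_zero]
    omega
  have hq0 : qf (e + 1) (TT (k : ℤ) Wz e σ u0) = 360 * k ^ 2 := qf_u0 hW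
  have hq0' : 0 < qf (e + 1) (TT (k : ℤ) Wz e σ u0) := by
    rw [hq0]
    positivity
  -- nefness
  have hnef : ∀ M ∈ VV (k : ℤ) Wz e σ, 0 < M 0 → 0 < qf (e + 1) M →
      ∀ x : Fin r → Fin (N + 1) → ℂ, Gen K I x → ∀ P, IsCurveOn I P → 0 ≤ interL M x P := by
    rintro M ⟨u, rfl⟩ h0 hq x hx P hP
    have h1 := TT_pos hk hW hW1 h0 hq
    rw [interL_eq h0.le fun i => (h1 i).le]
    exact interW_nonneg h hI hFK hsK (nice_TT hk hW hW1 hPE h0 hq) (toNat_sq h0 h1 hq)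
      (fun i => by have := h1 i; omega) (hx.aff h hLK) hP
  -- positivity of the special class
  have hpos0 : ∀ x : Fin r → Fin (N + 1) → ℂ, Gen K I x → ∀ P, IsCurveOn I P →
      0 < interL (TT (k : ℤ) Wz e σ u0) x P := by
    intro x hx P hP
    have h1 := TT_pos hk hW hW1 hL0 hq0'
    rw [interL_eq hL0.le fun i => (h1 i).le]
    obtain ⟨y, hy⟩ := (hx.aff h hLK).exists_extend h
    have hy' : Aff K I L (fun o : Option (Fin r) => o.elim y x) := by
      have h2 := hy.comp (f := fun o : Option (Fin r) =>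
        o.elim (Sum.inr (0 : Fin 1) : Fin r ⊕ Fin 1) Sum.inl) (by
          rintro (_ | i) (_ | j) hij
          · rfl
          · simp at hij
          · simp at hij
          · simpa using hij)
      convert h2 using 1
      funext o
      rcases o with _ | i <;> rfl
    have hkR : (0 : ℝ) < k := by exact_mod_cast hk
    have hWR : ∑ l, (W l : ℝ) ^ 2 = (k : ℝ) ^ 2 := by exact_mod_cast hW
    have hWkR : ∀ l, (W l : ℝ) ≤ (k : ℝ) := fun l => by exact_mod_cast hWk l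
    have ht2 : (Real.sqrt (360 * (k : ℝ) ^ 2)) ^ 2 = 360 * (k : ℝ) ^ 2 :=
      Real.sq_sqrt (by positivity)
    have hcast : ∀ i : Fin r, (((TT (k : ℤ) Wz e σ u0 i.succ).toNat : ℕ) : ℝ) =
        mV (k : ℝ) (fun l => (W l : ℝ)) e 15 15 (fun _ => 6) (σ i) := by
      intro i
      rw [cast_toNat (h1 i).le, TT_u0_succ]
    have hH : (((TT (k : ℤ) Wz e σ u0 0).toNat : ℕ) : ℝ) = 48 * (k : ℝ) := by
      rw [cast_toNat hL0.le, hWz, TT_u0_zero]
      push_cast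
      ring
    have h2 := pos2 (w := fun i : Fin r => mV (k : ℝ) (fun l => (W l : ℝ)) e 15 15 (fun _ => 6)
        (σ i)) (w' := fun i : Fin r => w0 (24 * (k : ℝ)) (δ + 1) e (σ i))
      (t := Real.sqrt (360 * (k : ℝ) ^ 2)) (T := 2 * (24 * (k : ℝ))) (H := 48 * (k : ℝ))
      (fun i => by
        rw [← hcast i, cast_toNat (h1 i).le]
        exact_mod_cast h1 i)
      (fun i => w0_nonneg hkR (σ i)) (Real.sqrt_nonneg _) (by positivity) (by positivity)
      (by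
        rw [map_univ_comp σ (mV (k : ℝ) (fun l => (W l : ℝ)) e 15 15 (fun _ => 6))]
        exact PEd_u0 hkR (fun l => Nat.cast_nonneg _) hWR hPE (Real.sqrt_nonneg _) ht2)
      (by
        rw [map_univ_comp σ (w0 (24 * (k : ℝ)) (δ + 1) e)]
        have h3 := PEd_w0 (w := 24 * (k : ℝ)) (by positivity) (δ + 1) e
        have h4 : 2 * (24 * (k : ℝ)) = 48 * (k : ℝ) := by ring
        rw [h4] at h3 ⊢
        exact h3)
      (fun i => mV_u0_lt hkR hWkR (Real.sqrt_nonneg _) ht2 (σ i)) (fun i => w0_lt hkR (σ i))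
      h hI hFK hsK hy' hP
    unfold interW
    rw [sub_pos, hH]
    simp only [hcast]
    exact h2
  refine ⟨(TT (k : ℤ) Wz e σ).toAddMonoidHom, TT_injective hk' _ _ _,
    ⟨TT (k : ℤ) Wz e σ u0, ⟨u0, rfl⟩, hL0, ?_⟩, ?_⟩
  · rw [selfL_eq_qf hd]
    exact_mod_cast hq0'
  rintro M ⟨u', hu'⟩ h0 hself
  have hM : M ∈ VV (k : ℤ) Wz e σ := ⟨u', hu'⟩
  have hq := hcone hself
  have hMi : ∀ i : Fin r, 0 < M i.succ := by
    obtain ⟨u, rfl⟩ := hM
    exact TT_pos hk hW hW1 h0 hq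
  refine ⟨hMi, fun x hx => ⟨fun P hP => ?_, fun n hn y hy => ?_⟩⟩
  · -- `j M - L₀` is in the positive cone for large `j`
    set L₀ := TT (k : ℤ) Wz e σ u0 with hL₀
    have hL₀V : L₀ ∈ VV (k : ℤ) Wz e σ := ⟨u0, rfl⟩
    set B := bf (e + 1) M L₀ with hB
    obtain ⟨t, ht1, ht2⟩ : ∃ t : ℤ, 2 * |B| < t ∧ L₀ 0 < t := ⟨2 * |B| + L₀ 0 + 1, by omega, by
      have := abs_nonneg B
      omega⟩
    have ht0 : 0 < t := by
      have := abs_nonneg B
      omega
    have hmem : t • M - L₀ ∈ VV (k : ℤ) Wz e σ :=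
      Submodule.sub_mem _ (Submodule.smul_mem _ _ hM) hL₀V
    have h1 : 0 < (t • M - L₀) 0 := by
      simp only [Pi.sub_apply, Pi.smul_apply, smul_eq_mul]
      nlinarith
    have h2 : 0 < qf (e + 1) (t • M - L₀) := by
      rw [qf_sub]
      have h3 : B ≤ |B| := le_abs_self B
      have h4 : t * t ≤ t ^ 2 * qf (e + 1) M := by nlinarith
      have h5 : 0 < t * (t - 2 * B) := mul_pos ht0 (by omega)
      have h6 : t ^ 2 * qf (e + 1) M - 2 * t * B = t ^ 2 * qf (e + 1) M - t * t +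
        t * (t - 2 * B) := by ring
      rw [← hB]
      linarith
    have h3 := hnef _ hmem h1 h2 x hx P hP
    rw [interL_sub] at h3
    have h4 := hpos0 x hx P hP
    have h5 : 0 < (t : ℝ) * interL M x P := by linarith
    exact (mul_pos_iff_of_pos_left (by exact_mod_cast ht0)).1 h5
  · obtain ⟨u, rfl⟩ := hM
    rw [seshadriL_eq h0.le fun i => (hMi i).le, selfL_eq h0.le fun i => (hMi i).le]
    exact seshadriW_eq h hI hFK hsK (nice_TT hk hW hW1 hPE h0 hq) (toNat_sq h0 hMi hq) hd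
      (fun i => by
        have h1 := hMi i
        rw [hWz] at h1
        omega) hn (hy.aff h hLK)

end Pool.Agent.Lib.MP_ed661f_ag.W
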